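import Mathlib

set_option autoImplicit false

namespace Pool.Agent.Helper425_zc

/-- value of the affine map `x ↦ f.1 x + f.2` -/
def ev (f : ℚ × ℚ) (x : ℚ) : ℚ := f.1 * x + f.2

/-- composition of affine maps -/
def cmp (f g : ℚ × ℚ) : ℚ × ℚ := (f.1 * g.1, f.1 * g.2 + f.2)

theorem ev_cmp (f g : ℚ × ℚ) (x : ℚ) : ev (cmp f g) x = ev f (ev g x) := by
  simp only [ev, cmp]; ring

/-- semigroup of affine maps generated by `G` -/
inductive Sg (G : Finset (ℚ × ℚ)) : ℚ × ℚ → Prop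
  | base (f : ℚ × ℚ) : f ∈ G → Sg G f
  | mul (f g : ℚ × ℚ) : Sg G f → Sg G g → Sg G (cmp f g)

/-- points reachable from `x` -/
inductive Rch (G : Finset (ℚ × ℚ)) (x : ℚ) : ℚ → Prop
  | base : Rch G x x
  | step (f : ℚ × ℚ) (y : ℚ) : f ∈ G → Rch G x y → Rch G x (ev f y)

variable {G : Finset (ℚ × ℚ)}

theorem Sg.rch {s : ℚ × ℚ} (hs : Sg G s) : ∀ {x y : ℚ}, Rch G x y → Rch G x (ev s y) := by
  induction hs with
  | base f hf => intro x y h; exact Rch.step f y hf h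
  | mul f g _ _ ihf ihg => intro x y h; rw [ev_cmp]; exact ihf (ihg h)

theorem Rch.trans {x y z : ℚ} (h1 : Rch G x y) (h2 : Rch G y z) : Rch G x z := by
  induction h2 with
  | base => exact h1
  | step f y hf _ ih => exact Rch.step f y hf ih

/-- translations in the semigroup -/
def TT (G : Finset (ℚ × ℚ)) (t : ℚ) : Prop := Sg G (1, t)

theorem TT.add {a b : ℚ} (ha : TT G a) (hb : TT G b) : TT G (a + b) := by
  have := Sg.mul _ _ ha hb
  have e : cmp (1, a) (1, b) = (1, a + b) := by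
    simp only [cmp]; ext <;> ring
  rw [e] at this; exact this

theorem TT.nsmul {a : ℚ} (ha : TT G a) : ∀ n : ℕ, 1 ≤ n → TT G (n * a) := by
  intro n hn
  induction n, hn using Nat.le_induction with
  | base => simpa using ha
  | succ n _ ih =>
    have := ih.add ha
    have e : ((n + 1 : ℕ) : ℚ) * a = n * a + a := by push_cast; ring
    rw [e]; exact this

theorem TT.rch {t x y : ℚ} (ht : TT G t) (h : Rch G x y) : Rch G x (y + t) := by
  have := Sg.rch ht h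
  have e : ev (1, t) y = y + t := by simp only [ev]; ring
  rw [e] at this; exact this

theorem Sg.ne (hm : ∀ f ∈ G, f.1 ≠ 0) {s : ℚ × ℚ} (hs : Sg G s) : s.1 ≠ 0 := by
  induction hs with
  | base f hf => exact hm f hf
  | mul f g _ _ i1 i2 => exact mul_ne_zero i1 i2

theorem Sg.inv (hinv : ∀ f ∈ G, ∃ s, Sg G s ∧ f.1 * s.1 = 1) {s : ℚ × ℚ} (hs : Sg G s) :
    ∃ s', Sg G s' ∧ s.1 * s'.1 = 1 := by
  induction hs with
  | base f hf => exact hinv f hf
  | mul f g _ _ i1 i2 =>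
    obtain ⟨f', hf', e1⟩ := i1
    obtain ⟨g', hg', e2⟩ := i2
    refine ⟨cmp g' f', Sg.mul _ _ hg' hf', ?_⟩
    simp only [cmp]
    linear_combination (g.1 * g'.1) * e1 + e2

theorem exists_TT_ne (hinv : ∀ f ∈ G, ∃ s, Sg G s ∧ f.1 * s.1 = 1)
    (hnc : ∃ f ∈ G, ∃ g ∈ G, cmp f g ≠ cmp g f) : ∃ t, TT G t ∧ t ≠ 0 := by
  obtain ⟨f, hf, g, hg, hne⟩ := hnc
  have h1 : Sg G (cmp f g) := Sg.mul _ _ (Sg.base f hf) (Sg.base g hg)
  have h2 : Sg G (cmp g f) := Sg.mul _ _ (Sg.base g hg) (Sg.base f hf)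
  obtain ⟨s, hs, e⟩ := h1.inv hinv
  have e' : (cmp g f).1 * s.1 = 1 := by
    rw [← e]; simp only [cmp]; ring
  have k1 : Sg G (cmp (cmp f g) s) := Sg.mul _ _ h1 hs
  have k2 : Sg G (cmp (cmp g f) s) := Sg.mul _ _ h2 hs
  have q1 : cmp (cmp f g) s = (1, (cmp f g).1 * s.2 + (cmp f g).2) := by
    rw [cmp, e]
  have q2 : cmp (cmp g f) s = (1, (cmp g f).1 * s.2 + (cmp g f).2) := by
    rw [cmp, e']
  rw [q1] at k1
  rw [q2] at k2
  by_cases h : (cmp f g).1 * s.2 + (cmp f g).2 = 0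
  · refine ⟨_, k2, ?_⟩
    intro h'
    apply hne
    have h3 : (cmp f g).1 = (cmp g f).1 := by simp only [cmp]; ring
    apply Prod.ext h3
    rw [h3] at h
    linarith
  · exact ⟨_, k1, h⟩

/-- conjugated translation -/
theorem TT.conj {s s' : ℚ × ℚ} (hs : Sg G s) (hs' : Sg G s') (e : s.1 * s'.1 = 1) {t : ℚ}
    (ht : TT G t) : TT G ((s.1 * s'.2 + s.2) + s.1 * t) := by
  have h := Sg.mul _ _ hs (Sg.mul _ _ ht hs')
  have e2 : cmp s (cmp (1, t) s') = (1, (s.1 * s'.2 + s.2) + s.1 * t) := by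
    simp only [cmp]; ext
    · simp only []; rw [one_mul, e]
    · simp only []; ring
  rw [e2] at h; exact h

theorem TT.conj0 {s s' : ℚ × ℚ} (hs : Sg G s) (hs' : Sg G s') (e : s.1 * s'.1 = 1) :
    TT G (s.1 * s'.2 + s.2) := by
  have h := Sg.mul _ _ hs hs'
  have e2 : cmp s s' = (1, s.1 * s'.2 + s.2) := by
    simp only [cmp]; ext
    · simp only []; rw [e]
    · rfl
  rw [e2] at h; exact h

/-! ### `A`-integers -/

/-- all prime factors lie in `A` -/
def Smooth (A : Finset ℕ) (n : ℕ) : Prop := n ≠ 0 ∧ ∀ p, p.Prime → p ∣ n → p ∈ A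

theorem Smooth.one {A : Finset ℕ} : Smooth A 1 :=
  ⟨one_ne_zero, fun p hp h => absurd (Nat.dvd_one.1 h) hp.one_lt.ne'⟩

theorem Smooth.mul {A : Finset ℕ} {m n : ℕ} (hm : Smooth A m) (hn : Smooth A n) :
    Smooth A (m * n) :=
  ⟨mul_ne_zero hm.1 hn.1, fun p hp h => ((hp.dvd_mul).1 h).elim (hm.2 p hp) (hn.2 p hp)⟩

theorem Smooth.pow {A : Finset ℕ} {m : ℕ} (hm : Smooth A m) (k : ℕ) : Smooth A (m ^ k) := by
  induction k with
  | zero => simpa using Smooth.one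
  | succ k ih => rw [pow_succ]; exact ih.mul hm

theorem Smooth.of_dvd {A : Finset ℕ} {m n : ℕ} (hn : Smooth A n) (h : m ∣ n) : Smooth A m :=
  ⟨fun h0 => hn.1 (by rw [h0] at h; exact Nat.eq_zero_of_zero_dvd h),
   fun p hp hpm => hn.2 p hp (hpm.trans h)⟩

theorem Smooth.coprime {A : Finset ℕ} {m E : ℕ} (hm : Smooth A m) (hE : ∀ p ∈ A, ¬ p ∣ E) :
    Nat.Coprime m E := by
  by_contra h
  obtain ⟨p, hp, h1, h2⟩ := Nat.Prime.not_coprime_iff_dvd.1 h
  exact hE p (hm.2 p hp h1) h2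

/-- decomposition into a part free of `A` and a part smooth over `A` -/
theorem exists_split (A : Finset ℕ) (n : ℕ) (hn : n ≠ 0) :
    ∃ E w : ℕ, n = E * w ∧ Smooth A w ∧ ∀ p, p.Prime → p ∈ A → ¬ p ∣ E := by
  induction n using Nat.strong_induction_on with
  | _ n ih =>
    by_cases h : ∃ p, p.Prime ∧ p ∈ A ∧ p ∣ n
    · obtain ⟨p, hp, hpA, m, hm⟩ := h
      have hm0 : m ≠ 0 := by rintro rfl; exact hn (by rw [hm, mul_zero])
      have hlt : m < n := by
        rw [hm]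
        calc m = 1 * m := (one_mul m).symm
          _ < p * m := Nat.mul_lt_mul_of_pos_right hp.one_lt (Nat.pos_of_ne_zero hm0)
      obtain ⟨E, w, e, hw, hE⟩ := ih m hlt hm0
      refine ⟨E, p * w, by rw [hm, e]; ring, ?_, hE⟩
      refine Smooth.mul ⟨hp.ne_zero, ?_⟩ hw
      intro q hq hqp
      rw [(Nat.prime_dvd_prime_iff_eq hq hp).1 hqp]; exact hpA
    · push Not at h
      exact ⟨n, 1, by ring, Smooth.one, fun p hp hA hd => h p hp hA hd⟩

/-- rationals whose denominator is smooth over `A` -/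
def RR (A : Finset ℕ) : Subring ℚ where
  carrier := {x | ∃ n : ℕ, Smooth A n ∧ ∃ z : ℤ, (n : ℚ) * x = z}
  mul_mem' := by
    rintro a b ⟨m, hm, y, hy⟩ ⟨n, hn, z, hz⟩
    refine ⟨m * n, hm.mul hn, y * z, ?_⟩
    push_cast
    linear_combination (n * b) * hy + y * hz
  one_mem' := ⟨1, Smooth.one, 1, by simp⟩
  add_mem' := by
    rintro a b ⟨m, hm, y, hy⟩ ⟨n, hn, z, hz⟩
    refine ⟨m * n, hm.mul hn, y * n + z * m, ?_⟩
    push_cast
    linear_combination (n : ℚ) * hy + (m : ℚ) * hz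
  zero_mem' := ⟨1, Smooth.one, 0, by simp⟩
  neg_mem' := by
    rintro a ⟨m, hm, y, hy⟩
    refine ⟨m, hm, -y, ?_⟩
    push_cast
    linear_combination - hy

theorem mem_RR {A : Finset ℕ} {x : ℚ} :
    x ∈ RR A ↔ ∃ n : ℕ, Smooth A n ∧ ∃ z : ℤ, (n : ℚ) * x = z := Iff.rfl

theorem int_mem_RR {A : Finset ℕ} (z : ℤ) : (z : ℚ) ∈ RR A := ⟨1, Smooth.one, z, by simp⟩

theorem inv_mem_RR {A : Finset ℕ} {n : ℕ} (hn : Smooth A n) : ((n : ℚ))⁻¹ ∈ RR A := by
  refine ⟨n, hn, 1, ?_⟩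
  have : (n : ℚ) ≠ 0 := by exact_mod_cast hn.1
  rw [mul_inv_cancel₀ this]; simp

/-- Euler: powers of units are close to one. -/
theorem exists_pow_near {A : Finset ℕ} {m : ℚ} (hn : Smooth A m.num.natAbs)
    (hd : Smooth A m.den) (hA : ∀ p ∈ A, p.Prime) (ρ : ℚ) :
    ∃ n0 : ℕ, 1 ≤ n0 ∧ ∀ k : ℕ, (m ^ (n0 * k) - 1) * ρ ∈ RR A := by
  obtain ⟨E, w, hEw, hw, hE⟩ := exists_split A ρ.den ρ.den_nz
  have hE0 : E ≠ 0 := by
    rintro rfl
    rw [zero_mul] at hEw
    exact ρ.den_nz hEw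
  have hEpos : 0 < E := Nat.pos_of_ne_zero hE0
  refine ⟨E.totient, Nat.totient_pos.2 hEpos, fun k => ?_⟩
  have hE' : ∀ p ∈ A, ¬ p ∣ E := fun p hp => hE p (hA p hp) hp
  have c1 : Nat.Coprime m.den E := hd.coprime hE'
  have c2 : Nat.Coprime m.num.natAbs E := hn.coprime hE'
  have d1 : (E : ℤ) ∣ (m.den : ℤ) ^ (E.totient * k) - 1 := by
    have h := Nat.ModEq.pow_totient c1
    have h2 := (h.pow k)
    rw [← pow_mul, one_pow] at h2
    have h3 := (Nat.modEq_iff_dvd.1 h2.symm)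
    push_cast at h3
    exact h3
  have d2 : (E : ℤ) ∣ (m.num) ^ (E.totient * k) - 1 := by
    have hu : IsCoprime m.num (E : ℤ) := by
      rw [Int.isCoprime_iff_gcd_eq_one]
      simpa [Int.gcd] using c2
    have h2 : (m.num : ZMod E) ^ (E.totient) = 1 := by
      have hun : IsUnit (m.num : ZMod E) := by
        obtain ⟨a, b, hab⟩ := hu
        have : (m.num : ZMod E) * (a : ZMod E) = 1 := by
          have h4 : ((a * m.num + b * (E : ℤ) : ℤ) : ZMod E) = ((1 : ℤ) : ZMod E) := by rw [hab]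
          push_cast at h4
          simp at h4
          rw [mul_comm]; exact h4
        exact IsUnit.of_mul_eq_one _ this
      obtain ⟨u, hu'⟩ := hun
      rw [← hu', ← Units.val_pow_eq_pow_val, ZMod.pow_totient, Units.val_one]
    have h3 : (((m.num) ^ (E.totient * k) - 1 : ℤ) : ZMod E) = 0 := by
      push_cast
      rw [pow_mul, h2, one_pow, sub_self]
    exact (ZMod.intCast_zmod_eq_zero_iff_dvd _ _).1 h3
  have d3 : (E : ℤ) ∣ (m.num) ^ (E.totient * k) - (m.den : ℤ) ^ (E.totient * k) := by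
    have := dvd_sub d2 d1
    simpa using this
  obtain ⟨j, hj⟩ := d3
  set N := E.totient * k with hN
  have hden : (m.den : ℚ) ≠ 0 := by exact_mod_cast m.den_nz
  have hm : m = m.num / m.den := (Rat.num_div_den m).symm
  have hρ : ρ = ρ.num / ρ.den := (Rat.num_div_den ρ).symm
  have hEq : (E : ℚ) ≠ 0 := by exact_mod_cast hE0
  have hwq : (w : ℚ) ≠ 0 := by exact_mod_cast hw.1
  refine ⟨m.den ^ N * w, (hd.pow N).mul hw, j * ρ.num, ?_⟩
  have hjq : (m.num : ℚ) ^ N - (m.den : ℚ) ^ N = E * j := by exact_mod_cast hj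
  have hmp : m ^ N * (m.den : ℚ) ^ N = (m.num : ℚ) ^ N := by
    rw [← mul_pow]
    congr 1
    exact Rat.mul_den_eq_num m
  have hρ2 : ρ * (E * w) = ρ.num := by
    have := Rat.mul_den_eq_num ρ
    rw [hEw] at this
    push_cast at this
    exact this
  push_cast
  apply mul_left_cancel₀ hEq
  linear_combination (w * ρ * E) * hmp + (ρ * w * E) * hjq + E * j * hρ2

end Pool.Agent.Helper425_zc
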