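import Pool.Agent.Helper425_zc.Aff1

set_option autoImplicit false

namespace Pool.Agent.Helper425_zc

variable {G : Finset (ℚ × ℚ)}

/-! ### two-sided translations -/

theorem TT.neg_of {a b : ℚ} (ha : TT G a) (hb : TT G b) (hap : 0 < a) (hbn : b < 0) :
    ∀ t, TT G t → TT G (-t) := by
  -- first: `-a' ∈ T` for positive `a'` and for negative; use a rational dependence
  have key : ∀ u v : ℚ, TT G u → TT G v → 0 < u → v < 0 → TT G (-u) ∧ TT G (-v) := by
    intro u v hu hv hup hvn
    -- k u + l v = 0 with k l > 0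
    have hunum : 0 < u.num := Rat.num_pos.2 hup
    have hvnum : v.num < 0 := Rat.num_neg.2 hvn
    obtain ⟨k1, hk1⟩ : ∃ k1 : ℕ, (k1 : ℤ) = -v.num := ⟨(-v.num).toNat, by omega⟩
    obtain ⟨l1, hl1⟩ : ∃ l1 : ℕ, (l1 : ℤ) = u.num := ⟨u.num.toNat, by omega⟩
    obtain ⟨k, hk⟩ : ∃ k : ℕ, k = u.den * k1 := ⟨_, rfl⟩
    obtain ⟨l, hl⟩ : ∃ l : ℕ, l = v.den * l1 := ⟨_, rfl⟩
    have hkpos : 1 ≤ k := by rw [hk]; exact Nat.mul_pos u.den_pos (by omega)
    have hlpos : 1 ≤ l := by rw [hl]; exact Nat.mul_pos v.den_pos (by omega)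
    have e1 : (l1 : ℚ) = u.num := by exact_mod_cast hl1
    have e2 : (k1 : ℚ) = - v.num := by exact_mod_cast hk1
    have hrel : (k : ℚ) * u + (l : ℚ) * v = 0 := by
      have hu' := Rat.mul_den_eq_num u
      have hv' := Rat.mul_den_eq_num v
      rw [hk, hl]
      push_cast
      rw [e1, e2]
      linear_combination (- (v.num : ℚ)) * hu' + (u.num : ℚ) * hv'
    have h0 : TT G (k * u + l * v) := (hu.nsmul k hkpos).add (hv.nsmul l hlpos)
    constructor
    · by_cases h : k = 1
      · have : -u = l * v := by rw [h] at hrel; push_cast at hrel; linarith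
        rw [this]; exact hv.nsmul l hlpos
      · have : -u = ((k - 1 : ℕ) : ℚ) * u + l * v := by
          rw [Nat.cast_sub hkpos]; push_cast; linarith
        rw [this]
        exact (hu.nsmul (k - 1) (by omega)).add (hv.nsmul l hlpos)
    · by_cases h : l = 1
      · have : -v = k * u := by rw [h] at hrel; push_cast at hrel; linarith
        rw [this]; exact hu.nsmul k hkpos
      · have : -v = k * u + ((l - 1 : ℕ) : ℚ) * v := by
          rw [Nat.cast_sub hlpos]; push_cast; linarith
        rw [this]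
        exact (hu.nsmul k hkpos).add (hv.nsmul (l - 1) (by omega))
  intro t ht
  rcases lt_trichotomy t 0 with h | h | h
  · exact (key a t ha ht hap h).2
  · rw [h, neg_zero, ← h]; exact ht
  · exact (key t b ht hb h hbn).1

theorem TT.zsmul (hneg : ∀ t, TT G t → TT G (-t)) {a : ℚ} (ha : TT G a) (z : ℤ) :
    TT G (z * a) := by
  have h0 : TT G 0 := by
    have := ha.add (hneg a ha); simpa using this
  rcases lt_trichotomy z 0 with h | h | h
  · have h1 := (hneg a ha).nsmul (-z).toNat (by omega)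
    have e : (((-z).toNat : ℕ) : ℚ) * (-a) = z * a := by
      have : (((-z).toNat : ℕ) : ℤ) = -z := by omega
      have h2 : (((-z).toNat : ℕ) : ℚ) = -(z : ℚ) := by exact_mod_cast this
      rw [h2]; ring
    rw [e] at h1; exact h1
  · rw [h]; simpa using h0
  · have h1 := ha.nsmul z.toNat (by omega)
    have e : ((z.toNat : ℕ) : ℚ) * a = z * a := by
      have : ((z.toNat : ℕ) : ℤ) = z := by omega
      have h2 : ((z.toNat : ℕ) : ℚ) = (z : ℚ) := by exact_mod_cast this
      rw [h2]
    rw [e] at h1; exact h1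

/-- In the two-sided case the translations contain `t' * RR A`. -/
theorem two_sided {A : Finset ℕ} (hinv : ∀ f ∈ G, ∃ s, Sg G s ∧ f.1 * s.1 = 1)
    {a b : ℚ} (ha : TT G a) (hb : TT G b) (hap : 0 < a) (hbn : b < 0)
    (hA : ∀ p ∈ A, p.Prime → ∃ s, Sg G s ∧ p ∣ s.1.den) :
    ∀ y ∈ RR A, TT G (a * y) := by
  have hneg := TT.neg_of ha hb hap hbn
  have hmul : ∀ s, Sg G s → ∀ t, TT G t → TT G (s.1 * t) := by
    intro s hs t ht
    obtain ⟨s', hs', e⟩ := hs.inv hinv
    have h1 := TT.conj hs hs' e ht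
    have h2 := hneg _ (TT.conj0 hs hs' e)
    have := h1.add h2
    have e3 : s.1 * s'.2 + s.2 + s.1 * t + -(s.1 * s'.2 + s.2) = s.1 * t := by ring
    rw [e3] at this; exact this
  have hdiv : ∀ p ∈ A, p.Prime → ∀ t, TT G t → TT G (t / p) := by
    intro p hp hpp t ht
    obtain ⟨s, hs, hd⟩ := hA p hp hpp
    have hcop : IsCoprime s.1.num (s.1.den : ℤ) := by
      rw [Int.isCoprime_iff_gcd_eq_one]
      have := s.1.reduced
      simpa [Int.gcd, Nat.Coprime] using this
    obtain ⟨u, w, huw⟩ := hcop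
    obtain ⟨j, hj⟩ := hd
    have h1 := TT.zsmul hneg (hmul s hs t ht) u
    have h2 := TT.zsmul hneg ht w
    have h3 := TT.zsmul hneg (h1.add h2) j
    have hden : (s.1.den : ℚ) ≠ 0 := by exact_mod_cast s.1.den_nz
    have hpq : (p : ℚ) ≠ 0 := by exact_mod_cast hpp.ne_zero
    have e1 := Rat.mul_den_eq_num s.1
    have e : (j : ℚ) * (u * (s.1 * t) + w * t) = t / p := by
      rw [eq_div_iff hpq]
      have e2 : (u : ℚ) * s.1.num + w * s.1.den = 1 := by exact_mod_cast huw
      have e3 : (s.1.den : ℚ) = p * j := by rw [hj]; push_cast; ring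
      apply mul_left_cancel₀ hden
      linear_combination (p * j * u * t) * e1 + (p * j * t) * e2 - t * e3
    have h3' : TT G ((j : ℚ) * (u * (s.1 * t) + w * t)) := by exact_mod_cast h3
    rw [e] at h3'; exact h3'
  have hdivn : ∀ n : ℕ, Smooth A n → ∀ t, TT G t → TT G (t / n) := by
    intro n
    induction n using Nat.strong_induction_on with
    | _ n ih =>
      intro hn t ht
      by_cases h1 : n = 1
      · rw [h1]; simpa using ht
      · obtain ⟨p, hp, hpn⟩ := Nat.exists_prime_and_dvd h1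
        obtain ⟨m, hm⟩ := hpn
        have hpA := hn.2 p hp ⟨m, hm⟩
        have hm0 : m ≠ 0 := by rintro rfl; exact hn.1 (by rw [hm, mul_zero])
        have hlt : m < n := by
          rw [hm]
          calc m = 1 * m := (one_mul m).symm
            _ < p * m := Nat.mul_lt_mul_of_pos_right hp.one_lt (Nat.pos_of_ne_zero hm0)
        have h2 := ih m hlt (hn.of_dvd ⟨p, by rw [hm]; ring⟩) (t / p) (hdiv p hpA hp t ht)
        have e : t / p / m = t / n := by
          rw [hm]; push_cast; rw [div_div]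
        rw [e] at h2; exact h2
  rintro y ⟨n, hn, z, hz⟩
  have h1 := TT.zsmul hneg (hdivn n hn a ha) z
  have hnq : (n : ℚ) ≠ 0 := by exact_mod_cast hn.1
  have e : (z : ℚ) * (a / n) = a * y := by
    rw [← hz]; field_simp
  rw [e] at h1; exact h1

/-! ### one-sided translations -/

theorem mult_pos (hm : ∀ f ∈ G, f.1 ≠ 0) (hinv : ∀ f ∈ G, ∃ s, Sg G s ∧ f.1 * s.1 = 1)
    (hpos : ∀ t, TT G t → 0 ≤ t) {t0 : ℚ} (ht0 : TT G t0) (ht0p : 0 < t0)
    {s : ℚ × ℚ} (hs : Sg G s) : 0 < s.1 := by
  by_contra hneg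
  have hlt : s.1 < 0 := lt_of_le_of_ne (not_lt.1 hneg) (hs.ne hm)
  obtain ⟨s', hs', e⟩ := hs.inv hinv
  obtain ⟨k, hk⟩ := exists_nat_gt ((s.1 * s'.2 + s.2) / (-(s.1 * t0)))
  have hden : 0 < -(s.1 * t0) := by nlinarith
  rw [div_lt_iff₀ hden] at hk
  have h1 := hpos _ (TT.conj hs hs' e (ht0.nsmul (k + 1) (by omega)))
  push_cast at h1
  nlinarith

/-- uniform threshold at one prime -/
theorem one_prime (hm : ∀ f ∈ G, f.1 ≠ 0) (hinv : ∀ f ∈ G, ∃ s, Sg G s ∧ f.1 * s.1 = 1)
    (hpos : ∀ t, TT G t → 0 ≤ t) {t0 : ℚ} (ht0 : TT G t0) (ht0p : 0 < t0)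
    {p : ℕ} {s : ℚ × ℚ} (hs : Sg G s) (hs1 : s.1 < 1) (hp : p ∣ s.1.den) :
    ∃ c C : ℚ, 0 < c ∧ ∀ k : ℕ, ∀ x : ℚ, (∃ z : ℤ, (p : ℚ) ^ k * x = z) → C ≤ x →
      TT G (c * x) := by
  have hs0 : 0 < s.1 := mult_pos hm hinv hpos ht0 ht0p hs
  obtain ⟨s', hs', e⟩ := hs.inv hinv
  have hc0 := hpos _ (TT.conj0 hs hs' e)
  set c : ℚ := (s.1 * s'.2 + s.2) + t0 with hc
  have hcp : 0 < c := by rw [hc]; linarith
  -- `s'' = s' * (1, t0)`
  have hs'' : Sg G (cmp s' (1, t0)) := Sg.mul _ _ hs' ht0
  have e'' : s.1 * (cmp s' (1, t0)).1 = 1 := by simp only [cmp]; rw [mul_one]; exact e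
  have hcc : s.1 * (cmp s' (1, t0)).2 + s.2 = c := by
    simp only [cmp, hc]; linear_combination t0 * e
  have hstep : ∀ t, TT G t → TT G (c + s.1 * t) := by
    intro t ht
    have := TT.conj hs hs'' e'' ht
    rw [hcc] at this; exact this
  have hcT : TT G c := by
    have := TT.conj0 hs hs'' e''
    rw [hcc] at this; exact this
  -- a / b
  set a : ℤ := s.1.num with ha
  set b : ℕ := s.1.den with hb
  have hbpos : 0 < b := s.1.den_pos
  have hapos : 0 < a := Rat.num_pos.2 hs0
  have hab : a < b := by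
    have h1 := Rat.mul_den_eq_num s.1
    have h2 : (a : ℚ) < b := by
      rw [ha, hb, ← h1]
      have : (0 : ℚ) < s.1.den := by exact_mod_cast s.1.den_pos
      nlinarith
    exact_mod_cast h2
  have hbq : (0 : ℚ) < b := by exact_mod_cast hbpos
  have haq : (0 : ℚ) < a := by exact_mod_cast hapos
  have habq : (0 : ℚ) < b - a := by
    have : (a : ℚ) < b := by exact_mod_cast hab
    linarith
  have hsab : s.1 * b = a := Rat.mul_den_eq_num s.1
  set C : ℚ := a * b / (b - a) with hC
  have hCpos : 0 < C := by positivity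
  have hCge : (C - a) * b = C * a := by
    rw [hC]; field_simp; ring
  have hcop : IsCoprime a (b : ℤ) := by
    rw [Int.isCoprime_iff_gcd_eq_one]
    have := s.1.reduced
    simpa [Int.gcd, Nat.Coprime] using this
  have main : ∀ K : ℕ, ∀ x : ℚ, (∃ z : ℤ, (b : ℚ) ^ K * x = z) → C ≤ x → TT G (c * x) := by
    intro K
    induction K with
    | zero =>
      rintro x ⟨z, hz⟩ hx
      rw [pow_zero, one_mul] at hz
      have hz0 : (0 : ℚ) < z := by rw [← hz]; linarith
      have hz1 : 0 < z := by exact_mod_cast hz0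
      have := hcT.nsmul z.toNat (by omega)
      have e1 : ((z.toNat : ℕ) : ℚ) = z := by
        have : ((z.toNat : ℕ) : ℤ) = z := by omega
        exact_mod_cast this
      rw [e1] at this
      rw [hz, mul_comm]; exact this
    | succ K ih =>
      rintro x ⟨z, hz⟩ hx
      -- choose d with a ∣ z - b^(K+1) d, 1 ≤ d ≤ a
      have hcopK : IsCoprime a ((b : ℤ) ^ (K + 1)) := hcop.pow_right
      obtain ⟨u, w, huw⟩ := hcopK
      -- w * b^(K+1) ≡ 1 mod a
      set d : ℤ := (w * z - 1) % a + 1 with hd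
      have hd1 : 1 ≤ d := by
        have := Int.emod_nonneg (w * z - 1) hapos.ne'
        omega
      have hda : d ≤ a := by
        have := Int.emod_lt_of_pos (w * z - 1) hapos
        omega
      have hdiv : a ∣ z - (b : ℤ) ^ (K + 1) * d := by
        have h1 : a ∣ w * z - d := by
          have := Int.emod_add_mul_ediv (w * z - 1) a
          exact ⟨(w * z - 1) / a, by rw [hd]; linarith⟩
        obtain ⟨j, hj⟩ := h1
        refine ⟨u * z + (b : ℤ) ^ (K + 1) * j, ?_⟩
        linear_combination (- z) * huw + (b : ℤ) ^ (K + 1) * hj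
      obtain ⟨j, hj⟩ := hdiv
      set x' : ℚ := (x - d) * b / a with hx'
      have hx'a : x' * a = (x - d) * b := by rw [hx']; field_simp
      have h1 : ∃ z' : ℤ, (b : ℚ) ^ K * x' = z' := by
        refine ⟨j, ?_⟩
        have hjq : (z : ℚ) - (b : ℚ) ^ (K + 1) * d = a * j := by exact_mod_cast hj
        apply mul_right_cancel₀ haq.ne'
        rw [pow_succ] at hz hjq
        linear_combination (b : ℚ) ^ K * hx'a + hz + hjq
      have hdq : (d : ℚ) ≤ a := by exact_mod_cast hda
      have h2 : C ≤ x' := by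
        rw [hx', le_div_iff₀ haq]
        have : (C - a) * b ≤ (x - d) * b := by
          apply mul_le_mul_of_nonneg_right _ hbq.le
          linarith
        linarith
      have h3 := hstep _ (ih x' h1 h2)
      have e3 : c + s.1 * (c * x') = c * (x - d + 1) := by
        have : s.1 * x' = x - d := by
          apply mul_right_cancel₀ haq.ne'
          apply mul_right_cancel₀ hbq.ne'
          linear_combination (x' * a) * hsab + a * hx'a
        linear_combination c * this
      rw [e3] at h3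
      by_cases hd2 : d = 1
      · have : c * (x - (d : ℚ) + 1) = c * x := by rw [hd2]; push_cast; ring
        rw [this] at h3; exact h3
      · have h4 := hcT.nsmul (d - 1).toNat (by omega)
        have e4 : (((d - 1).toNat : ℕ) : ℚ) = d - 1 := by
          have : (((d - 1).toNat : ℕ) : ℤ) = d - 1 := by omega
          exact_mod_cast this
        rw [e4] at h4
        have := h3.add h4
        have e5 : c * (x - (d : ℚ) + 1) + (d - 1) * c = c * x := by ring
        rw [e5] at this; exact this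
  refine ⟨c, C, hcp, ?_⟩
  intro k x hx hxC
  obtain ⟨z, hz⟩ := hx
  obtain ⟨q, hq⟩ := hp
  refine main k x ⟨(q : ℤ) ^ k * z, ?_⟩ hxC
  rw [hq]
  push_cast
  rw [mul_pow]
  linear_combination (q : ℚ) ^ k * hz

end Pool.Agent.Helper425_zc
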