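import Pool.Agent.Helper425_zc.Aff2

set_option autoImplicit false

namespace Pool.Agent.Helper425_zc

variable {G : Finset (ℚ × ℚ)}

theorem common_mult {x y : ℚ} (hx : 0 < x) (hy : 0 < y) :
    ∃ k l : ℕ, 0 < k ∧ 0 < l ∧ (k : ℚ) * x = l * y := by
  have hxn : 0 < x.num := Rat.num_pos.2 hx
  have hyn : 0 < y.num := Rat.num_pos.2 hy
  obtain ⟨a, ha⟩ : ∃ a : ℕ, (a : ℤ) = x.num := ⟨x.num.toNat, by omega⟩
  obtain ⟨b, hb⟩ : ∃ b : ℕ, (b : ℤ) = y.num := ⟨y.num.toNat, by omega⟩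
  have e1 := Rat.mul_den_eq_num x
  have e2 := Rat.mul_den_eq_num y
  have ha' : (a : ℚ) = x.num := by exact_mod_cast ha
  have hb' : (b : ℚ) = y.num := by exact_mod_cast hb
  refine ⟨x.den * b, y.den * a, Nat.mul_pos x.den_pos (by omega),
    Nat.mul_pos y.den_pos (by omega), ?_⟩
  push_cast
  rw [ha', hb']
  linear_combination (y.num : ℚ) * e1 - (x.num : ℚ) * e2

/-- uniform threshold for all primes of a finite set -/
theorem one_sided (hm : ∀ f ∈ G, f.1 ≠ 0) (hinv : ∀ f ∈ G, ∃ s, Sg G s ∧ f.1 * s.1 = 1)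
    (hpos : ∀ t, TT G t → 0 ≤ t) {t0 : ℚ} (ht0 : TT G t0) (ht0p : 0 < t0)
    (A : Finset ℕ)
    (hA : ∀ p ∈ A, p.Prime ∧ ∃ s, Sg G s ∧ s.1 < 1 ∧ p ∣ s.1.den) :
    ∃ t R : ℚ, 0 < t ∧ ∀ y ∈ RR A, R ≤ t * y → TT G (t * y) := by
  induction A using Finset.induction_on with
  | empty =>
    refine ⟨t0, t0, ht0p, ?_⟩
    rintro y ⟨n, hn, z, hz⟩ hy
    have hn1 : n = 1 := by
      by_contra h
      obtain ⟨p, hp, hpn⟩ := Nat.exists_prime_and_dvd h
      exact absurd (hn.2 p hp hpn) (by simp)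
    rw [hn1] at hz
    push_cast at hz
    rw [one_mul] at hz
    have hy0 : (0 : ℚ) < y := by
      by_contra h
      have : y ≤ 0 := not_lt.1 h
      nlinarith
    rw [hz] at hy0
    have hz0 : 0 < z := by exact_mod_cast hy0
    have := ht0.nsmul z.toNat (by omega)
    have e1 : ((z.toNat : ℕ) : ℚ) = z := by
      have : ((z.toNat : ℕ) : ℤ) = z := by omega
      exact_mod_cast this
    rw [e1] at this
    rw [hz, mul_comm]; exact this
  | insert p A hpA ih =>
    obtain ⟨t1, R1, ht1, h1⟩ := ih fun q hq => hA q (Finset.mem_insert_of_mem hq)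
    obtain ⟨hp, s, hs, hs1, hps⟩ := hA p (Finset.mem_insert_self _ _)
    obtain ⟨c, C, hc, h2⟩ := one_prime hm hinv hpos ht0 ht0p hs hs1 hps
    obtain ⟨k1, k2, hk1, hk2, hk⟩ := common_mult ht1 hc
    set t : ℚ := k1 * t1 with ht
    have hk1q : (0 : ℚ) < k1 := by exact_mod_cast hk1
    have hk2q : (0 : ℚ) < k2 := by exact_mod_cast hk2
    have htpos : 0 < t := mul_pos hk1q ht1
    set Y : ℤ := ⌈C / k2⌉ with hY
    have hYC : C ≤ k2 * Y := by
      have : C / k2 ≤ Y := Int.le_ceil _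
      rw [div_le_iff₀ hk2q] at this
      linarith
    refine ⟨t, R1 + t * (Y + 1), htpos, ?_⟩
    rintro y ⟨n, hn, z, hz⟩ hyR
    -- n = n1 * p^k
    obtain ⟨k, n1, hn1, hnk⟩ := Nat.exists_eq_pow_mul_and_not_dvd hn.1 p hp.ne_one
    have hn1s : Smooth A n1 := by
      have h3 : Smooth (insert p A) n1 := hn.of_dvd ⟨p ^ k, by rw [hnk]; ring⟩
      refine ⟨h3.1, fun q hq hqn => ?_⟩
      rcases Finset.mem_insert.1 (h3.2 q hq hqn) with h | h
      · exact absurd (h ▸ hqn) hn1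
      · exact h
    have hcop : IsCoprime ((p : ℤ) ^ k) (n1 : ℤ) := by
      have : Nat.Coprime (p ^ k) n1 := Nat.Coprime.pow_left k ((Nat.Prime.coprime_iff_not_dvd hp).2 hn1)
      have h4 := Nat.isCoprime_iff_coprime.2 this
      push_cast at h4; exact h4
    obtain ⟨u, w, huw⟩ := hcop
    have hpq : (p : ℚ) ^ k ≠ 0 := by
      have : (p : ℚ) ≠ 0 := by exact_mod_cast hp.ne_zero
      exact pow_ne_zero k this
    have hn1q : (n1 : ℚ) ≠ 0 := by exact_mod_cast hn1s.1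
    have huwq : (u : ℚ) * (p : ℚ) ^ k + w * n1 = 1 := by exact_mod_cast huw
    have hzq : ((p : ℚ) ^ k * n1) * y = z := by
      rw [hnk] at hz; push_cast at hz; exact hz
    set ya : ℚ := z * u / n1 with hya
    set yb : ℚ := z * w / (p : ℚ) ^ k with hyb
    have hsum : y = ya + yb := by
      rw [hya, hyb]
      field_simp
      linear_combination hzq - z * huwq
    -- shift
    set j : ℤ := Y - ⌊yb⌋ with hj
    have hj1 : (Y : ℚ) ≤ yb + j := by
      rw [hj]; push_cast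
      have := Int.floor_le yb
      linarith
    have hj2 : yb + j ≤ Y + 1 := by
      rw [hj]; push_cast
      have := Int.lt_floor_add_one yb
      linarith
    have hTb : TT G (t * (yb + j)) := by
      have := h2 k (k2 * (yb + j)) ?_ ?_
      · have e : c * (k2 * (yb + j)) = t * (yb + j) := by
          linear_combination - (yb + j) * hk
        rw [e] at this; exact this
      · refine ⟨k2 * (z * w + (p : ℤ) ^ k * j), ?_⟩
        push_cast
        have : (p : ℚ) ^ k * yb = z * w := by rw [hyb]; field_simp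
        linear_combination (k2 : ℚ) * this
      · have : (k2 : ℚ) * Y ≤ k2 * (yb + j) := mul_le_mul_of_nonneg_left hj1 hk2q.le
        linarith
    have hTa : TT G (t * (ya - j)) := by
      have := h1 (k1 * (ya - j)) ?_ ?_
      · have e : t1 * (k1 * (ya - j)) = t * (ya - j) := by rw [ht]; ring
        rw [e] at this; exact this
      · refine ⟨n1, hn1s, k1 * (z * u - n1 * j), ?_⟩
        push_cast
        have : (n1 : ℚ) * ya = z * u := by rw [hya]; field_simp
        linear_combination (k1 : ℚ) * this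
      · have e : t1 * (k1 * (ya - j)) = t * y - t * (yb + j) := by
          rw [ht, hsum]; ring
        rw [e]
        have : t * (yb + j) ≤ t * (Y + 1) := mul_le_mul_of_nonneg_left hj2 htpos.le
        linarith
    have := hTa.add hTb
    have e : t * (ya - j) + t * (yb + j) = t * y := by rw [hsum]; ring
    rw [e] at this; exact this

/-! ### regions in the one-sided case -/

/-- fixed point -/
def fx (f : ℚ × ℚ) : ℚ := f.2 / (1 - f.1)

theorem ev_fx {f : ℚ × ℚ} (h : f.1 ≠ 1) (w : ℚ) : ev f (fx f + w) = fx f + f.1 * w := by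
  have : (1 - f.1) ≠ 0 := sub_ne_zero.2 (Ne.symm h)
  simp only [ev, fx]; field_simp; ring

/-- iterates -/
def itr (f : ℚ × ℚ) : ℕ → ℚ × ℚ
  | 0 => f
  | n + 1 => cmp f (itr f n)

theorem itr_sg {f : ℚ × ℚ} (hf : Sg G f) (n : ℕ) : Sg G (itr f n) := by
  induction n with
  | zero => exact hf
  | succ n ih => exact Sg.mul _ _ hf ih

theorem itr_eq {f : ℚ × ℚ} (h : f.1 ≠ 1) (n : ℕ) :
    itr f n = (f.1 ^ (n + 1), fx f * (1 - f.1 ^ (n + 1))) := by
  have h1 : (1 - f.1) ≠ 0 := sub_ne_zero.2 (Ne.symm h)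
  have h2 : f.2 = fx f * (1 - f.1) := by simp only [fx]; field_simp
  induction n with
  | zero =>
    simp only [itr, zero_add, pow_one]
    ext
    · rfl
    · simpa using h2
  | succ n ih =>
    simp only [itr, cmp, ih]
    ext
    · simp only []; ring
    · simp only []; rw [h2]; ring

/-- fixed points of expansions lie below fixed points of contractions -/
theorem fx_le (hm : ∀ f ∈ G, f.1 ≠ 0) (hinv : ∀ f ∈ G, ∃ s, Sg G s ∧ f.1 * s.1 = 1)
    (hpos : ∀ t, TT G t → 0 ≤ t) {t0 : ℚ} (ht0 : TT G t0) (ht0p : 0 < t0)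
    {e c : ℚ × ℚ} (he : Sg G e) (hc : Sg G c) (he1 : 1 < e.1) (hc1 : c.1 < 1) :
    fx e ≤ fx c := by
  by_contra hlt
  have hlt : fx c < fx e := not_le.1 hlt
  obtain ⟨e', he', ee⟩ := he.inv hinv
  obtain ⟨c', hc', cc'⟩ := hc.inv hinv
  have hc0 : 0 < c.1 := mult_pos hm hinv hpos ht0 ht0p hc
  have he'0 : 0 < e'.1 := mult_pos hm hinv hpos ht0 ht0p he'
  have hc'0 : 0 < c'.1 := mult_pos hm hinv hpos ht0 ht0p hc'
  have he'1 : e'.1 < 1 := by
    by_contra h
    have : 1 ≤ e'.1 := not_lt.1 h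
    nlinarith
  have hc'1 : 1 < c'.1 := by
    by_contra h
    have : c'.1 ≤ 1 := not_lt.1 h
    nlinarith
  -- choose i with c'^(i+1) (x_e - x_c) > x_{e'} - x_c + 1
  obtain ⟨i, hi⟩ := pow_unbounded_of_one_lt ((fx e' - fx c + 1) / (fx e - fx c)) hc'1
  have hd : 0 < fx e - fx c := by linarith
  have hi' : fx e' - fx c + 1 < c'.1 ^ (i + 1) * (fx e - fx c) := by
    rw [div_lt_iff₀ hd] at hi
    have h1 : c'.1 ^ i ≤ c'.1 ^ (i + 1) := pow_le_pow_right₀ hc'1.le (by omega)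
    have h2 : c'.1 ^ i * (fx e - fx c) ≤ c'.1 ^ (i + 1) * (fx e - fx c) :=
      mul_le_mul_of_nonneg_right h1 hd.le
    linarith
  set B : ℚ := -fx e' + fx c' * (1 - c'.1 ^ (i + 1)) + c'.1 ^ (i + 1) * fx e with hB
  obtain ⟨j, hj⟩ := exists_pow_lt_of_lt_one (show (0 : ℚ) < 1 / (|B| + 1) by positivity) he'1
  have hj' : e'.1 ^ (j + 1) * B < 1 := by
    have hb1 : (0 : ℚ) < |B| + 1 := by positivity
    rw [lt_div_iff₀ hb1] at hj
    have h1 : e'.1 ^ (j + 1) ≤ e'.1 ^ j :=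
      pow_le_pow_of_le_one he'0.le he'1.le (by omega)
    have h2 : 0 < e'.1 ^ (j + 1) := pow_pos he'0 _
    have h3 : e'.1 ^ (j + 1) * B ≤ e'.1 ^ (j + 1) * (|B| + 1) :=
      mul_le_mul_of_nonneg_left (by linarith [le_abs_self B]) h2.le
    have h4 : e'.1 ^ (j + 1) * (|B| + 1) ≤ e'.1 ^ j * (|B| + 1) :=
      mul_le_mul_of_nonneg_right h1 hb1.le
    linarith
  have hW : Sg G (cmp (itr e' j) (cmp (itr c' i) (cmp (itr e j) (itr c i)))) :=
    Sg.mul _ _ (itr_sg he' j) (Sg.mul _ _ (itr_sg hc' i) (Sg.mul _ _ (itr_sg he j) (itr_sg hc i)))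
  rw [itr_eq he'1.ne, itr_eq hc'1.ne', itr_eq he1.ne', itr_eq hc1.ne] at hW
  simp only [cmp] at hW
  have p1 : e.1 ^ (j + 1) * e'.1 ^ (j + 1) = 1 := by rw [← mul_pow, ee, one_pow]
  have p2 : c.1 ^ (i + 1) * c'.1 ^ (i + 1) = 1 := by rw [← mul_pow, cc', one_pow]
  have hW2 : TT G (fx e' - fx c - c'.1 ^ (i + 1) * (fx e - fx c) + e'.1 ^ (j + 1) * B) := by
    have e1 : (1, fx e' - fx c - c'.1 ^ (i + 1) * (fx e - fx c) + e'.1 ^ (j + 1) * B) =
        (e'.1 ^ (j + 1) * (c'.1 ^ (i + 1) * (e.1 ^ (j + 1) * c.1 ^ (i + 1))),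
        e'.1 ^ (j + 1) * (c'.1 ^ (i + 1) * (e.1 ^ (j + 1) * (fx c * (1 - c.1 ^ (i + 1))) +
          fx e * (1 - e.1 ^ (j + 1))) + fx c' * (1 - c'.1 ^ (i + 1))) +
          fx e' * (1 - e'.1 ^ (j + 1))) := by
      ext
      · simp only []
        linear_combination (- (e.1 ^ (j + 1) * e'.1 ^ (j + 1))) * p2 - p1
      · simp only [hB]
        linear_combination ((fx e * c'.1 ^ (i + 1)) - fx c * c'.1 ^ (i+1) * (1 - c.1 ^ (i+1))) * p1
          + fx c * p2
    rw [TT, e1]; exact hW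
  have := hpos _ hW2
  linarith

end Pool.Agent.Helper425_zc
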