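import Pool.Agent.Helper425_zc.Aff3

set_option autoImplicit false

namespace Pool.Agent.Helper425_zc

variable {G : Finset (ℚ × ℚ)}

theorem unit_mem {A : Finset ℕ} {x : ℚ} (h : Smooth A x.den) : x ∈ RR A :=
  ⟨x.den, h, x.num, by rw [mul_comm]; exact Rat.mul_den_eq_num x⟩

theorem unit_inv {A : Finset ℕ} {x : ℚ} (hx : x ≠ 0) (h : Smooth A x.num.natAbs) :
    x⁻¹ ∈ RR A := by
  have e := Rat.mul_den_eq_num x
  have h1 := Int.natAbs_eq x.num
  obtain ⟨n, hn⟩ : ∃ n : ℕ, n = x.num.natAbs := ⟨_, rfl⟩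
  rw [← hn] at h h1
  rcases h1 with h1 | h1
  · refine ⟨n, h, x.den, ?_⟩
    have h2 : (n : ℚ) = x.num := by rw [h1]; norm_cast
    rw [h2, ← e]; push_cast; field_simp
  · refine ⟨n, h, - x.den, ?_⟩
    have h2 : (n : ℚ) = - x.num := by rw [h1]; push_cast; ring
    rw [h2, ← e]; push_cast; field_simp

theorem rch_itr {f : ℚ × ℚ} (hf : f ∈ G) (h1 : f.1 ≠ 1) {x y : ℚ} (h : Rch G x y) (n : ℕ) :
    Rch G x (fx f + f.1 ^ n * (y - fx f)) := by
  induction n with
  | zero => have e : fx f + f.1 ^ 0 * (y - fx f) = y := by ring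
            rw [e]; exact h
  | succ n ih =>
    have := Rch.step f _ hf ih
    rw [ev_fx h1] at this
    have e : fx f + f.1 * (f.1 ^ n * (y - fx f)) = fx f + f.1 ^ (n + 1) * (y - fx f) := by ring
    rw [e] at this; exact this

theorem star_up {A : Finset ℕ} (hA : ∀ p ∈ A, p.Prime) {t R : ℚ} (ht : 0 < t)
    (hU : ∀ y ∈ RR A, R ≤ t * y → TT G (t * y))
    {l : ℚ × ℚ} (hl : l ∈ G) (hl0 : 0 < l.1) (hl1 : l.1 < 1)
    (hln : Smooth A l.1.num.natAbs) (hld : Smooth A l.1.den)
    {x0 z q y : ℚ} (hz : Rch G x0 z) (hy : y ∈ RR A) (hq : q = z + t * y) (hlq : fx l < q) :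
    Rch G x0 q := by
  obtain ⟨n0, hn0, hn⟩ := exists_pow_near hln hld hA ((q - fx l) / t)
  have hinv : l.1⁻¹ ∈ RR A := unit_inv hl0.ne' hln
  have hinv1 : 1 < l.1⁻¹ := (one_lt_inv₀ hl0).2 hl1
  have hd : 0 < q - fx l := by linarith
  obtain ⟨k, hk⟩ := pow_unbounded_of_one_lt ((R + z - fx l) / (q - fx l)) hinv1
  rw [div_lt_iff₀ hd] at hk
  set N := n0 * k with hN
  have hkN : k ≤ N := by rw [hN]; exact Nat.le_mul_of_pos_left k hn0
  have hkN' : l.1⁻¹ ^ k * (q - fx l) ≤ l.1⁻¹ ^ N * (q - fx l) :=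
    mul_le_mul_of_nonneg_right (pow_le_pow_right₀ hinv1.le hkN) hd.le
  have hprod : l.1⁻¹ ^ N * l.1 ^ N = 1 := by
    rw [← mul_pow, inv_mul_cancel₀ hl0.ne', one_pow]
  -- the lifted point
  set Q : ℚ := fx l + l.1⁻¹ ^ N * (q - fx l) with hQ
  have hmem : y + -(l.1⁻¹ ^ N * ((l.1 ^ N - 1) * ((q - fx l) / t))) ∈ RR A :=
    (RR A).add_mem hy ((RR A).neg_mem ((RR A).mul_mem ((RR A).pow_mem hinv N) (hn k)))
  have hval : t * (y + -(l.1⁻¹ ^ N * ((l.1 ^ N - 1) * ((q - fx l) / t)))) = Q - z := by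
    have e1 : t * ((q - fx l) / t) = q - fx l := by field_simp
    rw [hQ]
    linear_combination (-(l.1⁻¹ ^ N * (l.1 ^ N - 1))) * e1 - (q - fx l) * hprod - hq
  have hT : TT G (Q - z) := by
    rw [← hval]
    apply hU _ hmem
    rw [hval, hQ]
    linarith
  have h1 : Rch G x0 Q := by
    have := TT.rch hT hz
    have e : z + (Q - z) = Q := by ring
    rw [e] at this; exact this
  have h2 := rch_itr hl hl1.ne h1 N
  have e : fx l + l.1 ^ N * (Q - fx l) = q := by
    rw [hQ]; linear_combination (q - fx l) * hprod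
  rw [e] at h2; exact h2

theorem lift_path {A : Finset ℕ} (hpos : ∀ f ∈ G, 0 < f.1) (hd : ∀ f ∈ G, Smooth A f.1.den)
    {x z : ℚ} (h : Rch G x z) :
    ∃ μ : ℚ, 0 < μ ∧ μ ∈ RR A ∧ ∀ x' : ℚ, Rch G x' (z + μ * (x' - x)) := by
  induction h with
  | base =>
    refine ⟨1, one_pos, (RR A).one_mem, fun x' => ?_⟩
    have e : x + 1 * (x' - x) = x' := by ring
    rw [e]; exact Rch.base
  | step f y hf _ ih =>
    obtain ⟨μ, h1, h2, h3⟩ := ih
    refine ⟨f.1 * μ, mul_pos (hpos f hf) h1, (RR A).mul_mem (unit_mem (hd f hf)) h2,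
      fun x' => ?_⟩
    have := Rch.step f _ hf (h3 x')
    have e : ev f (y + μ * (x' - x)) = ev f y + f.1 * μ * (x' - x) := by
      simp only [ev]; ring
    rw [e] at this; exact this

theorem star_down {A : Finset ℕ} (hA : ∀ p ∈ A, p.Prime) {t R : ℚ} (ht : 0 < t)
    (hU : ∀ y ∈ RR A, R ≤ t * y → TT G (t * y))
    (hpos : ∀ f ∈ G, 0 < f.1) (hd : ∀ f ∈ G, Smooth A f.1.den)
    {e : ℚ × ℚ} (he : e ∈ G) (he1 : 1 < e.1)
    (hen : Smooth A e.1.num.natAbs)
    {x0 z q y : ℚ} (hz : Rch G x0 z) (hy : y ∈ RR A) (hq : q = z + t * y) (hx : x0 < fx e) :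
    Rch G x0 q := by
  obtain ⟨n0, hn0, hn⟩ := exists_pow_near hen (hd e he) hA ((x0 - fx e) / t)
  obtain ⟨μ, hμ, hμR, hlift⟩ := lift_path hpos hd hz
  have hdp : 0 < μ * (fx e - x0) := mul_pos hμ (by linarith)
  obtain ⟨k, hk⟩ := pow_unbounded_of_one_lt ((R + z - q) / (μ * (fx e - x0)) + 1) he1
  set N := n0 * k with hN
  have hkN : k ≤ N := by rw [hN]; exact Nat.le_mul_of_pos_left k hn0
  have hk2 : (R + z - q) / (μ * (fx e - x0)) + 1 < e.1 ^ N :=
    lt_of_lt_of_le hk (pow_le_pow_right₀ he1.le hkN)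
  have hk3 : R + z - q < (e.1 ^ N - 1) * (μ * (fx e - x0)) := by
    have : (R + z - q) / (μ * (fx e - x0)) < e.1 ^ N - 1 := by linarith
    rw [div_lt_iff₀ hdp] at this; exact this
  set X : ℚ := fx e + e.1 ^ N * (x0 - fx e) with hX
  have h1 : Rch G x0 X := rch_itr he he1.ne' Rch.base N
  have h2 : Rch G x0 (z + μ * (X - x0)) := h1.trans (hlift X)
  have hmem : y + -(μ * ((e.1 ^ N - 1) * ((x0 - fx e) / t))) ∈ RR A :=
    (RR A).add_mem hy ((RR A).neg_mem ((RR A).mul_mem hμR (hn k)))
  have hval : t * (y + -(μ * ((e.1 ^ N - 1) * ((x0 - fx e) / t)))) = q - (z + μ * (X - x0)) := by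
    have e1 : t * ((x0 - fx e) / t) = x0 - fx e := by field_simp
    rw [hX]
    linear_combination (-(μ * (e.1 ^ N - 1))) * e1 - hq
  have hT : TT G (q - (z + μ * (X - x0))) := by
    rw [← hval]
    apply hU _ hmem
    rw [hval, hX]
    have : μ * (fx e + e.1 ^ N * (x0 - fx e) - x0) = -((e.1 ^ N - 1) * (μ * (fx e - x0))) := by
      ring
    rw [this]
    linarith
  have h3 := TT.rch hT h2
  have e3 : z + μ * (X - x0) + (q - (z + μ * (X - x0))) = q := by ring
  rw [e3] at h3; exact h3

/-! ### finiteness below a bound -/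

/-- points reachable in at most `n` steps -/
def ball (G : Finset (ℚ × ℚ)) (x0 : ℚ) : ℕ → Finset ℚ
  | 0 => {x0}
  | n + 1 => ball G x0 n ∪ (ball G x0 n).biUnion fun y => G.image fun f => ev f y

theorem fin_below {x0 B δ : ℚ} (hδ : 0 < δ) (hge : ∀ y, Rch G x0 y → x0 ≤ y)
    (hB : ∀ y, Rch G x0 y → B < y → ∀ f ∈ G, B < ev f y)
    (hst : ∀ y, Rch G x0 y → y ≤ B → ∀ f ∈ G, ev f y = y ∨ y + δ ≤ ev f y) :
    ∃ F : Finset ℚ, ∀ y, y ∈ F ↔ Rch G x0 y ∧ y ≤ B := by
  classical
  have mono : ∀ n, ball G x0 n ⊆ ball G x0 (n + 1) := by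
    intro n y hy
    simp only [ball]
    exact Finset.mem_union_left _ hy
  have h0 : ∀ n, x0 ∈ ball G x0 n := by
    intro n
    induction n with
    | zero => simp [ball]
    | succ n ih => exact mono n ih
  have key : ∀ y, Rch G x0 y → y ≤ B → ∀ n : ℕ, y - x0 ≤ n * δ → y ∈ ball G x0 n := by
    intro y hy
    induction hy with
    | base => intro _ n _; exact h0 n
    | step f y hf hy ih =>
      intro hle n hn
      by_cases hyB : y ≤ B
      · rcases hst y hy hyB f hf with h | h
        · rw [h] at hle hn ⊢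
          exact ih hle n hn
        · cases n with
          | zero =>
            exfalso
            have := hge y hy
            push_cast at hn
            linarith
          | succ n =>
            have h1 : y ∈ ball G x0 n := by
              apply ih hyB n
              push_cast at hn
              linarith
            simp only [ball]
            apply Finset.mem_union_right
            rw [Finset.mem_biUnion]
            exact ⟨y, h1, Finset.mem_image_of_mem _ hf⟩
      · exact absurd hle (not_le.2 (hB y hy (not_le.1 hyB) f hf))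
  obtain ⟨N, hN⟩ := exists_nat_gt ((B - x0) / δ)
  rw [div_lt_iff₀ hδ] at hN
  refine ⟨(ball G x0 N).filter fun y => Rch G x0 y ∧ y ≤ B, fun y => ?_⟩
  rw [Finset.mem_filter]
  constructor
  · exact fun h => h.2
  · exact fun h => ⟨key y h.1 h.2 N (by linarith [h.2]), h⟩

theorem exists_min_pos {α : Type*} (s : Finset α) (g : α → ℚ) (hg : ∀ x ∈ s, 0 < g x) :
    ∃ δ : ℚ, 0 < δ ∧ ∀ x ∈ s, δ ≤ g x := by
  classical
  induction s using Finset.induction_on with
  | empty => exact ⟨1, one_pos, by simp⟩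
  | insert a s _ ih =>
    obtain ⟨δ, h1, h2⟩ := ih fun x hx => hg x (Finset.mem_insert_of_mem hx)
    refine ⟨min δ (g a), lt_min h1 (hg a (Finset.mem_insert_self _ _)), ?_⟩
    intro x hx
    rcases Finset.mem_insert.1 hx with h | h
    · rw [h]; exact min_le_right _ _
    · exact (min_le_left _ _).trans (h2 x h)

/-! ### the certificate of type 2 -/

def K2 (F : Finset ℚ) (a b c y : ℚ) : Prop := y ∈ F ∨ (a < y ∧ y < b) ∨ c < y

def Cert2q (G : Finset (ℚ × ℚ)) (x0 q : ℚ) : Prop :=
  ∃ (F : Finset ℚ) (a b c : ℚ),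
    (∀ f ∈ G, 0 < f.1 ∧ (∀ z ∈ F, K2 F a b c (ev f z)) ∧
      (b ≤ a ∨ (a ≤ ev f a ∧ ev f b ≤ b) ∨ c ≤ ev f a) ∧ c ≤ ev f c) ∧
    x0 ∈ F ∧ ¬ K2 F a b c q

theorem region (hpos : ∀ f ∈ G, 0 < f.1) (hT : ∀ f ∈ G, f.1 = 1 → 0 ≤ f.2)
    {l e : ℚ × ℚ} (hlmin : ∀ f ∈ G, f.1 < 1 → fx l ≤ fx f)
    (hemax : ∀ f ∈ G, 1 < f.1 → fx f ≤ fx e) (hel : fx e ≤ fx l)
    {x0 q : ℚ} (hx : fx e ≤ x0) (hq : q ≤ fx l) (hn : ¬ Rch G x0 q) : Cert2q G x0 q := by
  classical
  -- basic facts
  have hval : ∀ f : ℚ × ℚ, f.1 ≠ 1 → ∀ y, ev f y = fx f + f.1 * (y - fx f) := by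
    intro f hf y
    have := ev_fx hf (y - fx f)
    rwa [show fx f + (y - fx f) = y by ring] at this
  have hval1 : ∀ f : ℚ × ℚ, f.1 = 1 → ∀ y, ev f y = y + f.2 := by
    intro f hf y; simp only [ev, hf]; ring
  -- moving up in the middle region
  have hup : ∀ f ∈ G, ∀ y, fx e ≤ y → y ≤ fx l → y ≤ ev f y := by
    intro f hf y h1 h2
    rcases lt_trichotomy f.1 1 with h | h | h
    · rw [hval f h.ne]
      have := hlmin f hf h
      nlinarith
    · rw [hval1 f h]
      have := hT f hf h
      linarith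
    · rw [hval f h.ne']
      have := hemax f hf h
      nlinarith
  have habove : ∀ f ∈ G, ∀ y, fx l < y → fx l < ev f y := by
    intro f hf y h1
    rcases lt_trichotomy f.1 1 with h | h | h
    · rw [hval f h.ne]
      have h2 := hlmin f hf h
      have h3 := hpos f hf
      nlinarith
    · rw [hval1 f h]
      have := hT f hf h
      linarith
    · rw [hval f h.ne']
      have := hemax f hf h
      nlinarith
  by_cases hα : fx l < x0
  · refine ⟨{x0}, fx l, fx l, fx l, ?_, Finset.mem_singleton_self _, ?_⟩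
    · intro f hf
      refine ⟨hpos f hf, ?_, Or.inl le_rfl, hup f hf _ hel le_rfl⟩
      intro z hz
      rw [Finset.mem_singleton.1 hz]
      exact Or.inr (Or.inr (habove f hf x0 hα))
    · rintro (h | h | h)
      · rw [Finset.mem_singleton.1 h] at hq; linarith
      · linarith [h.1, h.2]
      · linarith
  have hα' : x0 ≤ fx l := not_lt.1 hα
  by_cases hβ : q < x0
  · refine ⟨{x0}, x0, x0, x0, ?_, Finset.mem_singleton_self _, ?_⟩
    · intro f hf
      refine ⟨hpos f hf, ?_, Or.inl le_rfl, hup f hf _ hx hα'⟩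
      intro z hz
      rw [Finset.mem_singleton.1 hz]
      rcases (hup f hf x0 hx hα').lt_or_eq with h | h
      · exact Or.inr (Or.inr h)
      · exact Or.inl (by rw [← h]; exact Finset.mem_singleton_self _)
    · rintro (h | h | h)
      · rw [Finset.mem_singleton.1 h] at hβ; exact lt_irrefl _ hβ
      · linarith [h.1, h.2]
      · linarith
  have hxq : x0 < q := lt_of_le_of_ne (not_lt.1 hβ) (by rintro rfl; exact hn Rch.base)
  have hxl : x0 < fx l := lt_of_lt_of_le hxq hq
  -- all reachable points are above x0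
  have hge : ∀ y, Rch G x0 y → x0 ≤ y := by
    intro y hy
    induction hy with
    | base => exact le_rfl
    | step f y hf _ ih =>
      by_cases h : y ≤ fx l
      · exact ih.trans (hup f hf y (hx.trans ih) h)
      · exact hα'.trans (habove f hf y (not_le.1 h)).le
  -- δ0
  obtain ⟨δ1, hδ1, hδ1'⟩ := exists_min_pos G
    (fun f => if ev f x0 - x0 > 0 then ev f x0 - x0 else 1) (by
      intro f _
      split_ifs with h
      · exact h
      · exact one_pos)
  set δ0 : ℚ := min δ1 (fx l - x0) with hδ0def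
  have hδ0 : 0 < δ0 := lt_min hδ1 (by linarith)
  have hjump : ∀ f ∈ G, ev f x0 = x0 ∨ x0 + δ0 ≤ ev f x0 := by
    intro f hf
    rcases (hup f hf x0 hx hα').lt_or_eq with h | h
    · right
      have h1 := hδ1' f hf
      simp only [gt_iff_lt] at h1
      rw [if_pos (by linarith)] at h1
      have h2 : δ0 ≤ δ1 := min_le_left _ _
      linarith
    · left; exact h.symm
  have hge2 : ∀ y, Rch G x0 y → y = x0 ∨ x0 + δ0 ≤ y := by
    intro y hy
    induction hy with
    | base => left; rfl
    | step f y hf hy ih =>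
      rcases ih with h | h
      · rw [h]; exact hjump f hf
      · right
        by_cases h1 : y ≤ fx l
        · exact h.trans (hup f hf y (by linarith) h1)
        · have h2 := habove f hf y (not_le.1 h1)
          have h3 : δ0 ≤ fx l - x0 := min_le_right _ _
          linarith
  -- finiteness for each bound below fx l
  have hfin : ∀ B, x0 ≤ B → B < fx l → ∃ F : Finset ℚ, ∀ y, y ∈ F ↔ Rch G x0 y ∧ y ≤ B := by
    intro B hxB hBl
    obtain ⟨δ2, hδ2, hδ2'⟩ := exists_min_pos G
      (fun f => if f.1 < 1 then (1 - f.1) * (fx f - B) else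
        if f.1 = 1 then (if 0 < f.2 then f.2 else 1) else (f.1 - 1) * δ0) (by
        intro f hf
        split_ifs with h1 h2 h3
        · have := hlmin f hf h1
          exact mul_pos (by linarith) (by linarith)
        · exact h3
        · exact one_pos
        · have : 1 < f.1 := lt_of_le_of_ne (not_lt.1 h1) (Ne.symm h2)
          exact mul_pos (by linarith) hδ0)
    refine fin_below (δ := min δ2 δ0) (lt_min hδ2 hδ0) hge ?_ ?_
    · intro y hy hBy f hf
      by_cases h : y ≤ fx l
      · exact lt_of_lt_of_le hBy (hup f hf y (by linarith [hge y hy]) h)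
      · exact hBl.trans (habove f hf y (not_le.1 h))
    · intro y hy hyB f hf
      have hm2 : min δ2 δ0 ≤ δ2 := min_le_left _ _
      have hm0 : min δ2 δ0 ≤ δ0 := min_le_right _ _
      have h2 := hδ2' f hf
      rcases lt_trichotomy f.1 1 with h | h | h
      · right
        rw [if_pos h] at h2
        rw [hval f h.ne]
        have h3 : (1 - f.1) * (fx f - B) ≤ (1 - f.1) * (fx f - y) :=
          mul_le_mul_of_nonneg_left (by linarith) (by linarith)
        nlinarith
      · rw [if_neg (by linarith), if_pos h] at h2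
        rw [hval1 f h]
        rcases (hT f hf h).lt_or_eq with h3 | h3
        · right
          rw [if_pos h3] at h2
          linarith
        · left; rw [← h3]; ring
      · rw [if_neg (by linarith), if_neg h.ne'] at h2
        rcases hge2 y hy with h3 | h3
        · rw [h3]
          rcases hjump f hf with h4 | h4
          · left; exact h4
          · right; linarith
        · right
          rw [hval f h.ne']
          have h4 := hemax f hf h
          have h5 : (f.1 - 1) * δ0 ≤ (f.1 - 1) * (y - fx f) :=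
            mul_le_mul_of_nonneg_left (by linarith) (by linarith)
          nlinarith
  rcases hq.lt_or_eq with hql | hql
  · obtain ⟨F, hF⟩ := hfin q hxq.le hql
    refine ⟨F, q, q, q, ?_, (hF x0).2 ⟨Rch.base, hxq.le⟩, ?_⟩
    · intro f hf
      refine ⟨hpos f hf, ?_, Or.inl le_rfl, hup f hf _ (by linarith) hq⟩
      intro z hz
      have h1 := Rch.step f z hf ((hF z).1 hz).1
      by_cases h : ev f z ≤ q
      · exact Or.inl ((hF _).2 ⟨h1, h⟩)
      · exact Or.inr (Or.inr (not_le.1 h))
    · rintro (h | h | h)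
      · exact hn ((hF q).1 h).1
      · linarith [h.1, h.2]
      · linarith
  · -- q = fx l
    obtain ⟨ε1, hε1, hε1'⟩ := exists_min_pos G
      (fun f => if fx l < ev f (fx l) then (ev f (fx l) - fx l) / f.1 else 1) (by
        intro f hf
        split_ifs with h
        · exact div_pos (by linarith) (hpos f hf)
        · exact one_pos)
    set ε : ℚ := min ε1 (fx l - x0) with hεdef
    have hε : 0 < ε := lt_min hε1 (by linarith)
    have hε2 : ε ≤ fx l - x0 := min_le_right _ _
    obtain ⟨F, hF⟩ := hfin (fx l - ε) (by linarith) (by linarith)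
    refine ⟨F, fx l - ε, fx l, fx l, ?_, (hF x0).2 ⟨Rch.base, by linarith⟩, ?_⟩
    · intro f hf
      refine ⟨hpos f hf, ?_, ?_, hup f hf _ hel le_rfl⟩
      · intro z hz
        have h1 := Rch.step f z hf ((hF z).1 hz).1
        by_cases h : ev f z ≤ fx l - ε
        · exact Or.inl ((hF _).2 ⟨h1, h⟩)
        · have h := not_le.1 h
          rcases lt_trichotomy (ev f z) (fx l) with h2 | h2 | h2
          · exact Or.inr (Or.inl ⟨h, h2⟩)
          · exfalso; apply hn; rw [hql, ← h2]; exact h1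
          · exact Or.inr (Or.inr h2)
      · right
        rcases (hup f hf (fx l) hel le_rfl).lt_or_eq with h | h
        · right
          have h1 := hε1' f hf
          rw [if_pos h] at h1
          have h2 : ε ≤ (ev f (fx l) - fx l) / f.1 := (min_le_left _ _).trans h1
          rw [le_div_iff₀ (hpos f hf)] at h2
          simp only [ev] at h2 ⊢
          linarith
        · left
          exact ⟨hup f hf _ (by linarith) (by linarith), by rw [← h]⟩
    · rintro (h | h | h)
      · exact hn ((hF q).1 h).1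
      · linarith [h.1, h.2]
      · linarith

end Pool.Agent.Helper425_zc
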