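import Pool.Agent.Helper425_zc.Aff4

set_option autoImplicit false

namespace Pool.Agent.Helper425_zc

variable {G : Finset (ℚ × ℚ)}

/-! ### the certificate of type 1 -/

def Cert1q (G : Finset (ℚ × ℚ)) (x0 q : ℚ) : Prop :=
  ∃ (n D c c' : ℤ) (K : List ℤ), n ∣ c * c' - 1 ∧ c ≠ 0 ∧
    (∀ f ∈ G, ∃ α β : ℤ, f.1 * c = α ∧ D * f.2 * c = β ∧
      ∀ r ∈ K, ∃ r' ∈ K, n ∣ c * r' - α * r - β) ∧
    (∃ a0 : ℤ, c * D * x0 = a0 ∧ ∃ r ∈ K, n ∣ a0 - c * r) ∧
    (∃ aq : ℤ, c * D * q = aq ∧ ∀ r ∈ K, ¬ n ∣ aq - c * r)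

theorem common_den (S : Finset ℚ) : ∃ D : ℕ, 0 < D ∧ ∀ x ∈ S, ∃ z : ℤ, (D : ℚ) * x = z := by
  classical
  induction S using Finset.induction_on with
  | empty => exact ⟨1, one_pos, by simp⟩
  | insert a s _ ih =>
    obtain ⟨D, hD, h⟩ := ih
    refine ⟨D * a.den, Nat.mul_pos hD a.den_pos, fun x hx => ?_⟩
    rcases Finset.mem_insert.1 hx with h1 | h1
    · refine ⟨D * a.num, ?_⟩
      rw [h1]; push_cast
      linear_combination (D : ℚ) * Rat.mul_den_eq_num a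
    · obtain ⟨z, hz⟩ := h x h1
      refine ⟨z * a.den, ?_⟩
      push_cast
      linear_combination (a.den : ℚ) * hz

theorem common_smooth {A : Finset ℕ} (G : Finset (ℚ × ℚ)) (hd : ∀ f ∈ G, Smooth A f.1.den) :
    ∃ c : ℕ, Smooth A c ∧ ∀ f ∈ G, ∃ z : ℤ, f.1 * c = z := by
  classical
  induction G using Finset.induction_on with
  | empty => exact ⟨1, Smooth.one, by simp⟩
  | insert a s _ ih =>
    obtain ⟨c, hc, h⟩ := ih fun f hf => hd f (Finset.mem_insert_of_mem hf)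
    refine ⟨c * a.1.den, hc.mul (hd a (Finset.mem_insert_self _ _)), fun f hf => ?_⟩
    rcases Finset.mem_insert.1 hf with h1 | h1
    · refine ⟨c * a.1.num, ?_⟩
      rw [h1]; push_cast
      linear_combination (c : ℚ) * Rat.mul_den_eq_num a.1
    · obtain ⟨z, hz⟩ := h f h1
      refine ⟨z * a.1.den, ?_⟩
      push_cast
      linear_combination (a.1.den : ℚ) * hz

theorem cert1_exists {A : Finset ℕ} (hA : ∀ p ∈ A, p.Prime)
    (hd : ∀ f ∈ G, Smooth A f.1.den) {t : ℚ} (ht : t ≠ 0) {x0 q : ℚ}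
    (hn : ∀ z y, Rch G x0 z → y ∈ RR A → q ≠ z + t * y) : Cert1q G x0 q := by
  classical
  obtain ⟨D0, hD0, hD0'⟩ := common_den (insert x0 (insert q (G.image Prod.snd)))
  obtain ⟨c, hc, hc'⟩ := common_smooth G hd
  obtain ⟨x0z, hx0z⟩ := hD0' x0 (Finset.mem_insert_self _ _)
  obtain ⟨qz, hqz⟩ := hD0' q (Finset.mem_insert_of_mem (Finset.mem_insert_self _ _))
  have hfz : ∀ f ∈ G, ∃ z : ℤ, (D0 : ℚ) * f.2 = z := fun f hf =>
    hD0' f.2 (Finset.mem_insert_of_mem (Finset.mem_insert_of_mem (Finset.mem_image_of_mem _ hf)))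
  have htn : t.num ≠ 0 := Rat.num_ne_zero.2 ht
  have hN : ((D0 : ℤ) * t.num).natAbs ≠ 0 := by
    rw [Int.natAbs_ne_zero]
    exact mul_ne_zero (by exact_mod_cast hD0.ne') htn
  obtain ⟨E, w, hEw, hw, hE⟩ := exists_split A _ hN
  have hE0 : E ≠ 0 := by
    rintro rfl
    rw [zero_mul] at hEw
    exact hN hEw
  have hE' : ∀ p ∈ A, ¬ p ∣ E := fun p hp => hE p (hA p hp) hp
  obtain ⟨D, hD⟩ : ∃ D : ℤ, D = D0 * t.den := ⟨_, rfl⟩
  have hDq : (D : ℚ) = D0 * t.den := by rw [hD]; push_cast; ring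
  have hD00 : (D0 : ℚ) ≠ 0 := by exact_mod_cast hD0.ne'
  have htd : (t.den : ℚ) ≠ 0 := by exact_mod_cast t.den_nz
  have hDne : (D : ℚ) ≠ 0 := by rw [hDq]; exact mul_ne_zero hD00 htd
  have hEq : (E : ℚ) ≠ 0 := by exact_mod_cast hE0
  have hwq : (w : ℚ) ≠ 0 := by exact_mod_cast hw.1
  -- D t = ± E w
  obtain ⟨sg, hsg, hDt⟩ : ∃ sg : ℤ, (sg = 1 ∨ sg = -1) ∧ (D : ℚ) * t = sg * (E * w) := by
    have h1 : (D : ℚ) * t = ((D0 * t.num : ℤ) : ℚ) := by
      rw [hDq]; push_cast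
      linear_combination (D0 : ℚ) * Rat.mul_den_eq_num t
    rcases Int.natAbs_eq ((D0 : ℤ) * t.num) with h | h
    · refine ⟨1, Or.inl rfl, ?_⟩
      rw [h1, h, hEw]; push_cast; ring
    · refine ⟨-1, Or.inr rfl, ?_⟩
      rw [h1, h, hEw]; push_cast; ring
  have hsg2 : (sg : ℚ) * sg = 1 := by rcases hsg with h | h <;> rw [h] <;> norm_num
  -- residues
  have hres : ∀ x ∈ RR A, ∃ r : ℤ, (0 ≤ r ∧ r < E) ∧ ∃ y ∈ RR A, x - r = E * y := by
    rintro x ⟨m, hm, z, hz⟩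
    have hcop : IsCoprime (m : ℤ) (E : ℤ) := Nat.isCoprime_iff_coprime.2 (hm.coprime hE')
    obtain ⟨u, v, huv⟩ := hcop
    have hEz : (0 : ℤ) < E := by exact_mod_cast Nat.pos_of_ne_zero hE0
    refine ⟨(u * z) % E, ⟨Int.emod_nonneg _ hEz.ne', Int.emod_lt_of_pos _ hEz⟩, ?_⟩
    have hmq : (m : ℚ) ≠ 0 := by exact_mod_cast hm.1
    have h1 := Int.emod_add_mul_ediv (u * z) E
    have h1q : (((u * z) % E : ℤ) : ℚ) + E * ((u * z / E : ℤ) : ℚ) = u * z := by exact_mod_cast h1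
    have huvq : (u : ℚ) * m + v * E = 1 := by exact_mod_cast huv
    refine ⟨(v * z + m * ((u * z / E : ℤ) : ℚ)) / m, ?_, ?_⟩
    · refine ⟨m, hm, v * z + m * (u * z / E), ?_⟩
      push_cast
      field_simp
    · rw [mul_div_assoc', eq_div_iff hmq]
      linear_combination hz - z * huvq - m * h1q
  have hint : ∀ (j : ℤ) (y : ℚ), y ∈ RR A → (j : ℚ) = E * y → (E : ℤ) ∣ j := by
    rintro j y ⟨m, hm, z, hz⟩ hj
    have hcop : IsCoprime (E : ℤ) (m : ℤ) :=
      (Nat.isCoprime_iff_coprime.2 (hm.coprime hE')).symm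
    apply hcop.dvd_of_dvd_mul_left
    refine ⟨z, ?_⟩
    have : ((m * j : ℤ) : ℚ) = ((E * z : ℤ) : ℚ) := by
      push_cast
      rw [hj]
      linear_combination (E : ℚ) * hz
    exact_mod_cast this
  -- D x is an A-integer along the orbit
  have hDx : ∀ x, Rch G x0 x → (D : ℚ) * x ∈ RR A := by
    intro x hx
    induction hx with
    | base =>
      have e : (D : ℚ) * x0 = ((x0z * t.den : ℤ) : ℚ) := by
        rw [hDq]; push_cast; linear_combination (t.den : ℚ) * hx0z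
      rw [e]; exact int_mem_RR _
    | step f y hf _ ih =>
      obtain ⟨z, hz⟩ := hfz f hf
      have e : (D : ℚ) * ev f y = f.1 * (D * y) + ((z * t.den : ℤ) : ℚ) := by
        simp only [ev]; push_cast
        rw [hDq]
        linear_combination (t.den : ℚ) * hz
      rw [e]
      exact (RR A).add_mem ((RR A).mul_mem (unit_mem (hd f hf)) ih) (int_mem_RR _)
  let P : ℤ → Prop := fun r => (0 ≤ r ∧ r < E) ∧ ∃ x, Rch G x0 x ∧ ∃ y ∈ RR A, (D : ℚ) * x - r = E * y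
  obtain ⟨K, hK⟩ : ∃ K : List ℤ, ∀ r, r ∈ K ↔ P r := by
    refine ⟨((List.range E).map fun n : ℕ => (n : ℤ)).filter fun r => P r, fun r => ?_⟩
    rw [List.mem_filter, List.mem_map]
    simp only [List.mem_range, decide_eq_true_eq]
    constructor
    · exact fun h => h.2
    · intro h
      refine ⟨⟨r.toNat, ?_, ?_⟩, h⟩
      · have := h.1; omega
      · have := h.1; omega
  have hcq : (c : ℚ) ≠ 0 := by exact_mod_cast hc.1
  have hcop : IsCoprime (c : ℤ) (E : ℤ) := Nat.isCoprime_iff_coprime.2 (hc.coprime hE')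
  obtain ⟨c', v, hcv⟩ := hcop
  refine ⟨E, D, c, c', K, ⟨-v, by linear_combination hcv⟩, by exact_mod_cast hc.1, ?_, ?_, ?_⟩
  · intro f hf
    obtain ⟨α, hα⟩ := hc' f hf
    obtain ⟨z, hz⟩ := hfz f hf
    refine ⟨α, z * t.den * c, by rw [← hα]; norm_cast, ?_, ?_⟩
    · push_cast; rw [hDq]; linear_combination (t.den : ℚ) * c * hz
    · intro r hr
      obtain ⟨_, x, hx, y, hy, hxy⟩ := (hK r).1 hr
      have hx' := Rch.step f x hf hx
      obtain ⟨r', hr', y', hy', hxy'⟩ := hres _ (hDx _ hx')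
      refine ⟨r', (hK r').2 ⟨hr', _, hx', y', hy', hxy'⟩, ?_⟩
      apply hint _ (α * y - c * y')
      · exact (RR A).sub_mem ((RR A).mul_mem (int_mem_RR _) hy)
          ((RR A).mul_mem (by exact_mod_cast int_mem_RR (A := A) (c : ℤ)) hy')
      · push_cast
        have e : (c : ℚ) * (D * ev f x) = α * (D * x) + z * t.den * c := by
          simp only [ev]
          rw [hDq]
          linear_combination ((D0 : ℚ) * t.den * x) * hα + ((t.den : ℚ) * c) * hz
        linear_combination (-(c : ℚ)) * hxy' + (α : ℚ) * hxy + e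
  · refine ⟨c * (x0z * t.den), ?_, ?_⟩
    · push_cast; rw [hDq]; linear_combination ((c : ℚ) * t.den) * hx0z
    · obtain ⟨r, hr, y, hy, hxy⟩ := hres _ (hDx _ Rch.base)
      refine ⟨r, (hK r).2 ⟨hr, _, Rch.base, y, hy, hxy⟩, ?_⟩
      apply hint _ (c * y)
      · exact (RR A).mul_mem (by exact_mod_cast int_mem_RR (A := A) (c : ℤ)) hy
      · push_cast
        have e : (D : ℚ) * x0 = x0z * t.den := by
          rw [hDq]; linear_combination (t.den : ℚ) * hx0z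
        linear_combination (c : ℚ) * hxy - (c : ℚ) * e
  · refine ⟨c * (qz * t.den), ?_, ?_⟩
    · push_cast; rw [hDq]; linear_combination ((c : ℚ) * t.den) * hqz
    · intro r hr hdvd
      obtain ⟨_, x, hx, y, hy, hxy⟩ := (hK r).1 hr
      obtain ⟨j, hj⟩ := hdvd
      have hjq : (c : ℚ) * (qz * t.den) - c * r = E * j := by exact_mod_cast hj
      have hDq' : (D : ℚ) * q = qz * t.den := by
        rw [hDq]; linear_combination (t.den : ℚ) * hqz
      -- D q - r = E (j / c)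
      have h1 : (D : ℚ) * q - r = E * (j * (c : ℚ)⁻¹) := by
        apply mul_left_cancel₀ hcq
        have : (c : ℚ) * (E * (j * (c : ℚ)⁻¹)) = E * j := by field_simp
        rw [this]
        linear_combination hjq + (c : ℚ) * hDq'
      apply hn x (sg * (w : ℚ)⁻¹ * (j * (c : ℚ)⁻¹ - y)) hx
      · refine (RR A).mul_mem ((RR A).mul_mem (int_mem_RR _) (inv_mem_RR hw)) ?_
        exact (RR A).sub_mem ((RR A).mul_mem (int_mem_RR _) (inv_mem_RR hc)) hy
      · apply mul_left_cancel₀ hDne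
        have e2 : (D : ℚ) * (x + t * (sg * (w : ℚ)⁻¹ * (j * (c : ℚ)⁻¹ - y))) =
            D * x + (D * t) * (sg * (w : ℚ)⁻¹ * (j * (c : ℚ)⁻¹ - y)) := by ring
        rw [e2, hDt]
        have e3 : (sg : ℚ) * (E * w) * (sg * (w : ℚ)⁻¹ * (j * (c : ℚ)⁻¹ - y)) =
            E * (j * (c : ℚ)⁻¹ - y) := by
          have e4 : (sg : ℚ) * (E * w) * (sg * (w : ℚ)⁻¹ * (j * (c : ℚ)⁻¹ - y)) =
            (sg * sg) * (w * (w : ℚ)⁻¹) * (E * (j * (c : ℚ)⁻¹ - y)) := by ring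
          rw [e4, hsg2, mul_inv_cancel₀ hwq]; ring
        rw [e3]
        linear_combination h1 - hxy

/-! ### main theorem on affine semigroups -/

theorem onesided_main (hm : ∀ f ∈ G, f.1 ≠ 0) (hinv : ∀ f ∈ G, ∃ s, Sg G s ∧ f.1 * s.1 = 1)
    (hnc : ∃ f ∈ G, ∃ g ∈ G, cmp f g ≠ cmp g f)
    (hpos : ∀ t, TT G t → 0 ≤ t) {A : Finset ℕ}
    (hA : ∀ p ∈ A, p.Prime) (hnum : ∀ f ∈ G, Smooth A f.1.num.natAbs)
    (hden : ∀ f ∈ G, Smooth A f.1.den)
    (hAc : ∀ p ∈ A, ∃ s, Sg G s ∧ |s.1| < 1 ∧ p ∣ s.1.den) :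
    ∃ t : ℚ, t ≠ 0 ∧ ∀ x0 q z y, Rch G x0 z → y ∈ RR A → q = z + t * y →
      Rch G x0 q ∨ Cert2q G x0 q := by
  classical
  obtain ⟨t0, ht0, ht0n⟩ := exists_TT_ne hinv hnc
  have ht0p : 0 < t0 := lt_of_le_of_ne (hpos _ ht0) (Ne.symm ht0n)
  have hmp : ∀ s, Sg G s → 0 < s.1 := fun s hs => mult_pos hm hinv hpos ht0 ht0p hs
  obtain ⟨t, R, ht, hU⟩ := one_sided hm hinv hpos ht0 ht0p A fun p hp =>
    ⟨hA p hp, by
      obtain ⟨s, hs, h1, h2⟩ := hAc p hp
      exact ⟨s, hs, (abs_lt.1 h1).2, h2⟩⟩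
  have hG : ∀ f ∈ G, 0 < f.1 := fun f hf => hmp f (Sg.base f hf)
  -- not all multipliers are one
  have hne1 : ∃ f ∈ G, f.1 ≠ 1 := by
    by_contra h
    push Not at h
    obtain ⟨f, hf, g, hg, hfg⟩ := hnc
    apply hfg
    simp only [cmp, h f hf, h g hg]
    ext
    · rfl
    · simp only []; ring
  have hex1 : ∃ f ∈ G, f.1 < 1 := by
    by_contra h
    push Not at h
    have hall : ∀ s, Sg G s → 1 ≤ s.1 := by
      intro s hs
      induction hs with
      | base f hf => exact h f hf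
      | mul f g _ _ i1 i2 => simp only [cmp]; nlinarith
    obtain ⟨f, hf, hf1⟩ := hne1
    obtain ⟨s, hs, e⟩ := hinv f hf
    have h1 := hall s hs
    have h2 : 1 < f.1 := lt_of_le_of_ne (h f hf) (Ne.symm hf1)
    nlinarith
  have hex2 : ∃ f ∈ G, 1 < f.1 := by
    by_contra h
    push Not at h
    have hall : ∀ s, Sg G s → s.1 ≤ 1 := by
      intro s hs
      induction hs with
      | base f hf => exact h f hf
      | mul f g hf hg i1 i2 =>
        simp only [cmp]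
        have := hmp f hf
        have := hmp g hg
        nlinarith
    obtain ⟨f, hf, hf1⟩ := hex1
    obtain ⟨s, hs, e⟩ := hinv f hf
    have h1 := hall s hs
    have h2 := hmp s hs
    have h3 := hG f hf
    nlinarith
  obtain ⟨l, hl, hlmin⟩ := Finset.exists_min_image (G.filter fun f => f.1 < 1) fx (by
    obtain ⟨f, hf, h1⟩ := hex1
    exact ⟨f, Finset.mem_filter.2 ⟨hf, h1⟩⟩)
  obtain ⟨e, he, hemax⟩ := Finset.exists_max_image (G.filter fun f => 1 < f.1) fx (by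
    obtain ⟨f, hf, h1⟩ := hex2
    exact ⟨f, Finset.mem_filter.2 ⟨hf, h1⟩⟩)
  rw [Finset.mem_filter] at hl he
  refine ⟨t, ht.ne', ?_⟩
  intro x0 q z y hz hy hq
  by_cases h1 : fx l < q
  · exact Or.inl (star_up hA ht hU hl.1 (hG l hl.1) hl.2 (hnum l hl.1) (hden l hl.1) hz hy hq h1)
  by_cases h2 : x0 < fx e
  · exact Or.inl (star_down hA ht hU hG hden he.1 he.2 (hnum e he.1) hz hy hq h2)
  by_cases h3 : Rch G x0 q
  · exact Or.inl h3
  right
  refine region hG ?_ (l := l) (e := e) ?_ ?_ ?_ (not_lt.1 h2) (not_lt.1 h1) h3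
  · intro f hf hf1
    apply hpos
    have := Sg.base f hf
    rw [TT]
    have e1 : (1, f.2) = f := by rw [← hf1]
    rw [e1]; exact this
  · exact fun f hf hf1 => hlmin f (Finset.mem_filter.2 ⟨hf, hf1⟩)
  · exact fun f hf hf1 => hemax f (Finset.mem_filter.2 ⟨hf, hf1⟩)
  · exact fx_le hm hinv hpos ht0 ht0p (Sg.base e he.1) (Sg.base l hl.1) he.2 hl.2

/-- reflection -/
def nf (f : ℚ × ℚ) : ℚ × ℚ := (f.1, - f.2)
def ng (G : Finset (ℚ × ℚ)) : Finset (ℚ × ℚ) := G.image nf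

theorem mem_ng {f : ℚ × ℚ} : f ∈ ng G ↔ nf f ∈ G := by
  simp only [ng, Finset.mem_image]
  constructor
  · rintro ⟨g, hg, rfl⟩
    simpa [nf] using hg
  · intro h
    exact ⟨nf f, h, by simp [nf]⟩

theorem nf_nf (f : ℚ × ℚ) : nf (nf f) = f := by simp [nf]

theorem nf_cmp (f g : ℚ × ℚ) : nf (cmp f g) = cmp (nf f) (nf g) := by
  simp only [nf, cmp]; ext
  · rfl
  · simp only []; ring

theorem ng_ng : ng (ng G) = G := by
  ext f; rw [mem_ng, mem_ng, nf_nf]

theorem Sg.ng {s : ℚ × ℚ} (hs : Sg G s) : Sg (ng G) (nf s) := by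
  induction hs with
  | base f hf => exact Sg.base _ (mem_ng.2 (by rw [nf_nf]; exact hf))
  | mul f g _ _ i1 i2 => rw [nf_cmp]; exact Sg.mul _ _ i1 i2

theorem Rch.ng {x y : ℚ} (h : Rch G x y) : Rch (ng G) (-x) (-y) := by
  induction h with
  | base => exact Rch.base
  | step f y hf _ ih =>
    have := Rch.step (nf f) _ (mem_ng.2 (by rw [nf_nf]; exact hf)) ih
    have e : ev (nf f) (-y) = - ev f y := by simp only [ev, nf]; ring
    rw [e] at this; exact this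

theorem aff_main (hm : ∀ f ∈ G, f.1 ≠ 0) (hinv : ∀ f ∈ G, ∃ s, Sg G s ∧ f.1 * s.1 = 1)
    (hnc : ∃ f ∈ G, ∃ g ∈ G, cmp f g ≠ cmp g f) {A : Finset ℕ}
    (hA : ∀ p ∈ A, p.Prime) (hnum : ∀ f ∈ G, Smooth A f.1.num.natAbs)
    (hden : ∀ f ∈ G, Smooth A f.1.den)
    (hAd : ∀ p ∈ A, ∃ s, Sg G s ∧ p ∣ s.1.den)
    (hAc : (∃ a b, TT G a ∧ TT G b ∧ 0 < a ∧ b < 0) ∨
      ∀ p ∈ A, ∃ s, Sg G s ∧ |s.1| < 1 ∧ p ∣ s.1.den) (x0 q : ℚ) :
    Rch G x0 q ∨ Cert1q G x0 q ∨ Cert2q G x0 q ∨ Cert2q (ng G) (-x0) (-q) := by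
  by_cases h2 : ∃ a b, TT G a ∧ TT G b ∧ 0 < a ∧ b < 0
  · obtain ⟨a, b, ha, hb, hap, hbn⟩ := h2
    have hU := two_sided (A := A) hinv ha hb hap hbn fun p hp _ => hAd p hp
    by_cases h : ∃ z y, Rch G x0 z ∧ y ∈ RR A ∧ q = z + a * y
    · left
      obtain ⟨z, y, hz, hy, e⟩ := h
      rw [e]; exact TT.rch (hU y hy) hz
    · right; left
      push Not at h
      exact cert1_exists hA hden hap.ne' fun z y hz hy => h z y hz hy
  · have hAc' := hAc.resolve_left h2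
    push Not at h2
    by_cases hneg : ∃ b, TT G b ∧ b < 0
    · -- all translations are ≤ 0
      obtain ⟨b, hb, hb0⟩ := hneg
      have hle : ∀ t, TT (ng G) t → 0 ≤ t := by
        intro t ht
        have h3 : TT G (-t) := by
          have := Sg.ng ht
          rw [ng_ng] at this
          exact this
        by_contra hlt
        have h4 := h2 (-t) b h3 hb (by linarith)
        linarith
      have a1 : ∀ f ∈ ng G, f.1 ≠ 0 := fun f hf => hm (nf f) (mem_ng.1 hf)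
      have a2 : ∀ f ∈ ng G, ∃ s, Sg (ng G) s ∧ f.1 * s.1 = 1 := by
        intro f hf
        obtain ⟨s, hs, e⟩ := hinv _ (mem_ng.1 hf)
        exact ⟨nf s, Sg.ng hs, e⟩
      have a3 : ∃ f ∈ ng G, ∃ g ∈ ng G, cmp f g ≠ cmp g f := by
        obtain ⟨f, hf, g, hg, hfg⟩ := hnc
        refine ⟨nf f, mem_ng.2 (by rw [nf_nf]; exact hf), nf g,
          mem_ng.2 (by rw [nf_nf]; exact hg), ?_⟩
        intro h
        apply hfg
        rw [← nf_cmp, ← nf_cmp] at h
        have := congrArg nf h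
        rwa [nf_nf, nf_nf] at this
      have a4 : ∀ f ∈ ng G, Smooth A f.1.num.natAbs := fun f hf => hnum (nf f) (mem_ng.1 hf)
      have a5 : ∀ f ∈ ng G, Smooth A f.1.den := fun f hf => hden (nf f) (mem_ng.1 hf)
      have a6 : ∀ p ∈ A, ∃ s, Sg (ng G) s ∧ |s.1| < 1 ∧ p ∣ s.1.den := by
        intro p hp
        obtain ⟨s, hs, h3, h4⟩ := hAc' p hp
        exact ⟨nf s, Sg.ng hs, h3, h4⟩
      obtain ⟨t, ht, hmain⟩ := onesided_main a1 a2 a3 hle hA a4 a5 a6
      by_cases h : ∃ z y, Rch G x0 z ∧ y ∈ RR A ∧ q = z + t * y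
      · obtain ⟨z, y, hz, hy, e⟩ := h
        rcases hmain (-x0) (-q) (-z) (-y) (Rch.ng hz) ((RR A).neg_mem hy)
          (by rw [e]; ring) with h5 | h5
        · left
          have := Rch.ng h5
          rw [ng_ng, neg_neg, neg_neg] at this; exact this
        · exact Or.inr (Or.inr (Or.inr h5))
      · right; left
        push Not at h
        exact cert1_exists hA hden ht fun z y hz hy => h z y hz hy
    · push Not at hneg
      obtain ⟨t, ht, hmain⟩ := onesided_main (A := A) hm hinv hnc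
        (fun t ht => hneg t ht) hA hnum hden hAc'
      by_cases h : ∃ z y, Rch G x0 z ∧ y ∈ RR A ∧ q = z + t * y
      · obtain ⟨z, y, hz, hy, e⟩ := h
        rcases hmain x0 q z y hz hy e with h5 | h5
        · exact Or.inl h5
        · exact Or.inr (Or.inr (Or.inl h5))
      · right; left
        push Not at h
        exact cert1_exists hA hden ht fun z y hz hy => h z y hz hy

end Pool.Agent.Helper425_zc
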