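import Pool.Agent.Helper425_zc.Aff5

set_option autoImplicit false

namespace Pool.Agent.Helper425_zc

variable {G : Finset (ℚ × ℚ)}

/-- In the two-sided case the translations contain `a * RR A`, provided every prime of `A`
divides the denominator of an invertible multiplier. -/
theorem two_sided' {A : Finset ℕ}
    {a b : ℚ} (ha : TT G a) (hb : TT G b) (hap : 0 < a) (hbn : b < 0)
    (hA : ∀ p ∈ A, ∃ s s', Sg G s ∧ Sg G s' ∧ s.1 * s'.1 = 1 ∧ p ∣ s.1.den)
    (hAp : ∀ p ∈ A, p.Prime) :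
    ∀ y ∈ RR A, TT G (a * y) := by
  have hneg := TT.neg_of ha hb hap hbn
  have hmul : ∀ s s', Sg G s → Sg G s' → s.1 * s'.1 = 1 → ∀ t, TT G t → TT G (s.1 * t) := by
    intro s s' hs hs' e t ht
    have h1 := TT.conj hs hs' e ht
    have h2 := hneg _ (TT.conj0 hs hs' e)
    have := h1.add h2
    have e3 : s.1 * s'.2 + s.2 + s.1 * t + -(s.1 * s'.2 + s.2) = s.1 * t := by ring
    rw [e3] at this; exact this
  have hdiv : ∀ p ∈ A, ∀ t, TT G t → TT G (t / p) := by
    intro p hp t ht
    have hpp := hAp p hp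
    obtain ⟨s, s', hs, hs', hss, hd⟩ := hA p hp
    have hcop : IsCoprime s.1.num (s.1.den : ℤ) := by
      rw [Int.isCoprime_iff_gcd_eq_one]
      have := s.1.reduced
      simpa [Int.gcd, Nat.Coprime] using this
    obtain ⟨u, w, huw⟩ := hcop
    obtain ⟨j, hj⟩ := hd
    have h1 := TT.zsmul hneg (hmul s s' hs hs' hss t ht) u
    have h2 := TT.zsmul hneg ht w
    have h3 := TT.zsmul hneg (h1.add h2) j
    have hden : (s.1.den : ℚ) ≠ 0 := by exact_mod_cast s.1.den_nz
    have hpq : (p : ℚ) ≠ 0 := by exact_mod_cast hpp.ne_zero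
    have e1 := Rat.mul_den_eq_num s.1
    have e : (j : ℚ) * (u * (s.1 * t) + w * t) = t / p := by
      rw [eq_div_iff hpq]
      have e2 : (u : ℚ) * s.1.num + w * s.1.den = 1 := by exact_mod_cast huw
      have e3 : (s.1.den : ℚ) = p * j := by rw [hj]; push_cast; ring
      apply mul_left_cancel₀ hden
      linear_combination (p * j * u * t) * e1 + (p * j * t) * e2 - t * e3
    have h3' : TT G ((j : ℚ) * (u * (s.1 * t) + w * t)) := by exact_mod_cast h3
    rw [e] at h3'; exact h3'
  have hdivn : ∀ n : ℕ, Smooth A n → ∀ t, TT G t → TT G (t / n) := by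
    intro n
    induction n using Nat.strong_induction_on with
    | _ n ih =>
      intro hn t ht
      by_cases h1 : n = 1
      · rw [h1]; simpa using ht
      · obtain ⟨p, hp, hpn⟩ := Nat.exists_prime_and_dvd h1
        obtain ⟨m, hm⟩ := hpn
        have hpA := hn.2 p hp ⟨m, hm⟩
        have hm0 : m ≠ 0 := by rintro rfl; exact hn.1 (by rw [hm, mul_zero])
        have hlt : m < n := by
          rw [hm]
          calc m = 1 * m := (one_mul m).symm
            _ < p * m := Nat.mul_lt_mul_of_pos_right hp.one_lt (Nat.pos_of_ne_zero hm0)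
        have h2 := ih m hlt (hn.of_dvd ⟨p, by rw [hm]; ring⟩) (t / p) (hdiv p hpA t ht)
        have e : t / p / m = t / n := by
          rw [hm]; push_cast; rw [div_div]
        rw [e] at h2; exact h2
  rintro y ⟨n, hn, z, hz⟩
  have h1 := TT.zsmul hneg (hdivn n hn a ha) z
  have hnq : (n : ℚ) ≠ 0 := by exact_mod_cast hn.1
  have e : (z : ℚ) * (a / n) = a * y := by
    rw [← hz]; field_simp
  rw [e] at h1; exact h1

theorem aff_two {A : Finset ℕ} (hAp : ∀ p ∈ A, p.Prime)
    (hden : ∀ f ∈ G, Smooth A f.1.den)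
    {a b : ℚ} (ha : TT G a) (hb : TT G b) (hap : 0 < a) (hbn : b < 0)
    (hA : ∀ p ∈ A, ∃ s s', Sg G s ∧ Sg G s' ∧ s.1 * s'.1 = 1 ∧ p ∣ s.1.den) (x0 q : ℚ) :
    Rch G x0 q ∨ Cert1q G x0 q := by
  have hU := two_sided' ha hb hap hbn hA hAp
  by_cases h : ∃ z y, Rch G x0 z ∧ y ∈ RR A ∧ q = z + a * y
  · left
    obtain ⟨z, y, hz, hy, e⟩ := h
    rw [e]; exact TT.rch (hU y hy) hz
  · right
    push Not at h
    exact cert1_exists hAp hden hap.ne' fun z y hz hy => h z y hz hy

end Pool.Agent.Helper425_zc
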