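import Pool.Agent.Helper425_zc.PCert

set_option autoImplicit false

namespace Pool.Agent.Helper425_zc

/-- matrices listed by `L` -/
def gens' (L : List Q4) : Set (Matrix (Fin 2) (Fin 2) ℤ) :=
  {N | ∃ x ∈ L, N = !![x.1, x.2.1; x.2.2.1, x.2.2.2]}

def mulQ (A B : Q4) : Q4 :=
  (A.1 * B.1 + A.2.1 * B.2.2.1, A.1 * B.2.1 + A.2.1 * B.2.2.2,
    A.2.2.1 * B.1 + A.2.2.2 * B.2.2.1, A.2.2.1 * B.2.1 + A.2.2.2 * B.2.2.2)

theorem toM_mulQ (A B : Q4) : toM (mulQ A B) = toM A * toM B := by
  simp only [toM, mulQ, Matrix.mul_fin_two]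

def prodQ (w : List Q4) : Q4 := w.foldr mulQ (1, 0, 0, 1)

/-- action of a word on a vector -/
def actW (w : List Q4) (v : V2) : V2 := w.foldr act v

theorem act_prodQ (w : List Q4) (v : V2) : act (prodQ w) v = actW w v := by
  induction w with
  | nil => simp [prodQ, actW, act]
  | cons A w ih =>
    have e1 : prodQ (A :: w) = mulQ A (prodQ w) := rfl
    have e2 : actW (A :: w) v = act A (actW w v) := rfl
    rw [e1, e2, ← ih]
    simp only [act, mulQ]
    ext
    · simp only []; ring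
    · simp only []; ring

theorem prodQ_fst (w : List Q4) : (prodQ w).1 = (actW w (1, 0)).1 := by
  rw [← act_prodQ]; simp [act]

theorem prodQ_append (w1 w2 : List Q4) : prodQ (w1 ++ w2) = mulQ (prodQ w1) (prodQ w2) := by
  induction w1 with
  | nil =>
    simp only [List.nil_append, prodQ, List.foldr_nil, mulQ]
    ext <;> simp
  | cons A w ih =>
    have e1 : prodQ (A :: w ++ w2) = mulQ A (prodQ (w ++ w2)) := rfl
    have e2 : prodQ (A :: w) = mulQ A (prodQ w) := rfl
    rw [e1, e2, ih]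
    simp only [mulQ]
    ext <;> simp only [] <;> ring

theorem mem_closure_iff {L : List Q4} {M : Matrix (Fin 2) (Fin 2) ℤ} :
    M ∈ Subsemigroup.closure (gens' L) ↔
      ∃ w : List Q4, w ≠ [] ∧ (∀ x ∈ w, x ∈ L) ∧ toM (prodQ w) = M := by
  constructor
  · intro h
    induction h using Subsemigroup.closure_induction with
    | mem x hx =>
      obtain ⟨y, hy, rfl⟩ := hx
      refine ⟨[y], by simp, by simpa using hy, ?_⟩
      simp [prodQ, mulQ, toM]
    | mul x y _ _ ihx ihy =>
      obtain ⟨w1, h1, h2, rfl⟩ := ihx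
      obtain ⟨w2, h3, h4, rfl⟩ := ihy
      refine ⟨w1 ++ w2, by simp [h1], ?_, ?_⟩
      · intro x hx
        rcases List.mem_append.1 hx with h | h
        · exact h2 x h
        · exact h4 x h
      · rw [← toM_mulQ, prodQ_append]
  · rintro ⟨w, hw, hwL, rfl⟩
    induction w with
    | nil => exact absurd rfl hw
    | cons A w ih =>
      have hA : toM A ∈ Subsemigroup.closure (gens' L) :=
        Subsemigroup.subset_closure ⟨A, hwL A (by simp), rfl⟩
      by_cases h : w = []
      · subst h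
        have e : prodQ [A] = A := by simp [prodQ, mulQ]
        rw [e]; exact hA
      · have e : prodQ (A :: w) = mulQ A (prodQ w) := rfl
        rw [e, toM_mulQ]
        exact Subsemigroup.mul_mem _ hA (ih h fun x hx => hwL x (by simp [hx]))

/-- the zero in the corner predicate -/
def ZC (L : List Q4) : Prop := ∃ M ∈ Subsemigroup.closure (gens' L), M 0 0 = 0

def YesChk (L : List Q4) (w : List Q4) : Prop :=
  w ≠ [] ∧ (∀ x ∈ w, x ∈ L) ∧ (prodQ w).1 = 0

theorem yes_iff {L : List Q4} : (∃ w, YesChk L w) ↔ ZC L := by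
  constructor
  · rintro ⟨w, h1, h2, h3⟩
    exact ⟨_, mem_closure_iff.2 ⟨w, h1, h2, rfl⟩, by simpa [toM] using h3⟩
  · rintro ⟨M, hM, h0⟩
    obtain ⟨w, h1, h2, rfl⟩ := mem_closure_iff.1 hM
    exact ⟨w, h1, h2, by simpa [toM] using h0⟩

/-! ### starts and targets -/

def starts (L : List Q4) : List V2 :=
  (1, 0) :: L.flatMap fun A => if dt A = 0 then [(A.1, A.2.2.1), (A.2.1, A.2.2.2)] else []

def targets (L : List Q4) : List V2 :=
  (1, 0) :: L.flatMap fun A => if dt A = 0 then [(A.1, A.2.1), (A.2.2.1, A.2.2.2)] else []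

theorem mem_starts {L : List Q4} {u : V2} : u ∈ starts L ↔
    u = (1, 0) ∨ ∃ A ∈ L, dt A = 0 ∧ (u = (A.1, A.2.2.1) ∨ u = (A.2.1, A.2.2.2)) := by
  simp only [starts, List.mem_cons, List.mem_flatMap]
  constructor
  · rintro (h | ⟨A, hA, h⟩)
    · exact Or.inl h
    · split_ifs at h with h0
      · right; refine ⟨A, hA, h0, by simpa using h⟩
      · simp at h
  · rintro (h | ⟨A, hA, h0, h⟩)
    · exact Or.inl h
    · right; refine ⟨A, hA, ?_⟩
      rw [if_pos h0]; simpa using h

theorem mem_targets {L : List Q4} {u : V2} : u ∈ targets L ↔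
    u = (1, 0) ∨ ∃ A ∈ L, dt A = 0 ∧ (u = (A.1, A.2.1) ∨ u = (A.2.2.1, A.2.2.2)) := by
  simp only [targets, List.mem_cons, List.mem_flatMap]
  constructor
  · rintro (h | ⟨A, hA, h⟩)
    · exact Or.inl h
    · split_ifs at h with h0
      · right; refine ⟨A, hA, h0, by simpa using h⟩
      · simp at h
  · rintro (h | ⟨A, hA, h0, h⟩)
    · exact Or.inl h
    · right; refine ⟨A, hA, ?_⟩
      rw [if_pos h0]; simpa using h

theorem orb_word {L : List Q4} {u v : V2} (h : Orb L u v) :
    ∃ w : List Q4, (∀ x ∈ w, x ∈ L) ∧ actW w u = v := by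
  induction h with
  | base => exact ⟨[], by simp, rfl⟩
  | step A v hA _ _ ih =>
    obtain ⟨w, hw, rfl⟩ := ih
    refine ⟨A :: w, ?_, rfl⟩
    intro x hx
    rcases List.mem_cons.1 hx with h | h
    · rw [h]; exact hA
    · exact hw x h

theorem act_smul (A : Q4) (a : ℤ) (v : V2) : act A (a * v.1, a * v.2) =
    (a * (act A v).1, a * (act A v).2) := by
  simp only [act]; ext <;> simp only [] <;> ring

theorem actW_smul (w : List Q4) (a : ℤ) (v : V2) : actW w (a * v.1, a * v.2) =
    (a * (actW w v).1, a * (actW w v).2) := by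
  induction w with
  | nil => rfl
  | cons A w ih =>
    have e1 : ∀ v, actW (A :: w) v = act A (actW w v) := fun _ => rfl
    rw [e1, e1, ih, act_smul]

/-- If no corner vanishes then nothing is reachable. -/
theorem not_reach_of_not_zc {L : List Q4} (h : ¬ ZC L) {u t : V2} (hu : u ∈ starts L)
    (ht : t ∈ targets L) (hu0 : u ≠ 0) (ht0 : t ≠ 0) : ¬ Reach L u t := by
  rintro ⟨v, hv, hz⟩
  obtain ⟨w, hw, rfl⟩ := orb_word hv
  -- a word bringing e1 to a multiple of u
  have hU : ∃ wu : List Q4, (∀ x ∈ wu, x ∈ L) ∧ ∃ a b : ℤ, a ≠ 0 ∧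
      a * (actW wu (1, 0)).1 = b * u.1 ∧ a * (actW wu (1, 0)).2 = b * u.2 := by
    rcases mem_starts.1 hu with rfl | ⟨A, hA, h0, h1⟩
    · exact ⟨[], by simp, 1, 1, one_ne_zero, rfl, rfl⟩
    · refine ⟨[A], by simpa using hA, ?_⟩
      have e1 : actW [A] (1, 0) = (A.1, A.2.2.1) := by simp [actW, act]
      rw [e1]
      unfold dt at h0
      rcases h1 with rfl | rfl
      · exact ⟨1, 1, one_ne_zero, rfl, rfl⟩
      · by_cases h2 : A.2.1 = 0
        · have h3 : A.2.2.2 ≠ 0 := fun h3 => hu0 (by rw [h2, h3]; rfl)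
          refine ⟨A.2.2.2, A.2.2.1, h3, ?_, ?_⟩
          · show A.2.2.2 * A.1 = A.2.2.1 * A.2.1
            linarith
          · show A.2.2.2 * A.2.2.1 = A.2.2.1 * A.2.2.2
            ring
        · refine ⟨A.2.1, A.1, h2, ?_, ?_⟩
          · show A.2.1 * A.1 = A.1 * A.2.1
            ring
          · show A.2.1 * A.2.2.1 = A.1 * A.2.2.2
            linarith
  have hT : ∃ wt : List Q4, (∀ x ∈ wt, x ∈ L) ∧ ∀ v : V2, dot t v = 0 → (actW wt v).1 = 0 := by
    rcases mem_targets.1 ht with rfl | ⟨A, hA, h0, h1⟩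
    · exact ⟨[], by simp, fun v hv => by simpa [dot, actW] using hv⟩
    · refine ⟨[A], by simpa using hA, fun v hv => ?_⟩
      have e1 : (actW [A] v).1 = A.1 * v.1 + A.2.1 * v.2 := by simp [actW, act]
      rw [e1]
      unfold dt at h0
      rcases h1 with rfl | rfl
      · exact hv
      · have hv' : A.2.2.1 * v.1 + A.2.2.2 * v.2 = 0 := hv
        by_cases h2 : A.2.2.1 = 0
        · have h3 : A.2.2.2 ≠ 0 := fun h3 => ht0 (by rw [h2, h3]; rfl)
          apply mul_left_cancel₀ h3
          rw [mul_zero]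
          linear_combination v.1 * h0 + A.2.1 * hv'
        · apply mul_left_cancel₀ h2
          rw [mul_zero]
          linear_combination A.1 * hv' - v.2 * h0
  obtain ⟨wu, hwu, a, b, ha, e1, e2⟩ := hU
  obtain ⟨wt, hwt, hwt'⟩ := hT
  -- the word
  have hz2 : dot t (actW w (actW wu (1, 0))) = 0 := by
    have h1 := actW_smul w a (actW wu (1, 0))
    rw [e1, e2, actW_smul] at h1
    have h2 : a * (actW w (actW wu (1, 0))).1 = b * (actW w u).1 := (congrArg Prod.fst h1).symm
    have h3 : a * (actW w (actW wu (1, 0))).2 = b * (actW w u).2 := (congrArg Prod.snd h1).symm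
    apply mul_left_cancel₀ ha
    simp only [dot] at hz ⊢
    linear_combination t.1 * h2 + t.2 * h3 + b * hz
  have hz3 := hwt' _ hz2
  have e3 : actW wt (actW w (actW wu (1, 0))) = actW (wt ++ (w ++ wu)) (1, 0) := by
    simp only [actW, List.foldr_append]
  rw [e3, ← prodQ_fst] at hz3
  apply h
  rw [← yes_iff]
  refine ⟨wt ++ (w ++ wu), ?_, ?_, hz3⟩
  · intro h0
    rw [h0] at hz3
    simp [prodQ] at hz3
  · intro x hx
    rcases List.mem_append.1 hx with h1 | h1
    · exact hwt x h1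
    · rcases List.mem_append.1 h1 with h2 | h2
      · exact hw x h2
      · exact hwu x h2

/-- converse: if nothing is reachable and no member is zero then no corner vanishes -/
theorem not_zc_of_not_reach {L : List Q4} (h0 : ∀ A ∈ L, A ≠ 0)
    (h : ∀ u ∈ starts L, ∀ t ∈ targets L, u = 0 ∨ t = 0 ∨ ¬ Reach L u t) : ¬ ZC L := by
  rw [← yes_iff]
  rintro ⟨w, -, hw, hz⟩
  rw [prodQ_fst] at hz
  have key : ∀ w : List Q4, (∀ x ∈ w, x ∈ L) → ∃ u ∈ starts L, u ≠ 0 ∧ ∃ v, Orb L u v ∧
      ∃ a b : ℤ, a ≠ 0 ∧ b ≠ 0 ∧ a * (actW w (1, 0)).1 = b * v.1 ∧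
        a * (actW w (1, 0)).2 = b * v.2 := by
    intro w
    induction w with
    | nil =>
      intro _
      refine ⟨(1, 0), mem_starts.2 (Or.inl rfl), by simp, (1, 0), Orb.base, 1, 1, one_ne_zero,
        one_ne_zero, rfl, rfl⟩
    | cons A w ih =>
      intro hw
      obtain ⟨u, hu, hu0, v, hv, a, b, ha, hb, e1, e2⟩ := ih fun x hx => hw x (by simp [hx])
      have hA : A ∈ L := hw A (by simp)
      have e3 : actW (A :: w) (1, 0) = act A (actW w (1, 0)) := rfl
      by_cases hd : dt A = 0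
      · -- singular
        have hA0 := h0 A hA
        have hv0 := hv.ne_zero hu0
        -- a nonzero column c and nonzero row r
        obtain ⟨c, hc, hc0, hcc⟩ : ∃ c : V2, (c = (A.1, A.2.2.1) ∨ c = (A.2.1, A.2.2.2)) ∧
            c ≠ 0 ∧ True := by
          by_cases h1 : ((A.1, A.2.2.1) : V2) = 0
          · refine ⟨(A.2.1, A.2.2.2), Or.inr rfl, ?_, trivial⟩
            intro h2
            apply hA0
            have a1 : A.1 = 0 := congrArg Prod.fst h1
            have a2 : A.2.2.1 = 0 := congrArg Prod.snd h1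
            have a3 : A.2.1 = 0 := congrArg Prod.fst h2
            have a4 : A.2.2.2 = 0 := congrArg Prod.snd h2
            ext
            · exact a1
            · exact a3
            · exact a2
            · exact a4
          · exact ⟨_, Or.inl rfl, h1, trivial⟩
        -- A v is nonzero
        have hne : act A v ≠ 0 := by
          intro hz
          have z1 : A.1 * v.1 + A.2.1 * v.2 = 0 := congrArg Prod.fst hz
          have z2 : A.2.2.1 * v.1 + A.2.2.2 * v.2 = 0 := congrArg Prod.snd hz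
          by_cases h1 : ((A.1, A.2.1) : V2) = 0
          · have hr : ((A.2.2.1, A.2.2.2) : V2) ≠ 0 := by
              intro h2
              apply hA0
              have a1 : A.1 = 0 := congrArg Prod.fst h1
              have a2 : A.2.1 = 0 := congrArg Prod.snd h1
              have a3 : A.2.2.1 = 0 := congrArg Prod.fst h2
              have a4 : A.2.2.2 = 0 := congrArg Prod.snd h2
              ext
              · exact a1
              · exact a2
              · exact a3
              · exact a4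
            rcases h u hu _ (mem_targets.2 (Or.inr ⟨A, hA, hd, Or.inr rfl⟩)) with h3 | h3 | h3
            · exact hu0 h3
            · exact hr h3
            · exact h3 ⟨v, hv, z2⟩
          · rcases h u hu _ (mem_targets.2 (Or.inr ⟨A, hA, hd, Or.inl rfl⟩)) with h3 | h3 | h3
            · exact hu0 h3
            · exact h1 h3
            · exact h3 ⟨v, hv, z1⟩
        have hpar : c.1 * (act A v).2 = c.2 * (act A v).1 := by
          unfold dt at hd
          simp only [act]
          rcases hc with rfl | rfl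
          · linear_combination v.2 * hd
          · linear_combination (- v.1) * hd
        obtain ⟨a', b', ha', hb', f1, f2⟩ := par hc0 hne hpar
        refine ⟨c, mem_starts.2 (Or.inr ⟨A, hA, hd, hc⟩), hc0, c, Orb.base, a * a', b * b',
          mul_ne_zero ha ha', mul_ne_zero hb hb', ?_, ?_⟩
        · rw [e3]
          simp only [act] at f1 ⊢
          linear_combination a' * A.1 * e1 + a' * A.2.1 * e2 + b * f1
        · rw [e3]
          simp only [act] at f2 ⊢
          linear_combination a' * A.2.2.1 * e1 + a' * A.2.2.2 * e2 + b * f2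
      · refine ⟨u, hu, hu0, act A v, Orb.step A v hA hd hv, a, b, ha, hb, ?_, ?_⟩
        · rw [e3]; simp only [act]; linear_combination A.1 * e1 + A.2.1 * e2
        · rw [e3]; simp only [act]; linear_combination A.2.2.1 * e1 + A.2.2.2 * e2
  obtain ⟨u, hu, hu0, v, hv, a, b, ha, hb, e1, e2⟩ := key w hw
  rcases h u hu (1, 0) (mem_targets.2 (Or.inl rfl)) with h3 | h3 | h3
  · exact hu0 h3
  · simp at h3
  · apply h3
    refine ⟨v, hv, ?_⟩
    rw [hz, mul_zero] at e1
    have : v.1 = 0 := (mul_eq_zero.1 e1.symm).resolve_left hb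
    simp [dot, this]

def NoChk (L : List Q4) (cs : List C1 × List C2) : Prop :=
  (∀ A ∈ L, A ≠ 0) ∧ ∀ u ∈ starts L, ∀ t ∈ targets L, u = 0 ∨ t = 0 ∨ Chk0 L u t ∨
    (∃ e ∈ cs.1, Chk1 L u t e) ∨ (∃ e ∈ cs.2, Chk2 L u t e)

theorem nochk_sound {L : List Q4} {cs : List C1 × List C2} (h : NoChk L cs) : ¬ ZC L := by
  apply not_zc_of_not_reach h.1
  intro u hu t ht
  rcases h.2 u hu t ht with h1 | h1 | h1 | ⟨e, _, h1⟩ | ⟨e, _, h1⟩
  · exact Or.inl h1
  · exact Or.inr (Or.inl h1)
  · exact Or.inr (Or.inr (sound0 h1))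
  · exact Or.inr (Or.inr (sound1 h1))
  · exact Or.inr (Or.inr (sound2 h1))

theorem nochk_complete {L : List Q4}
    (h : ∀ u w : V2, u ≠ 0 → w ≠ 0 → Reach L u w ∨ Chk0 L u w ∨ (∃ e, Chk1 L u w e) ∨
      (∃ e, Chk2 L u w e)) (hz : ¬ ZC L) : ∃ cs, NoChk L cs := by
  classical
  have h0 : ∀ A ∈ L, A ≠ 0 := by
    rintro A hA rfl
    apply hz
    refine ⟨_, Subsemigroup.subset_closure ⟨0, hA, rfl⟩, ?_⟩
    simp
  -- collect certificates for pairs
  have key : ∀ u ∈ starts L, ∀ t ∈ targets L, ∃ cs : List C1 × List C2, u = 0 ∨ t = 0 ∨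
      Chk0 L u t ∨ (∃ e ∈ cs.1, Chk1 L u t e) ∨ (∃ e ∈ cs.2, Chk2 L u t e) := by
    intro u hu t ht
    by_cases hu0 : u = 0
    · exact ⟨([], []), Or.inl hu0⟩
    by_cases ht0 : t = 0
    · exact ⟨([], []), Or.inr (Or.inl ht0)⟩
    rcases h u t hu0 ht0 with h1 | h1 | ⟨e, h1⟩ | ⟨e, h1⟩
    · exact absurd h1 (not_reach_of_not_zc hz hu ht hu0 ht0)
    · exact ⟨([], []), Or.inr (Or.inr (Or.inl h1))⟩
    · exact ⟨([e], []), Or.inr (Or.inr (Or.inr (Or.inl ⟨e, by simp, h1⟩)))⟩
    · exact ⟨([], [e]), Or.inr (Or.inr (Or.inr (Or.inr ⟨e, by simp, h1⟩)))⟩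
  choose! c hc using key
  refine ⟨((starts L).flatMap fun u => (targets L).flatMap fun t => (c u t).1,
    (starts L).flatMap fun u => (targets L).flatMap fun t => (c u t).2), h0, ?_⟩
  intro u hu t ht
  rcases hc u hu t ht with h1 | h1 | h1 | ⟨e, he, h1⟩ | ⟨e, he, h1⟩
  · exact Or.inl h1
  · exact Or.inr (Or.inl h1)
  · exact Or.inr (Or.inr (Or.inl h1))
  · refine Or.inr (Or.inr (Or.inr (Or.inl ⟨e, ?_, h1⟩)))
    exact List.mem_flatMap.2 ⟨u, hu, List.mem_flatMap.2 ⟨t, ht, he⟩⟩
  · refine Or.inr (Or.inr (Or.inr (Or.inr ⟨e, ?_, h1⟩)))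
    exact List.mem_flatMap.2 ⟨u, hu, List.mem_flatMap.2 ⟨t, ht, he⟩⟩

/-! ### computability of the checks -/

theorem pp_yes : PrimrecRel YesChk := by
  have h1 : PrimrecPred fun p : List Q4 × List Q4 => p.2 ≠ [] :=
    (pp_eq Primrec.snd (Primrec.const [])).not
  have h2 : PrimrecPred fun p : List Q4 × List Q4 => ∀ x ∈ p.2, x ∈ p.1 := by
    refine pp_forall (R := fun (x : Q4) (p : List Q4 × List Q4) => x ∈ p.1) Primrec.snd ?_
    have : PrimrecPred fun p : Q4 × (List Q4 × List Q4) => ∃ y ∈ p.2.1, y = p.1 := by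
      refine pp_exists (R := fun (y : Q4) (p : Q4 × (List Q4 × List Q4)) => y = p.1)
        (pfst Primrec.snd) ?_
      exact pp_eq Primrec.fst (pfst Primrec.snd)
    exact this.of_eq fun p => by simp
  have h3 : Primrec fun p : List Q4 × List Q4 => prodQ p.2 := by
    unfold prodQ
    refine Primrec.list_foldr (h := fun (_ : List Q4 × List Q4) (q : Q4 × Q4) => mulQ q.1 q.2)
      Primrec.snd (Primrec.const _) ?_
    have hA : Primrec fun q : (List Q4 × List Q4) × (Q4 × Q4) => q.2.1 := pfst Primrec.snd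
    have hB : Primrec fun q : (List Q4 × List Q4) × (Q4 × Q4) => q.2.2 := psnd Primrec.snd
    have a0 := pfst hA
    have a1 := pfst (psnd hA)
    have a2 := pfst (psnd (psnd hA))
    have a3 := psnd (psnd (psnd hA))
    have b0 := pfst hB
    have b1 := pfst (psnd hB)
    have b2 := pfst (psnd (psnd hB))
    have b3 := psnd (psnd (psnd hB))
    exact Primrec.pair (padd (pmul a0 b0) (pmul a1 b2)) (Primrec.pair
      (padd (pmul a0 b1) (pmul a1 b3)) (Primrec.pair (padd (pmul a2 b0) (pmul a3 b2))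
      (padd (pmul a2 b1) (pmul a3 b3))))
  exact h1.and (h2.and (pp_eq (pfst h3) (Primrec.const 0)))

theorem p_starts : Primrec starts := by
  refine (Primrec.list_cons.comp (Primrec.const (1, 0)) (Primrec.list_flatMap
    (f := fun L : List Q4 => L)
    (g := fun (_ : List Q4) (A : Q4) => if dt A = 0 then
      [((A.1, A.2.2.1) : V2), (A.2.1, A.2.2.2)] else []) Primrec.id ?_))
  have hA : Primrec fun q : List Q4 × Q4 => q.2 := Primrec.snd
  refine Primrec.ite (pp_eq (p_dt hA) (Primrec.const 0)) ?_ (Primrec.const [])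
  exact Primrec.list_cons.comp (Primrec.pair (pfst hA) (pfst (psnd (psnd hA))))
    (Primrec.list_cons.comp (Primrec.pair (pfst (psnd hA)) (psnd (psnd (psnd hA))))
      (Primrec.const []))

theorem p_targets : Primrec targets := by
  refine (Primrec.list_cons.comp (Primrec.const (1, 0)) (Primrec.list_flatMap
    (f := fun L : List Q4 => L)
    (g := fun (_ : List Q4) (A : Q4) => if dt A = 0 then
      [((A.1, A.2.1) : V2), (A.2.2.1, A.2.2.2)] else []) Primrec.id ?_))
  have hA : Primrec fun q : List Q4 × Q4 => q.2 := Primrec.snd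
  refine Primrec.ite (pp_eq (p_dt hA) (Primrec.const 0)) ?_ (Primrec.const [])
  exact Primrec.list_cons.comp (Primrec.pair (pfst hA) (pfst (psnd hA)))
    (Primrec.list_cons.comp (Primrec.pair (pfst (psnd (psnd hA))) (psnd (psnd (psnd hA))))
      (Primrec.const []))

theorem pp_no : PrimrecRel NoChk := by
  have h1 : PrimrecPred fun p : List Q4 × (List C1 × List C2) => ∀ A ∈ p.1, A ≠ 0 :=
    pp_forall (R := fun (A : Q4) (_ : List Q4 × (List C1 × List C2)) => A ≠ 0) Primrec.fst
      (pp_eq Primrec.fst (Primrec.const 0)).not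
  refine h1.and ?_
  refine pp_forall (R := fun (u : V2) (p : List Q4 × (List C1 × List C2)) =>
    ∀ t ∈ targets p.1, u = 0 ∨ t = 0 ∨ Chk0 p.1 u t ∨
    (∃ e ∈ p.2.1, Chk1 p.1 u t e) ∨ (∃ e ∈ p.2.2, Chk2 p.1 u t e))
    (p_starts.comp Primrec.fst) ?_
  refine pp_forall (R := fun (t : V2) (q : V2 × (List Q4 × (List C1 × List C2))) =>
    q.1 = 0 ∨ t = 0 ∨ Chk0 q.2.1 q.1 t ∨
    (∃ e ∈ q.2.2.1, Chk1 q.2.1 q.1 t e) ∨ (∃ e ∈ q.2.2.2, Chk2 q.2.1 q.1 t e))
    (p_targets.comp (pfst Primrec.snd)) ?_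
  have hL : Primrec fun q : V2 × (V2 × (List Q4 × (List C1 × List C2))) => q.2.2.1 :=
    pfst (psnd Primrec.snd)
  have hu : Primrec fun q : V2 × (V2 × (List Q4 × (List C1 × List C2))) => q.2.1 :=
    pfst Primrec.snd
  have ht : Primrec fun q : V2 × (V2 × (List Q4 × (List C1 × List C2))) => q.1 := Primrec.fst
  have hctx : Primrec fun q : V2 × (V2 × (List Q4 × (List C1 × List C2))) =>
      ((q.2.2.1, q.2.1, q.1) : Ctx) := Primrec.pair hL (Primrec.pair hu ht)
  have hc1 : Primrec fun q : V2 × (V2 × (List Q4 × (List C1 × List C2))) => q.2.2.2.1 :=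
    pfst (psnd (psnd Primrec.snd))
  have hc2 : Primrec fun q : V2 × (V2 × (List Q4 × (List C1 × List C2))) => q.2.2.2.2 :=
    psnd (psnd (psnd Primrec.snd))
  refine (pp_eq hu (Primrec.const 0)).or ((pp_eq ht (Primrec.const 0)).or
    ((pp_chk0.comp hctx).or (PrimrecPred.or ?_ ?_)))
  · refine pp_exists (R := fun (e : C1) (q : V2 × (V2 × (List Q4 × (List C1 × List C2)))) =>
      Chk1 q.2.2.1 q.2.1 q.1 e) hc1 ?_
    exact pp_chk1.comp (Primrec.pair (hctx.comp Primrec.snd) Primrec.fst)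
  · refine pp_exists (R := fun (e : C2) (q : V2 × (V2 × (List Q4 × (List C1 × List C2)))) =>
      Chk2 q.2.2.1 q.2.1 q.1 e) hc2 ?_
    exact pp_chk2.comp (Primrec.pair (hctx.comp Primrec.snd) Primrec.fst)

/-- The algorithm. -/
theorem algo : ∃ f : List Q4 →. Bool, Partrec f ∧
    (∀ L b, b ∈ f L → (b = true ↔ ZC L)) ∧
    (∀ L, (∀ u w : V2, u ≠ 0 → w ≠ 0 → Reach L u w ∨ Chk0 L u w ∨ (∃ e, Chk1 L u w e) ∨
      (∃ e, Chk2 L u w e)) → (f L).Dom) := by
  obtain ⟨f, hf, h1, h2⟩ := search YesChk NoChk pp_yes pp_no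
  refine ⟨f, hf, ?_, ?_⟩
  · intro L b hb
    rcases h1 L b hb with ⟨rfl, hy⟩ | ⟨rfl, cs, hn⟩
    · exact ⟨fun _ => yes_iff.1 hy, fun _ => rfl⟩
    · exact ⟨fun h => absurd h (by simp), fun h => absurd h (nochk_sound hn)⟩
  · intro L hL
    apply h2
    by_cases hz : ZC L
    · exact Or.inl (yes_iff.2 hz)
    · exact Or.inr (nochk_complete hL hz)

end Pool.Agent.Helper425_zc
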