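import Pool.Agent.Helper425_zc.Algo

set_option autoImplicit false

namespace Pool.Agent.Helper425_zc

variable {γ : Type}

/-- No-certificates built from an arbitrary kind of certificates for pairs. -/
def NoChkG (Chk : List Q4 → V2 → V2 → γ → Prop) (L : List Q4) (cs : List γ) : Prop :=
  (∀ A ∈ L, A ≠ 0) ∧ ∀ u ∈ starts L, ∀ t ∈ targets L, u = 0 ∨ t = 0 ∨ Chk0 L u t ∨
    (∃ e ∈ cs, Chk L u t e)

theorem nochkG_sound {Chk : List Q4 → V2 → V2 → γ → Prop}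
    (hs : ∀ L u w e, Chk L u w e → ¬ Reach L u w) {L : List Q4} {cs : List γ}
    (h : NoChkG Chk L cs) : ¬ ZC L := by
  apply not_zc_of_not_reach h.1
  intro u hu t ht
  rcases h.2 u hu t ht with h1 | h1 | h1 | ⟨e, _, h1⟩
  · exact Or.inl h1
  · exact Or.inr (Or.inl h1)
  · exact Or.inr (Or.inr (sound0 h1))
  · exact Or.inr (Or.inr (hs _ _ _ _ h1))

theorem nochkG_complete {Chk : List Q4 → V2 → V2 → γ → Prop} {L : List Q4}
    (h : ∀ u w : V2, u ≠ 0 → w ≠ 0 → Reach L u w ∨ Chk0 L u w ∨ (∃ e, Chk L u w e))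
    (hz : ¬ ZC L) : ∃ cs, NoChkG Chk L cs := by
  classical
  have h0 : ∀ A ∈ L, A ≠ 0 := by
    rintro A hA rfl
    apply hz
    refine ⟨_, Subsemigroup.subset_closure ⟨0, hA, rfl⟩, ?_⟩
    simp
  have key : ∀ u ∈ starts L, ∀ t ∈ targets L, ∃ cs : List γ, u = 0 ∨ t = 0 ∨
      Chk0 L u t ∨ (∃ e ∈ cs, Chk L u t e) := by
    intro u hu t ht
    by_cases hu0 : u = 0
    · exact ⟨[], Or.inl hu0⟩
    by_cases ht0 : t = 0
    · exact ⟨[], Or.inr (Or.inl ht0)⟩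
    rcases h u t hu0 ht0 with h1 | h1 | ⟨e, h1⟩
    · exact absurd h1 (not_reach_of_not_zc hz hu ht hu0 ht0)
    · exact ⟨[], Or.inr (Or.inr (Or.inl h1))⟩
    · exact ⟨[e], Or.inr (Or.inr (Or.inr ⟨e, by simp, h1⟩))⟩
  choose! c hc using key
  refine ⟨(starts L).flatMap fun u => (targets L).flatMap fun t => c u t, h0, ?_⟩
  intro u hu t ht
  rcases hc u hu t ht with h1 | h1 | h1 | ⟨e, he, h1⟩
  · exact Or.inl h1
  · exact Or.inr (Or.inl h1)
  · exact Or.inr (Or.inr (Or.inl h1))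
  · refine Or.inr (Or.inr (Or.inr ⟨e, ?_, h1⟩))
    exact List.mem_flatMap.2 ⟨u, hu, List.mem_flatMap.2 ⟨t, ht, he⟩⟩

theorem pp_noG [Primcodable γ] {Chk : List Q4 → V2 → V2 → γ → Prop}
    (hp : PrimrecPred fun p : Ctx × γ => Chk p.1.1 p.1.2.1 p.1.2.2 p.2) :
    PrimrecRel (NoChkG Chk) := by
  have h1 : PrimrecPred fun p : List Q4 × List γ => ∀ A ∈ p.1, A ≠ 0 :=
    pp_forall (R := fun (A : Q4) (_ : List Q4 × List γ) => A ≠ 0) Primrec.fst
      (pp_eq Primrec.fst (Primrec.const 0)).not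
  refine h1.and ?_
  refine pp_forall (R := fun (u : V2) (p : List Q4 × List γ) =>
    ∀ t ∈ targets p.1, u = 0 ∨ t = 0 ∨ Chk0 p.1 u t ∨ (∃ e ∈ p.2, Chk p.1 u t e))
    (p_starts.comp Primrec.fst) ?_
  refine pp_forall (R := fun (t : V2) (q : V2 × (List Q4 × List γ)) =>
    q.1 = 0 ∨ t = 0 ∨ Chk0 q.2.1 q.1 t ∨ (∃ e ∈ q.2.2, Chk q.2.1 q.1 t e))
    (p_targets.comp (pfst Primrec.snd)) ?_
  have hL : Primrec fun q : V2 × (V2 × (List Q4 × List γ)) => q.2.2.1 :=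
    pfst (psnd Primrec.snd)
  have hu : Primrec fun q : V2 × (V2 × (List Q4 × List γ)) => q.2.1 :=
    pfst Primrec.snd
  have ht : Primrec fun q : V2 × (V2 × (List Q4 × List γ)) => q.1 := Primrec.fst
  have hctx : Primrec fun q : V2 × (V2 × (List Q4 × List γ)) =>
      ((q.2.2.1, q.2.1, q.1) : Ctx) := Primrec.pair hL (Primrec.pair hu ht)
  have hc1 : Primrec fun q : V2 × (V2 × (List Q4 × List γ)) => q.2.2.2 :=
    psnd (psnd Primrec.snd)
  refine (pp_eq hu (Primrec.const 0)).or ((pp_eq ht (Primrec.const 0)).or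
    ((pp_chk0.comp hctx).or ?_))
  refine pp_exists (R := fun (e : γ) (q : V2 × (V2 × (List Q4 × List γ))) =>
    Chk q.2.2.1 q.2.1 q.1 e) hc1 ?_
  exact hp.comp (Primrec.pair (hctx.comp Primrec.snd) Primrec.fst)

theorem algoG [Primcodable γ] {Chk : List Q4 → V2 → V2 → γ → Prop}
    (hp : PrimrecPred fun p : Ctx × γ => Chk p.1.1 p.1.2.1 p.1.2.2 p.2)
    (hs : ∀ L u w e, Chk L u w e → ¬ Reach L u w) :
    ∃ f : List Q4 →. Bool, Partrec f ∧
    (∀ L b, b ∈ f L → (b = true ↔ ZC L)) ∧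
    (∀ L, (∀ u w : V2, u ≠ 0 → w ≠ 0 → Reach L u w ∨ Chk0 L u w ∨ (∃ e, Chk L u w e)) →
      (f L).Dom) := by
  obtain ⟨f, hf, h1, h2⟩ := search YesChk (NoChkG Chk) pp_yes (pp_noG hp)
  refine ⟨f, hf, ?_, ?_⟩
  · intro L b hb
    rcases h1 L b hb with ⟨rfl, hy⟩ | ⟨rfl, cs, hn⟩
    · exact ⟨fun _ => yes_iff.1 hy, fun _ => rfl⟩
    · exact ⟨fun h => absurd h (by simp), fun h => absurd h (nochkG_sound hs hn)⟩
  · intro L hL
    apply h2
    by_cases hz : ZC L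
    · exact Or.inl (yes_iff.2 hz)
    · exact Or.inr (nochkG_complete hL hz)

end Pool.Agent.Helper425_zc
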