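import Mathlib

set_option autoImplicit false

namespace Pool.Agent.Helper425_zc

/-- Entries `a, b, c, d` of a 2x2 matrix, row by row. -/
abbrev Q4 := ℤ × ℤ × ℤ × ℤ
/-- Integer vectors of length two. -/
abbrev V2 := ℤ × ℤ

def toM (x : Q4) : Matrix (Fin 2) (Fin 2) ℤ := !![x.1, x.2.1; x.2.2.1, x.2.2.2]

def dt (A : Q4) : ℤ := A.1 * A.2.2.2 - A.2.1 * A.2.2.1

def act (A : Q4) (v : V2) : V2 := (A.1 * v.1 + A.2.1 * v.2, A.2.2.1 * v.1 + A.2.2.2 * v.2)

def dot (w v : V2) : ℤ := w.1 * v.1 + w.2 * v.2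

/-- Orbit of a vector under the nonsingular members of a list. -/
inductive Orb (L : List Q4) (u : V2) : V2 → Prop
  | base : Orb L u u
  | step (A : Q4) (v : V2) : A ∈ L → dt A ≠ 0 → Orb L u v → Orb L u (act A v)

def Reach (L : List Q4) (u w : V2) : Prop := ∃ v, Orb L u v ∧ dot w v = 0

theorem act_ne_zero {A : Q4} {v : V2} (hA : dt A ≠ 0) (hv : v ≠ 0) : act A v ≠ 0 := by
  intro h
  apply hv
  have h1 : A.1 * v.1 + A.2.1 * v.2 = 0 := congrArg Prod.fst h
  have h2 : A.2.2.1 * v.1 + A.2.2.2 * v.2 = 0 := congrArg Prod.snd h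
  have e1 : dt A * v.1 = 0 := by
    unfold dt; linear_combination A.2.2.2 * h1 - A.2.1 * h2
  have e2 : dt A * v.2 = 0 := by
    unfold dt; linear_combination A.1 * h2 - A.2.2.1 * h1
  have f1 : v.1 = 0 := (mul_eq_zero.1 e1).resolve_left hA
  have f2 : v.2 = 0 := (mul_eq_zero.1 e2).resolve_left hA
  exact Prod.ext f1 f2

theorem Orb.ne_zero {L : List Q4} {u v : V2} (hu : u ≠ 0) (h : Orb L u v) : v ≠ 0 := by
  induction h with
  | base => exact hu
  | step A v _ hd _ ih => exact act_ne_zero hd ih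

theorem Orb.trans {L : List Q4} {u v w : V2} (h1 : Orb L u v) (h2 : Orb L v w) : Orb L u w := by
  induction h2 with
  | base => exact h1
  | step A v hA hd _ ih => exact Orb.step A v hA hd ih

end Pool.Agent.Helper425_zc
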