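import Pool.Agent.Helper425_zc.Basic

set_option autoImplicit false

namespace Pool.Agent.Helper425_zc

/-! The four entries of `adj(P) * A * P`. -/
def ca (P A : Q4) : ℤ :=
  P.2.2.2 * (A.1 * P.1 + A.2.1 * P.2.2.1) - P.2.1 * (A.2.2.1 * P.1 + A.2.2.2 * P.2.2.1)
def cb (P A : Q4) : ℤ :=
  P.2.2.2 * (A.1 * P.2.1 + A.2.1 * P.2.2.2) - P.2.1 * (A.2.2.1 * P.2.1 + A.2.2.2 * P.2.2.2)
def cc (P A : Q4) : ℤ :=
  P.1 * (A.2.2.1 * P.1 + A.2.2.2 * P.2.2.1) - P.2.2.1 * (A.1 * P.1 + A.2.1 * P.2.2.1)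
def cd (P A : Q4) : ℤ :=
  P.1 * (A.2.2.1 * P.2.1 + A.2.2.2 * P.2.2.2) - P.2.2.1 * (A.1 * P.2.1 + A.2.1 * P.2.2.2)

/-! The entries of `adj(P) * v`. -/
def y1 (P : Q4) (v : V2) : ℤ := P.2.2.2 * v.1 - P.2.1 * v.2
def y2 (P : Q4) (v : V2) : ℤ := P.1 * v.2 - P.2.2.1 * v.1
/-! The entries of `w * P`. -/
def w1 (P : Q4) (w : V2) : ℤ := w.1 * P.1 + w.2 * P.2.2.1
def w2 (P : Q4) (w : V2) : ℤ := w.1 * P.2.1 + w.2 * P.2.2.2

theorem y1_act (P A : Q4) (v : V2) :
    dt P * y1 P (act A v) = ca P A * y1 P v + cb P A * y2 P v := by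
  simp only [dt, y1, y2, act, ca, cb]; ring
theorem y2_act (P A : Q4) (v : V2) :
    dt P * y2 P (act A v) = cc P A * y1 P v + cd P A * y2 P v := by
  simp only [dt, y1, y2, act, cc, cd]; ring
theorem dot_w (P : Q4) (w v : V2) :
    dt P * dot w v = w1 P w * y1 P v + w2 P w * y2 P v := by
  simp only [dt, y1, y2, w1, w2, dot]; ring

/-! ### Certificate of type 0: an invariant line. -/

def Chk0 (L : List Q4) (u w : V2) : Prop :=
  dot w u ≠ 0 ∧
    ((∀ A ∈ L, dt A = 0 ∨ u.1 * (act A u).2 = u.2 * (act A u).1) ∨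
     (∀ A ∈ L, dt A = 0 ∨
        w.1 * (w.1 * A.2.1 + w.2 * A.2.2.2) = w.2 * (w.1 * A.1 + w.2 * A.2.2.1)))

theorem par {u v : V2} (hu : u ≠ 0) (hv : v ≠ 0) (h : u.1 * v.2 = u.2 * v.1) :
    ∃ a b : ℤ, a ≠ 0 ∧ b ≠ 0 ∧ a * v.1 = b * u.1 ∧ a * v.2 = b * u.2 := by
  by_cases h1 : u.1 = 0
  · have h2 : u.2 ≠ 0 := fun h2 => hu (Prod.ext h1 h2)
    have h3 : v.1 = 0 := by
      rw [h1, zero_mul] at h
      exact (mul_eq_zero.1 h.symm).resolve_left h2
    have h4 : v.2 ≠ 0 := fun h4 => hv (Prod.ext h3 h4)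
    exact ⟨u.2, v.2, h2, h4, by rw [h3, h1]; ring, by ring⟩
  · have h4 : v.1 ≠ 0 := by
      intro h4
      rw [h4, mul_zero] at h
      exact hv (Prod.ext h4 ((mul_eq_zero.1 h).resolve_left h1))
    exact ⟨u.1, v.1, h1, h4, by ring, by rw [h]; ring⟩

theorem sound0 {L : List Q4} {u w : V2} (h : Chk0 L u w) : ¬ Reach L u w := by
  obtain ⟨h0, h | h⟩ := h
  · have hu : u ≠ 0 := by
      rintro rfl; exact h0 (by simp [dot])
    rintro ⟨v, hv, hz⟩
    have key : ∃ a b : ℤ, a ≠ 0 ∧ b ≠ 0 ∧ a * v.1 = b * u.1 ∧ a * v.2 = b * u.2 := by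
      clear hz
      induction hv with
      | base => exact ⟨1, 1, one_ne_zero, one_ne_zero, rfl, rfl⟩
      | step A v hA hd _ ih =>
        obtain ⟨a, b, ha, hb, e1, e2⟩ := ih
        obtain ⟨a', b', ha', hb', f1, f2⟩ :=
          par hu (act_ne_zero hd hu) ((h A hA).resolve_left hd)
        refine ⟨a * a', b * b', mul_ne_zero ha ha', mul_ne_zero hb hb', ?_, ?_⟩
        · simp only [act] at f1 ⊢
          linear_combination a' * A.1 * e1 + a' * A.2.1 * e2 + b * f1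
        · simp only [act] at f2 ⊢
          linear_combination a' * A.2.2.1 * e1 + a' * A.2.2.2 * e2 + b * f2
    obtain ⟨a, b, ha, hb, e1, e2⟩ := key
    have : b * dot w u = 0 := by
      simp only [dot] at hz ⊢
      linear_combination a * hz - w.1 * e1 - w.2 * e2
    exact h0 ((mul_eq_zero.1 this).resolve_left hb)
  · have hw : w ≠ 0 := by
      rintro rfl; exact h0 (by simp [dot])
    rintro ⟨v, hv, hz⟩
    have key : dot w v ≠ 0 := by
      clear hz
      induction hv with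
      | base => exact h0
      | step A v hA hd _ ih =>
        have hne : ((w.1 * A.1 + w.2 * A.2.2.1, w.1 * A.2.1 + w.2 * A.2.2.2) : V2) ≠ 0 := by
          intro h
          have g1 : w.1 * A.1 + w.2 * A.2.2.1 = 0 := congrArg Prod.fst h
          have g2 : w.1 * A.2.1 + w.2 * A.2.2.2 = 0 := congrArg Prod.snd h
          have e1 : dt A * w.1 = 0 := by
            unfold dt; linear_combination A.2.2.2 * g1 - A.2.2.1 * g2
          have e2 : dt A * w.2 = 0 := by
            unfold dt; linear_combination A.1 * g2 - A.2.1 * g1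
          exact hw (Prod.ext ((mul_eq_zero.1 e1).resolve_left hd)
            ((mul_eq_zero.1 e2).resolve_left hd))
        obtain ⟨a, b, ha, hb, f1, f2⟩ := par hw hne ((h A hA).resolve_left hd)
        intro hc
        have : b * dot w v = 0 := by
          simp only [dot, act] at hc f1 f2 ⊢
          linear_combination a * hc - v.1 * f1 - v.2 * f2
        exact ih ((mul_eq_zero.1 this).resolve_left hb)
    exact key hz

/-! ### Certificate of type 1: a congruence. -/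

/-- `P`, `(n, D, c, c')`, `K`. -/
abbrev C1 := Q4 × (ℤ × ℤ × ℤ × ℤ) × List ℤ

def Stp1 (n D c : ℤ) (P : Q4) (K : List ℤ) (A : Q4) : Prop :=
  cc P A = 0 ∧ cd P A ≠ 0 ∧ cd P A ∣ ca P A * c ∧ cd P A ∣ D * cb P A * c ∧
    ∀ r ∈ K, ∃ r' ∈ K, n * cd P A ∣ c * (cd P A * r' - ca P A * r - D * cb P A)

def Chk1 (L : List Q4) (u w : V2) (e : C1) : Prop :=
  dt e.1 ≠ 0 ∧ e.2.1.1 ∣ e.2.1.2.2.1 * e.2.1.2.2.2 - 1 ∧
  (∀ A ∈ L, dt A = 0 ∨ Stp1 e.2.1.1 e.2.1.2.1 e.2.1.2.2.1 e.1 e.2.2 A) ∧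
  (y2 e.1 u ≠ 0 ∧ y2 e.1 u ∣ e.2.1.2.1 * y1 e.1 u * e.2.1.2.2.1 ∧
    ∃ r ∈ e.2.2, e.2.1.1 * y2 e.1 u ∣ e.2.1.2.2.1 * (e.2.1.2.1 * y1 e.1 u - r * y2 e.1 u)) ∧
  (w1 e.1 w ≠ 0 ∧ w1 e.1 w ∣ e.2.1.2.1 * w2 e.1 w * e.2.1.2.2.1 ∧
    ∀ r ∈ e.2.2, ¬ (e.2.1.1 * w1 e.1 w ∣ e.2.1.2.2.1 * (e.2.1.2.1 * w2 e.1 w + r * w1 e.1 w)))

theorem sound1 {L : List Q4} {u w : V2} {e : C1} (h : Chk1 L u w e) : ¬ Reach L u w := by
  obtain ⟨P, ⟨n, D, c, c'⟩, K⟩ := e
  obtain ⟨hP, hcc, hA, ⟨hu2, hu3, r0, hr0, hu4⟩, ⟨hw1, hw2, hw3⟩⟩ := h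
  simp only at hP hcc hA hu2 hu3 hr0 hu4 hw1 hw2 hw3
  rintro ⟨v, hv, hz⟩
  have key : y2 P v ≠ 0 ∧ ∃ k : ℕ, ∃ r ∈ K, ∃ p q : ℤ, c ^ k * D * y1 P v = p * y2 P v ∧
      c ^ k * (D * y1 P v - r * y2 P v) = n * q * y2 P v := by
    clear hz
    induction hv with
    | base =>
      obtain ⟨p, hp⟩ := hu3
      obtain ⟨q, hq⟩ := hu4
      exact ⟨hu2, 1, r0, hr0, p, q, by linear_combination hp, by linear_combination hq⟩
    | step A v hAL hd _ ih =>
      obtain ⟨hy, k, r, hr, p, q, e1, e2⟩ := ih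
      obtain ⟨h1, h2, ⟨s1, h3⟩, ⟨s2, h4⟩, h5⟩ := (hA A hAL).resolve_left hd
      obtain ⟨r', hr', t, ht⟩ := h5 r hr
      have a1 := y1_act P A v
      have a2 := y2_act P A v
      rw [h1, zero_mul, zero_add] at a2
      refine ⟨?_, k + 1, r', hr', p * s1 + c ^ k * s2, s1 * q - c ^ k * t, ?_, ?_⟩
      · intro h0
        rw [h0, mul_zero] at a2
        exact mul_ne_zero h2 hy a2.symm
      · apply mul_left_cancel₀ hP
        rw [pow_succ]
        linear_combination (c ^ k * c * D) * a1 - (p * s1 + c ^ k * s2) * a2 +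
          ca P A * c * e1 + (c ^ k * y2 P v) * h4 + (p * y2 P v) * h3
      · apply mul_left_cancel₀ hP
        rw [pow_succ]
        linear_combination (c ^ k * c * D) * a1 - (c ^ k * c * r') * a2 -
          n * (s1 * q - c ^ k * t) * a2 + ca P A * c * e2 - (c ^ k * y2 P v) * ht +
          (n * q * y2 P v) * h3
  obtain ⟨hy, k, r, hr, p, q, e1, e2⟩ := key
  obtain ⟨s, hs⟩ := hw2
  have h0 : w1 P w * y1 P v + w2 P w * y2 P v = 0 := by
    rw [← dot_w, hz, mul_zero]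
  have h1 : c * D * y1 P v = - s * y2 P v := by
    apply mul_left_cancel₀ hw1
    linear_combination c * D * h0 - y2 P v * hs
  have h2 : c ^ k * (- s - c * r) = c * n * q := by
    apply mul_right_cancel₀ hy
    linear_combination c * e2 - c ^ k * h1
  have h3 : n ∣ (- s - c * r) := by
    have h4 : n ∣ c ^ k * (- s - c * r) := ⟨c * q, by rw [h2]; ring⟩
    have h5 : ∀ k : ℕ, ∀ z : ℤ, n ∣ c ^ k * z → n ∣ z := by
      intro k
      induction k with
      | zero => intro z hz; simpa using hz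
      | succ k ih =>
        intro z hz
        apply ih
        rw [pow_succ] at hz
        obtain ⟨a, ha⟩ := hz
        obtain ⟨b, hb⟩ := hcc
        refine ⟨a * c' - b * c ^ k * z, ?_⟩
        linear_combination c' * ha - c ^ k * z * hb
    exact h5 k _ h4
  obtain ⟨t, ht⟩ := h3
  apply hw3 r hr
  refine ⟨-t, ?_⟩
  linear_combination hs - w1 P w * ht

/-! ### Certificate of type 2: points and intervals. -/

/-- `P`, `(σ, E, ia, ib, ic)`, `F`. -/
abbrev C2 := Q4 × (ℤ × ℤ × ℤ × ℤ × ℤ) × List ℤ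

/-- the value `(a z + s) / d` lies in `F ∪ (ia, ib) ∪ (ic, ∞)` -/
def InK (a s d z ia ib ic : ℤ) (F : List ℤ) : Prop :=
  (∃ z' ∈ F, a * z + s = d * z') ∨
  (d * d * ia < d * (a * z + s) ∧ d * (a * z + s) < d * d * ib) ∨
  d * d * ic < d * (a * z + s)

def Stp2 (sg E ia ib ic : ℤ) (P : Q4) (F : List ℤ) (A : Q4) : Prop :=
  cc P A = 0 ∧ 0 < ca P A * cd P A ∧
  (∀ z ∈ F, InK (ca P A) (sg * E * cb P A) (cd P A) z ia ib ic F) ∧
  (ib ≤ ia ∨
    (cd P A * cd P A * ia ≤ cd P A * (ca P A * ia + sg * E * cb P A) ∧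
      cd P A * (ca P A * ib + sg * E * cb P A) ≤ cd P A * cd P A * ib) ∨
    cd P A * cd P A * ic ≤ cd P A * (ca P A * ia + sg * E * cb P A)) ∧
  cd P A * cd P A * ic ≤ cd P A * (ca P A * ic + sg * E * cb P A)

def Tgt2 (sg E ia ib ic : ℤ) (P : Q4) (F : List ℤ) (w : V2) : Prop :=
  w1 P w ≠ 0 ∧ (∀ z ∈ F, z * w1 P w ≠ - (sg * E * w2 P w)) ∧
  ¬ (ia * (w1 P w * w1 P w) < - (sg * E * w2 P w * w1 P w) ∧
      - (sg * E * w2 P w * w1 P w) < ib * (w1 P w * w1 P w)) ∧
  - (sg * E * w2 P w * w1 P w) ≤ ic * (w1 P w * w1 P w)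

def Chk2 (L : List Q4) (u w : V2) (e : C2) : Prop :=
  dt e.1 ≠ 0 ∧
  (∀ A ∈ L, dt A = 0 ∨ Stp2 e.2.1.1 e.2.1.2.1 e.2.1.2.2.1 e.2.1.2.2.2.1 e.2.1.2.2.2.2 e.1 e.2.2 A) ∧
  (y2 e.1 u ≠ 0 ∧ ∃ z ∈ e.2.2, e.2.1.1 * e.2.1.2.1 * y1 e.1 u = z * y2 e.1 u) ∧
  Tgt2 e.2.1.1 e.2.1.2.1 e.2.1.2.2.1 e.2.1.2.2.2.1 e.2.1.2.2.2.2 e.1 e.2.2 w

theorem sound2 {L : List Q4} {u w : V2} {e : C2} (h : Chk2 L u w e) : ¬ Reach L u w := by
  obtain ⟨P, ⟨sg, E, ia, ib, ic⟩, F⟩ := e
  obtain ⟨hP, hA, ⟨hu2, z0, hz0, hu3⟩, ⟨hw1, hw2, hw3, hw4⟩⟩ := h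
  simp only at hP hA hu2 hz0 hu3 hw1 hw2 hw3 hw4
  rintro ⟨v, hv, hz⟩
  have key : y2 P v ≠ 0 ∧ ((∃ z ∈ F, ((sg * E * y1 P v : ℤ) : ℚ) / (y2 P v : ℤ) = z) ∨
      ((ia : ℚ) < ((sg * E * y1 P v : ℤ) : ℚ) / (y2 P v : ℤ) ∧
        ((sg * E * y1 P v : ℤ) : ℚ) / (y2 P v : ℤ) < ib) ∨
      (ic : ℚ) < ((sg * E * y1 P v : ℤ) : ℚ) / (y2 P v : ℤ)) := by
    clear hz
    induction hv with
    | base =>
      refine ⟨hu2, Or.inl ⟨z0, hz0, ?_⟩⟩
      have : (y2 P u : ℚ) ≠ 0 := by exact_mod_cast hu2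
      rw [hu3]; push_cast; field_simp
    | step A v hAL hd _ ih =>
      obtain ⟨hy, ih⟩ := ih
      obtain ⟨h1, h2, h3, h4, h5⟩ := (hA A hAL).resolve_left hd
      have a1 := y1_act P A v
      have a2 := y2_act P A v
      rw [h1, zero_mul, zero_add] at a2
      have hd0 : cd P A ≠ 0 := by
        intro h; rw [h, mul_zero] at h2; exact lt_irrefl _ h2
      have hy' : y2 P (act A v) ≠ 0 := by
        intro h0
        rw [h0, mul_zero] at a2
        exact mul_ne_zero hd0 hy a2.symm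
      refine ⟨hy', ?_⟩
      have qy : (y2 P v : ℚ) ≠ 0 := by exact_mod_cast hy
      have qy' : (y2 P (act A v) : ℚ) ≠ 0 := by exact_mod_cast hy'
      have qd : (cd P A : ℚ) ≠ 0 := by exact_mod_cast hd0
      have qP : (dt P : ℚ) ≠ 0 := by exact_mod_cast hP
      have b1 : (dt P : ℚ) * y1 P (act A v) = ca P A * y1 P v + cb P A * y2 P v := by
        exact_mod_cast a1
      have b2 : (dt P : ℚ) * y2 P (act A v) = cd P A * y2 P v := by exact_mod_cast a2
      set a : ℚ := (ca P A : ℚ) with hadef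
      set b : ℚ := (cb P A : ℚ) with hbdef
      set d : ℚ := (cd P A : ℚ) with hddef
      set x : ℚ := ((sg * E * y1 P v : ℤ) : ℚ) / (y2 P v : ℤ) with hx
      have hx' : ((sg * E * y1 P (act A v) : ℤ) : ℚ) / (y2 P (act A v) : ℤ) =
          (a * x + sg * E * b) / d := by
        have hx1 : x * (y2 P v : ℤ) = sg * E * y1 P v := by
          rw [hx]; push_cast; field_simp
        rw [div_eq_div_iff qy' qd]
        apply mul_left_cancel₀ qP
        push_cast
        apply mul_left_cancel₀ qy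
        have : (dt P : ℚ) * (y2 P (act A v) : ℚ) = d * y2 P v := b2
        linear_combination (sg * E * d * (y2 P v : ℚ)) * b1 -
          ((a * x + sg * E * b) * (y2 P v : ℚ)) * b2 - (a * d * (y2 P v : ℚ)) * hx1
      rw [hx']
      have ad : 0 < a * d := by
        have : (0 : ℚ) < ((ca P A * cd P A : ℤ) : ℚ) := by exact_mod_cast h2
        simpa using this
      have dd : 0 < d * d := mul_self_pos.2 qd
      have mono : ∀ s t : ℚ, s < t → (a * s + sg * E * b) / d < (a * t + sg * E * b) / d := by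
        intro s t hst
        have h0 : (a * t + sg * E * b) / d - (a * s + sg * E * b) / d =
            (a * d) * (t - s) / (d * d) := by field_simp; ring
        have h1 : 0 < (a * d) * (t - s) / (d * d) :=
          div_pos (mul_pos ad (by linarith)) dd
        linarith
      have conv : ∀ (z t : ℤ), cd P A * cd P A * t < cd P A * (ca P A * z + sg * E * cb P A) →
          (t : ℚ) < (a * z + sg * E * b) / d := by
        intro z t hz
        have h0 : d * d * t < d * (a * z + sg * E * b) := by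
          rw [hadef, hbdef, hddef]; exact_mod_cast hz
        have h1 : (a * z + sg * E * b) / d = d * (a * z + sg * E * b) / (d * d) := by
          field_simp
        rw [h1, lt_div_iff₀ dd]; linarith
      have conv' : ∀ (z t : ℤ), cd P A * (ca P A * z + sg * E * cb P A) < cd P A * cd P A * t →
          (a * z + sg * E * b) / d < (t : ℚ) := by
        intro z t hz
        have h0 : d * (a * z + sg * E * b) < d * d * t := by
          rw [hadef, hbdef, hddef]; exact_mod_cast hz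
        have h1 : (a * z + sg * E * b) / d = d * (a * z + sg * E * b) / (d * d) := by
          field_simp
        rw [h1, div_lt_iff₀ dd]; linarith
      have convl : ∀ (z t : ℤ), cd P A * cd P A * t ≤ cd P A * (ca P A * z + sg * E * cb P A) →
          (t : ℚ) ≤ (a * z + sg * E * b) / d := by
        intro z t hz
        have h0 : d * d * t ≤ d * (a * z + sg * E * b) := by
          rw [hadef, hbdef, hddef]; exact_mod_cast hz
        have h1 : (a * z + sg * E * b) / d = d * (a * z + sg * E * b) / (d * d) := by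
          field_simp
        rw [h1, le_div_iff₀ dd]; linarith
      have convl' : ∀ (z t : ℤ), cd P A * (ca P A * z + sg * E * cb P A) ≤ cd P A * cd P A * t →
          (a * z + sg * E * b) / d ≤ (t : ℚ) := by
        intro z t hz
        have h0 : d * (a * z + sg * E * b) ≤ d * d * t := by
          rw [hadef, hbdef, hddef]; exact_mod_cast hz
        have h1 : (a * z + sg * E * b) / d = d * (a * z + sg * E * b) / (d * d) := by
          field_simp
        rw [h1, div_le_iff₀ dd]; linarith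
      rcases ih with ⟨z, hz, hxz⟩ | ⟨g1, g2⟩ | g
      · rw [hxz]
        rcases h3 z hz with ⟨z', hz', e⟩ | ⟨e1, e2⟩ | e
        · left
          refine ⟨z', hz', ?_⟩
          rw [div_eq_iff qd]
          have : ((ca P A * z + sg * E * cb P A : ℤ) : ℚ) = ((cd P A * z' : ℤ) : ℚ) := by rw [e]
          push_cast at this
          rw [hadef, hbdef, hddef]; linarith
        · right; left
          exact ⟨conv z ia e1, conv' z ib e2⟩
        · right; right
          exact conv z ic e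
      · rcases h4 with e | ⟨e1, e2⟩ | e
        · exfalso
          have : (ib : ℚ) ≤ ia := by exact_mod_cast e
          linarith
        · right; left
          exact ⟨lt_of_le_of_lt (convl ia ia e1) (mono _ _ g1),
            lt_of_lt_of_le (mono _ _ g2) (convl' ib ib e2)⟩
        · right; right
          exact lt_of_le_of_lt (convl ia ic e) (mono _ _ g1)
      · right; right
        exact lt_of_le_of_lt (convl ic ic h5) (mono _ _ g)
  obtain ⟨hy, key⟩ := key
  have qy : (y2 P v : ℚ) ≠ 0 := by exact_mod_cast hy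
  have qw : (w1 P w : ℚ) ≠ 0 := by exact_mod_cast hw1
  have h0 : w1 P w * y1 P v + w2 P w * y2 P v = 0 := by
    rw [← dot_w, hz, mul_zero]
  have h0q : (w1 P w : ℚ) * y1 P v + w2 P w * y2 P v = 0 := by exact_mod_cast h0
  have hx : ((sg * E * y1 P v : ℤ) : ℚ) / (y2 P v : ℤ) = - (sg * E * w2 P w) / w1 P w := by
    rw [div_eq_div_iff qy qw]
    push_cast
    linear_combination sg * E * h0q
  rw [hx] at key
  have ww : (0 : ℚ) < (w1 P w : ℚ) * w1 P w := mul_self_pos.2 qw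
  have hx2 : - ((sg : ℚ) * E * w2 P w) / w1 P w =
      (- (sg * E * w2 P w * w1 P w)) / (w1 P w * w1 P w) := by field_simp
  rcases key with ⟨z, hz, e⟩ | ⟨e1, e2⟩ | e
  · apply hw2 z hz
    rw [div_eq_iff qw] at e
    have : ((z * w1 P w : ℤ) : ℚ) = ((-(sg * E * w2 P w) : ℤ) : ℚ) := by
      push_cast; linarith
    exact_mod_cast this
  · apply hw3
    rw [hx2] at e1 e2
    rw [lt_div_iff₀ ww] at e1
    rw [div_lt_iff₀ ww] at e2
    constructor
    · exact_mod_cast e1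
    · exact_mod_cast e2
  · rw [hx2, lt_div_iff₀ ww] at e
    have : ic * (w1 P w * w1 P w) < - (sg * E * w2 P w * w1 P w) := by exact_mod_cast e
    omega

end Pool.Agent.Helper425_zc
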