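import Pool.Agent.Helper425_zc.Aff6
import Pool.Agent.Helper425_zc.Cert

set_option autoImplicit false

namespace Pool.Agent.Helper425_zc

/-- the affine map induced by `A` in the basis `P` -/
def af (P A : Q4) : ℚ × ℚ := ((ca P A : ℚ) / cd P A, (cb P A : ℚ) / cd P A)

/-- the affine maps of the nonsingular members of `L` -/
def gset (P : Q4) (L : List Q4) : Finset (ℚ × ℚ) :=
  ((L.filter fun A => dt A ≠ 0).map (af P)).toFinset

theorem mem_gset {P : Q4} {L : List Q4} {f : ℚ × ℚ} :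
    f ∈ gset P L ↔ ∃ A ∈ L, dt A ≠ 0 ∧ af P A = f := by
  simp only [gset, List.mem_toFinset, List.mem_map, List.mem_filter, decide_eq_true_eq]
  constructor
  · rintro ⟨A, ⟨h1, h2⟩, h3⟩; exact ⟨A, h1, h2, h3⟩
  · rintro ⟨A, h1, h2, h3⟩; exact ⟨A, ⟨h1, h2⟩, h3⟩

theorem det_conj (P A : Q4) : ca P A * cd P A - cb P A * cc P A = dt P * dt P * dt A := by
  simp only [ca, cb, cc, cd, dt]; ring

theorem cd_ne {P A : Q4} (hP : dt P ≠ 0) (hA : dt A ≠ 0) (hc : cc P A = 0) :
    ca P A ≠ 0 ∧ cd P A ≠ 0 := by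
  have h := det_conj P A
  rw [hc, mul_zero, sub_zero] at h
  have h2 : ca P A * cd P A ≠ 0 := by
    rw [h]; exact mul_ne_zero (mul_ne_zero hP hP) hA
  exact ⟨left_ne_zero_of_mul h2, right_ne_zero_of_mul h2⟩

/-- coordinate of the line spanned by `v` -/
def xc (P : Q4) (v : V2) : ℚ := (y1 P v : ℚ) / y2 P v

theorem xc_act {P A : Q4} {v : V2} (hP : dt P ≠ 0) (hA : dt A ≠ 0) (hc : cc P A = 0)
    (hv : y2 P v ≠ 0) : y2 P (act A v) ≠ 0 ∧ xc P (act A v) = ev (af P A) (xc P v) := by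
  obtain ⟨h1, h2⟩ := cd_ne hP hA hc
  have a1 := y1_act P A v
  have a2 := y2_act P A v
  rw [hc, zero_mul, zero_add] at a2
  have hy' : y2 P (act A v) ≠ 0 := by
    intro h0
    rw [h0, mul_zero] at a2
    exact mul_ne_zero h2 hv a2.symm
  refine ⟨hy', ?_⟩
  have qy : (y2 P v : ℚ) ≠ 0 := by exact_mod_cast hv
  have qy' : (y2 P (act A v) : ℚ) ≠ 0 := by exact_mod_cast hy'
  have qd : (cd P A : ℚ) ≠ 0 := by exact_mod_cast h2
  have qP : (dt P : ℚ) ≠ 0 := by exact_mod_cast hP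
  have b1 : (dt P : ℚ) * y1 P (act A v) = ca P A * y1 P v + cb P A * y2 P v := by
    exact_mod_cast a1
  have b2 : (dt P : ℚ) * y2 P (act A v) = cd P A * y2 P v := by exact_mod_cast a2
  simp only [xc, ev, af]
  have e : (ca P A : ℚ) / cd P A * ((y1 P v : ℚ) / y2 P v) + (cb P A : ℚ) / cd P A =
      (ca P A * y1 P v + cb P A * y2 P v) / (cd P A * y2 P v) := by
    field_simp
  rw [e, ← b1, ← b2]
  field_simp

theorem orb_of_rch {P : Q4} {L : List Q4} (hP : dt P ≠ 0)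
    (hL : ∀ A ∈ L, dt A ≠ 0 → cc P A = 0) {u : V2} (hu : y2 P u ≠ 0) {x : ℚ}
    (h : Rch (gset P L) (xc P u) x) : ∃ v, Orb L u v ∧ y2 P v ≠ 0 ∧ xc P v = x := by
  induction h with
  | base => exact ⟨u, Orb.base, hu, rfl⟩
  | step f y hf _ ih =>
    obtain ⟨v, hv, hv2, hx⟩ := ih
    obtain ⟨A, hA, hd, rfl⟩ := mem_gset.1 hf
    obtain ⟨h1, h2⟩ := xc_act hP hd (hL A hA hd) hv2
    exact ⟨act A v, Orb.step A v hA hd hv, h1, by rw [h2, hx]⟩

theorem reach_of_rch {P : Q4} {L : List Q4} (hP : dt P ≠ 0)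
    (hL : ∀ A ∈ L, dt A ≠ 0 → cc P A = 0) {u w : V2} (hu : y2 P u ≠ 0) (hw : w1 P w ≠ 0)
    (h : Rch (gset P L) (xc P u) (- (w2 P w : ℚ) / w1 P w)) : Reach L u w := by
  obtain ⟨v, hv, hv2, hx⟩ := orb_of_rch hP hL hu h
  refine ⟨v, hv, ?_⟩
  have h1 := dot_w P w v
  have qy : (y2 P v : ℚ) ≠ 0 := by exact_mod_cast hv2
  have qw : (w1 P w : ℚ) ≠ 0 := by exact_mod_cast hw
  have h2 : (w1 P w : ℚ) * y1 P v + w2 P w * y2 P v = 0 := by
    simp only [xc] at hx
    rw [div_eq_div_iff qy qw] at hx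
    linarith
  have h3 : w1 P w * y1 P v + w2 P w * y2 P v = 0 := by exact_mod_cast h2
  rw [h3] at h1
  exact (mul_eq_zero.1 h1).resolve_left hP

/-! ### rational certificates give integer certificates -/

theorem chk1_of_cert1q {P : Q4} {L : List Q4} (hP : dt P ≠ 0)
    (hL : ∀ A ∈ L, dt A ≠ 0 → cc P A = 0) {u w : V2} (hu : y2 P u ≠ 0) (hw : w1 P w ≠ 0)
    (h : Cert1q (gset P L) (xc P u) (- (w2 P w : ℚ) / w1 P w)) : ∃ e : C1, Chk1 L u w e := by
  obtain ⟨n, D, c, c', K, hcc, hc0, hG, ⟨a0, ha0, r0, hr0, hr0'⟩, ⟨aq, haq, hqr⟩⟩ := h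
  have qu : (y2 P u : ℚ) ≠ 0 := by exact_mod_cast hu
  have qw : (w1 P w : ℚ) ≠ 0 := by exact_mod_cast hw
  refine ⟨(P, (n, D, c, c'), K), hP, hcc, ?_, ⟨hu, ?_, ?_⟩, ⟨hw, ?_, ?_⟩⟩
  · intro A hA
    by_cases hd : dt A = 0
    · exact Or.inl hd
    right
    have hc := hL A hA hd
    obtain ⟨h1, h2⟩ := cd_ne hP hd hc
    have qd : (cd P A : ℚ) ≠ 0 := by exact_mod_cast h2
    obtain ⟨α, β, e1, e2, h3⟩ := hG (af P A) (mem_gset.2 ⟨A, hA, hd, rfl⟩)
    have f1 : ca P A * c = cd P A * α := by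
      have : (ca P A : ℚ) * c = cd P A * α := by
        rw [← e1]; simp only [af]; field_simp
      exact_mod_cast this
    have f2 : D * cb P A * c = cd P A * β := by
      have : (D : ℚ) * cb P A * c = cd P A * β := by
        rw [← e2]; simp only [af]; field_simp
      exact_mod_cast this
    refine ⟨hc, h2, ⟨α, f1⟩, ⟨β, f2⟩, ?_⟩
    intro r hr
    obtain ⟨r', hr', j, hj⟩ := h3 r hr
    refine ⟨r', hr', j, ?_⟩
    show c * (cd P A * r' - ca P A * r - D * cb P A) = n * cd P A * j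
    linear_combination cd P A * hj - r * f1 - f2
  · show y2 P u ∣ D * y1 P u * c
    refine ⟨a0, ?_⟩
    have : (D : ℚ) * y1 P u * c = y2 P u * a0 := by
      rw [← ha0]; simp only [xc]; field_simp
    exact_mod_cast this
  · refine ⟨r0, hr0, ?_⟩
    obtain ⟨j, hj⟩ := hr0'
    refine ⟨j, ?_⟩
    show c * (D * y1 P u - r0 * y2 P u) = n * y2 P u * j
    have h1 : c * D * y1 P u = a0 * y2 P u := by
      have : (c : ℚ) * D * y1 P u = a0 * y2 P u := by
        rw [← ha0]; simp only [xc]; field_simp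
      exact_mod_cast this
    linear_combination h1 + y2 P u * hj
  · show w1 P w ∣ D * w2 P w * c
    refine ⟨-aq, ?_⟩
    have : (D : ℚ) * w2 P w * c = w1 P w * (-aq) := by
      rw [← haq]; field_simp
    exact_mod_cast this
  · intro r hr hdvd
    apply hqr r hr
    obtain ⟨j, hj⟩ := hdvd
    have hj' : c * (D * w2 P w + r * w1 P w) = n * w1 P w * j := hj
    have h1 : c * D * w2 P w = - aq * w1 P w := by
      have : (c : ℚ) * D * w2 P w = - aq * w1 P w := by
        rw [← haq]; field_simp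
      exact_mod_cast this
    refine ⟨-j, ?_⟩
    apply mul_left_cancel₀ hw
    linear_combination h1 - hj'

theorem chk2_of_cert2q {P : Q4} {L : List Q4} (hP : dt P ≠ 0)
    (hL : ∀ A ∈ L, dt A ≠ 0 → cc P A = 0) {u w : V2} (hu : y2 P u ≠ 0) (hw : w1 P w ≠ 0)
    (sg : ℤ) (G : Finset (ℚ × ℚ))
    (hG : ∀ A ∈ L, dt A ≠ 0 → ((af P A).1, (sg : ℚ) * (af P A).2) ∈ G)
    (h : Cert2q G (sg * xc P u) (sg * (- (w2 P w : ℚ) / w1 P w))) : ∃ e : C2, Chk2 L u w e := by
  classical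
  obtain ⟨F, a, b, c, hF, hx, hq⟩ := h
  have qu : (y2 P u : ℚ) ≠ 0 := by exact_mod_cast hu
  have qw : (w1 P w : ℚ) ≠ 0 := by exact_mod_cast hw
  obtain ⟨E, hE, hE'⟩ := common_den (insert a (insert b (insert c F)))
  have hEq : (0 : ℚ) < E := by exact_mod_cast hE
  obtain ⟨ia, hia⟩ := hE' a (by simp)
  obtain ⟨ib, hib⟩ := hE' b (by simp)
  obtain ⟨ic, hic⟩ := hE' c (by simp)
  have hEF : ∀ z ∈ F, ∃ j : ℤ, (E : ℚ) * z = j := fun z hz => hE' z (by simp [hz])
  -- the list of integers E z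
  obtain ⟨Fl, hFl⟩ : ∃ Fl : List ℤ, ∀ j : ℤ, j ∈ Fl ↔ ∃ z ∈ F, (E : ℚ) * z = j := by
    refine ⟨F.toList.map fun z => ⌊(E : ℚ) * z⌋, fun j => ?_⟩
    rw [List.mem_map]
    constructor
    · rintro ⟨z, hz, rfl⟩
      rw [Finset.mem_toList] at hz
      obtain ⟨k, hk⟩ := hEF z hz
      refine ⟨z, hz, ?_⟩
      rw [hk, Int.floor_intCast]
    · rintro ⟨z, hz, hzj⟩
      exact ⟨z, Finset.mem_toList.2 hz, by rw [hzj, Int.floor_intCast]⟩
  refine ⟨(P, (sg, E, ia, ib, ic), Fl), hP, ?_, ⟨hu, ?_⟩, ⟨hw, ?_, ?_, ?_⟩⟩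
  · intro A hA
    by_cases hd : dt A = 0
    · exact Or.inl hd
    right
    have hc := hL A hA hd
    obtain ⟨h1, h2⟩ := cd_ne hP hd hc
    have qd : (cd P A : ℚ) ≠ 0 := by exact_mod_cast h2
    have dd : (0 : ℚ) < (cd P A : ℚ) * cd P A := mul_self_pos.2 qd
    obtain ⟨g1, g2, g3, g4⟩ := hF _ (hG A hA hd)
    -- values
    have hval : ∀ (z : ℚ) (j : ℤ), (E : ℚ) * z = j →
        (cd P A : ℚ) * (ca P A * j + sg * E * cb P A) =
          (cd P A * cd P A) * (E * ev ((af P A).1, (sg : ℚ) * (af P A).2) z) := by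
      intro z j hz
      simp only [ev, af]
      rw [← hz]; field_simp
    have lt1 : ∀ (z y : ℚ) (j k : ℤ), (E : ℚ) * z = j → (E : ℚ) * y = k →
        y < ev ((af P A).1, (sg : ℚ) * (af P A).2) z →
        cd P A * cd P A * k < cd P A * (ca P A * j + sg * E * cb P A) := by
      intro z y j k hz hy hlt
      have h5 : ((cd P A * cd P A * k : ℤ) : ℚ) <
          ((cd P A * (ca P A * j + sg * E * cb P A) : ℤ) : ℚ) := by
        push_cast
        rw [hval z j hz, ← hy]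
        exact mul_lt_mul_of_pos_left (mul_lt_mul_of_pos_left hlt hEq) dd
      exact_mod_cast h5
    have lt2 : ∀ (z y : ℚ) (j k : ℤ), (E : ℚ) * z = j → (E : ℚ) * y = k →
        ev ((af P A).1, (sg : ℚ) * (af P A).2) z < y →
        cd P A * (ca P A * j + sg * E * cb P A) < cd P A * cd P A * k := by
      intro z y j k hz hy hlt
      have h5 : ((cd P A * (ca P A * j + sg * E * cb P A) : ℤ) : ℚ) <
          ((cd P A * cd P A * k : ℤ) : ℚ) := by
        push_cast
        rw [hval z j hz, ← hy]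
        exact mul_lt_mul_of_pos_left (mul_lt_mul_of_pos_left hlt hEq) dd
      exact_mod_cast h5
    have le1 : ∀ (z y : ℚ) (j k : ℤ), (E : ℚ) * z = j → (E : ℚ) * y = k →
        y ≤ ev ((af P A).1, (sg : ℚ) * (af P A).2) z →
        cd P A * cd P A * k ≤ cd P A * (ca P A * j + sg * E * cb P A) := by
      intro z y j k hz hy hlt
      have h5 : ((cd P A * cd P A * k : ℤ) : ℚ) ≤
          ((cd P A * (ca P A * j + sg * E * cb P A) : ℤ) : ℚ) := by
        push_cast
        rw [hval z j hz, ← hy]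
        exact mul_le_mul_of_nonneg_left (mul_le_mul_of_nonneg_left hlt hEq.le) dd.le
      exact_mod_cast h5
    have le2 : ∀ (z y : ℚ) (j k : ℤ), (E : ℚ) * z = j → (E : ℚ) * y = k →
        ev ((af P A).1, (sg : ℚ) * (af P A).2) z ≤ y →
        cd P A * (ca P A * j + sg * E * cb P A) ≤ cd P A * cd P A * k := by
      intro z y j k hz hy hlt
      have h5 : ((cd P A * (ca P A * j + sg * E * cb P A) : ℤ) : ℚ) ≤
          ((cd P A * cd P A * k : ℤ) : ℚ) := by
        push_cast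
        rw [hval z j hz, ← hy]
        exact mul_le_mul_of_nonneg_left (mul_le_mul_of_nonneg_left hlt hEq.le) dd.le
      exact_mod_cast h5
    refine ⟨hc, ?_, ?_, ?_, ?_⟩
    · have h5 : (0 : ℚ) < ((ca P A * cd P A : ℤ) : ℚ) := by
        push_cast
        have h6 : (ca P A : ℚ) * cd P A = (af P A).1 * (cd P A * cd P A) := by
          simp only [af]; field_simp
        rw [h6]; exact mul_pos g1 dd
      exact_mod_cast h5
    · intro j hj
      obtain ⟨z, hz, hzj⟩ := (hFl j).1 hj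
      rcases g2 z hz with h5 | ⟨h5, h6⟩ | h5
      · left
        obtain ⟨k, hk⟩ := hEF _ h5
        refine ⟨k, (hFl k).2 ⟨_, h5, hk⟩, ?_⟩
        have h7 := hval z j hzj
        rw [hk] at h7
        have h8 : ((ca P A * j + sg * E * cb P A : ℤ) : ℚ) = ((cd P A * k : ℤ) : ℚ) := by
          apply mul_left_cancel₀ qd
          push_cast
          linear_combination h7
        exact_mod_cast h8
      · right; left
        exact ⟨lt1 z a j ia hzj hia h5, lt2 z b j ib hzj hib h6⟩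
      · right; right
        exact lt1 z c j ic hzj hic h5
    · rcases g3 with h5 | ⟨h5, h6⟩ | h5
      · left
        have : (ib : ℚ) ≤ ia := by
          rw [← hia, ← hib]; exact mul_le_mul_of_nonneg_left h5 hEq.le
        exact_mod_cast this
      · right; left
        exact ⟨le1 a a ia ia hia hia h5, le2 b b ib ib hib hib h6⟩
      · right; right
        exact le1 a c ia ic hia hic h5
    · exact le1 c c ic ic hic hic g4
  · obtain ⟨j, hj⟩ := hEF _ hx
    refine ⟨j, (hFl j).2 ⟨_, hx, hj⟩, ?_⟩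
    show sg * E * y1 P u = j * y2 P u
    have : (sg : ℚ) * E * y1 P u = j * y2 P u := by
      rw [← hj]; simp only [xc]; field_simp
    exact_mod_cast this
  · intro j hj heq
    have heq' : j * w1 P w = -(sg * E * w2 P w) := heq
    obtain ⟨z, hz, hzj⟩ := (hFl j).1 hj
    apply hq
    left
    have : (sg : ℚ) * (-(w2 P w : ℚ) / w1 P w) = z := by
      apply mul_left_cancel₀ hEq.ne'
      rw [hzj]
      apply mul_right_cancel₀ qw
      have h6 : ((j * w1 P w : ℤ) : ℚ) = ((-(sg * E * w2 P w) : ℤ) : ℚ) := by rw [heq']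
      push_cast at h6
      rw [h6]; field_simp
    rw [this]; exact hz
  · rintro ⟨h5, h6⟩
    have h5' : ia * (w1 P w * w1 P w) < -(sg * E * w2 P w * w1 P w) := h5
    have h6' : -(sg * E * w2 P w * w1 P w) < ib * (w1 P w * w1 P w) := h6
    have ww : (0 : ℚ) < (w1 P w : ℚ) * w1 P w := mul_self_pos.2 qw
    apply hq
    right; left
    have h7 : (ia : ℚ) * (w1 P w * w1 P w) < -(sg * E * w2 P w * w1 P w) := by exact_mod_cast h5'
    have h8 : -((sg : ℚ) * E * w2 P w * w1 P w) < ib * (w1 P w * w1 P w) := by exact_mod_cast h6'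
    have h9 : -((sg : ℚ) * E * w2 P w * w1 P w) =
        (E * (sg * (-(w2 P w : ℚ) / w1 P w))) * (w1 P w * w1 P w) := by field_simp
    rw [h9, ← hia] at h7
    rw [h9, ← hib] at h8
    constructor
    · exact lt_of_mul_lt_mul_left (lt_of_mul_lt_mul_right h7 ww.le) hEq.le
    · exact lt_of_mul_lt_mul_left (lt_of_mul_lt_mul_right h8 ww.le) hEq.le
  · show -(sg * E * w2 P w * w1 P w) ≤ ic * (w1 P w * w1 P w)
    by_contra h5
    have h5' := not_le.1 h5
    have ww : (0 : ℚ) < (w1 P w : ℚ) * w1 P w := mul_self_pos.2 qw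
    apply hq
    right; right
    have h7 : (ic : ℚ) * (w1 P w * w1 P w) < -(sg * E * w2 P w * w1 P w) := by exact_mod_cast h5'
    have h9 : -((sg : ℚ) * E * w2 P w * w1 P w) =
        (E * (sg * (-(w2 P w : ℚ) / w1 P w))) * (w1 P w * w1 P w) := by field_simp
    rw [h9, ← hic] at h7
    exact lt_of_mul_lt_mul_left (lt_of_mul_lt_mul_right h7 ww.le) hEq.le

end Pool.Agent.Helper425_zc
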