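import Pool.Agent.Helper425_zc.Comp
import Pool.Agent.Helper425_zc.Cert

set_option autoImplicit false

namespace Pool.Agent.Helper425_zc

section
variable {α : Type} [Primcodable α]

theorem pfst {β γ : Type} [Primcodable β] [Primcodable γ] {f : α → β × γ} (hf : Primrec f) :
    Primrec fun a => (f a).1 := Primrec.fst.comp hf
theorem psnd {β γ : Type} [Primcodable β] [Primcodable γ] {f : α → β × γ} (hf : Primrec f) :
    Primrec fun a => (f a).2 := Primrec.snd.comp hf

theorem pp_forall {β : Type} [Primcodable β] {f : α → List β} {R : β → α → Prop}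
    (hf : Primrec f) (hR : PrimrecPred fun p : β × α => R p.1 p.2) :
    PrimrecPred fun a => ∀ b ∈ f a, R b a :=
  (PrimrecRel.forall_mem_list (R := R) hR).comp hf Primrec.id

theorem pp_exists {β : Type} [Primcodable β] {f : α → List β} {R : β → α → Prop}
    (hf : Primrec f) (hR : PrimrecPred fun p : β × α => R p.1 p.2) :
    PrimrecPred fun a => ∃ b ∈ f a, R b a :=
  (PrimrecRel.exists_mem_list (R := R) hR).comp hf Primrec.id

end

/-! Primitive recursiveness of the ingredients. -/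
section
variable {α : Type} [Primcodable α] {P A : α → Q4} {v : α → V2}

theorem p_dt (hA : Primrec A) : Primrec fun a => dt (A a) := by
  unfold dt
  repeat' first
    | exact hA
    | apply psub
    | apply pmul
    | apply pfst
    | apply psnd

theorem p_ca (hP : Primrec P) (hA : Primrec A) : Primrec fun a => ca (P a) (A a) := by
  unfold ca
  repeat' first
    | exact hA
    | exact hP
    | apply psub
    | apply padd
    | apply pmul
    | apply pfst
    | apply psnd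

theorem p_cb (hP : Primrec P) (hA : Primrec A) : Primrec fun a => cb (P a) (A a) := by
  unfold cb
  repeat' first
    | exact hA
    | exact hP
    | apply psub
    | apply padd
    | apply pmul
    | apply pfst
    | apply psnd

theorem p_cc (hP : Primrec P) (hA : Primrec A) : Primrec fun a => cc (P a) (A a) := by
  unfold cc
  repeat' first
    | exact hA
    | exact hP
    | apply psub
    | apply padd
    | apply pmul
    | apply pfst
    | apply psnd

theorem p_cd (hP : Primrec P) (hA : Primrec A) : Primrec fun a => cd (P a) (A a) := by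
  unfold cd
  repeat' first
    | exact hA
    | exact hP
    | apply psub
    | apply padd
    | apply pmul
    | apply pfst
    | apply psnd

theorem p_y1 (hP : Primrec P) (hv : Primrec v) : Primrec fun a => y1 (P a) (v a) := by
  unfold y1
  repeat' first
    | exact hv
    | exact hP
    | apply psub
    | apply padd
    | apply pmul
    | apply pfst
    | apply psnd

theorem p_y2 (hP : Primrec P) (hv : Primrec v) : Primrec fun a => y2 (P a) (v a) := by
  unfold y2
  repeat' first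
    | exact hv
    | exact hP
    | apply psub
    | apply padd
    | apply pmul
    | apply pfst
    | apply psnd

theorem p_w1 (hP : Primrec P) (hv : Primrec v) : Primrec fun a => w1 (P a) (v a) := by
  unfold w1
  repeat' first
    | exact hv
    | exact hP
    | apply psub
    | apply padd
    | apply pmul
    | apply pfst
    | apply psnd

theorem p_w2 (hP : Primrec P) (hv : Primrec v) : Primrec fun a => w2 (P a) (v a) := by
  unfold w2
  repeat' first
    | exact hv
    | exact hP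
    | apply psub
    | apply padd
    | apply pmul
    | apply pfst
    | apply psnd

theorem p_act (hA : Primrec A) (hv : Primrec v) : Primrec fun a => act (A a) (v a) := by
  unfold act
  apply Primrec.pair
  all_goals
    repeat' first
    | exact hA
    | exact hv
    | apply padd
    | apply pmul
    | apply pfst
    | apply psnd

theorem p_dot {w : α → V2} (hw : Primrec w) (hv : Primrec v) :
    Primrec fun a => dot (w a) (v a) := by
  unfold dot
  repeat' first
    | exact hw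
    | exact hv
    | apply padd
    | apply pmul
    | apply pfst
    | apply psnd

end

/-- the context `(L, u, w)` -/
abbrev Ctx := List Q4 × V2 × V2

theorem pp_chk0 : PrimrecPred fun c : Ctx => Chk0 c.1 c.2.1 c.2.2 := by
  have hu : Primrec fun c : Ctx => c.2.1 := pfst (psnd Primrec.id)
  have hw : Primrec fun c : Ctx => c.2.2 := psnd (psnd Primrec.id)
  have hA' : Primrec fun p : Q4 × Ctx => p.1 := Primrec.fst
  have hu' : Primrec fun p : Q4 × Ctx => p.2.2.1 := pfst (psnd (psnd Primrec.id))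
  have hw' : Primrec fun p : Q4 × Ctx => p.2.2.2 := psnd (psnd (psnd Primrec.id))
  have h1 : PrimrecPred fun c : Ctx => dot c.2.2 c.2.1 ≠ 0 :=
    (pp_eq (p_dot hw hu) (Primrec.const 0)).not
  have h2 : PrimrecPred fun c : Ctx => ∀ A ∈ c.1, dt A = 0 ∨
      c.2.1.1 * (act A c.2.1).2 = c.2.1.2 * (act A c.2.1).1 := by
    refine pp_forall (R := fun (A : Q4) (c : Ctx) => dt A = 0 ∨
      c.2.1.1 * (act A c.2.1).2 = c.2.1.2 * (act A c.2.1).1) Primrec.fst ?_
    exact (pp_eq (p_dt hA') (Primrec.const 0)).or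
      (pp_eq (pmul (pfst hu') (psnd (p_act hA' hu'))) (pmul (psnd hu') (pfst (p_act hA' hu'))))
  have h3 : PrimrecPred fun c : Ctx => ∀ A ∈ c.1, dt A = 0 ∨
      c.2.2.1 * (c.2.2.1 * A.2.1 + c.2.2.2 * A.2.2.2) =
        c.2.2.2 * (c.2.2.1 * A.1 + c.2.2.2 * A.2.2.1) := by
    refine pp_forall (R := fun (A : Q4) (c : Ctx) => dt A = 0 ∨
      c.2.2.1 * (c.2.2.1 * A.2.1 + c.2.2.2 * A.2.2.2) =
        c.2.2.2 * (c.2.2.1 * A.1 + c.2.2.2 * A.2.2.1)) Primrec.fst ?_
    exact (pp_eq (p_dt hA') (Primrec.const 0)).or (pp_eq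
      (pmul (pfst hw') (padd (pmul (pfst hw') (pfst (psnd hA')))
        (pmul (psnd hw') (psnd (psnd (psnd hA'))))))
      (pmul (psnd hw') (padd (pmul (pfst hw') (pfst hA'))
        (pmul (psnd hw') (pfst (psnd (psnd hA')))))))
  exact h1.and (h2.or h3)

theorem pp_chk1 : PrimrecPred fun p : Ctx × C1 => Chk1 p.1.1 p.1.2.1 p.1.2.2 p.2 := by
  unfold Chk1
  have hP : Primrec fun p : Ctx × C1 => p.2.1 := pfst Primrec.snd
  have hn : Primrec fun p : Ctx × C1 => p.2.2.1.1 := pfst (pfst (psnd Primrec.snd))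
  have hD : Primrec fun p : Ctx × C1 => p.2.2.1.2.1 := pfst (psnd (pfst (psnd Primrec.snd)))
  have hc : Primrec fun p : Ctx × C1 => p.2.2.1.2.2.1 :=
    pfst (psnd (psnd (pfst (psnd Primrec.snd))))
  have hc' : Primrec fun p : Ctx × C1 => p.2.2.1.2.2.2 :=
    psnd (psnd (psnd (pfst (psnd Primrec.snd))))
  have hK : Primrec fun p : Ctx × C1 => p.2.2.2 := psnd (psnd Primrec.snd)
  have hu : Primrec fun p : Ctx × C1 => p.1.2.1 := pfst (psnd Primrec.fst)
  have hw : Primrec fun p : Ctx × C1 => p.1.2.2 := psnd (psnd Primrec.fst)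
  have hL : Primrec fun p : Ctx × C1 => p.1.1 := pfst Primrec.fst
  refine (pp_eq (p_dt hP) (Primrec.const 0)).not.and
    ((pp_dvd hn (psub (pmul hc hc') (Primrec.const 1))).and (PrimrecPred.and ?_
      (PrimrecPred.and ?_ ?_)))
  · refine pp_forall (R := fun (A : Q4) (p : Ctx × C1) =>
      dt A = 0 ∨ Stp1 p.2.2.1.1 p.2.2.1.2.1 p.2.2.1.2.2.1 p.2.1 p.2.2.2 A) hL ?_
    unfold Stp1
    have hA : Primrec fun q : Q4 × (Ctx × C1) => q.1 := Primrec.fst
    have hP2 := hP.comp (Primrec.snd (α := Q4) (β := Ctx × C1))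
    have hn2 := hn.comp (Primrec.snd (α := Q4) (β := Ctx × C1))
    have hD2 := hD.comp (Primrec.snd (α := Q4) (β := Ctx × C1))
    have hc2 := hc.comp (Primrec.snd (α := Q4) (β := Ctx × C1))
    have hK2 := hK.comp (Primrec.snd (α := Q4) (β := Ctx × C1))
    refine (pp_eq (p_dt hA) (Primrec.const 0)).or
      ((pp_eq (p_cc hP2 hA) (Primrec.const 0)).and
        ((pp_eq (p_cd hP2 hA) (Primrec.const 0)).not.and
          ((pp_dvd (p_cd hP2 hA) (pmul (p_ca hP2 hA) hc2)).and
            ((pp_dvd (p_cd hP2 hA) (pmul (pmul hD2 (p_cb hP2 hA)) hc2)).and ?_))))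
    refine pp_forall (R := fun (r : ℤ) (q : Q4 × (Ctx × C1)) => ∃ r' ∈ q.2.2.2.2,
      q.2.2.2.1.1 * cd q.2.2.1 q.1 ∣ q.2.2.2.1.2.2.1 *
        (cd q.2.2.1 q.1 * r' - ca q.2.2.1 q.1 * r - q.2.2.2.1.2.1 * cb q.2.2.1 q.1)) hK2 ?_
    refine pp_exists (R := fun (r' : ℤ) (q : ℤ × (Q4 × (Ctx × C1))) =>
      q.2.2.2.2.1.1 * cd q.2.2.2.1 q.2.1 ∣ q.2.2.2.2.1.2.2.1 *
        (cd q.2.2.2.1 q.2.1 * r' - ca q.2.2.2.1 q.2.1 * q.1 -
          q.2.2.2.2.1.2.1 * cb q.2.2.2.1 q.2.1))
      (hK.comp (Primrec.snd.comp Primrec.snd)) ?_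
    have e1 : Primrec fun q : ℤ × (ℤ × (Q4 × (Ctx × C1))) => q.2.2.2 :=
      psnd (psnd (psnd Primrec.id))
    have hA3 : Primrec fun q : ℤ × (ℤ × (Q4 × (Ctx × C1))) => q.2.2.1 :=
      pfst (psnd (psnd Primrec.id))
    have hP3 := hP.comp e1
    have hn3 := hn.comp e1
    have hD3 := hD.comp e1
    have hc3 := hc.comp e1
    have hr : Primrec fun q : ℤ × (ℤ × (Q4 × (Ctx × C1))) => q.2.1 :=
      pfst (psnd Primrec.id)
    have hr' : Primrec fun q : ℤ × (ℤ × (Q4 × (Ctx × C1))) => q.1 := Primrec.fst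
    exact pp_dvd (pmul hn3 (p_cd hP3 hA3)) (pmul hc3 (psub (psub (pmul (p_cd hP3 hA3) hr')
      (pmul (p_ca hP3 hA3) hr)) (pmul hD3 (p_cb hP3 hA3))))
  · refine (pp_eq (p_y2 hP hu) (Primrec.const 0)).not.and
      ((pp_dvd (p_y2 hP hu) (pmul (pmul hD (p_y1 hP hu)) hc)).and ?_)
    refine pp_exists (R := fun (r : ℤ) (p : Ctx × C1) =>
      p.2.2.1.1 * y2 p.2.1 p.1.2.1 ∣
        p.2.2.1.2.2.1 * (p.2.2.1.2.1 * y1 p.2.1 p.1.2.1 - r * y2 p.2.1 p.1.2.1)) hK ?_
    have e1 : Primrec fun q : ℤ × (Ctx × C1) => q.2 := Primrec.snd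
    have hP3 := hP.comp e1
    have hn3 := hn.comp e1
    have hD3 := hD.comp e1
    have hc3 := hc.comp e1
    have hu3 := hu.comp e1
    have hr : Primrec fun q : ℤ × (Ctx × C1) => q.1 := Primrec.fst
    exact pp_dvd (pmul hn3 (p_y2 hP3 hu3)) (pmul hc3 (psub (pmul hD3 (p_y1 hP3 hu3))
      (pmul hr (p_y2 hP3 hu3))))
  · refine (pp_eq (p_w1 hP hw) (Primrec.const 0)).not.and
      ((pp_dvd (p_w1 hP hw) (pmul (pmul hD (p_w2 hP hw)) hc)).and ?_)
    refine pp_forall (R := fun (r : ℤ) (p : Ctx × C1) =>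
      ¬ (p.2.2.1.1 * w1 p.2.1 p.1.2.2 ∣
        p.2.2.1.2.2.1 * (p.2.2.1.2.1 * w2 p.2.1 p.1.2.2 + r * w1 p.2.1 p.1.2.2))) hK ?_
    have e1 : Primrec fun q : ℤ × (Ctx × C1) => q.2 := Primrec.snd
    have hP3 := hP.comp e1
    have hn3 := hn.comp e1
    have hD3 := hD.comp e1
    have hc3 := hc.comp e1
    have hw3 := hw.comp e1
    have hr : Primrec fun q : ℤ × (Ctx × C1) => q.1 := Primrec.fst
    exact (pp_dvd (pmul hn3 (p_w1 hP3 hw3)) (pmul hc3 (padd (pmul hD3 (p_w2 hP3 hw3))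
      (pmul hr (p_w1 hP3 hw3))))).not

theorem pp_inK {α : Type} [Primcodable α] {a s d z ia ib ic : α → ℤ} {F : α → List ℤ}
    (ha : Primrec a) (hs : Primrec s) (hd : Primrec d) (hz : Primrec z) (hia : Primrec ia)
    (hib : Primrec ib) (hic : Primrec ic) (hF : Primrec F) :
    PrimrecPred fun x => InK (a x) (s x) (d x) (z x) (ia x) (ib x) (ic x) (F x) := by
  unfold InK
  refine PrimrecPred.or ?_ (PrimrecPred.or (PrimrecPred.and ?_ ?_) ?_)
  · refine pp_exists (R := fun (z' : ℤ) (x : α) => a x * z x + s x = d x * z') hF ?_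
    have e1 : Primrec fun q : ℤ × α => q.2 := Primrec.snd
    exact pp_eq (padd (pmul (ha.comp e1) (hz.comp e1)) (hs.comp e1))
      (pmul (hd.comp e1) Primrec.fst)
  · exact pp_lt (pmul (pmul hd hd) hia) (pmul hd (padd (pmul ha hz) hs))
  · exact pp_lt (pmul hd (padd (pmul ha hz) hs)) (pmul (pmul hd hd) hib)
  · exact pp_lt (pmul (pmul hd hd) hic) (pmul hd (padd (pmul ha hz) hs))

theorem pp_chk2 : PrimrecPred fun p : Ctx × C2 => Chk2 p.1.1 p.1.2.1 p.1.2.2 p.2 := by
  unfold Chk2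
  have hP : Primrec fun p : Ctx × C2 => p.2.1 := pfst Primrec.snd
  have hs : Primrec fun p : Ctx × C2 => p.2.2.1.1 := pfst (pfst (psnd Primrec.snd))
  have hE : Primrec fun p : Ctx × C2 => p.2.2.1.2.1 := pfst (psnd (pfst (psnd Primrec.snd)))
  have ha : Primrec fun p : Ctx × C2 => p.2.2.1.2.2.1 :=
    pfst (psnd (psnd (pfst (psnd Primrec.snd))))
  have hb : Primrec fun p : Ctx × C2 => p.2.2.1.2.2.2.1 :=
    pfst (psnd (psnd (psnd (pfst (psnd Primrec.snd)))))
  have hc : Primrec fun p : Ctx × C2 => p.2.2.1.2.2.2.2 :=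
    psnd (psnd (psnd (psnd (pfst (psnd Primrec.snd)))))
  have hF : Primrec fun p : Ctx × C2 => p.2.2.2 := psnd (psnd Primrec.snd)
  have hu : Primrec fun p : Ctx × C2 => p.1.2.1 := pfst (psnd Primrec.fst)
  have hw : Primrec fun p : Ctx × C2 => p.1.2.2 := psnd (psnd Primrec.fst)
  have hL : Primrec fun p : Ctx × C2 => p.1.1 := pfst Primrec.fst
  refine (pp_eq (p_dt hP) (Primrec.const 0)).not.and
    (PrimrecPred.and ?_ (PrimrecPred.and ?_ ?_))
  · refine pp_forall (R := fun (A : Q4) (p : Ctx × C2) =>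
      dt A = 0 ∨ Stp2 p.2.2.1.1 p.2.2.1.2.1 p.2.2.1.2.2.1 p.2.2.1.2.2.2.1 p.2.2.1.2.2.2.2
        p.2.1 p.2.2.2 A) hL ?_
    unfold Stp2
    have e1 : Primrec fun q : Q4 × (Ctx × C2) => q.2 := Primrec.snd
    have hA : Primrec fun q : Q4 × (Ctx × C2) => q.1 := Primrec.fst
    have hP2 := hP.comp e1
    have hs2 := hs.comp e1
    have hE2 := hE.comp e1
    have ha2 := ha.comp e1
    have hb2 := hb.comp e1
    have hc2 := hc.comp e1
    have hF2 := hF.comp e1
    have kA := p_ca hP2 hA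
    have kB := p_cb hP2 hA
    have kD := p_cd hP2 hA
    refine (pp_eq (p_dt hA) (Primrec.const 0)).or
      ((pp_eq (p_cc hP2 hA) (Primrec.const 0)).and
        ((pp_lt (Primrec.const 0) (pmul kA kD)).and
          (PrimrecPred.and ?_ (PrimrecPred.and (PrimrecPred.or ?_ (PrimrecPred.or
            (PrimrecPred.and ?_ ?_) ?_)) ?_))))
    · refine pp_forall (R := fun (z : ℤ) (q : Q4 × (Ctx × C2)) =>
        InK (ca q.2.2.1 q.1) (q.2.2.2.1.1 * q.2.2.2.1.2.1 * cb q.2.2.1 q.1) (cd q.2.2.1 q.1)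
          z q.2.2.2.1.2.2.1 q.2.2.2.1.2.2.2.1 q.2.2.2.1.2.2.2.2 q.2.2.2.2) hF2 ?_
      have e2 : Primrec fun q : ℤ × (Q4 × (Ctx × C2)) => q.2 := Primrec.snd
      have e3 : Primrec fun q : ℤ × (Q4 × (Ctx × C2)) => q.2.2 := psnd e2
      have hA3 : Primrec fun q : ℤ × (Q4 × (Ctx × C2)) => q.2.1 := pfst e2
      have hz3 : Primrec fun q : ℤ × (Q4 × (Ctx × C2)) => q.1 := Primrec.fst
      exact pp_inK (p_ca (hP.comp e3) hA3) (pmul (pmul (hs.comp e3) (hE.comp e3))
        (p_cb (hP.comp e3) hA3)) (p_cd (hP.comp e3) hA3) hz3 (ha.comp e3) (hb.comp e3)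
        (hc.comp e3) (hF.comp e3)
    · exact pp_le hb2 ha2
    · exact pp_le (pmul (pmul kD kD) ha2) (pmul kD (padd (pmul kA ha2) (pmul (pmul hs2 hE2) kB)))
    · exact pp_le (pmul kD (padd (pmul kA hb2) (pmul (pmul hs2 hE2) kB))) (pmul (pmul kD kD) hb2)
    · exact pp_le (pmul (pmul kD kD) hc2) (pmul kD (padd (pmul kA ha2) (pmul (pmul hs2 hE2) kB)))
    · exact pp_le (pmul (pmul kD kD) hc2) (pmul kD (padd (pmul kA hc2) (pmul (pmul hs2 hE2) kB)))
  · refine (pp_eq (p_y2 hP hu) (Primrec.const 0)).not.and ?_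
    refine pp_exists (R := fun (z : ℤ) (p : Ctx × C2) =>
      p.2.2.1.1 * p.2.2.1.2.1 * y1 p.2.1 p.1.2.1 = z * y2 p.2.1 p.1.2.1) hF ?_
    have e1 : Primrec fun q : ℤ × (Ctx × C2) => q.2 := Primrec.snd
    exact pp_eq (pmul (pmul (hs.comp e1) (hE.comp e1)) (p_y1 (hP.comp e1) (hu.comp e1)))
      (pmul Primrec.fst (p_y2 (hP.comp e1) (hu.comp e1)))
  · unfold Tgt2
    have k1 := p_w1 hP hw
    have k2 := p_w2 hP hw
    refine (pp_eq k1 (Primrec.const 0)).not.and (PrimrecPred.and ?_ (PrimrecPred.and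
      (PrimrecPred.not (PrimrecPred.and ?_ ?_)) ?_))
    · refine pp_forall (R := fun (z : ℤ) (p : Ctx × C2) =>
        z * w1 p.2.1 p.1.2.2 ≠ - (p.2.2.1.1 * p.2.2.1.2.1 * w2 p.2.1 p.1.2.2)) hF ?_
      have e1 : Primrec fun q : ℤ × (Ctx × C2) => q.2 := Primrec.snd
      exact (pp_eq (pmul Primrec.fst (p_w1 (hP.comp e1) (hw.comp e1)))
        (pneg (pmul (pmul (hs.comp e1) (hE.comp e1)) (p_w2 (hP.comp e1) (hw.comp e1))))).not
    · exact pp_lt (pmul ha (pmul k1 k1)) (pneg (pmul (pmul (pmul hs hE) k2) k1))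
    · exact pp_lt (pneg (pmul (pmul (pmul hs hE) k2) k1)) (pmul hb (pmul k1 k1))
    · exact pp_le (pneg (pmul (pmul (pmul hs hE) k2) k1)) (pmul hc (pmul k1 k1))

end Pool.Agent.Helper425_zc
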