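import Pool.Agent.Helper425_zc.Bridge
import Pool.Agent.Helper425_zc.PCert

set_option autoImplicit false

namespace Pool.Agent.Helper425_zc

/-! ### integrality at a prime -/

def PI (p : ℕ) (x : ℚ) : Prop := ∃ s : ℤ, ¬ (p : ℤ) ∣ s ∧ ∃ z : ℤ, (s : ℚ) * x = z

theorem PI.int {p : ℕ} (hp : p.Prime) (z : ℤ) : PI p z :=
  ⟨1, fun h => hp.one_lt.ne' (by
    have := Int.natCast_dvd_natCast.1 (show (p : ℤ) ∣ ((1 : ℕ) : ℤ) by simpa using h)
    exact Nat.dvd_one.1 this), z, by simp⟩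

theorem not_dvd_mul' {p : ℕ} (hp : p.Prime) {a b : ℤ} (ha : ¬ (p : ℤ) ∣ a) (hb : ¬ (p : ℤ) ∣ b) :
    ¬ (p : ℤ) ∣ a * b := by
  intro h
  rcases (Nat.prime_iff_prime_int.1 hp).dvd_or_dvd h with h | h
  · exact ha h
  · exact hb h

theorem PI.add {p : ℕ} (hp : p.Prime) {x y : ℚ} (hx : PI p x) (hy : PI p y) : PI p (x + y) := by
  obtain ⟨s, hs, z, hz⟩ := hx
  obtain ⟨t, ht, w, hw⟩ := hy
  refine ⟨s * t, not_dvd_mul' hp hs ht, z * t + w * s, ?_⟩
  push_cast
  linear_combination (t : ℚ) * hz + (s : ℚ) * hw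

theorem PI.mul {p : ℕ} (hp : p.Prime) {x y : ℚ} (hx : PI p x) (hy : PI p y) : PI p (x * y) := by
  obtain ⟨s, hs, z, hz⟩ := hx
  obtain ⟨t, ht, w, hw⟩ := hy
  refine ⟨s * t, not_dvd_mul' hp hs ht, z * w, ?_⟩
  push_cast
  linear_combination (t * y) * hz + z * hw

theorem PI.cancel {p : ℕ} (hp : p.Prime) {s : ℤ} (hs : ¬ (p : ℤ) ∣ s) {x : ℚ}
    (hx : PI p (s * x)) : PI p x := by
  obtain ⟨t, ht, z, hz⟩ := hx
  refine ⟨t * s, not_dvd_mul' hp ht hs, z, ?_⟩
  push_cast
  linear_combination hz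

theorem PI.sub {p : ℕ} (hp : p.Prime) {x y : ℚ} (hx : PI p x) (hy : PI p y) : PI p (x - y) := by
  have h1 : PI p (((-1 : ℤ) : ℚ) * y) := PI.mul hp (PI.int hp _) hy
  have h2 := PI.add hp hx h1
  have e : x + ((-1 : ℤ) : ℚ) * y = x - y := by push_cast; ring
  rw [e] at h2; exact h2

theorem dvd_of_PI {N g : ℤ} (hg : g ≠ 0)
    (h : ∀ p : ℕ, p.Prime → (p : ℤ) ∣ g → PI p ((N : ℚ) / g)) : g ∣ N := by
  have hgq : (g : ℚ) ≠ 0 := by exact_mod_cast hg
  set x : ℚ := (N : ℚ) / g with hx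
  have hxg : x * g = N := by rw [hx]; field_simp
  have hden : (x.den : ℤ) ∣ g := by
    rw [hx]
    have := Rat.den_dvd N g
    rwa [Rat.divInt_eq_div] at this
  by_cases h1 : x.den = 1
  · refine ⟨x.num, ?_⟩
    have h2 : (x.num : ℚ) = x := by
      have := Rat.num_div_den x
      rw [h1] at this
      simpa using this
    have h3 : (N : ℚ) = g * x.num := by rw [h2, ← hxg]; ring
    exact_mod_cast h3
  · exfalso
    obtain ⟨p, hp, hpd⟩ := Nat.exists_prime_and_dvd h1
    have hpg : (p : ℤ) ∣ g := (Int.natCast_dvd_natCast.2 hpd).trans hden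
    obtain ⟨s, hs, z, hz⟩ := h p hp hpg
    apply hs
    -- x.den ∣ s
    have hxd : x * x.den = x.num := Rat.mul_den_eq_num x
    have e : s * x.num = z * x.den := by
      have : ((s * x.num : ℤ) : ℚ) = ((z * x.den : ℤ) : ℚ) := by
        push_cast
        rw [← hxd, ← hz]; ring
      exact_mod_cast this
    have hcop : IsCoprime (x.den : ℤ) x.num := by
      rw [Int.isCoprime_iff_gcd_eq_one]
      have := x.reduced
      rw [Nat.coprime_comm] at this
      simpa [Int.gcd, Nat.Coprime] using this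
    have h4 : (x.den : ℤ) ∣ s := by
      apply hcop.dvd_of_dvd_mul_right
      exact ⟨z, by rw [e]; ring⟩
    exact (Int.natCast_dvd_natCast.2 hpd).trans h4

theorem not_dvd_of_inv {p : ℕ} (hp : p.Prime) {m a b : ℤ} (hm : (p : ℤ) ∣ m)
    (h : m ∣ a * b - 1) : ¬ (p : ℤ) ∣ a := by
  intro ha
  have h1 : (p : ℤ) ∣ a * b - 1 := hm.trans h
  have h2 : (p : ℤ) ∣ a * b := ha.mul_right b
  have h3 : (p : ℤ) ∣ 1 := by
    have := dvd_sub h2 h1
    simpa using this
  have h4 : (p : ℤ) ∣ ((1 : ℕ) : ℤ) := by simpa using h3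
  exact hp.one_lt.ne' (Nat.dvd_one.1 (Int.natCast_dvd_natCast.1 h4))

theorem dvd_cancel_pow {m a b : ℤ} (h : m ∣ a * b - 1) : ∀ (k : ℕ) (z : ℤ), m ∣ a ^ k * z → m ∣ z := by
  intro k
  induction k with
  | zero => intro z hz; simpa using hz
  | succ k ih =>
    intro z hz
    apply ih
    rw [pow_succ] at hz
    obtain ⟨u, hu⟩ := hz
    obtain ⟨v, hv⟩ := h
    refine ⟨u * b - v * a ^ k * z, ?_⟩
    linear_combination b * hu - a ^ k * z * hv

theorem pow_inv {m a b : ℤ} (h : m ∣ a * b - 1) : ∀ k : ℕ, m ∣ a ^ k * b ^ k - 1 := by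
  intro k
  induction k with
  | zero => simp
  | succ k ih =>
    obtain ⟨u, hu⟩ := ih
    obtain ⟨v, hv⟩ := h
    refine ⟨u * (a * b) + v, ?_⟩
    rw [pow_succ, pow_succ]
    linear_combination (a * b) * hu + hv

/-! ### certificate of type 3: congruences together with traps -/

/-- `P`, `(n, D, c, c', g, κ, κ')`, `K`. -/
abbrev C3 := Q4 × (ℤ × ℤ × ℤ × ℤ × ℤ × ℤ × ℤ) × List ℤ

def Stp3 (n D c g κ : ℤ) (P : Q4) (K : List ℤ) (A : Q4) : Prop :=
  cc P A = 0 ∧ cd P A ≠ 0 ∧ cd P A ∣ ca P A * c * g ∧ cd P A ∣ D * cb P A * c ∧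
    ca P A ∣ cd P A * κ ∧
    ∀ ρ ∈ List.range (n * g).natAbs, (∃ r ∈ K, n ∣ (ρ : ℤ) - r) → cd P A ∣ ca P A * c * ρ →
      ∃ r' ∈ K, n * cd P A ∣ c * (cd P A * r' - ca P A * ρ - D * cb P A)

def Chk3 (L : List Q4) (u w : V2) (e : C3) : Prop :=
  (dt e.1 ≠ 0 ∧ e.2.1.1 ≠ 0 ∧ e.2.1.2.2.2.2.1 ≠ 0) ∧
  (e.2.1.1 * e.2.1.2.2.2.2.1 ∣ e.2.1.2.2.1 * e.2.1.2.2.2.1 - 1 ∧
    e.2.1.2.2.2.2.1 ∣ e.2.1.2.2.2.2.2.1 * e.2.1.2.2.2.2.2.2 - 1) ∧
  (∀ A ∈ L, dt A = 0 ∨
    Stp3 e.2.1.1 e.2.1.2.1 e.2.1.2.2.1 e.2.1.2.2.2.2.1 e.2.1.2.2.2.2.2.1 e.1 e.2.2 A) ∧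
  (y2 e.1 u ≠ 0 ∧ y2 e.1 u ∣ e.2.1.2.1 * y1 e.1 u * e.2.1.2.2.1 ∧
    ∃ r ∈ e.2.2, e.2.1.1 * y2 e.1 u ∣ e.2.1.2.2.1 * (e.2.1.2.1 * y1 e.1 u - r * y2 e.1 u)) ∧
  (w1 e.1 w ≠ 0 ∧ w1 e.1 w ∣ e.2.1.2.1 * w2 e.1 w * e.2.1.2.2.1 ∧
    ∀ r ∈ e.2.2, ¬ (e.2.1.1 * w1 e.1 w ∣ e.2.1.2.2.1 * (e.2.1.2.1 * w2 e.1 w + r * w1 e.1 w)))

theorem sound3 {L : List Q4} {u w : V2} {e : C3} (h : Chk3 L u w e) : ¬ Reach L u w := by
  obtain ⟨P, ⟨n, D, c, c', g, κ, κ'⟩, K⟩ := e
  obtain ⟨⟨hP, hn, hg⟩, ⟨hcc, hkk⟩, hA, ⟨hu2, hu3, r0, hr0, hu4⟩, ⟨hw1, hw2, hw3⟩⟩ := h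
  simp only at hP hn hg hcc hkk hA hu2 hu3 hr0 hu4 hw1 hw2 hw3
  have hcn : n ∣ c * c' - 1 := (Dvd.intro _ rfl).trans hcc
  have hcg : g ∣ c * c' - 1 := (Dvd.intro_left _ rfl).trans hcc
  have hqn : (n : ℚ) ≠ 0 := by exact_mod_cast hn
  have hqg : (g : ℚ) ≠ 0 := by exact_mod_cast hg
  rintro ⟨v, hv, hz⟩
  have key : y2 P v ≠ 0 ∧ ((∃ p : ℕ, p.Prime ∧ (p : ℤ) ∣ g ∧ ¬ PI p (D * xc P v)) ∨
      (∃ k : ℕ, ∃ r ∈ K, ∃ X z : ℤ, (c : ℚ) ^ k * (D * xc P v) = X ∧ X - c ^ k * r = n * z)) := by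
    clear hz
    induction hv with
    | base =>
      refine ⟨hu2, Or.inr ?_⟩
      obtain ⟨X, hX⟩ := hu3
      obtain ⟨q, hq⟩ := hu4
      refine ⟨1, r0, hr0, X, q, ?_, ?_⟩
      · have qu : (y2 P u : ℚ) ≠ 0 := by exact_mod_cast hu2
        have hXq : (D : ℚ) * y1 P u * c = y2 P u * X := by exact_mod_cast hX
        simp only [xc, pow_one]
        field_simp
        linear_combination hXq
      · apply mul_left_cancel₀ hu2
        linear_combination hq - hX
    | step A v hAL hd _ ih =>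
      obtain ⟨hy, ih⟩ := ih
      obtain ⟨h1, h2, ⟨α, h3⟩, ⟨γ, h4⟩, ⟨δ, h5⟩, h6⟩ := (hA A hAL).resolve_left hd
      obtain ⟨hy', hx'⟩ := xc_act hP hd h1 hy
      refine ⟨hy', ?_⟩
      rw [hx']
      have hca := (cd_ne hP hd h1).1
      have qa : (ca P A : ℚ) ≠ 0 := by exact_mod_cast hca
      have qd : (cd P A : ℚ) ≠ 0 := by exact_mod_cast h2
      have h3q : (ca P A : ℚ) * c * g = cd P A * α := by exact_mod_cast h3
      have h4q : (D : ℚ) * cb P A * c = cd P A * γ := by exact_mod_cast h4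
      have h5q : (cd P A : ℚ) * κ = ca P A * δ := by exact_mod_cast h5
      -- D f(x) = f1 (D x) + D f2
      have hev : (D : ℚ) * ev (af P A) (xc P v) =
          (ca P A : ℚ) / cd P A * (D * xc P v) + D * cb P A / cd P A := by
        simp only [ev, af]; ring
      have hf2 : (c : ℚ) * (D * cb P A / cd P A) = γ := by
        field_simp; linear_combination h4q
      rcases ih with ⟨p, hp, hpg, hnp⟩ | ⟨k, r, hr, X, z, e1, e2⟩
      · left
        refine ⟨p, hp, hpg, fun hPI => hnp ?_⟩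
        have hpc : ¬ (p : ℤ) ∣ c := not_dvd_of_inv hp hpg hcg
        have hpk : ¬ (p : ℤ) ∣ κ := not_dvd_of_inv hp hpg hkk
        have i1 : PI p (D * cb P A / cd P A) := by
          apply PI.cancel hp hpc
          rw [hf2]; exact PI.int hp _
        have i2 : PI p ((ca P A : ℚ) / cd P A * (D * xc P v)) := by
          have := PI.sub hp hPI i1
          rw [hev] at this
          simpa using this
        apply PI.cancel hp hpk
        have i3 := PI.mul hp (PI.int hp δ) i2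
        have e3 : (δ : ℚ) * ((ca P A : ℚ) / cd P A * (D * xc P v)) = κ * (D * xc P v) := by
          have : (δ : ℚ) * ((ca P A : ℚ) / cd P A) = κ := by
            field_simp; linear_combination - h5q
          rw [← mul_assoc, this]
        rw [e3] at i3; exact i3
      · by_cases hdiv : g ∣ α * X
        · right
          obtain ⟨T, hT⟩ := hdiv
          -- choose ρ
          have hng : n * g ≠ 0 := mul_ne_zero hn hg
          set ρ : ℤ := (c' ^ k * X) % (n * g) with hρ
          have hρ0 : 0 ≤ ρ := Int.emod_nonneg _ hng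
          have hρ1 : ρ < (n * g).natAbs := by
            have := Int.emod_lt_abs (c' ^ k * X) hng
            rw [Int.abs_eq_natAbs] at this
            exact this
          obtain ⟨ρn, hρn⟩ : ∃ ρn : ℕ, (ρn : ℤ) = ρ := ⟨ρ.toNat, by omega⟩
          obtain ⟨j1, hj1⟩ := pow_inv hcc k
          have hdm := Int.emod_add_mul_ediv (c' ^ k * X) (n * g)
          rw [← hρ] at hdm
          -- c^k ρ = X + n g j
          have hcρ : c ^ k * ρ = X + n * g * (j1 * X - c ^ k * (c' ^ k * X / (n * g))) := by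
            linear_combination X * hj1 + c ^ k * hdm
          set j : ℤ := j1 * X - c ^ k * (c' ^ k * X / (n * g)) with hj
          have hr1 : ∃ r ∈ K, n ∣ (ρn : ℤ) - r := by
            refine ⟨r, hr, ?_⟩
            rw [hρn]
            apply dvd_cancel_pow hcn k
            refine ⟨z + g * j, ?_⟩
            linear_combination hcρ + e2
          -- α ρ divisible by g
          have hαρ : g ∣ α * ρ := by
            apply dvd_cancel_pow hcg k
            refine ⟨T + α * n * j, ?_⟩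
            linear_combination α * hcρ + hT
          obtain ⟨s, hs⟩ := hαρ
          have hcdρ : ca P A * c * (ρn : ℤ) = cd P A * s := by
            rw [hρn]
            apply mul_right_cancel₀ hg
            linear_combination ρ * h3 + cd P A * hs
          obtain ⟨r', hr', t, ht⟩ := h6 ρn (List.mem_range.2 (by
            have : (ρn : ℤ) < (n * g).natAbs := by rw [hρn]; exact hρ1
            exact_mod_cast this)) hr1 ⟨s, hcdρ⟩
          have ht' : c * r' - s - γ = n * t := by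
            apply mul_left_cancel₀ h2
            rw [hρn] at ht hcdρ
            linear_combination ht + hcdρ + h4
          refine ⟨k + 1, r', hr', T + c ^ k * γ, - α * j - c ^ k * t, ?_, ?_⟩
          · rw [hev]
            have hTq : (α : ℚ) * X = g * T := by exact_mod_cast hT
            have e3 : (c : ℚ) ^ (k + 1) * ((ca P A : ℚ) / cd P A * (D * xc P v)) = T := by
              apply mul_left_cancel₀ hqg
              have e4 : (c : ℚ) * g * ((ca P A : ℚ) / cd P A) = α := by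
                field_simp; linear_combination h3q
              rw [pow_succ]
              linear_combination ((c : ℚ) ^ k * (D * xc P v)) * e4 + (α : ℚ) * e1 + hTq
            push_cast
            rw [mul_add, e3, pow_succ]
            linear_combination (c : ℚ) ^ k * hf2
          · -- X' - c^(k+1) r' = n z'
            have e5 : c ^ k * s = T + α * n * j := by
              apply mul_left_cancel₀ hg
              linear_combination (- c ^ k) * hs + α * hcρ + hT
            rw [pow_succ]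
            linear_combination - e5 - c ^ k * ht'
        · left
          by_contra hcon
          push Not at hcon
          apply hdiv
          apply dvd_of_PI hg
          intro p hp hpg
          have hpc : ¬ (p : ℤ) ∣ c := not_dvd_of_inv hp hpg hcg
          have i1 := hcon p hp hpg
          have i2 : PI p (D * cb P A / cd P A) := by
            apply PI.cancel hp hpc
            rw [hf2]; exact PI.int hp _
          have i3 : PI p ((ca P A : ℚ) / cd P A * (D * xc P v)) := by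
            have := PI.sub hp i1 i2
            rw [hev] at this
            simpa using this
          have i4 := PI.mul hp (PI.int hp (c ^ (k + 1))) i3
          have e3 : ((c ^ (k + 1) : ℤ) : ℚ) * ((ca P A : ℚ) / cd P A * (D * xc P v)) =
              ((α * X : ℤ) : ℚ) / g := by
            rw [eq_div_iff hqg]
            have e4 : (c : ℚ) * g * ((ca P A : ℚ) / cd P A) = α := by
              field_simp; linear_combination h3q
            push_cast
            rw [pow_succ]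
            linear_combination ((c : ℚ) ^ k * (D * xc P v)) * e4 + (α : ℚ) * e1
          rw [e3] at i4; exact i4
  obtain ⟨hy, key⟩ := key
  have qy : (y2 P v : ℚ) ≠ 0 := by exact_mod_cast hy
  have qw : (w1 P w : ℚ) ≠ 0 := by exact_mod_cast hw1
  have h0 : w1 P w * y1 P v + w2 P w * y2 P v = 0 := by
    rw [← dot_w, hz, mul_zero]
  have h0q : (w1 P w : ℚ) * y1 P v + w2 P w * y2 P v = 0 := by exact_mod_cast h0
  have hx : xc P v = - (w2 P w : ℚ) / w1 P w := by
    simp only [xc]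
    rw [div_eq_div_iff qy qw]
    linear_combination h0q
  obtain ⟨s, hs⟩ := hw2
  have hsq : (D : ℚ) * w2 P w * c = w1 P w * s := by exact_mod_cast hs
  have hcD : (c : ℚ) * (D * xc P v) = ((-s : ℤ) : ℚ) := by
    rw [hx]; push_cast; field_simp; linear_combination - hsq
  rcases key with ⟨p, hp, hpg, hnp⟩ | ⟨k, r, hr, X, z, e1, e2⟩
  · apply hnp
    apply PI.cancel hp (not_dvd_of_inv hp hpg hcg)
    rw [hcD]; exact PI.int hp _
  · -- c^k (-s - c r) = c (X - c^k r)
    have h2 : c ^ k * (- s) = c * X := by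
      have : ((c ^ k * (- s) : ℤ) : ℚ) = ((c * X : ℤ) : ℚ) := by
        push_cast at hcD ⊢
        rw [← hcD, ← e1]; ring
      exact_mod_cast this
    have h3 : n ∣ (- s - c * r) := by
      apply dvd_cancel_pow hcn k
      refine ⟨c * z, ?_⟩
      linear_combination h2 + c * e2
    obtain ⟨t, ht⟩ := h3
    apply hw3 r hr
    refine ⟨-t, ?_⟩
    linear_combination hs - w1 P w * ht

end Pool.Agent.Helper425_zc
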