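import Pool.Agent.Helper425_zc.Sl2
import Pool.Agent.Helper425_zc.Algo

set_option autoImplicit false

namespace Pool.Agent.Helper425_zc

open Matrix ModularGroup MatrixGroups

/-- `true` stands for `T`, `false` for `S` -/
def genQ (b : Bool) : Q4 := if b then (1, 1, 0, 1) else (0, -1, 1, 0)

def genG (b : Bool) : SL(2, ℤ) := if b then T else S

/-- action tables -/
def ap (s t : List ℕ) (b : Bool) (x : ℕ) : ℕ := if b then t.getD x 0 else s.getD x 0

def apW (s t : List ℕ) (x : ℕ) (wd : List Bool) : ℕ := wd.foldl (fun y b => ap s t b y) x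

def evW (wd : List Bool) : Q4 := wd.foldl (fun M b => mulQ M (genQ b)) (1, 0, 0, 1)

def toG (wd : List Bool) : SL(2, ℤ) := wd.foldl (fun g b => g * genG b) 1

/-- entries of a group element -/
def entG (g : SL(2, ℤ)) : Q4 := (g.1 0 0, g.1 0 1, g.1 1 0, g.1 1 1)

/-- size, table of `S`, table of `T`, good points, relation, words, base point -/
abbrev C4 := ℕ × List ℕ × List ℕ × List ℕ × List (ℕ × ℕ × Q4) × List (List Bool) × ℕ

def Tab (n : ℕ) (s t K : List ℕ) (x : ℕ) : Prop :=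
  ap s t false x < n ∧ ap s t true x < n ∧
  apW s t x [false, false, false, false] = x ∧
  apW s t x [false, true, false, true, false, true] = apW s t x [false, false] ∧
  ((∃ y ∈ K, y = x) ↔ (∃ y ∈ K, y = ap s t true x)) ∧
  ((∃ y ∈ K, y = x) ↔ (∃ y ∈ K, y = apW s t x [false, false]))

/-- transition of a node -/
def Nod (s t : List ℕ) (ρ : List (ℕ × ℕ × Q4)) (W : List (List Bool)) (r : ℕ × ℕ × Q4)
    (b : Bool) : Prop :=
  ∃ r' ∈ ρ, ∃ wd ∈ W, r'.1 = ap s t b r.1 ∧ r'.2.1 = apW s t r.2.1 wd ∧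
    mulQ r.2.2 (genQ b) = mulQ (evW wd) r'.2.2

def Chk4 (L : List Q4) (u w : V2) (e : C4) : Prop :=
  (∀ x ∈ List.range e.1, Tab e.1 e.2.1 e.2.2.1 e.2.2.2.1 x) ∧
  (∀ r ∈ e.2.2.2.2.1, (r.2.2.2.2.1 = 0 ∧ ((∀ y ∈ e.2.2.2.1, y ≠ r.1) ∨
      (∃ y ∈ e.2.2.2.1, y = r.2.1))) ∧
    Nod e.2.1 e.2.2.1 e.2.2.2.2.1 e.2.2.2.2.2.1 r false ∧
    Nod e.2.1 e.2.2.1 e.2.2.2.2.1 e.2.2.2.2.2.1 r true) ∧
  (∀ A ∈ L, dt A = 0 ∨ ∃ r ∈ e.2.2.2.2.1, ∃ wd ∈ e.2.2.2.2.2.1, r.1 = e.2.2.2.2.2.2 ∧
    r.2.1 = apW e.2.1 e.2.2.1 e.2.2.2.2.2.2 wd ∧ A = mulQ (evW wd) r.2.2) ∧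
  u ≠ 0 ∧ w ≠ 0 ∧ e.2.2.2.2.2.2 < e.1 ∧
  (∃ wd ∈ e.2.2.2.2.2.1, u.1 * (evW wd).2.2.1 - u.2 * (evW wd).1 = 0 ∧
    ∃ y ∈ e.2.2.2.1, y = apW e.2.1 e.2.2.1 e.2.2.2.2.2.2 wd) ∧
  (∃ wd ∈ e.2.2.2.2.2.1, w.1 * (evW wd).1 + w.2 * (evW wd).2.2.1 = 0 ∧
    ∀ y ∈ e.2.2.2.1, y ≠ apW e.2.1 e.2.2.1 e.2.2.2.2.2.2 wd)

theorem entG_mul (g h : SL(2, ℤ)) : entG (g * h) = mulQ (entG g) (entG h) := by
  obtain ⟨h1, h2, h3, h4⟩ := mulE _ g h rfl
  simp only [entG, mulQ, h1, h2, h3, h4]

theorem entG_genG (b : Bool) : entG (genG b) = genQ b := by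
  cases b
  · rfl
  · rfl

theorem evW_aux (wd : List Bool) : ∀ (g : SL(2, ℤ)) (M : Q4), M = entG g →
    wd.foldl (fun M b => mulQ M (genQ b)) M = entG (wd.foldl (fun g b => g * genG b) g) := by
  induction wd with
  | nil => intro g M h; exact h
  | cons b wd ih =>
    intro g M h
    simp only [List.foldl_cons]
    apply ih
    rw [h, entG_mul, entG_genG]

theorem entG_one : entG 1 = (1, 0, 0, 1) := by
  simp [entG]

theorem evW_eq (wd : List Bool) : evW wd = entG (toG wd) :=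
  evW_aux wd 1 _ entG_one.symm

theorem toG_aux (wd : List Bool) (g : SL(2, ℤ)) :
    wd.foldl (fun g b => g * genG b) g = g * toG wd := by
  induction wd generalizing g with
  | nil => simp [toG]
  | cons b wd ih =>
    have e : toG (b :: wd) = wd.foldl (fun g b => g * genG b) (1 * genG b) := rfl
    rw [e, List.foldl_cons, ih, ih (1 * genG b), one_mul, mul_assoc]

theorem toG_append (w1 w2 : List Bool) : toG (w1 ++ w2) = toG w1 * toG w2 := by
  rw [toG, List.foldl_append, toG_aux]; rfl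

theorem exists_word (g : SL(2, ℤ)) : ∃ wd, toG wd = g := by
  induction g using sl2_induction with
  | h1 => exact ⟨[], rfl⟩
  | hS g hg =>
    obtain ⟨wd, rfl⟩ := hg
    exact ⟨wd ++ [false], by rw [toG_append]; simp [toG, genG]⟩
  | hT g hg =>
    obtain ⟨wd, rfl⟩ := hg
    exact ⟨wd ++ [true], by rw [toG_append]; simp [toG, genG]⟩

theorem toM_entG (g : SL(2, ℤ)) : toM (entG g) = g.1 := by
  ext i j
  fin_cases i <;> fin_cases j <;> rfl

/-- The tables define a right action of `SL(2, ℤ)`. -/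
theorem action_exists {n : ℕ} {s t K : List ℕ} (h : ∀ x ∈ List.range n, Tab n s t K x) :
    ∃ ra : Fin n → SL(2, ℤ) → Fin n, (∀ x, ra x 1 = x) ∧ (∀ x g h, ra x (g * h) = ra (ra x g) h) ∧
      (∀ x b, (ra x (genG b) : ℕ) = ap s t b x) := by
  have hx : ∀ x : Fin n, Tab n s t K x := fun x => h x (List.mem_range.2 x.2)
  let σ : Fin n → Fin n := fun x => ⟨ap s t false x, (hx x).1⟩
  let τ : Fin n → Fin n := fun x => ⟨ap s t true x, (hx x).2.1⟩
  have hσ : ∀ x, σ (σ (σ (σ x))) = x := fun x => Fin.ext (hx x).2.2.1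
  have hστ : ∀ x, τ (σ (τ (σ (τ (σ x))))) = σ (σ x) := fun x => Fin.ext (hx x).2.2.2.1
  have iσ : Function.Injective σ := by
    intro x y hxy
    have := congrArg (fun z => σ (σ (σ z))) hxy
    simp only [hσ] at this
    exact this
  have bσ : Function.Bijective σ := Finite.injective_iff_bijective.1 iσ
  have sτ : Function.Surjective τ := by
    intro y
    obtain ⟨z, rfl⟩ := bσ.surjective y
    obtain ⟨z, rfl⟩ := bσ.surjective z
    exact ⟨_, hστ z⟩
  have bτ : Function.Bijective τ := Finite.surjective_iff_bijective.1 sτ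
  let eσ : Equiv.Perm (Fin n) := Equiv.ofBijective σ bσ
  let eτ : Equiv.Perm (Fin n) := Equiv.ofBijective τ bτ
  have h1 : (MulOpposite.op eσ) ^ 4 = 1 := by
    rw [← MulOpposite.op_pow, ← MulOpposite.op_one]
    congr 1
    ext1 x
    show σ (σ (σ (σ x))) = x
    exact hσ x
  have h2 : (MulOpposite.op eσ * MulOpposite.op eτ) ^ 3 = (MulOpposite.op eσ) ^ 2 := by
    rw [← MulOpposite.op_mul, ← MulOpposite.op_pow, ← MulOpposite.op_pow]
    congr 1
    ext1 x
    show τ (σ (τ (σ (τ (σ x))))) = σ (σ x)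
    exact hστ x
  obtain ⟨φ, e1, e2⟩ := sl2_hom _ _ h1 h2
  refine ⟨fun x g => (φ g).unop x, ?_, ?_, ?_⟩
  · intro x; simp
  · intro x g h
    simp only [map_mul, MulOpposite.unop_mul, Equiv.Perm.mul_apply]
  · intro x b
    cases b
    · show (((φ S).unop x : Fin n) : ℕ) = _
      rw [e1]; rfl
    · show (((φ T).unop x : Fin n) : ℕ) = _
      rw [e2]; rfl

theorem ra_apW {n : ℕ} {s t : List ℕ} {ra : Fin n → SL(2, ℤ) → Fin n}
    (h1 : ∀ x, ra x 1 = x) (hm : ∀ x g h, ra x (g * h) = ra (ra x g) h)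
    (hb : ∀ x b, (ra x (genG b) : ℕ) = ap s t b x) (wd : List Bool) :
    ∀ x : Fin n, apW s t x wd = ra x (toG wd) := by
  induction wd with
  | nil => intro x; simp [apW, toG, h1]
  | cons b wd ih =>
    intro x
    have e1 : toG (b :: wd) = genG b * toG wd := by
      have : toG (b :: wd) = wd.foldl (fun g b => g * genG b) (1 * genG b) := rfl
      rw [this, toG_aux, one_mul]
    have e2 : apW s t x (b :: wd) = apW s t (ap s t b x) wd := rfl
    rw [e1, e2, hm, ← hb, ih]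

theorem act_mulQ (A B : Q4) (v : V2) : act (mulQ A B) v = act A (act B v) := by
  simp only [act, mulQ]
  ext
  · simp only []; ring
  · simp only []; ring

theorem mulQ_assoc (A B C : Q4) : mulQ (mulQ A B) C = mulQ A (mulQ B C) := by
  simp only [mulQ]
  ext <;> simp only [] <;> ring

/-- a matrix of determinant one whose lower left entry vanishes is plus or minus a power of T -/
theorem tri_group {g : SL(2, ℤ)} (h : g.1 1 0 = 0) : ∃ k : ℤ, g = T ^ k ∨ g = S * S * T ^ k := by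
  rcases diag_cases h with ⟨h1, h2⟩ | ⟨h1, h2⟩
  · refine ⟨g.1 0 1, Or.inl ?_⟩
    obtain ⟨e1, e2, e3, e4⟩ := Tz_entries (g.1 0 1) 1
    rw [mul_one] at e1 e2 e3 e4
    apply sl_ext
    · rw [e1, h1]; simp
    · rw [e2]; simp
    · rw [e3, h]; simp
    · rw [e4, h2]; simp
  · refine ⟨- g.1 0 1, Or.inr ?_⟩
    rw [neg_one_eq, neg_one_mul]
    obtain ⟨e1, e2, e3, e4⟩ := Tz_entries (- g.1 0 1) 1
    rw [mul_one] at e1 e2 e3 e4
    apply sl_ext
    · rw [neg_entries, e1, h1]; simp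
    · rw [neg_entries, e2]; simp
    · rw [neg_entries, e3, h]; simp
    · rw [neg_entries, e4, h2]; simp

theorem sound4 {L : List Q4} {u w : V2} {e : C4} (hc : Chk4 L u w e) : ¬ Reach L u w := by
  obtain ⟨n, s, t, K, ρ, W, x0⟩ := e
  obtain ⟨hT, hN, hL, hu0, hw0, hx0, hst, htg⟩ := hc
  simp only at hT hN hL hx0 hst htg
  obtain ⟨ra, ra1, ram, rab⟩ := action_exists hT
  have hW := ra_apW ra1 ram rab
  -- membership in the list of good points is invariant
  have hK : ∀ (x : Fin n) (k : SL(2, ℤ)), k = T ∨ k = S * S →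
      ((∃ y ∈ K, y = (x : ℕ)) ↔ (∃ y ∈ K, y = (ra x k : ℕ))) := by
    intro x k hk
    obtain ⟨_, _, _, _, h5, h6⟩ := hT x (List.mem_range.2 x.2)
    rcases hk with rfl | rfl
    · have := rab x true
      simp only [genG, if_true] at this
      rw [this]; exact h5
    · have := hW [false, false] x
      have e1 : toG [false, false] = S * S := by simp [toG, genG]
      rw [e1] at this
      rw [← this]; exact h6
  have hKsub : ∀ k ∈ Subgroup.closure ({T, S * S} : Set SL(2, ℤ)), ∀ x : Fin n,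
      ((∃ y ∈ K, y = (x : ℕ)) ↔ (∃ y ∈ K, y = (ra x k : ℕ))) := by
    intro k hk
    induction hk using Subgroup.closure_induction with
    | mem z hz => exact fun x => hK x z hz
    | one => intro x; rw [ra1]
    | mul a b _ _ ha hb => intro x; rw [ram, ← hb, ← ha]
    | inv a _ ha =>
      intro x
      rw [ha (ra x a⁻¹), ← ram, inv_mul_cancel, ra1]
  -- the relation
  have key : ∀ A ∈ L, dt A ≠ 0 → ∀ g : SL(2, ℤ), ∃ (g' : SL(2, ℤ)) (B : Q4),
      (((ra ⟨x0, hx0⟩ g : ℕ), (ra ⟨x0, hx0⟩ g' : ℕ), B) : ℕ × ℕ × Q4) ∈ ρ ∧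
      mulQ A (entG g) = mulQ (entG g') B := by
    intro A hA hd g
    induction g using sl2_induction with
    | h1 =>
      rcases hL A hA with h | ⟨r, hr, wd, hwd, e1, e2, e3⟩
      · exact absurd h hd
      · refine ⟨toG wd, r.2.2, ?_, ?_⟩
        · rw [ra1, ← hW]
          convert hr using 1
          ext
          · exact e1.symm
          · exact e2.symm
          all_goals rfl
        · rw [entG_one, ← evW_eq, ← e3]
          simp [mulQ]
    | hS g ih =>
      obtain ⟨g', B, hr, hm⟩ := ih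
      obtain ⟨_, ⟨r', hr', wd, hwd, e1, e2, e3⟩, _⟩ := hN _ hr
      simp only at e1 e2 e3
      refine ⟨g' * toG wd, r'.2.2, ?_, ?_⟩
      · rw [ram, ram, ← hW]
        convert hr' using 1
        ext
        · show ((ra _ S : Fin n) : ℕ) = r'.1
          rw [e1, ← rab]; rfl
        · exact e2.symm
        all_goals rfl
      · have e4 : entG S = genQ false := entG_genG false
        rw [entG_mul, entG_mul, ← mulQ_assoc, hm, mulQ_assoc, e4, e3, mulQ_assoc, evW_eq]
    | hT g ih =>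
      obtain ⟨g', B, hr, hm⟩ := ih
      obtain ⟨_, _, ⟨r', hr', wd, hwd, e1, e2, e3⟩⟩ := hN _ hr
      simp only at e1 e2 e3
      refine ⟨g' * toG wd, r'.2.2, ?_, ?_⟩
      · rw [ram, ram, ← hW]
        convert hr' using 1
        ext
        · show ((ra _ T : Fin n) : ℕ) = r'.1
          rw [e1, ← rab]; rfl
        · exact e2.symm
        all_goals rfl
      · have e4 : entG T = genQ true := entG_genG true
        rw [entG_mul, entG_mul, ← mulQ_assoc, hm, mulQ_assoc, e4, e3, mulQ_assoc, evW_eq]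
  -- invariant of the orbit
  have inv : ∀ v, Orb L u v → ∃ (g : SL(2, ℤ)) (c : ℤ), v = (c * g.1 0 0, c * g.1 1 0) ∧
      ∃ y ∈ K, y = (ra ⟨x0, hx0⟩ g : ℕ) := by
    intro v hv
    induction hv with
    | base =>
      obtain ⟨wd, hwd, e1, hy⟩ := hst
      rw [evW_eq] at e1
      simp only [entG] at e1
      have hdet := det_entries (toG wd)
      refine ⟨toG wd, u.1 * (toG wd).1 1 1 - u.2 * (toG wd).1 0 1, ?_, ?_⟩
      · ext
        · simp only []
          linear_combination (- u.1) * hdet - (toG wd).1 0 1 * e1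
        · simp only []
          linear_combination (- u.2) * hdet - (toG wd).1 1 1 * e1
      · rw [← hW]; exact hy
    | step A v hA hd hv ih =>
      obtain ⟨g, c, rfl, y, hy, e1⟩ := ih
      obtain ⟨g', B, hr, hm⟩ := key A hA hd g
      obtain ⟨⟨hB, hcl⟩, _, _⟩ := hN _ hr
      simp only at hB hcl
      refine ⟨g', c * B.1, ?_, ?_⟩
      · have e2 : ((c * g.1 0 0, c * g.1 1 0) : V2) = act (entG g) (c, 0) := by
          simp only [act, entG]; ext <;> simp only [] <;> ring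
        rw [e2, ← act_mulQ, hm, act_mulQ]
        simp only [act, entG, hB]
        ext <;> simp only [] <;> ring
      · rcases hcl with h | h
        · exact absurd e1 (h y hy)
        · exact h
  rintro ⟨v, hv, hz⟩
  have hv0 := hv.ne_zero hu0
  obtain ⟨g, c, rfl, hKg⟩ := inv v hv
  obtain ⟨wd, hwd, e1, hn⟩ := htg
  rw [evW_eq] at e1
  simp only [entG] at e1
  have hc : c ≠ 0 := by
    rintro rfl
    apply hv0
    simp
  -- the two primitive vectors are parallel
  have hz' : w.1 * g.1 0 0 + w.2 * g.1 1 0 = 0 := by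
    simp only [dot] at hz
    have : c * (w.1 * g.1 0 0 + w.2 * g.1 1 0) = 0 := by linear_combination hz
    exact (mul_eq_zero.1 this).resolve_left hc
  have hpar : g.1 0 0 * (toG wd).1 1 0 - g.1 1 0 * (toG wd).1 0 0 = 0 := by
    by_cases h1 : w.1 = 0
    · have h2 : w.2 ≠ 0 := fun h2 => hw0 (Prod.ext h1 h2)
      apply mul_left_cancel₀ h2
      linear_combination (g.1 0 0) * e1 - (toG wd).1 0 0 * hz'
    · apply mul_left_cancel₀ h1
      linear_combination (toG wd).1 1 0 * hz' - (g.1 1 0) * e1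
  have hm : (g⁻¹ * toG wd).1 1 0 = 0 := by
    have e2 : g * (g⁻¹ * toG wd) = toG wd := mul_inv_cancel_left _ _
    obtain ⟨a1, a2, a3, a4⟩ := mulE _ g (g⁻¹ * toG wd) rfl
    rw [e2] at a1 a3
    have hdet := det_entries g
    have : (g⁻¹ * toG wd).1 1 0 = g.1 0 0 * (toG wd).1 1 0 - g.1 1 0 * (toG wd).1 0 0 := by
      rw [a1, a3]
      linear_combination (-(g⁻¹ * toG wd).1 1 0) * hdet
    rw [this, hpar]
  obtain ⟨k, hk⟩ := tri_group hm
  have hmem : g⁻¹ * toG wd ∈ Subgroup.closure ({T, S * S} : Set SL(2, ℤ)) := by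
    have hTm : T ∈ Subgroup.closure ({T, S * S} : Set SL(2, ℤ)) :=
      Subgroup.subset_closure (by simp)
    have hSm : S * S ∈ Subgroup.closure ({T, S * S} : Set SL(2, ℤ)) :=
      Subgroup.subset_closure (by simp)
    rcases hk with hk | hk
    · rw [hk]; exact Subgroup.zpow_mem _ hTm k
    · rw [hk]; exact Subgroup.mul_mem _ hSm (Subgroup.zpow_mem _ hTm k)
  have h1 := (hKsub _ hmem (ra ⟨x0, hx0⟩ g)).1 hKg
  rw [← ram, mul_inv_cancel_left, ← hW] at h1
  obtain ⟨y, hy, e2⟩ := h1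
  exact hn y hy e2

end Pool.Agent.Helper425_zc
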