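import Pool.Agent.Helper425_zc.Cert4

set_option autoImplicit false

namespace Pool.Agent.Helper425_zc

section
variable {α : Type} [Primcodable α]

theorem p_mulQ {A B : α → Q4} (hA : Primrec A) (hB : Primrec B) :
    Primrec fun a => mulQ (A a) (B a) := by
  have a0 := pfst hA
  have a1 := pfst (psnd hA)
  have a2 := pfst (psnd (psnd hA))
  have a3 := psnd (psnd (psnd hA))
  have b0 := pfst hB
  have b1 := pfst (psnd hB)
  have b2 := pfst (psnd (psnd hB))
  have b3 := psnd (psnd (psnd hB))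
  exact Primrec.pair (padd (pmul a0 b0) (pmul a1 b2)) (Primrec.pair
      (padd (pmul a0 b1) (pmul a1 b3)) (Primrec.pair (padd (pmul a2 b0) (pmul a3 b2))
      (padd (pmul a2 b1) (pmul a3 b3))))

theorem p_genQ {b : α → Bool} (hb : Primrec b) : Primrec fun a => genQ (b a) := by
  unfold genQ
  exact Primrec.ite (pp_eq hb (Primrec.const true)) (Primrec.const _) (Primrec.const _)

theorem p_ap {s t : α → List ℕ} {b : α → Bool} {x : α → ℕ} (hs : Primrec s) (ht : Primrec t)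
    (hb : Primrec b) (hx : Primrec x) : Primrec fun a => ap (s a) (t a) (b a) (x a) := by
  unfold ap
  exact Primrec.ite (pp_eq hb (Primrec.const true)) ((Primrec.list_getD 0).comp ht hx)
    ((Primrec.list_getD 0).comp hs hx)

theorem p_apW {s t : α → List ℕ} {x : α → ℕ} {wd : α → List Bool} (hs : Primrec s)
    (ht : Primrec t) (hx : Primrec x) (hw : Primrec wd) :
    Primrec fun a => apW (s a) (t a) (x a) (wd a) := by
  unfold apW
  refine Primrec.list_foldl (h := fun (a : α) (q : ℕ × Bool) => ap (s a) (t a) q.2 q.1) hw hx ?_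
  exact p_ap (hs.comp Primrec.fst) (ht.comp Primrec.fst) (psnd Primrec.snd) (pfst Primrec.snd)

theorem p_evW {wd : α → List Bool} (hw : Primrec wd) : Primrec fun a => evW (wd a) := by
  unfold evW
  refine Primrec.list_foldl (h := fun (_ : α) (q : Q4 × Bool) => mulQ q.1 (genQ q.2)) hw
    (Primrec.const _) ?_
  exact p_mulQ (pfst Primrec.snd) (p_genQ (psnd Primrec.snd))

theorem pp_iff {P Q : α → Prop} (hP : PrimrecPred P) (hQ : PrimrecPred Q) :
    PrimrecPred fun a => (P a ↔ Q a) :=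
  ((hP.and hQ).or (hP.not.and hQ.not)).of_eq fun a => by tauto

theorem pp_mem {K : α → List ℕ} {x : α → ℕ} (hK : Primrec K) (hx : Primrec x) :
    PrimrecPred fun a => ∃ y ∈ K a, y = x a :=
  pp_exists (R := fun (y : ℕ) (a : α) => y = x a) hK (pp_eq Primrec.fst (hx.comp Primrec.snd))

theorem pp_nmem {K : α → List ℕ} {x : α → ℕ} (hK : Primrec K) (hx : Primrec x) :
    PrimrecPred fun a => ∀ y ∈ K a, y ≠ x a :=
  pp_forall (R := fun (y : ℕ) (a : α) => y ≠ x a) hK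
    (pp_eq Primrec.fst (hx.comp Primrec.snd)).not

theorem pp_nlt {x y : α → ℕ} (hx : Primrec x) (hy : Primrec y) : PrimrecPred fun a => x a < y a :=
  Primrec.nat_lt.comp hx hy

theorem pp_Tab {n : α → ℕ} {s t K : α → List ℕ} {x : α → ℕ} (hn : Primrec n) (hs : Primrec s)
    (ht : Primrec t) (hK : Primrec K) (hx : Primrec x) :
    PrimrecPred fun a => Tab (n a) (s a) (t a) (K a) (x a) := by
  unfold Tab
  have w1 := p_apW hs ht hx (Primrec.const [false, false, false, false])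
  have w2 := p_apW hs ht hx (Primrec.const [false, true, false, true, false, true])
  have w3 := p_apW hs ht hx (Primrec.const [false, false])
  have a1 := p_ap hs ht (Primrec.const false) hx
  have a2 := p_ap hs ht (Primrec.const true) hx
  exact (pp_nlt a1 hn).and ((pp_nlt a2 hn).and ((pp_eq w1 hx).and ((pp_eq w2 w3).and
    ((pp_iff (pp_mem hK hx) (pp_mem hK a2)).and (pp_iff (pp_mem hK hx) (pp_mem hK w3))))))

theorem pp_Nod {s t : α → List ℕ} {ρ : α → List (ℕ × ℕ × Q4)} {W : α → List (List Bool)}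
    {r : α → ℕ × ℕ × Q4} {b : α → Bool} (hs : Primrec s) (ht : Primrec t) (hρ : Primrec ρ)
    (hW : Primrec W) (hr : Primrec r) (hb : Primrec b) :
    PrimrecPred fun a => Nod (s a) (t a) (ρ a) (W a) (r a) (b a) := by
  unfold Nod
  refine pp_exists (R := fun (r' : ℕ × ℕ × Q4) (a : α) => ∃ wd ∈ W a,
    r'.1 = ap (s a) (t a) (b a) (r a).1 ∧ r'.2.1 = apW (s a) (t a) (r a).2.1 wd ∧
    mulQ (r a).2.2 (genQ (b a)) = mulQ (evW wd) r'.2.2) hρ ?_
  refine pp_exists (R := fun (wd : List Bool) (q : (ℕ × ℕ × Q4) × α) =>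
    q.1.1 = ap (s q.2) (t q.2) (b q.2) (r q.2).1 ∧
    q.1.2.1 = apW (s q.2) (t q.2) (r q.2).2.1 wd ∧
    mulQ (r q.2).2.2 (genQ (b q.2)) = mulQ (evW wd) q.1.2.2) (hW.comp Primrec.snd) ?_
  have ha : Primrec fun p : List Bool × ((ℕ × ℕ × Q4) × α) => p.2.2 := psnd Primrec.snd
  have h1 : Primrec fun p : List Bool × ((ℕ × ℕ × Q4) × α) => p.2.1 := pfst Primrec.snd
  have hs' := hs.comp ha
  have ht' := ht.comp ha
  have hr' := hr.comp ha
  have hb' := hb.comp ha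
  exact (pp_eq (pfst h1) (p_ap hs' ht' hb' (pfst hr'))).and
    ((pp_eq (pfst (psnd h1)) (p_apW hs' ht' (pfst (psnd hr')) Primrec.fst)).and
    (pp_eq (p_mulQ (psnd (psnd hr')) (p_genQ hb'))
      (p_mulQ (p_evW Primrec.fst) (psnd (psnd h1)))))

end

theorem pp_chk4 : PrimrecPred fun p : Ctx × C4 => Chk4 p.1.1 p.1.2.1 p.1.2.2 p.2 := by
  have hL : Primrec fun p : Ctx × C4 => p.1.1 := pfst Primrec.fst
  have hu : Primrec fun p : Ctx × C4 => p.1.2.1 := pfst (psnd Primrec.fst)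
  have hw : Primrec fun p : Ctx × C4 => p.1.2.2 := psnd (psnd Primrec.fst)
  have hn : Primrec fun p : Ctx × C4 => p.2.1 := pfst Primrec.snd
  have hs : Primrec fun p : Ctx × C4 => p.2.2.1 := pfst (psnd Primrec.snd)
  have ht : Primrec fun p : Ctx × C4 => p.2.2.2.1 := pfst (psnd (psnd Primrec.snd))
  have hK : Primrec fun p : Ctx × C4 => p.2.2.2.2.1 := pfst (psnd (psnd (psnd Primrec.snd)))
  have hρ : Primrec fun p : Ctx × C4 => p.2.2.2.2.2.1 :=
    pfst (psnd (psnd (psnd (psnd Primrec.snd))))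
  have hW : Primrec fun p : Ctx × C4 => p.2.2.2.2.2.2.1 :=
    pfst (psnd (psnd (psnd (psnd (psnd Primrec.snd)))))
  have hx : Primrec fun p : Ctx × C4 => p.2.2.2.2.2.2.2 :=
    psnd (psnd (psnd (psnd (psnd (psnd Primrec.snd)))))
  unfold Chk4
  refine PrimrecPred.and ?_ (PrimrecPred.and ?_ (PrimrecPred.and ?_ (PrimrecPred.and ?_
    (PrimrecPred.and ?_ (PrimrecPred.and ?_ (PrimrecPred.and ?_ ?_))))))
  · refine pp_forall (R := fun (x : ℕ) (p : Ctx × C4) => Tab p.2.1 p.2.2.1 p.2.2.2.1 p.2.2.2.2.1 x)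
      (Primrec.list_range.comp hn) ?_
    exact pp_Tab (hn.comp Primrec.snd) (hs.comp Primrec.snd) (ht.comp Primrec.snd)
      (hK.comp Primrec.snd) Primrec.fst
  · refine pp_forall (R := fun (r : ℕ × ℕ × Q4) (p : Ctx × C4) =>
      (r.2.2.2.2.1 = 0 ∧ ((∀ y ∈ p.2.2.2.2.1, y ≠ r.1) ∨
      (∃ y ∈ p.2.2.2.2.1, y = r.2.1))) ∧
      Nod p.2.2.1 p.2.2.2.1 p.2.2.2.2.2.1 p.2.2.2.2.2.2.1 r false ∧
      Nod p.2.2.1 p.2.2.2.1 p.2.2.2.2.2.1 p.2.2.2.2.2.2.1 r true) hρ ?_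
    have hr : Primrec fun q : (ℕ × ℕ × Q4) × (Ctx × C4) => q.1 := Primrec.fst
    refine PrimrecPred.and (PrimrecPred.and ?_ (PrimrecPred.or ?_ ?_)) (PrimrecPred.and ?_ ?_)
    · exact pp_eq (pfst (psnd (psnd (psnd (psnd hr))))) (Primrec.const 0)
    · exact pp_nmem (hK.comp Primrec.snd) (pfst hr)
    · exact pp_mem (hK.comp Primrec.snd) (pfst (psnd hr))
    · exact pp_Nod (hs.comp Primrec.snd) (ht.comp Primrec.snd) (hρ.comp Primrec.snd)
        (hW.comp Primrec.snd) hr (Primrec.const false)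
    · exact pp_Nod (hs.comp Primrec.snd) (ht.comp Primrec.snd) (hρ.comp Primrec.snd)
        (hW.comp Primrec.snd) hr (Primrec.const true)
  · refine pp_forall (R := fun (A : Q4) (p : Ctx × C4) => dt A = 0 ∨
      ∃ r ∈ p.2.2.2.2.2.1, ∃ wd ∈ p.2.2.2.2.2.2.1, r.1 = p.2.2.2.2.2.2.2 ∧
      r.2.1 = apW p.2.2.1 p.2.2.2.1 p.2.2.2.2.2.2.2 wd ∧ A = mulQ (evW wd) r.2.2) hL ?_
    refine PrimrecPred.or (pp_eq (p_dt Primrec.fst) (Primrec.const 0)) ?_
    refine pp_exists (R := fun (r : ℕ × ℕ × Q4) (q : Q4 × (Ctx × C4)) =>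
      ∃ wd ∈ q.2.2.2.2.2.2.2.1, r.1 = q.2.2.2.2.2.2.2.2 ∧
      r.2.1 = apW q.2.2.2.1 q.2.2.2.2.1 q.2.2.2.2.2.2.2.2 wd ∧ q.1 = mulQ (evW wd) r.2.2)
      (hρ.comp Primrec.snd) ?_
    refine pp_exists (R := fun (wd : List Bool) (q : (ℕ × ℕ × Q4) × (Q4 × (Ctx × C4))) =>
      q.1.1 = q.2.2.2.2.2.2.2.2.2 ∧
      q.1.2.1 = apW q.2.2.2.2.1 q.2.2.2.2.2.1 q.2.2.2.2.2.2.2.2.2 wd ∧
      q.2.1 = mulQ (evW wd) q.1.2.2) (hW.comp (psnd Primrec.snd)) ?_
    have hp : Primrec fun q : List Bool × ((ℕ × ℕ × Q4) × (Q4 × (Ctx × C4))) => q.2.2.2 :=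
      psnd (psnd Primrec.snd)
    have hr : Primrec fun q : List Bool × ((ℕ × ℕ × Q4) × (Q4 × (Ctx × C4))) => q.2.1 :=
      pfst Primrec.snd
    have hA : Primrec fun q : List Bool × ((ℕ × ℕ × Q4) × (Q4 × (Ctx × C4))) => q.2.2.1 :=
      pfst (psnd Primrec.snd)
    refine PrimrecPred.and ?_ (PrimrecPred.and ?_ ?_)
    · exact pp_eq (pfst hr) (hx.comp hp)
    · exact pp_eq (pfst (psnd hr)) (p_apW (hs.comp hp) (ht.comp hp) (hx.comp hp) Primrec.fst)
    · exact pp_eq hA (p_mulQ (p_evW Primrec.fst) (psnd (psnd hr)))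
  · exact (pp_eq hu (Primrec.const 0)).not
  · exact (pp_eq hw (Primrec.const 0)).not
  · exact pp_nlt hx hn
  · refine pp_exists (R := fun (wd : List Bool) (p : Ctx × C4) =>
      p.1.2.1.1 * (evW wd).2.2.1 - p.1.2.1.2 * (evW wd).1 = 0 ∧
      ∃ y ∈ p.2.2.2.2.1, y = apW p.2.2.1 p.2.2.2.1 p.2.2.2.2.2.2.2 wd) hW ?_
    have hE : Primrec fun q : List Bool × (Ctx × C4) => evW q.1 := p_evW Primrec.fst
    have hu' := hu.comp (Primrec.snd (α := List Bool) (β := Ctx × C4))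
    refine PrimrecPred.and ?_ ?_
    · exact pp_eq (psub (pmul (pfst hu') (pfst (psnd (psnd hE)))) (pmul (psnd hu') (pfst hE)))
        (Primrec.const 0)
    · exact pp_mem (hK.comp Primrec.snd) (p_apW (hs.comp Primrec.snd) (ht.comp Primrec.snd)
        (hx.comp Primrec.snd) Primrec.fst)
  · refine pp_exists (R := fun (wd : List Bool) (p : Ctx × C4) =>
      p.1.2.2.1 * (evW wd).1 + p.1.2.2.2 * (evW wd).2.2.1 = 0 ∧
      ∀ y ∈ p.2.2.2.2.1, y ≠ apW p.2.2.1 p.2.2.2.1 p.2.2.2.2.2.2.2 wd) hW ?_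
    have hE : Primrec fun q : List Bool × (Ctx × C4) => evW q.1 := p_evW Primrec.fst
    have hw' := hw.comp (Primrec.snd (α := List Bool) (β := Ctx × C4))
    refine PrimrecPred.and ?_ ?_
    · exact pp_eq (padd (pmul (pfst hw') (pfst hE)) (pmul (psnd hw') (pfst (psnd (psnd hE)))))
        (Primrec.const 0)
    · exact pp_nmem (hK.comp Primrec.snd) (p_apW (hs.comp Primrec.snd) (ht.comp Primrec.snd)
        (hx.comp Primrec.snd) Primrec.fst)

end Pool.Agent.Helper425_zc
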