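import Pool.Agent.Helper425_zc.Cert3
import Pool.Agent.Helper425_zc.PCert4

set_option autoImplicit false

namespace Pool.Agent.Helper425_zc

/-- a rule `(m, r, d)` allows `x ↦ (m x + r) / d` when this is an integer -/
abbrev Rule := ℤ × ℤ × ℤ

def Step (R : List Rule) (x y : ℤ) : Prop := ∃ s ∈ R, s.2.2 * y = s.1 * x + s.2.1

def RelPrime (R : List Rule) : Prop :=
  ∀ s ∈ R, s.1 ≠ 0 ∧ s.2.2 ≠ 0 ∧ ∀ t ∈ R, Int.gcd s.1 t.2.2 = 1

/-- rational steps -/
def apR (s : Rule) (x : ℚ) : ℚ := (s.1 * x + s.2.1) / s.2.2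

def wdR (w : List Rule) (x : ℚ) : ℚ := w.foldr apR x

theorem int_of_PI {x : ℚ} (h : ∀ p : ℕ, p.Prime → PI p x) : ∃ z : ℤ, x = z := by
  have h1 : (x.den : ℤ) ∣ x.num := by
    apply dvd_of_PI (by exact_mod_cast x.den_nz)
    intro p hp _
    have := h p hp
    have e : ((x.num : ℚ) / ((x.den : ℤ) : ℚ)) = x := by
      push_cast
      exact Rat.num_div_den x
    rw [e]
    exact this
  obtain ⟨c, hc⟩ := h1
  refine ⟨c, ?_⟩
  have e := Rat.num_div_den x
  rw [← e]
  have hd : (x.den : ℚ) ≠ 0 := by exact_mod_cast x.den_nz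
  rw [div_eq_iff hd]
  have : (x.num : ℚ) = ((x.den : ℤ) : ℚ) * c := by exact_mod_cast hc
  rw [this]; push_cast; ring

theorem ndvd_of_gcd {p : ℕ} (hp : p.Prime) {m d : ℤ} (h : Int.gcd m d = 1) (hd : (p : ℤ) ∣ d) :
    ¬ (p : ℤ) ∣ m := by
  intro hm
  have h1 : (p : ℤ) ∣ (Int.gcd m d : ℤ) := Int.dvd_coe_gcd hm hd
  rw [h] at h1
  exact hp.one_lt.ne' (Nat.dvd_one.1 (by exact_mod_cast h1))

theorem wdR_int {R : List Rule} (hR : RelPrime R) {w : List Rule} (hw : ∀ s ∈ w, s ∈ R)
    {x y : ℤ} (h : wdR w x = y) : Relation.ReflTransGen (Step R) x y := by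
  induction w generalizing y with
  | nil =>
    have : x = y := by
      have h' : (x : ℚ) = y := h
      exact_mod_cast h'
    rw [this]
  | cons s w ih =>
    have hs : s ∈ R := hw s (by simp)
    have hw' : ∀ t ∈ w, t ∈ R := fun t ht => hw t (by simp [ht])
    have hd := (hR s hs).2.1
    have hdq : (s.2.2 : ℚ) ≠ 0 := by exact_mod_cast hd
    have e1 : wdR (s :: w) x = apR s (wdR w x) := rfl
    rw [e1] at h
    have e2 : (s.2.2 : ℚ) * y = s.1 * wdR w x + s.2.1 := by
      rw [← h]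
      simp only [apR]
      field_simp
    -- the inner value is an integer
    have key : ∀ p : ℕ, p.Prime → PI p (wdR w x) := by
      intro p hp
      by_cases hex : ∃ t ∈ R, (p : ℤ) ∣ t.2.2
      · obtain ⟨t, ht, hpt⟩ := hex
        have hm := ndvd_of_gcd hp ((hR s hs).2.2 t ht) hpt
        apply PI.cancel hp hm
        have e3 : ((s.1 : ℤ) : ℚ) * wdR w x = ((s.2.2 * y : ℤ) : ℚ) - ((s.2.1 : ℤ) : ℚ) := by
          push_cast; linear_combination - e2
        rw [e3]
        exact PI.sub hp (PI.int hp _) (PI.int hp _)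
      · push Not at hex
        -- forward
        clear ih e2 h e1 hw
        induction w with
        | nil => exact PI.int hp x
        | cons t w ihw =>
          have ht : t ∈ R := hw' t (by simp)
          have h2 := ihw fun u hu => hw' u (by simp [hu])
          have hdt := (hR t ht).2.1
          have hdtq : (t.2.2 : ℚ) ≠ 0 := by exact_mod_cast hdt
          apply PI.cancel hp (hex t ht)
          have e3 : ((t.2.2 : ℤ) : ℚ) * wdR (t :: w) x = ((t.1 : ℤ) : ℚ) * wdR w x +
              ((t.2.1 : ℤ) : ℚ) := by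
            have : wdR (t :: w) x = apR t (wdR w x) := rfl
            rw [this]
            simp only [apR]
            field_simp
          rw [e3]
          exact PI.add hp (PI.mul hp (PI.int hp _) h2) (PI.int hp _)
    obtain ⟨z, hz⟩ := int_of_PI key
    refine Relation.ReflTransGen.tail (ih hw' hz) ⟨s, hs, ?_⟩
    rw [hz] at e2
    exact_mod_cast e2

theorem exists_word_of_steps {R : List Rule} (hR : RelPrime R) {x y : ℤ}
    (h : Relation.ReflTransGen (Step R) x y) : ∃ w : List Rule, (∀ s ∈ w, s ∈ R) ∧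
      wdR w x = y := by
  induction h with
  | refl => exact ⟨[], by simp, rfl⟩
  | @tail b c _ hst ih =>
    obtain ⟨w, hw, e⟩ := ih
    obtain ⟨s, hs, e2⟩ := hst
    refine ⟨s :: w, ?_, ?_⟩
    · intro t ht
      rcases List.mem_cons.1 ht with rfl | h
      · exact hs
      · exact hw t h
    · have e1 : wdR (s :: w) x = apR s (wdR w x) := rfl
      have hdq : (s.2.2 : ℚ) ≠ 0 := by exact_mod_cast (hR s hs).2.1
      rw [e1, e]
      simp only [apR]
      rw [div_eq_iff hdq]
      have : ((s.2.2 * c : ℤ) : ℚ) = ((s.1 * b + s.2.1 : ℤ) : ℚ) := by exact_mod_cast e2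
      push_cast at this
      linear_combination - this

/-- the matrix attached to a rule and two integers -/
def ruleM (x y : ℤ) (s : Rule) : Q4 :=
  mulQ (1, -y, -1, x) (mulQ (s.1, s.2.1, 0, s.2.2) (x, y, 1, 1))

/-- a vector over `P` -/
theorem ruleM_act (x y : ℤ) (s : Rule) (v : V2) :
    act (x, y, 1, 1) (act (ruleM x y s) v) = ((x - y) * (act (s.1, s.2.1, 0, s.2.2)
      (act (x, y, 1, 1) v)).1, (x - y) * (act (s.1, s.2.1, 0, s.2.2) (act (x, y, 1, 1) v)).2) := by
  simp only [act, ruleM, mulQ]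
  ext
  · simp only []; ring
  · simp only []; ring

theorem prod_rules {R : List Rule} (hR : RelPrime R) {x y : ℤ} (hxy : x ≠ y) (w : List Rule)
    (hw : ∀ s ∈ w, s ∈ R) : ∃ c : ℤ, c ≠ 0 ∧
      ((act (x, y, 1, 1) (actW (w.map (ruleM x y)) (1, 0))).1 : ℚ) = c * wdR w x ∧
      (act (x, y, 1, 1) (actW (w.map (ruleM x y)) (1, 0))).2 = c := by
  induction w with
  | nil =>
    refine ⟨1, one_ne_zero, ?_, ?_⟩
    · simp [actW, act, wdR]
    · simp [actW, act]
  | cons s w ih =>
    obtain ⟨c, hc, e1, e2⟩ := ih fun t ht => hw t (by simp [ht])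
    have hs := hw s (by simp)
    have hd := (hR s hs).2.1
    have hdq : (s.2.2 : ℚ) ≠ 0 := by exact_mod_cast hd
    have e3 : actW ((s :: w).map (ruleM x y)) (1, 0) =
      act (ruleM x y s) (actW (w.map (ruleM x y)) (1, 0)) := rfl
    rw [e3, ruleM_act]
    generalize actW (w.map (ruleM x y)) (1, 0) = v at *
    refine ⟨(x - y) * s.2.2 * c, mul_ne_zero (mul_ne_zero (sub_ne_zero.2 hxy) hd) hc, ?_, ?_⟩
    · have e4 : wdR (s :: w) x = apR s (wdR w x) := rfl
      rw [e4]
      simp only [apR]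
      have e5 : ((act (s.1, s.2.1, 0, s.2.2) (act (x, y, 1, 1) v)).1 : ℚ) =
          s.1 * (act (x, y, 1, 1) v).1 + s.2.1 * (act (x, y, 1, 1) v).2 := by
        simp only [act]; push_cast; ring
      push_cast
      rw [e5, e1, e2]
      field_simp
    · have e5 : (act (s.1, s.2.1, 0, s.2.2) (act (x, y, 1, 1) v)).2 =
          s.2.2 * (act (x, y, 1, 1) v).2 := by
        simp only [act]; ring
      simp only []
      rw [e5, e2]; ring

theorem zc_iff_steps {R : List Rule} (hR : RelPrime R) {x y : ℤ} (hxy : x ≠ y) :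
    Relation.ReflTransGen (Step R) x y ↔ ZC (R.map (ruleM x y)) := by
  rw [← yes_iff]
  have hcor : ∀ w : List Rule, (∀ s ∈ w, s ∈ R) →
      ((prodQ (w.map (ruleM x y))).1 = 0 ↔ wdR w x = y) := by
    intro w hw
    obtain ⟨c, hc, e1, e2⟩ := prod_rules hR hxy w hw
    rw [prodQ_fst]
    generalize actW (w.map (ruleM x y)) (1, 0) = v at *
    have hcq : (c : ℚ) ≠ 0 := by exact_mod_cast hc
    have hxyq : (x : ℚ) - y ≠ 0 := by
      rw [sub_ne_zero]; exact_mod_cast hxy
    simp only [act] at e1 e2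
    push_cast at e1
    have e2q : (1 : ℚ) * v.1 + 1 * v.2 = c := by exact_mod_cast e2
    have e3 : ((x : ℚ) - y) * v.1 = c * (wdR w x - y) := by
      linear_combination e1 - y * e2q
    constructor
    · intro h
      have h' : (v.1 : ℚ) = 0 := by exact_mod_cast h
      rw [h', mul_zero] at e3
      have := (mul_eq_zero.1 e3.symm).resolve_left hcq
      linarith
    · intro h
      rw [h, sub_self, mul_zero] at e3
      have := (mul_eq_zero.1 e3).resolve_left hxyq
      exact_mod_cast this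
  constructor
  · intro h
    obtain ⟨w, hw, e⟩ := exists_word_of_steps hR h
    refine ⟨w.map (ruleM x y), ?_, ?_, (hcor w hw).2 e⟩
    · intro h0
      rw [List.map_eq_nil_iff] at h0
      subst h0
      have : (x : ℚ) = y := e
      exact hxy (by exact_mod_cast this)
    · intro A hA
      obtain ⟨s, hs, rfl⟩ := List.mem_map.1 hA
      exact List.mem_map.2 ⟨s, hw s hs, rfl⟩
  · rintro ⟨W, hWne, hW, h0⟩
    clear hWne
    obtain ⟨w, hw, rfl⟩ : ∃ w : List Rule, (∀ s ∈ w, s ∈ R) ∧ w.map (ruleM x y) = W := by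
      clear h0
      induction W with
      | nil => exact ⟨[], by simp, rfl⟩
      | cons A W ih =>
        obtain ⟨w, hw, e⟩ := ih fun B hB => hW B (by simp [hB])
        obtain ⟨s, hs, e2⟩ := List.mem_map.1 (hW A (by simp))
        refine ⟨s :: w, ?_, by rw [List.map_cons, e, e2]⟩
        intro t ht
        rcases List.mem_cons.1 ht with rfl | h
        · exact hs
        · exact hw t h
    exact wdR_int hR hw ((hcor w hw).1 h0)

/-! ### computability -/

theorem gcd_one_iff {m d : ℤ} (hd : d ≠ 0) : Int.gcd m d = 1 ↔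
    ∀ k ∈ List.range (d.natAbs + 1), ¬ (((k : ℕ) : ℤ) ∣ m ∧ ((k : ℕ) : ℤ) ∣ d) ∨ k = 1 := by
  constructor
  · intro h k _
    by_cases hk : ((k : ℕ) : ℤ) ∣ m ∧ ((k : ℕ) : ℤ) ∣ d
    · right
      have h1 : (k : ℤ) ∣ (Int.gcd m d : ℤ) := Int.dvd_coe_gcd hk.1 hk.2
      rw [h] at h1
      exact Nat.dvd_one.1 (by exact_mod_cast h1)
    · exact Or.inl hk
  · intro h
    have h1 := h (Int.gcd m d) (List.mem_range.2 (by
      have : Int.gcd m d ∣ d.natAbs := by
        have := Int.gcd_dvd_right m d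
        exact Int.natCast_dvd.1 this
      have := Nat.le_of_dvd (Int.natAbs_pos.2 hd) this
      omega))
    rcases h1 with h1 | h1
    · exact absurd ⟨Int.gcd_dvd_left m d, Int.gcd_dvd_right m d⟩ h1
    · exact h1

def RelPrime' (R : List Rule) : Prop :=
  ∀ s ∈ R, s.1 ≠ 0 ∧ s.2.2 ≠ 0 ∧ ∀ t ∈ R, ∀ k ∈ List.range (t.2.2.natAbs + 1),
    ¬ (((k : ℕ) : ℤ) ∣ s.1 ∧ ((k : ℕ) : ℤ) ∣ t.2.2) ∨ k = 1

theorem relPrime_iff (R : List Rule) : RelPrime R ↔ RelPrime' R := by
  constructor
  · intro h s hs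
    exact ⟨(h s hs).1, (h s hs).2.1, fun t ht =>
      (gcd_one_iff (h t ht).2.1).1 ((h s hs).2.2 t ht)⟩
  · intro h s hs
    exact ⟨(h s hs).1, (h s hs).2.1, fun t ht =>
      (gcd_one_iff (h t ht).2.1).2 ((h s hs).2.2 t ht)⟩

theorem pp_relPrime : PrimrecPred RelPrime := by
  refine PrimrecPred.of_eq (p := RelPrime') ?_ fun R => (relPrime_iff R).symm
  unfold RelPrime'
  refine pp_forall (R := fun (s : Rule) (R : List Rule) => s.1 ≠ 0 ∧ s.2.2 ≠ 0 ∧ ∀ t ∈ R,
    ∀ k ∈ List.range (t.2.2.natAbs + 1), ¬ (((k : ℕ) : ℤ) ∣ s.1 ∧ ((k : ℕ) : ℤ) ∣ t.2.2) ∨ k = 1)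
    Primrec.id ?_
  refine PrimrecPred.and (pp_eq (pfst Primrec.fst) (Primrec.const 0)).not ?_
  refine PrimrecPred.and (pp_eq (psnd (psnd Primrec.fst)) (Primrec.const 0)).not ?_
  refine pp_forall (R := fun (t : Rule) (q : Rule × List Rule) =>
    ∀ k ∈ List.range (t.2.2.natAbs + 1), ¬ (((k : ℕ) : ℤ) ∣ q.1.1 ∧ ((k : ℕ) : ℤ) ∣ t.2.2) ∨ k = 1)
    Primrec.snd ?_
  refine pp_forall (R := fun (k : ℕ) (q : Rule × (Rule × List Rule)) =>
    ¬ ((k : ℤ) ∣ q.2.1.1 ∧ (k : ℤ) ∣ q.1.2.2) ∨ k = 1)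
    (Primrec.list_range.comp (Primrec.succ.comp (prim_natAbs.comp
      (psnd (psnd Primrec.fst))))) ?_
  have hk : Primrec fun q : ℕ × (Rule × (Rule × List Rule)) => (q.1 : ℤ) :=
    prim_natCast.comp Primrec.fst
  have hm : Primrec fun q : ℕ × (Rule × (Rule × List Rule)) => q.2.2.1.1 :=
    pfst (pfst (psnd Primrec.snd))
  have hd : Primrec fun q : ℕ × (Rule × (Rule × List Rule)) => q.2.1.2.2 :=
    psnd (psnd (pfst Primrec.snd))
  exact ((pp_dvd hk hm).and (pp_dvd hk hd)).not.or (pp_eq Primrec.fst (Primrec.const 1))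

theorem p_ruleM {α : Type} [Primcodable α] {x y : α → ℤ} {s : α → Rule} (hx : Primrec x)
    (hy : Primrec y) (hs : Primrec s) : Primrec fun a => ruleM (x a) (y a) (s a) := by
  unfold ruleM
  refine p_mulQ (A := fun a => ((1, -y a, -1, x a) : Q4)) ?_ (p_mulQ
    (A := fun a => (((s a).1, (s a).2.1, 0, (s a).2.2) : Q4))
    (B := fun a => ((x a, y a, 1, 1) : Q4)) ?_ ?_)
  · exact Primrec.pair (Primrec.const 1) (Primrec.pair (pneg hy) (Primrec.pair
      (Primrec.const (-1)) hx))
  · exact Primrec.pair (pfst hs) (Primrec.pair (pfst (psnd hs)) (Primrec.pair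
      (Primrec.const 0) (psnd (psnd hs))))
  · exact Primrec.pair hx (Primrec.pair hy (Primrec.pair (Primrec.const 1) (Primrec.const 1)))

/-- the reduction -/
theorem clz_red : ∃ f : List Rule × ℤ × ℤ → List Q4, Computable f ∧
    ∀ i, (∀ A ∈ f i, dt A ≠ 0 ∧ ∃ c : ℤ, act A (1, -1) = (c, -c)) ∧
      ((RelPrime i.1 ∧ Relation.ReflTransGen (Step i.1) i.2.1 i.2.2) ↔ ZC (f i)) := by
  classical
  obtain ⟨dR, pR⟩ := pp_relPrime
  let f : List Rule × ℤ × ℤ → List Q4 := fun i =>
    if RelPrime i.1 then (if i.2.1 = i.2.2 then [(0, 1, 1, 0)] else i.1.map (ruleM i.2.1 i.2.2))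
    else [(1, 0, 0, 1)]
  refine ⟨f, ?_, ?_⟩
  · have hp : PrimrecPred fun i : List Rule × ℤ × ℤ => RelPrime i.1 :=
      pp_relPrime.comp Primrec.fst
    have : Primrec f := by
      refine Primrec.ite hp (Primrec.ite (pp_eq (pfst Primrec.snd) (psnd Primrec.snd))
        (Primrec.const _) ?_) (Primrec.const _)
      refine Primrec.list_map (g := fun (i : List Rule × ℤ × ℤ) (s : Rule) =>
        ruleM i.2.1 i.2.2 s) Primrec.fst ?_
      exact p_ruleM (pfst (psnd Primrec.fst)) (psnd (psnd Primrec.fst)) Primrec.snd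
    exact this.to_comp
  · intro i
    by_cases hR : RelPrime i.1
    · by_cases hxy : i.2.1 = i.2.2
      · have e : f i = [(0, 1, 1, 0)] := by
          show (if RelPrime i.1 then _ else _) = _
          rw [if_pos hR, if_pos hxy]
        rw [e]
        refine ⟨?_, ?_⟩
        · intro A hA
          rw [List.mem_singleton] at hA
          subst hA
          exact ⟨by simp [dt], -1, by simp [act]⟩
        · refine iff_of_true ⟨hR, by rw [hxy]⟩ ?_
          refine ⟨_, Subsemigroup.subset_closure ⟨(0, 1, 1, 0), by simp, rfl⟩, by simp⟩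
      · have e : f i = i.1.map (ruleM i.2.1 i.2.2) := by
          show (if RelPrime i.1 then _ else _) = _
          rw [if_pos hR, if_neg hxy]
        rw [e]
        refine ⟨?_, ?_⟩
        · intro A hA
          obtain ⟨s, hs, rfl⟩ := List.mem_map.1 hA
          have h1 := hR s hs
          have h2 : i.2.1 - i.2.2 ≠ 0 := sub_ne_zero.2 hxy
          refine ⟨?_, (i.2.1 - i.2.2) * s.1, ?_⟩
          · have e2 : dt (ruleM i.2.1 i.2.2 s) = (i.2.1 - i.2.2) ^ 2 * (s.1 * s.2.2) := by
              simp only [dt, ruleM, mulQ]; ring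
            rw [e2]
            exact mul_ne_zero (pow_ne_zero 2 h2) (mul_ne_zero h1.1 h1.2.1)
          · simp only [act, ruleM, mulQ]
            ext
            · simp only []; ring
            · simp only []; ring
        · rw [← zc_iff_steps hR hxy]
          exact ⟨fun h => h.2, fun h => ⟨hR, h⟩⟩
    · have e : f i = [(1, 0, 0, 1)] := by
        show (if RelPrime i.1 then _ else _) = _
        rw [if_neg hR]
      rw [e]
      refine ⟨?_, ?_⟩
      · intro A hA
        rw [List.mem_singleton] at hA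
        subst hA
        exact ⟨by simp [dt], 1, by simp [act]⟩
      · refine iff_of_false (fun h => hR h.1) ?_
        rintro ⟨M, hM, h0⟩
        have : M = 1 := by
          clear h0
          induction hM using Subsemigroup.closure_induction with
          | mem x hx =>
            obtain ⟨A, hA, rfl⟩ := hx
            rw [List.mem_singleton] at hA
            subst hA
            ext i j
            fin_cases i <;> fin_cases j <;> simp
          | mul x y _ _ hx hy => rw [hx, hy, one_mul]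
        rw [this] at h0
        simp at h0

end Pool.Agent.Helper425_zc
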