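import Mathlib

set_option autoImplicit false

namespace Pool.Agent.Helper425_zc

open Encodable

/-! Primitive recursive integer arithmetic. -/

theorem enc_ofNat (n : ℕ) : encode (n : ℤ) = 2 * n := rfl
theorem enc_negSucc (n : ℕ) : encode (Int.negSucc n) = 2 * n + 1 := rfl

theorem prim_toNat : Primrec Int.toNat := by
  have h : Primrec (fun n : ℕ => if n % 2 = 0 then n / 2 else 0) := by
    refine Primrec.ite ?_ ?_ (Primrec.const 0)
    · exact Primrec.eq.comp (Primrec.nat_mod.comp Primrec.id (Primrec.const 2)) (Primrec.const 0)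
    · exact Primrec.nat_div.comp Primrec.id (Primrec.const 2)
  refine (h.comp Primrec.encode).of_eq fun z => ?_
  cases z with
  | ofNat n =>
    show (if (encode (n : ℤ)) % 2 = 0 then (encode (n : ℤ)) / 2 else 0) = n
    rw [enc_ofNat, if_pos (by omega)]; omega
  | negSucc n =>
    show (if (encode (Int.negSucc n)) % 2 = 0 then (encode (Int.negSucc n)) / 2 else 0) = 0
    rw [enc_negSucc, if_neg (by omega)]

theorem prim_toNat_neg : Primrec (fun z : ℤ => (-z).toNat) := by
  have h : Primrec (fun n : ℕ => if n % 2 = 0 then 0 else n / 2 + 1) := by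
    refine Primrec.ite ?_ (Primrec.const 0) ?_
    · exact Primrec.eq.comp (Primrec.nat_mod.comp Primrec.id (Primrec.const 2)) (Primrec.const 0)
    · exact Primrec.succ.comp (Primrec.nat_div.comp Primrec.id (Primrec.const 2))
  refine (h.comp Primrec.encode).of_eq fun z => ?_
  cases z with
  | ofNat n =>
    show (if (encode (n : ℤ)) % 2 = 0 then 0 else (encode (n : ℤ)) / 2 + 1) = (-(n:ℤ)).toNat
    rw [enc_ofNat, if_pos (by omega)]; omega
  | negSucc n =>
    show (if (encode (Int.negSucc n)) % 2 = 0 then 0 else (encode (Int.negSucc n)) / 2 + 1) =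
      (-(Int.negSucc n)).toNat
    rw [enc_negSucc, if_neg (by omega)]
    rw [Int.neg_negSucc]
    simp
    omega

theorem prim_natSub : Primrec₂ (fun p q : ℕ => (p : ℤ) - (q : ℤ)) := by
  have h : Primrec₂ (fun p q : ℕ => if q ≤ p then 2 * (p - q) else 2 * (q - p) - 1) := by
    refine Primrec.ite ?_ ?_ ?_
    · exact Primrec.nat_le.comp Primrec.snd Primrec.fst
    · exact Primrec.nat_mul.comp (Primrec.const 2) (Primrec.nat_sub.comp Primrec.fst Primrec.snd)
    · exact Primrec.nat_sub.comp (Primrec.nat_mul.comp (Primrec.const 2)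
        (Primrec.nat_sub.comp Primrec.snd Primrec.fst)) (Primrec.const 1)
  refine Primrec.encode_iff.1 (Primrec.of_eq (α := ℕ × ℕ) h fun a => ?_)
  obtain ⟨p, q⟩ := a
  show (if q ≤ p then 2 * (p - q) else 2 * (q - p) - 1) = encode ((p : ℤ) - (q : ℤ))
  split_ifs with hq
  · have : (p : ℤ) - q = ((p - q : ℕ) : ℤ) := by omega
    rw [this, enc_ofNat]
  · have : (p : ℤ) - q = Int.negSucc (q - p - 1) := by
      rw [Int.negSucc_eq]; omega
    rw [this, enc_negSucc]; omega

theorem prim_natCast : Primrec (fun p : ℕ => (p : ℤ)) := by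
  refine (prim_natSub.comp Primrec.id (Primrec.const 0)).of_eq fun n => ?_
  simp

theorem prim_int_of_parts (f : ℤ → ℤ → ℤ) (P N : ℕ → ℕ → ℕ → ℕ → ℕ)
    (hP : Primrec (fun a : (ℕ × ℕ) × (ℕ × ℕ) => P a.1.1 a.1.2 a.2.1 a.2.2))
    (hN : Primrec (fun a : (ℕ × ℕ) × (ℕ × ℕ) => N a.1.1 a.1.2 a.2.1 a.2.2))
    (h : ∀ x y, f x y = (P x.toNat (-x).toNat y.toNat (-y).toNat : ℤ) -
      (N x.toNat (-x).toNat y.toNat (-y).toNat : ℤ)) : Primrec₂ f := by
  have hx : Primrec (fun a : ℤ × ℤ => ((a.1.toNat, (-a.1).toNat), (a.2.toNat, (-a.2).toNat))) :=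
    Primrec.pair (Primrec.pair (prim_toNat.comp Primrec.fst) (prim_toNat_neg.comp Primrec.fst))
      (Primrec.pair (prim_toNat.comp Primrec.snd) (prim_toNat_neg.comp Primrec.snd))
  refine (prim_natSub.comp (hP.comp hx) (hN.comp hx)).of_eq fun a => ?_
  exact (h a.1 a.2).symm

theorem prim_add : Primrec₂ (fun x y : ℤ => x + y) := by
  refine prim_int_of_parts _ (fun a _ c _ => a + c) (fun _ b _ d => b + d) ?_ ?_ ?_
  · exact Primrec.nat_add.comp (Primrec.fst.comp Primrec.fst) (Primrec.fst.comp Primrec.snd)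
  · exact Primrec.nat_add.comp (Primrec.snd.comp Primrec.fst) (Primrec.snd.comp Primrec.snd)
  · intro x y; push_cast; omega

theorem prim_sub : Primrec₂ (fun x y : ℤ => x - y) := by
  refine prim_int_of_parts _ (fun a _ _ d => a + d) (fun _ b c _ => b + c) ?_ ?_ ?_
  · exact Primrec.nat_add.comp (Primrec.fst.comp Primrec.fst) (Primrec.snd.comp Primrec.snd)
  · exact Primrec.nat_add.comp (Primrec.snd.comp Primrec.fst) (Primrec.fst.comp Primrec.snd)
  · intro x y; push_cast; omega

theorem prim_mul : Primrec₂ (fun x y : ℤ => x * y) := by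
  refine prim_int_of_parts _ (fun a b c d => a * c + b * d) (fun a b c d => a * d + b * c) ?_ ?_ ?_
  · exact Primrec.nat_add.comp
      (Primrec.nat_mul.comp (Primrec.fst.comp Primrec.fst) (Primrec.fst.comp Primrec.snd))
      (Primrec.nat_mul.comp (Primrec.snd.comp Primrec.fst) (Primrec.snd.comp Primrec.snd))
  · exact Primrec.nat_add.comp
      (Primrec.nat_mul.comp (Primrec.fst.comp Primrec.fst) (Primrec.snd.comp Primrec.snd))
      (Primrec.nat_mul.comp (Primrec.snd.comp Primrec.fst) (Primrec.fst.comp Primrec.snd))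
  · intro x y
    push_cast
    have hx : x = (x.toNat : ℤ) - ((-x).toNat : ℤ) := by omega
    have hy : y = (y.toNat : ℤ) - ((-y).toNat : ℤ) := by omega
    generalize (x.toNat : ℤ) = a at *
    generalize ((-x).toNat : ℤ) = b at *
    generalize (y.toNat : ℤ) = c at *
    generalize ((-y).toNat : ℤ) = d at *
    rw [hx, hy]
    ring

theorem prim_natAbs : Primrec Int.natAbs := by
  refine (Primrec.nat_add.comp prim_toNat prim_toNat_neg).of_eq fun z => ?_
  omega

section
variable {α : Type*} [Primcodable α]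

theorem padd {f g : α → ℤ} (hf : Primrec f) (hg : Primrec g) : Primrec fun a => f a + g a :=
  prim_add.comp hf hg
theorem psub {f g : α → ℤ} (hf : Primrec f) (hg : Primrec g) : Primrec fun a => f a - g a :=
  prim_sub.comp hf hg
theorem pmul {f g : α → ℤ} (hf : Primrec f) (hg : Primrec g) : Primrec fun a => f a * g a :=
  prim_mul.comp hf hg
theorem pneg {f : α → ℤ} (hf : Primrec f) : Primrec fun a => - f a := by
  refine (prim_sub.comp (Primrec.const 0) hf).of_eq fun a => by simp

theorem pp_eq {β : Type*} [Primcodable β] {f g : α → β} (hf : Primrec f) (hg : Primrec g) :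
    PrimrecPred fun a => f a = g a := Primrec.eq.comp hf hg

theorem pp_le {f g : α → ℤ} (hf : Primrec f) (hg : Primrec g) :
    PrimrecPred fun a => f a ≤ g a := by
  have h : PrimrecPred fun a => (f a - g a).toNat = 0 :=
    Primrec.eq.comp (prim_toNat.comp (psub hf hg)) (Primrec.const 0)
  exact h.of_eq fun a => by omega

theorem pp_lt {f g : α → ℤ} (hf : Primrec f) (hg : Primrec g) :
    PrimrecPred fun a => f a < g a := by
  have h : PrimrecPred fun a => (f a + 1 - g a).toNat = 0 :=
    Primrec.eq.comp (prim_toNat.comp (psub (padd hf (Primrec.const 1)) hg)) (Primrec.const 0)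
  exact h.of_eq fun a => by omega

theorem pp_dvd {f g : α → ℤ} (hf : Primrec f) (hg : Primrec g) :
    PrimrecPred fun a => f a ∣ g a := by
  have h : PrimrecPred fun a => (g a).natAbs % (f a).natAbs = 0 :=
    Primrec.eq.comp (Primrec.nat_mod.comp (prim_natAbs.comp hg) (prim_natAbs.comp hf))
      (Primrec.const 0)
  exact h.of_eq fun a => by
    rw [← Nat.dvd_iff_mod_eq_zero, Int.natAbs_dvd_natAbs]

end

/-! Parallel search. -/

theorem search {α β γ : Type} [Primcodable α] [Primcodable β] [Primcodable γ]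
    (Y : α → β → Prop) (N : α → γ → Prop)
    (hY : PrimrecRel Y) (hN : PrimrecRel N) :
    ∃ f : α →. Bool, Partrec f ∧
      (∀ a b, b ∈ f a → (b = true ∧ ∃ y, Y a y) ∨ (b = false ∧ ∃ z, N a z)) ∧
      (∀ a, ((∃ y, Y a y) ∨ ∃ z, N a z) → (f a).Dom) := by
  classical
  obtain ⟨dY, pY⟩ := hY
  obtain ⟨dN, pN⟩ := hN
  let F : α → ℕ → Option Bool := fun a n =>
    (decode (α := β ⊕ γ) n).bind fun w =>
      Sum.casesOn w (fun y => bif decide (Y a y) then some true else none)
        (fun z => bif decide (N a z) then some false else none)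
  have hF : Primrec₂ F := by
    refine Primrec.option_bind (Primrec.decode.comp Primrec.snd) ?_
    refine Primrec.sumCasesOn Primrec.snd ?_ ?_
    · refine Primrec.cond ?_ (Primrec.const _) (Primrec.const _)
      have h1 : Primrec (fun p : ((α × ℕ) × (β ⊕ γ)) × β => (p.1.1.1, p.2)) :=
        Primrec.pair (Primrec.fst.comp (Primrec.fst.comp Primrec.fst)) Primrec.snd
      exact (pY.comp h1).of_eq fun p => by
        by_cases h : Y p.1.1.1 p.2 <;> simp [h]
    · refine Primrec.cond ?_ (Primrec.const _) (Primrec.const _)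
      have h1 : Primrec (fun p : ((α × ℕ) × (β ⊕ γ)) × γ => (p.1.1.1, p.2)) :=
        Primrec.pair (Primrec.fst.comp (Primrec.fst.comp Primrec.fst)) Primrec.snd
      exact (pN.comp h1).of_eq fun p => by
        by_cases h : N p.1.1.1 p.2 <;> simp [h]
  refine ⟨fun a => Nat.rfindOpt (F a), Partrec.rfindOpt hF.to_comp, ?_, ?_⟩
  · intro a b hb
    obtain ⟨n, hn⟩ := Nat.rfindOpt_spec hb
    simp only [F, Option.mem_def] at hn
    cases hd : (decode (α := β ⊕ γ) n) with
    | none => simp [hd] at hn
    | some w =>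
      rw [hd] at hn
      cases w with
      | inl y =>
        by_cases h : Y a y
        · simp [h] at hn
          exact Or.inl ⟨hn, y, h⟩
        · simp [h] at hn
      | inr z =>
        by_cases h : N a z
        · simp [h] at hn
          exact Or.inr ⟨hn, z, h⟩
        · simp [h] at hn
  · intro a h
    rw [Nat.rfindOpt_dom]
    rcases h with ⟨y, hy⟩ | ⟨z, hz⟩
    · refine ⟨encode (Sum.inl y : β ⊕ γ), true, ?_⟩
      simp only [F, encodek, Option.mem_def, Option.bind_some]
      simp [hy]
    · refine ⟨encode (Sum.inr z : β ⊕ γ), false, ?_⟩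
      simp only [F, encodek, Option.mem_def, Option.bind_some]
      simp [hz]

end Pool.Agent.Helper425_zc
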