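import Pool.Agent.Helper425_zc.PCert4
import Pool.Agent.Helper425_zc.Algo2

set_option autoImplicit false

namespace Pool.Agent.Helper425_zc

open Matrix ModularGroup MatrixGroups

def mact (M : Matrix (Fin 2) (Fin 2) ℤ) (v : V2) : V2 :=
  (M 0 0 * v.1 + M 0 1 * v.2, M 1 0 * v.1 + M 1 1 * v.2)

theorem orb_of_mem {L : List Q4} {M : Matrix (Fin 2) (Fin 2) ℤ}
    (hM : M ∈ Subsemigroup.closure (gens' L)) : M.det ≠ 0 → ∀ v, Orb L v (mact M v) := by
  induction hM using Subsemigroup.closure_induction with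
  | mem x hx =>
    intro hd v
    obtain ⟨A, hA, rfl⟩ := hx
    have e : mact !![A.1, A.2.1; A.2.2.1, A.2.2.2] v = act A v := by simp [mact, act]
    rw [e]
    refine Orb.step A v hA ?_ Orb.base
    rw [det_fin_two] at hd
    simpa [dt] using hd
  | mul x y _ _ ihx ihy =>
    intro hd v
    rw [Matrix.det_mul] at hd
    have h1 := ihy (right_ne_zero_of_mul hd) v
    have h2 := ihx (left_ne_zero_of_mul hd) (mact y v)
    have e : mact (x * y) v = mact x (mact y v) := by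
      simp only [mact, Matrix.mul_apply, Fin.sum_univ_two]
      ext <;> simp only [] <;> ring
    rw [e]
    exact h1.trans h2

theorem ent_ofM (M : Matrix (Fin 2) (Fin 2) ℤ) : toM (M 0 0, M 0 1, M 1 0, M 1 1) = M := by
  ext i j
  fin_cases i <;> fin_cases j <;> rfl

theorem toM_inj {A B : Q4} (h : toM A = toM B) : A = B := by
  have h1 := congrFun (congrFun h 0) 0
  have h2 := congrFun (congrFun h 0) 1
  have h3 := congrFun (congrFun h 1) 0
  have h4 := congrFun (congrFun h 1) 1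
  simp [toM] at h1 h2 h3 h4
  ext
  · exact h1
  · exact h2
  · exact h3
  · exact h4

/-- Hermite form -/
theorem hermite (M : Q4) (hM : dt M ≠ 0) : ∃ (g : SL(2, ℤ)) (B : Q4),
    M = mulQ (entG g) B ∧ B.2.2.1 = 0 ∧ B.1.natAbs ≤ (dt M).natAbs ∧
    B.2.1.natAbs ≤ (dt M).natAbs ∧ B.2.2.2.natAbs ≤ (dt M).natAbs := by
  have hd : (toM M).det = dt M := by simp [toM, det_fin_two, dt]
  let A0 : FixedDetMatrix (Fin 2) ℤ (dt M) := ⟨toM M, hd⟩
  have key : ∃ (g : SL(2, ℤ)) (B : Q4), A0.1 = g.1 * toM B ∧ B.2.2.1 = 0 ∧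
      B.1.natAbs ≤ (dt M).natAbs ∧ B.2.1.natAbs ≤ (dt M).natAbs ∧
      B.2.2.2.natAbs ≤ (dt M).natAbs := by
    generalize A0 = A1
    induction A1 using (FixedDetMatrices.induction_on hM) with
    | h0 A a1 a4 a6 a7 =>
      have hdet : A.1 0 0 * A.1 1 1 = dt M := by
        have := A.2
        rw [det_fin_two, a1, mul_zero, sub_zero] at this
        exact this
      have h1 : (A.1 0 0).natAbs * (A.1 1 1).natAbs = (dt M).natAbs := by
        rw [← Int.natAbs_mul, hdet]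
      have h2 : 0 < (A.1 0 0).natAbs := by omega
      have h3 : 0 < (A.1 1 1).natAbs := by
        rcases Nat.eq_zero_or_pos (A.1 1 1).natAbs with h | h
        · rw [h, mul_zero] at h1; omega
        · exact h
      have h4 : (A.1 0 1).natAbs < (A.1 1 1).natAbs := by
        have := a7
        rw [Int.abs_eq_natAbs, Int.abs_eq_natAbs] at this
        exact_mod_cast this
      have h5 : (A.1 1 1).natAbs ≤ (dt M).natAbs := by nlinarith
      refine ⟨1, (A.1 0 0, A.1 0 1, A.1 1 0, A.1 1 1), ?_, a1, ?_, ?_, h5⟩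
      · rw [ent_ofM]
        have : (1 : SL(2, ℤ)).1 = (1 : Matrix (Fin 2) (Fin 2) ℤ) := rfl
        rw [this, one_mul]
      · show (A.1 0 0).natAbs ≤ _
        nlinarith
      · show (A.1 0 1).natAbs ≤ _
        omega
    | hS B hB =>
      obtain ⟨g, C, h1, h2⟩ := hB
      refine ⟨S * g, C, ?_, h2⟩
      have e1 : (S • B).1 = S.1 * B.1 := rfl
      have e2 : (S * g).1 = S.1 * g.1 := rfl
      rw [e1, e2, h1, Matrix.mul_assoc]
    | hT B hB =>
      obtain ⟨g, C, h1, h2⟩ := hB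
      refine ⟨T * g, C, ?_, h2⟩
      have e1 : (T • B).1 = T.1 * B.1 := rfl
      have e2 : (T * g).1 = T.1 * g.1 := rfl
      rw [e1, e2, h1, Matrix.mul_assoc]
  obtain ⟨g, B, h1, h2⟩ := key
  refine ⟨g, B, ?_, h2⟩
  apply toM_inj
  rw [toM_mulQ, toM_entG]
  exact h1

theorem dt_mulQ (A B : Q4) : dt (mulQ A B) = dt A * dt B := by
  simp only [dt, mulQ]; ring

theorem dt_entG (g : SL(2, ℤ)) : dt (entG g) = 1 := by
  have := det_entries g
  simpa [dt, entG] using this

theorem dt_genQ (b : Bool) : dt (genQ b) = 1 := by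
  rw [← entG_genG, dt_entG]

/-- every nonzero vector is a multiple of the first column of a group element -/
theorem exists_col {u : V2} (hu : u ≠ 0) : ∃ g : SL(2, ℤ), u.1 * g.1 1 0 - u.2 * g.1 0 0 = 0 := by
  have hd : dt (u.1, -u.2, u.2, u.1) ≠ 0 := by
    simp only [dt]
    intro h
    apply hu
    have h1 : u.1 = 0 := by nlinarith [sq_nonneg u.1, sq_nonneg u.2]
    have h2 : u.2 = 0 := by nlinarith [sq_nonneg u.1, sq_nonneg u.2]
    exact Prod.ext h1 h2
  obtain ⟨g, B, h1, h2, _⟩ := hermite _ hd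
  refine ⟨g, ?_⟩
  have e1 : u.1 = (mulQ (entG g) B).1 := by rw [← h1]
  have e2 : u.2 = (mulQ (entG g) B).2.2.1 := by rw [← h1]
  simp only [mulQ, entG, h2] at e1 e2
  rw [e1, e2]; ring

theorem vec_of_par {v : V2} {g : SL(2, ℤ)} (h : v.1 * g.1 1 0 - v.2 * g.1 0 0 = 0) :
    ∃ c : ℤ, v.1 = c * g.1 0 0 ∧ v.2 = c * g.1 1 0 := by
  have hdet := det_entries g
  refine ⟨v.1 * g.1 1 1 - v.2 * g.1 0 1, ?_, ?_⟩
  · linear_combination (- v.1) * hdet - g.1 0 1 * h
  · linear_combination (- v.2) * hdet - g.1 1 1 * h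

/-- direction of the first column of `g` is reachable from `u` -/
def Rdir (L : List Q4) (u : V2) (g : SL(2, ℤ)) : Prop :=
  ∃ v, Orb L u v ∧ v.1 * g.1 1 0 - v.2 * g.1 0 0 = 0

theorem exists_bound (L : List Q4) : ∃ D : ℕ, ∀ A ∈ L, (dt A).natAbs ≤ D := by
  induction L with
  | nil => exact ⟨0, by simp⟩
  | cons A L ih =>
    obtain ⟨D, hD⟩ := ih
    refine ⟨max D (dt A).natAbs, ?_⟩
    intro B hB
    rcases List.mem_cons.1 hB with rfl | h
    · exact le_max_right _ _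
    · exact (hD B h).trans (le_max_left _ _)

theorem finite_box (n D : ℕ) : {r : ℕ × ℕ × Q4 | r.1 < n ∧ r.2.1 < n ∧ r.2.2.1.natAbs ≤ D ∧
    r.2.2.2.1.natAbs ≤ D ∧ r.2.2.2.2.1 = 0 ∧ r.2.2.2.2.2.natAbs ≤ D}.Finite := by
  have h : (Set.Iio n ×ˢ (Set.Iio n ×ˢ (Set.Icc (-(D : ℤ)) D ×ˢ (Set.Icc (-(D : ℤ)) D ×ˢ
      (Set.Icc (0 : ℤ) 0 ×ˢ Set.Icc (-(D : ℤ)) D)))) : Set (ℕ × ℕ × Q4)).Finite :=
    (Set.finite_Iio n).prod ((Set.finite_Iio n).prod ((Set.finite_Icc _ _).prod
      ((Set.finite_Icc _ _).prod ((Set.finite_Icc _ _).prod (Set.finite_Icc _ _)))))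
  refine h.subset ?_
  rintro ⟨x, y, a, b, c, d⟩ ⟨h1, h2, h3, h4, h5, h6⟩
  simp only at h1 h2 h3 h4 h5 h6
  refine ⟨h1, h2, ⟨by simp only []; omega, by simp only []; omega⟩,
    ⟨by simp only []; omega, by simp only []; omega⟩, ⟨by simp only []; omega,
    by simp only []; omega⟩, ⟨by simp only []; omega, by simp only []; omega⟩⟩

theorem chk4_complete {L : List Q4} {u w : V2} (hu0 : u ≠ 0) (hw0 : w ≠ 0)
    (Γ : Subgroup SL(2, ℤ)) [Γ.FiniteIndex]
    (hR : ∀ γ ∈ Γ, ∀ g, Rdir L u g → Rdir L u (γ * g)) (hn : ¬ Reach L u w) :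
    ∃ e, Chk4 L u w e := by
  classical
  obtain ⟨n, ⟨ee⟩⟩ : ∃ n, Nonempty ((SL(2, ℤ) ⧸ Γ) ≃ Fin n) :=
    ⟨Nat.card (SL(2, ℤ) ⧸ Γ), ⟨Finite.equivFin _⟩⟩
  -- codes of cosets
  let cd : SL(2, ℤ) → ℕ := fun g => (ee ((g⁻¹ : SL(2, ℤ)) : SL(2, ℤ) ⧸ Γ) : ℕ)
  have cd_lt : ∀ g, cd g < n := fun g => (ee _).2
  have cd_eq : ∀ g h, cd g = cd h → g * h⁻¹ ∈ Γ := by
    intro g h e
    have h1 := ee.injective (Fin.ext e)
    have h2 := QuotientGroup.eq.1 h1
    rwa [inv_inv] at h2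
  have cd_of : ∀ g h, g * h⁻¹ ∈ Γ → cd g = cd h := by
    intro g h e
    have h2 : ((g⁻¹ : SL(2, ℤ)) : SL(2, ℤ) ⧸ Γ) = ((h⁻¹ : SL(2, ℤ)) : SL(2, ℤ) ⧸ Γ) := by
      apply QuotientGroup.eq.2
      rwa [inv_inv]
    show (ee _ : ℕ) = ee _
    rw [h2]
  have cd_mul : ∀ g h k, cd g = cd h → cd (g * k) = cd (h * k) := by
    intro g h k e
    apply cd_of
    have := cd_eq g h e
    rwa [_root_.mul_inv_rev, ← mul_assoc, mul_assoc g k, mul_inv_cancel, mul_one]
  have cd_surj : ∀ x, x < n → ∃ g, cd g = x := by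
    intro x hx
    obtain ⟨q, hq⟩ := ee.surjective ⟨x, hx⟩
    obtain ⟨g, rfl⟩ := QuotientGroup.mk_surjective q
    refine ⟨g⁻¹, ?_⟩
    show (ee ((g⁻¹⁻¹ : SL(2, ℤ)) : SL(2, ℤ) ⧸ Γ) : ℕ) = x
    rw [inv_inv, hq]
  choose! sec hsec using cd_surj
  -- tables
  let s : List ℕ := (List.range n).map fun x => cd (sec x * genG false)
  let t : List ℕ := (List.range n).map fun x => cd (sec x * genG true)
  have hap : ∀ g b, ap s t b (cd g) = cd (g * genG b) := by
    intro g b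
    have h1 : ∀ b, ((List.range n).map fun x => cd (sec x * genG b)).getD (cd g) 0 =
        cd (g * genG b) := by
      intro b
      rw [List.getD_eq_getElem?_getD, List.getElem?_map, List.getElem?_range (cd_lt g)]
      simp only [Option.map_some, Option.getD_some]
      exact cd_mul _ _ _ (hsec _ (cd_lt g))
    cases b
    · exact h1 false
    · exact h1 true
  have hapW : ∀ wd g, apW s t (cd g) wd = cd (g * toG wd) := by
    intro wd
    induction wd with
    | nil => intro g; simp [apW, toG]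
    | cons b wd ih =>
      intro g
      have e1 : toG (b :: wd) = genG b * toG wd := by
        have : toG (b :: wd) = wd.foldl (fun g b => g * genG b) (1 * genG b) := rfl
        rw [this, toG_aux, one_mul]
      have e2 : apW s t (cd g) (b :: wd) = apW s t (ap s t b (cd g)) wd := rfl
      rw [e2, hap, ih, e1, mul_assoc]
  -- good points
  let K : List ℕ := (List.range n).filter fun x => decide (Rdir L u (sec x))
  have hKiff : ∀ g, (∃ y ∈ K, y = cd g) ↔ Rdir L u g := by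
    intro g
    have h1 : (∃ y ∈ K, y = cd g) ↔ Rdir L u (sec (cd g)) := by
      constructor
      · rintro ⟨y, hy, rfl⟩
        have := (List.mem_filter.1 hy).2
        exact of_decide_eq_true this
      · intro h
        exact ⟨cd g, List.mem_filter.2 ⟨List.mem_range.2 (cd_lt g), decide_eq_true h⟩, rfl⟩
    rw [h1]
    have e1 := hsec _ (cd_lt g)
    constructor
    · intro h
      have h2 := hR _ (cd_eq _ _ e1.symm) _ h
      rwa [inv_mul_cancel_right] at h2
    · intro h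
      have h2 := hR _ (cd_eq _ _ e1) _ h
      rwa [inv_mul_cancel_right] at h2
  have hRT : ∀ g, Rdir L u (g * T) ↔ Rdir L u g := by
    intro g
    obtain ⟨a1, a2, a3, a4⟩ := mulE _ g T rfl
    have e1 : (g * T).1 0 0 = g.1 0 0 := by rw [a1]; simp [T]
    have e2 : (g * T).1 1 0 = g.1 1 0 := by rw [a3]; simp [T]
    simp only [Rdir, e1, e2]
  have hRS : ∀ g, Rdir L u (g * (S * S)) ↔ Rdir L u g := by
    intro g
    have e0 : g * (S * S) = - g := by rw [neg_one_eq, mul_neg, mul_one]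
    have e1 : (g * (S * S)).1 0 0 = - g.1 0 0 := by rw [e0, neg_entries]
    have e2 : (g * (S * S)).1 1 0 = - g.1 1 0 := by rw [e0, neg_entries]
    simp only [Rdir, e1, e2]
    constructor
    · rintro ⟨v, hv, h⟩
      exact ⟨v, hv, by linear_combination (-1) * h⟩
    · rintro ⟨v, hv, h⟩
      exact ⟨v, hv, by linear_combination (-1) * h⟩
  -- the relation
  obtain ⟨D, hD⟩ := exists_bound L
  let RS : Set (ℕ × ℕ × Q4) := {r | ∃ (g g' : SL(2, ℤ)) (A : Q4), A ∈ L ∧ dt A ≠ 0 ∧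
    mulQ A (entG g) = mulQ (entG g') r.2.2 ∧ r.1 = cd g ∧ r.2.1 = cd g' ∧ r.2.2.1.natAbs ≤ D ∧
    r.2.2.2.1.natAbs ≤ D ∧ r.2.2.2.2.1 = 0 ∧ r.2.2.2.2.2.natAbs ≤ D}
  have hfin : RS.Finite := by
    refine (finite_box n D).subset ?_
    rintro r ⟨g, g', A, _, _, _, h1, h2, h3, h4, h5, h6⟩
    exact ⟨by rw [h1]; exact cd_lt _, by rw [h2]; exact cd_lt _, h3, h4, h5, h6⟩
  let ρ : List (ℕ × ℕ × Q4) := hfin.toFinset.toList
  have hρ : ∀ r, r ∈ ρ ↔ r ∈ RS := by
    intro r
    rw [Finset.mem_toList, Set.Finite.mem_toFinset]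
  -- words for Hermite forms
  have hword : ∀ M : Q4, ∃ wd : List Bool, dt M ≠ 0 → ∃ B : Q4,
      M = mulQ (entG (toG wd)) B ∧ B.2.2.1 = 0 ∧ B.1.natAbs ≤ (dt M).natAbs ∧
      B.2.1.natAbs ≤ (dt M).natAbs ∧ B.2.2.2.natAbs ≤ (dt M).natAbs := by
    intro M
    by_cases hM : dt M ≠ 0
    · obtain ⟨g, B, h⟩ := hermite M hM
      obtain ⟨wd, rfl⟩ := exists_word g
      exact ⟨wd, fun _ => ⟨B, h⟩⟩
    · exact ⟨[], fun h => absurd h hM⟩
  choose hw hhw using hword
  obtain ⟨gu, hgu⟩ := exists_col hu0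
  obtain ⟨wu, rfl⟩ := exists_word gu
  have hw0' : ((-w.2, w.1) : V2) ≠ 0 := by
    intro h
    apply hw0
    have h1 : -w.2 = 0 := congrArg Prod.fst h
    have h2 : w.1 = 0 := congrArg Prod.snd h
    exact Prod.ext h2 (by simpa using h1)
  obtain ⟨gw, hgw⟩ := exists_col hw0'
  obtain ⟨ww, rfl⟩ := exists_word gw
  let W : List (List Bool) := wu :: ww :: (L.map hw ++ ρ.flatMap fun r =>
    [hw (mulQ r.2.2 (genQ false)), hw (mulQ r.2.2 (genQ true))])
  have hWL : ∀ A ∈ L, hw A ∈ W := by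
    intro A hA
    simp only [W, List.mem_cons, List.mem_append, List.mem_map]
    exact Or.inr (Or.inr (Or.inl ⟨A, hA, rfl⟩))
  have hWρ : ∀ r ∈ ρ, ∀ b, hw (mulQ r.2.2 (genQ b)) ∈ W := by
    intro r hr b
    simp only [W, List.mem_cons, List.mem_append, List.mem_flatMap]
    refine Or.inr (Or.inr (Or.inr ⟨r, hr, ?_⟩))
    cases b <;> simp
  have hdB : ∀ (A : Q4) (g g' : SL(2, ℤ)) (B : Q4), mulQ A (entG g) = mulQ (entG g') B →
      dt B = dt A := by
    intro A g g' B h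
    have := congrArg dt h
    rw [dt_mulQ, dt_mulQ, dt_entG, dt_entG, mul_one, one_mul] at this
    exact this.symm
  have hNod : ∀ r ∈ ρ, ∀ b, Nod s t ρ W r b := by
    intro r hr b
    have hr' := (hρ r).1 hr
    obtain ⟨g, g', A, hA, hdA, hm, h1, h2, h3, h4, h5, h6⟩ := hr'
    have hdr := hdB A g g' _ hm
    have hd2 : dt (mulQ r.2.2 (genQ b)) = dt A := by rw [dt_mulQ, dt_genQ, mul_one, hdr]
    obtain ⟨B, e1, e2, e3, e4, e5⟩ := hhw (mulQ r.2.2 (genQ b)) (by rw [hd2]; exact hdA)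
    rw [hd2] at e3 e4 e5
    refine ⟨(cd (g * genG b), cd (g' * toG (hw (mulQ r.2.2 (genQ b)))), B), ?_,
      hw (mulQ r.2.2 (genQ b)), hWρ r hr b, ?_, ?_, ?_⟩
    · rw [hρ]
      refine ⟨g * genG b, g' * toG (hw (mulQ r.2.2 (genQ b))), A, hA, hdA, ?_, rfl, rfl,
        e3.trans (hD A hA), e4.trans (hD A hA), e2, e5.trans (hD A hA)⟩
      rw [entG_mul, entG_mul, ← mulQ_assoc, hm, mulQ_assoc, entG_genG, mulQ_assoc, ← e1]
    · simp only []
      rw [h1, hap]
    · simp only []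
      rw [h2, hapW]
    · rw [evW_eq]; exact e1
  refine ⟨(n, s, t, K, ρ, W, cd 1), ?_, ?_, ?_, hu0, hw0, cd_lt 1, ?_, ?_⟩
  · -- tables
    intro x hx
    have hx := List.mem_range.1 hx
    simp only at hx
    show Tab n s t K x
    obtain ⟨g, rfl⟩ : ∃ g, cd g = x := ⟨_, hsec x hx⟩
    refine ⟨?_, ?_, ?_, ?_, ?_, ?_⟩
    · rw [hap]; exact cd_lt _
    · rw [hap]; exact cd_lt _
    · rw [hapW]
      congr 1
      have e : toG [false, false, false, false] = S * S * (S * S) := by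
        simp [toG, genG, mul_assoc]
      rw [e, neg_one_eq]; simp
    · rw [hapW, hapW]
      congr 2
      have e1 : toG [false, true, false, true, false, true] = S * T * S * T * S * T := by
        simp [toG, genG]
      have e2 : toG [false, false] = S * S := by simp [toG, genG]
      rw [e1, e2]
      have h3 := T_inv
      have h4 : S * T * S * T * S * T = S * S * (S * S) * (S * T * S * T * S) * T := by
        rw [neg_one_eq]; simp [mul_assoc]
      have h5 : S * S * (S * S) * (S * T * S * T * S) * T =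
          S * S * (S * S * S * T * S * T * S) * T := by
        simp only [mul_assoc]
      rw [h4, h5, ← h3, mul_assoc, inv_mul_cancel, mul_one]
    · rw [hap]
      have : genG true = T := rfl
      rw [this, hKiff, hKiff, hRT]
    · rw [hapW]
      have e2 : toG [false, false] = S * S := by simp [toG, genG]
      rw [e2, hKiff, hKiff, hRS]
  · intro r hr
    show (r.2.2.2.2.1 = 0 ∧ ((∀ y ∈ K, y ≠ r.1) ∨ (∃ y ∈ K, y = r.2.1))) ∧
      Nod s t ρ W r false ∧ Nod s t ρ W r true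
    have hr : r ∈ ρ := hr
    refine ⟨?_, hNod r hr false, hNod r hr true⟩
    obtain ⟨g, g', A, hA, hdA, hm, h1, h2, h3, h4, h5, h6⟩ := (hρ r).1 hr
    refine ⟨h5, ?_⟩
    by_cases hg : Rdir L u g
    · right
      rw [h2, hKiff]
      obtain ⟨v, hv, hpar⟩ := hg
      refine ⟨act A v, Orb.step A v hA hdA hv, ?_⟩
      obtain ⟨c, c1, c2⟩ := vec_of_par hpar
      have e1 : v = act (entG g) (c, 0) := by
        simp only [act, entG]; ext
        · simp only [c1]; ring
        · simp only [c2]; ring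
      rw [e1, ← act_mulQ, hm, act_mulQ]
      simp only [act, entG, h5]
      ring
    · left
      intro y hy h
      apply hg
      rw [← hKiff]
      exact ⟨y, hy, by rw [h, h1]⟩
  · intro A hA
    by_cases hdA : dt A = 0
    · exact Or.inl hdA
    right
    obtain ⟨B, e1, e2, e3, e4, e5⟩ := hhw A hdA
    refine ⟨(cd 1, cd (toG (hw A)), B), ?_, hw A, hWL A hA, rfl, ?_, ?_⟩
    · show _ ∈ ρ
      rw [hρ]
      refine ⟨1, toG (hw A), A, hA, hdA, ?_, rfl, rfl, e3.trans (hD A hA), e4.trans (hD A hA), e2,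
        e5.trans (hD A hA)⟩
      rw [entG_one, ← e1]
      simp [mulQ]
    · show cd (toG (hw A)) = apW s t (cd 1) (hw A)
      rw [hapW, one_mul]
    · rw [evW_eq]; exact e1
  · refine ⟨wu, by simp [W], ?_, ?_⟩
    · rw [evW_eq]; exact hgu
    · show ∃ y ∈ K, y = apW s t (cd 1) wu
      rw [hapW, one_mul, hKiff]
      exact ⟨u, Orb.base, hgu⟩
  · refine ⟨ww, by simp [W], ?_, ?_⟩
    · rw [evW_eq]
      simp only [entG]
      linear_combination (-1) * hgw
    · show ∀ y ∈ K, y ≠ apW s t (cd 1) ww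
      intro y hy h
      rw [hapW, one_mul] at h
      have h1 := (hKiff (toG ww)).1 ⟨y, hy, h⟩
      apply hn
      obtain ⟨v, hv, hpar⟩ := h1
      refine ⟨v, hv, ?_⟩
      obtain ⟨c, c1, c2⟩ := vec_of_par hpar
      simp only [dot]
      rw [c1, c2]
      linear_combination (-c) * hgw

end Pool.Agent.Helper425_zc
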