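import Pool.Agent.Helper425_zc.Bridge
import Pool.Agent.Helper425_zc.Algo

set_option autoImplicit false

namespace Pool.Agent.Helper425_zc

open Matrix

/-! ### pairs of vectors -/

theorem pair_main {P : Q4} {L : List Q4} (hP : dt P ≠ 0)
    (hL : ∀ A ∈ L, dt A ≠ 0 → cc P A = 0)
    (hmain : ∀ x0 q : ℚ, Rch (gset P L) x0 q ∨ Cert1q (gset P L) x0 q ∨
      Cert2q (gset P L) x0 q ∨ Cert2q (ng (gset P L)) (-x0) (-q))
    (u w : V2) : Reach L u w ∨ Chk0 L u w ∨ (∃ e, Chk1 L u w e) ∨ (∃ e, Chk2 L u w e) := by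
  by_cases h0 : dot w u = 0
  · exact Or.inl ⟨u, Orb.base, h0⟩
  have hPne : P.1 ≠ 0 ∨ P.2.2.1 ≠ 0 := by
    by_contra h
    push Not at h
    apply hP
    simp [dt, h.1, h.2]
  by_cases hu : y2 P u = 0
  · right; left
    refine ⟨h0, Or.inl fun A hA => ?_⟩
    by_cases hd : dt A = 0
    · exact Or.inl hd
    right
    have h1 := y2_act P A u
    rw [hL A hA hd, hu] at h1
    have h2 : y2 P (act A u) = 0 := by
      have : dt P * y2 P (act A u) = 0 := by rw [h1]; ring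
      exact (mul_eq_zero.1 this).resolve_left hP
    simp only [y2] at hu h2
    rcases hPne with h | h
    · apply mul_left_cancel₀ h
      linear_combination u.1 * h2 - (act A u).1 * hu
    · apply mul_left_cancel₀ h
      linear_combination u.2 * h2 - (act A u).2 * hu
  by_cases hw : w1 P w = 0
  · right; left
    refine ⟨h0, Or.inr fun A hA => ?_⟩
    by_cases hd : dt A = 0
    · exact Or.inl hd
    right
    have h1 := hL A hA hd
    simp only [w1] at hw
    simp only [cc] at h1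
    rcases hPne with h | h
    · apply mul_left_cancel₀ (mul_ne_zero h h)
      have e1 : P.1 * (w.1 * A.1 + w.2 * A.2.2.1) * P.1 +
          P.1 * (w.1 * A.2.1 + w.2 * A.2.2.2) * P.2.2.1 = 0 := by
        linear_combination w.2 * h1 + (A.1 * P.1 + A.2.1 * P.2.2.1) * hw
      linear_combination (P.1 * (w.1 * A.2.1 + w.2 * A.2.2.2)) * hw - w.2 * e1
    · apply mul_left_cancel₀ (mul_ne_zero h h)
      have e1 : P.2.2.1 * (w.1 * A.1 + w.2 * A.2.2.1) * P.1 +
          P.2.2.1 * (w.1 * A.2.1 + w.2 * A.2.2.2) * P.2.2.1 = 0 := by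
        linear_combination (- w.1) * h1 + (A.2.2.1 * P.1 + A.2.2.2 * P.2.2.1) * hw
      linear_combination w.1 * e1 - (P.2.2.1 * (w.1 * A.1 + w.2 * A.2.2.1)) * hw
  rcases hmain (xc P u) (- (w2 P w : ℚ) / w1 P w) with h | h | h | h
  · exact Or.inl (reach_of_rch hP hL hu hw h)
  · exact Or.inr (Or.inr (Or.inl (chk1_of_cert1q hP hL hu hw h)))
  · refine Or.inr (Or.inr (Or.inr (chk2_of_cert2q hP hL hu hw 1 (gset P L) ?_ ?_)))
    · intro A hA hd
      have : (((af P A).1, ((1 : ℤ) : ℚ) * (af P A).2) : ℚ × ℚ) = af P A := by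
        ext <;> simp
      rw [this]
      exact mem_gset.2 ⟨A, hA, hd, rfl⟩
    · simpa using h
  · refine Or.inr (Or.inr (Or.inr (chk2_of_cert2q hP hL hu hw (-1) (ng (gset P L)) ?_ ?_)))
    · intro A hA hd
      rw [mem_ng]
      have : nf ((af P A).1, ((-1 : ℤ) : ℚ) * (af P A).2) = af P A := by
        simp only [nf]; ext <;> simp
      rw [this]
      exact mem_gset.2 ⟨A, hA, hd, rfl⟩
    · have e1 : ((-1 : ℤ) : ℚ) * xc P u = - xc P u := by push_cast; ring
      have e2 : ((-1 : ℤ) : ℚ) * (- (w2 P w : ℚ) / w1 P w) = - (- (w2 P w : ℚ) / w1 P w) := by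
        push_cast; ring
      rw [e1, e2]; exact h

/-! ### from matrices to affine maps -/

/-- the four entries of an integer matrix -/
def ofM (M : Matrix (Fin 2) (Fin 2) ℤ) : Q4 := (M 0 0, M 0 1, M 1 0, M 1 1)

theorem toM_ofM (M : Matrix (Fin 2) (Fin 2) ℤ) : toM (ofM M) = M := by
  ext i j; fin_cases i <;> fin_cases j <;> simp [toM, ofM]

theorem ofM_toM (A : Q4) : ofM (toM A) = A := by
  simp [toM, ofM]

theorem det_toM (A : Q4) : (toM A).det = dt A := by
  simp [toM, dt, Matrix.det_fin_two]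

theorem ofM_mul (M N : Matrix (Fin 2) (Fin 2) ℤ) : ofM (M * N) = mulQ (ofM M) (ofM N) := by
  rw [← ofM_toM (mulQ (ofM M) (ofM N)), toM_mulQ, toM_ofM, toM_ofM]

/-- matrix `M` over `ℤ` seen over `ℚ` in the basis `P` -/
noncomputable def inB (P : Matrix (Fin 2) (Fin 2) ℚ) (M : Matrix (Fin 2) (Fin 2) ℤ) :
    Matrix (Fin 2) (Fin 2) ℚ := P⁻¹ * M.map (fun z : ℤ => (z : ℚ)) * P

theorem exists_int_basis (P : Matrix (Fin 2) (Fin 2) ℚ) (hP : P.det ≠ 0) :
    ∃ P' : Q4, dt P' ≠ 0 ∧ ∀ M : Matrix (Fin 2) (Fin 2) ℤ,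
      inB P M 0 0 = (ca P' (ofM M) : ℚ) / dt P' ∧ inB P M 0 1 = (cb P' (ofM M) : ℚ) / dt P' ∧
      inB P M 1 0 = (cc P' (ofM M) : ℚ) / dt P' ∧ inB P M 1 1 = (cd P' (ofM M) : ℚ) / dt P' := by
  obtain ⟨D, hD, hD'⟩ := common_den {P 0 0, P 0 1, P 1 0, P 1 1}
  obtain ⟨a, ha⟩ := hD' (P 0 0) (by simp)
  obtain ⟨b, hb⟩ := hD' (P 0 1) (by simp)
  obtain ⟨c, hc⟩ := hD' (P 1 0) (by simp)
  obtain ⟨d, hd⟩ := hD' (P 1 1) (by simp)
  have hDq : (D : ℚ) ≠ 0 := by exact_mod_cast hD.ne'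
  rw [Matrix.det_fin_two] at hP
  have hdt : ((dt (a, b, c, d) : ℤ) : ℚ) = D * D * (P 0 0 * P 1 1 - P 0 1 * P 1 0) := by
    simp only [dt]; push_cast
    rw [← ha, ← hb, ← hc, ← hd]; ring
  have hdt0 : ((dt (a, b, c, d) : ℤ) : ℚ) ≠ 0 := by
    rw [hdt]; exact mul_ne_zero (mul_ne_zero hDq hDq) hP
  refine ⟨(a, b, c, d), by exact_mod_cast hdt0, fun M => ?_⟩
  have hinv : P⁻¹ = (P 0 0 * P 1 1 - P 0 1 * P 1 0)⁻¹ • !![P 1 1, -P 0 1; -P 1 0, P 0 0] := by
    rw [Matrix.inv_def, Matrix.det_fin_two, Matrix.adjugate_fin_two]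
    simp
  have e0 : inB P M = P⁻¹ * M.map (fun z : ℤ => (z : ℚ)) * P := rfl
  rw [e0, hinv]
  have hPP : P = !![P 0 0, P 0 1; P 1 0, P 1 1] := by
    ext i j; fin_cases i <;> fin_cases j <;> rfl
  have hMM : M.map (fun z : ℤ => (z : ℚ)) =
      !![(M 0 0 : ℚ), (M 0 1 : ℚ); (M 1 0 : ℚ), (M 1 1 : ℚ)] := by
    ext i j; fin_cases i <;> fin_cases j <;> rfl
  rw [hMM]
  have hm : (P 0 0 * P 1 1 - P 0 1 * P 1 0)⁻¹ • !![P 1 1, -P 0 1; -P 1 0, P 0 0] *
      !![(M 0 0 : ℚ), (M 0 1 : ℚ); (M 1 0 : ℚ), (M 1 1 : ℚ)] * P =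
      (P 0 0 * P 1 1 - P 0 1 * P 1 0)⁻¹ • (!![P 1 1, -P 0 1; -P 1 0, P 0 0] *
      !![(M 0 0 : ℚ), (M 0 1 : ℚ); (M 1 0 : ℚ), (M 1 1 : ℚ)] *
        !![P 0 0, P 0 1; P 1 0, P 1 1]) := by
    rw [← hPP, Matrix.smul_mul, Matrix.smul_mul]
  rw [hm]
  have hD2 : (D : ℚ) * D ≠ 0 := mul_ne_zero hDq hDq
  refine ⟨?_, ?_, ?_, ?_⟩
  · rw [eq_div_iff hdt0, hdt]
    simp [Matrix.mul_fin_two, ca, ofM]
    rw [← ha, ← hb, ← hc, ← hd]
    field_simp
    ring
  · rw [eq_div_iff hdt0, hdt]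
    simp [Matrix.mul_fin_two, cb, ofM]
    rw [← hb, ← hd]
    field_simp
    ring
  · rw [eq_div_iff hdt0, hdt]
    simp [Matrix.mul_fin_two, cc, ofM]
    rw [← ha, ← hc]
    field_simp
    ring
  · rw [eq_div_iff hdt0, hdt]
    simp [Matrix.mul_fin_two, cd, ofM]
    rw [← ha, ← hb, ← hc, ← hd]
    field_simp
    ring

theorem ca_mul (P A B : Q4) : dt P * ca P (mulQ A B) = ca P A * ca P B + cb P A * cc P B := by
  simp only [dt, ca, cb, cc, mulQ]; ring
theorem cb_mul (P A B : Q4) : dt P * cb P (mulQ A B) = ca P A * cb P B + cb P A * cd P B := by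
  simp only [dt, ca, cb, cd, mulQ]; ring
theorem cc_mul (P A B : Q4) : dt P * cc P (mulQ A B) = cc P A * ca P B + cd P A * cc P B := by
  simp only [dt, ca, cc, cd, mulQ]; ring
theorem cd_mul (P A B : Q4) : dt P * cd P (mulQ A B) = cc P A * cb P B + cd P A * cd P B := by
  simp only [dt, cb, cc, cd, mulQ]; ring

/-- nonsingular products give elements of the affine semigroup -/
theorem sg_of_mem {P : Q4} {L : List Q4} (hP : dt P ≠ 0)
    (hL : ∀ A ∈ L, dt A ≠ 0 → cc P A = 0) {M : Matrix (Fin 2) (Fin 2) ℤ}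
    (hM : M ∈ Subsemigroup.closure (gens' L)) (hd : M.det ≠ 0) :
    cc P (ofM M) = 0 ∧ Sg (gset P L) (af P (ofM M)) := by
  induction hM using Subsemigroup.closure_induction with
  | mem x hx =>
    obtain ⟨y, hy, rfl⟩ := hx
    have e : ofM !![y.1, y.2.1; y.2.2.1, y.2.2.2] = y := ofM_toM y
    have e2 : (!![y.1, y.2.1; y.2.2.1, y.2.2.2] : Matrix (Fin 2) (Fin 2) ℤ).det = dt y := det_toM y
    rw [e2] at hd
    rw [e]
    exact ⟨hL y hy hd, Sg.base _ (mem_gset.2 ⟨y, hy, hd, rfl⟩)⟩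
  | mul x y _ _ ihx ihy =>
    rw [Matrix.det_mul] at hd
    have hx0 := left_ne_zero_of_mul hd
    have hy0 := right_ne_zero_of_mul hd
    obtain ⟨hx1, hx2⟩ := ihx hx0
    obtain ⟨hy1, hy2⟩ := ihy hy0
    rw [ofM_mul]
    have dx : dt (ofM x) ≠ 0 := by rw [← det_toM, toM_ofM]; exact hx0
    have dy : dt (ofM y) ≠ 0 := by rw [← det_toM, toM_ofM]; exact hy0
    obtain ⟨hx3, hx4⟩ := cd_ne hP dx hx1
    obtain ⟨hy3, hy4⟩ := cd_ne hP dy hy1
    have c1 := cc_mul P (ofM x) (ofM y)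
    rw [hx1, hy1] at c1
    have c2 : cc P (mulQ (ofM x) (ofM y)) = 0 := by
      have : dt P * cc P (mulQ (ofM x) (ofM y)) = 0 := by rw [c1]; ring
      exact (mul_eq_zero.1 this).resolve_left hP
    refine ⟨c2, ?_⟩
    have e : af P (mulQ (ofM x) (ofM y)) = cmp (af P (ofM x)) (af P (ofM y)) := by
      have a1 := ca_mul P (ofM x) (ofM y)
      have b1 := cb_mul P (ofM x) (ofM y)
      have d1 := cd_mul P (ofM x) (ofM y)
      rw [hy1, mul_zero, add_zero] at a1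
      rw [hx1, zero_mul, zero_add] at d1
      have qP : (dt P : ℚ) ≠ 0 := by exact_mod_cast hP
      have qx : (cd P (ofM x) : ℚ) ≠ 0 := by exact_mod_cast hx4
      have qy : (cd P (ofM y) : ℚ) ≠ 0 := by exact_mod_cast hy4
      have d1q : (dt P : ℚ) * cd P (mulQ (ofM x) (ofM y)) = cd P (ofM x) * cd P (ofM y) := by
        exact_mod_cast d1
      have a1q : (dt P : ℚ) * ca P (mulQ (ofM x) (ofM y)) = ca P (ofM x) * ca P (ofM y) := by
        exact_mod_cast a1
      have b1q : (dt P : ℚ) * cb P (mulQ (ofM x) (ofM y)) =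
          ca P (ofM x) * cb P (ofM y) + cb P (ofM x) * cd P (ofM y) := by exact_mod_cast b1
      have qd : (cd P (mulQ (ofM x) (ofM y)) : ℚ) ≠ 0 := by
        intro h
        rw [h, mul_zero] at d1q
        exact mul_ne_zero qx qy d1q.symm
      have key1 : (ca P (mulQ (ofM x) (ofM y)) : ℚ) / cd P (mulQ (ofM x) (ofM y)) =
          (ca P (ofM x) * ca P (ofM y)) / (cd P (ofM x) * cd P (ofM y)) := by
        rw [← a1q, ← d1q]; field_simp
      have key2 : (cb P (mulQ (ofM x) (ofM y)) : ℚ) / cd P (mulQ (ofM x) (ofM y)) =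
          (ca P (ofM x) * cb P (ofM y) + cb P (ofM x) * cd P (ofM y)) /
            (cd P (ofM x) * cd P (ofM y)) := by
        rw [← b1q, ← d1q]; field_simp
      simp only [af, cmp]
      ext
      · simp only []; rw [key1]; field_simp
      · simp only []; rw [key2]; field_simp
    rw [e]
    exact Sg.mul _ _ hx2 hy2

theorem den_iff {p : ℕ} (hp : p.Prime) {x : ℚ} (_hx : x ≠ 0) :
    p ∣ x.den ↔ padicValRat p x < 0 := by
  haveI := Fact.mk hp
  constructor
  · intro h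
    have h1 : ¬ (p : ℤ) ∣ x.num := by
      intro h2
      have h3 : p ∣ x.num.natAbs := Int.natCast_dvd.1 h2
      have := Nat.dvd_gcd h3 h
      rw [x.reduced] at this
      exact hp.one_lt.ne' (Nat.dvd_one.1 this)
    have h2 : padicValInt p x.num = 0 := padicValInt.eq_zero_of_not_dvd h1
    have h3 : 1 ≤ padicValNat p x.den := one_le_padicValNat_of_dvd x.den_nz h
    simp only [padicValRat, h2]
    omega
  · intro h
    by_contra h1
    have h2 : padicValNat p x.den = 0 := padicValNat.eq_zero_of_not_dvd h1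
    simp only [padicValRat, h2] at h
    omega

theorem num_iff {p : ℕ} (hp : p.Prime) {x : ℚ} (hx : x ≠ 0) :
    p ∣ x.num.natAbs ↔ 0 < padicValRat p x := by
  haveI := Fact.mk hp
  constructor
  · intro h
    have h1 : ¬ p ∣ x.den := by
      intro h2
      have := Nat.dvd_gcd h h2
      rw [x.reduced] at this
      exact hp.one_lt.ne' (Nat.dvd_one.1 this)
    have h2 : padicValNat p x.den = 0 := padicValNat.eq_zero_of_not_dvd h1
    have h3 : 1 ≤ padicValNat p x.num.natAbs :=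
      one_le_padicValNat_of_dvd (Int.natAbs_ne_zero.2 (Rat.num_ne_zero.2 hx)) h
    simp only [padicValRat, h2, padicValInt]
    omega
  · intro h
    by_contra h1
    have h2 : padicValNat p x.num.natAbs = 0 := padicValNat.eq_zero_of_not_dvd h1
    simp only [padicValRat, padicValInt, h2] at h
    omega

end Pool.Agent.Helper425_zc
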