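import Pool.Agent.Helper425_zc.Algo2

set_option autoImplicit false

namespace Pool.Agent.Helper425_zc

/-- the mortality predicate -/
def MZ (L : List Q4) : Prop := (0 : Matrix (Fin 2) (Fin 2) ℤ) ∈ Subsemigroup.closure (gens' L)

def YesM (L : List Q4) (w : List Q4) : Prop :=
  w ≠ [] ∧ (∀ x ∈ w, x ∈ L) ∧ prodQ w = 0

theorem toM_eq_zero {A : Q4} : toM A = 0 ↔ A = 0 := by
  constructor
  · intro h
    have h1 := congrFun (congrFun h 0) 0
    have h2 := congrFun (congrFun h 0) 1
    have h3 := congrFun (congrFun h 1) 0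
    have h4 := congrFun (congrFun h 1) 1
    simp [toM] at h1 h2 h3 h4
    ext
    · exact h1
    · exact h2
    · exact h3
    · exact h4
  · rintro rfl
    ext i j
    fin_cases i <;> fin_cases j <;> simp [toM]

theorem yesM_iff {L : List Q4} : (∃ w, YesM L w) ↔ MZ L := by
  constructor
  · rintro ⟨w, h1, h2, h3⟩
    exact mem_closure_iff.2 ⟨w, h1, h2, toM_eq_zero.2 h3⟩
  · intro hM
    obtain ⟨w, h1, h2, h3⟩ := mem_closure_iff.1 hM
    exact ⟨w, h1, h2, toM_eq_zero.1 h3⟩

def mstarts (L : List Q4) : List V2 :=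
  L.flatMap fun A => if dt A = 0 then [(A.1, A.2.2.1), (A.2.1, A.2.2.2)] else []

def mtargets (L : List Q4) : List V2 :=
  L.flatMap fun A => if dt A = 0 then [(A.1, A.2.1), (A.2.2.1, A.2.2.2)] else []

theorem mem_mstarts {L : List Q4} {u : V2} : u ∈ mstarts L ↔
    ∃ A ∈ L, dt A = 0 ∧ (u = (A.1, A.2.2.1) ∨ u = (A.2.1, A.2.2.2)) := by
  simp only [mstarts, List.mem_flatMap]
  constructor
  · rintro ⟨A, hA, h⟩
    split_ifs at h with h0
    · refine ⟨A, hA, h0, by simpa using h⟩
    · simp at h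
  · rintro ⟨A, hA, h0, h⟩
    refine ⟨A, hA, ?_⟩
    rw [if_pos h0]; simpa using h

theorem mem_mtargets {L : List Q4} {u : V2} : u ∈ mtargets L ↔
    ∃ A ∈ L, dt A = 0 ∧ (u = (A.1, A.2.1) ∨ u = (A.2.2.1, A.2.2.2)) := by
  simp only [mtargets, List.mem_flatMap]
  constructor
  · rintro ⟨A, hA, h⟩
    split_ifs at h with h0
    · refine ⟨A, hA, h0, by simpa using h⟩
    · simp at h
  · rintro ⟨A, hA, h0, h⟩
    refine ⟨A, hA, ?_⟩
    rw [if_pos h0]; simpa using h

theorem dt_mulQ (A B : Q4) : dt (mulQ A B) = dt A * dt B := by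
  simp only [dt, mulQ]; ring

/-- If no product vanishes then nothing is reachable. -/
theorem not_reach_of_not_mz {L : List Q4} (h : ¬ MZ L) {u t : V2} (hu : u ∈ mstarts L)
    (ht : t ∈ mtargets L) (hu0 : u ≠ 0) (ht0 : t ≠ 0) : ¬ Reach L u t := by
  rintro ⟨v, hv, hz⟩
  obtain ⟨w, hw, rfl⟩ := orb_word hv
  obtain ⟨A, hA, hA0, hA1⟩ := mem_mstarts.1 hu
  obtain ⟨B, hB, hB0, hB1⟩ := mem_mtargets.1 ht
  -- both columns of A are multiples of u
  have hU : ∃ a b b' : ℤ, a ≠ 0 ∧ a * A.1 = b * u.1 ∧ a * A.2.2.1 = b * u.2 ∧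
      a * A.2.1 = b' * u.1 ∧ a * A.2.2.2 = b' * u.2 := by
    unfold dt at hA0
    rcases hA1 with rfl | rfl
    · by_cases h1 : A.1 = 0
      · have h2 : A.2.2.1 ≠ 0 := fun h2 => hu0 (by rw [h1, h2]; rfl)
        refine ⟨A.2.2.1, A.2.2.1, A.2.2.2, h2, rfl, rfl, ?_, ?_⟩
        · show A.2.2.1 * A.2.1 = A.2.2.2 * A.1
          linarith
        · show A.2.2.1 * A.2.2.2 = A.2.2.2 * A.2.2.1
          ring
      · refine ⟨A.1, A.1, A.2.1, h1, rfl, rfl, ?_, ?_⟩
        · show A.1 * A.2.1 = A.2.1 * A.1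
          ring
        · show A.1 * A.2.2.2 = A.2.1 * A.2.2.1
          linarith
    · by_cases h1 : A.2.1 = 0
      · have h2 : A.2.2.2 ≠ 0 := fun h2 => hu0 (by rw [h1, h2]; rfl)
        refine ⟨A.2.2.2, A.2.2.1, A.2.2.2, h2, ?_, ?_, rfl, rfl⟩
        · show A.2.2.2 * A.1 = A.2.2.1 * A.2.1
          linarith
        · show A.2.2.2 * A.2.2.1 = A.2.2.1 * A.2.2.2
          ring
      · refine ⟨A.2.1, A.1, A.2.1, h1, ?_, ?_, rfl, rfl⟩
        · show A.2.1 * A.1 = A.1 * A.2.1
          ring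
        · show A.2.1 * A.2.2.1 = A.1 * A.2.2.2
          linarith
  -- vectors annihilated by t are annihilated by B
  have hT : ∀ v : V2, dot t v = 0 → act B v = 0 := by
    intro v hv
    unfold dt at hB0
    have key : B.1 * v.1 + B.2.1 * v.2 = 0 ∧ B.2.2.1 * v.1 + B.2.2.2 * v.2 = 0 := by
      rcases hB1 with rfl | rfl
      · have hv' : B.1 * v.1 + B.2.1 * v.2 = 0 := hv
        refine ⟨hv', ?_⟩
        by_cases h2 : B.1 = 0
        · have h3 : B.2.1 ≠ 0 := fun h3 => ht0 (by rw [h2, h3]; rfl)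
          apply mul_left_cancel₀ h3
          rw [mul_zero]
          linear_combination (-v.1) * hB0 + B.2.2.2 * hv'
        · apply mul_left_cancel₀ h2
          rw [mul_zero]
          linear_combination B.2.2.1 * hv' + v.2 * hB0
      · have hv' : B.2.2.1 * v.1 + B.2.2.2 * v.2 = 0 := hv
        refine ⟨?_, hv'⟩
        by_cases h2 : B.2.2.1 = 0
        · have h3 : B.2.2.2 ≠ 0 := fun h3 => ht0 (by rw [h2, h3]; rfl)
          apply mul_left_cancel₀ h3
          rw [mul_zero]
          linear_combination v.1 * hB0 + B.2.1 * hv'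
        · apply mul_left_cancel₀ h2
          rw [mul_zero]
          linear_combination B.1 * hv' - v.2 * hB0
    exact Prod.ext key.1 key.2
  obtain ⟨a, b, b', ha, e1, e2, e3, e4⟩ := hU
  have col : ∀ (c : V2) (β : ℤ), a * c.1 = β * u.1 → a * c.2 = β * u.2 →
      act B (actW w c) = 0 := by
    intro c β f1 f2
    apply hT
    have h1 := actW_smul w a c
    rw [f1, f2, actW_smul] at h1
    have h2 : a * (actW w c).1 = β * (actW w u).1 := (congrArg Prod.fst h1).symm
    have h3 : a * (actW w c).2 = β * (actW w u).2 := (congrArg Prod.snd h1).symm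
    apply mul_left_cancel₀ ha
    simp only [dot] at hz ⊢
    linear_combination t.1 * h2 + t.2 * h3 + β * hz
  have c1 := col (A.1, A.2.2.1) b e1 e2
  have c2 := col (A.2.1, A.2.2.2) b' e3 e4
  apply h
  rw [← yesM_iff]
  refine ⟨B :: (w ++ [A]), by simp, ?_, ?_⟩
  · intro x hx
    rcases List.mem_cons.1 hx with h1 | h1
    · rw [h1]; exact hB
    · rcases List.mem_append.1 h1 with h2 | h2
      · exact hw x h2
      · rw [List.mem_singleton.1 h2]; exact hA
  · have f1 : ∀ v, act (prodQ (B :: (w ++ [A]))) v = act B (actW w (act A v)) := by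
      intro v
      rw [act_prodQ]
      simp [actW, List.foldr_append]
    have g1 := f1 (1, 0)
    have g2 := f1 (0, 1)
    have a1 : act A (1, 0) = (A.1, A.2.2.1) := by simp [act]
    have a2 : act A (0, 1) = (A.2.1, A.2.2.2) := by simp [act]
    rw [a1, c1] at g1
    rw [a2, c2] at g2
    have k1 := congrArg Prod.fst g1
    have k2 := congrArg Prod.snd g1
    have k3 := congrArg Prod.fst g2
    have k4 := congrArg Prod.snd g2
    simp only [act, mul_one, mul_zero, add_zero, zero_add] at k1 k2 k3 k4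
    ext
    · exact k1
    · exact k3
    · exact k2
    · exact k4

/-- converse: if nothing is reachable and no member is zero then no product vanishes -/
theorem not_mz_of_not_reach {L : List Q4} (h0 : ∀ A ∈ L, A ≠ 0)
    (h : ∀ u ∈ mstarts L, ∀ t ∈ mtargets L, u = 0 ∨ t = 0 ∨ ¬ Reach L u t) : ¬ MZ L := by
  rw [← yesM_iff]
  rintro ⟨w, hwne, hw, hz⟩
  -- nonzero column of a nonzero singular matrix
  have hcol : ∀ A ∈ L, ∃ c x : V2, (c = (A.1, A.2.2.1) ∨ c = (A.2.1, A.2.2.2)) ∧
      c ≠ 0 ∧ act A x = c := by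
    intro A hA
    by_cases h1 : ((A.1, A.2.2.1) : V2) = 0
    · refine ⟨(A.2.1, A.2.2.2), (0, 1), Or.inr rfl, ?_, by simp [act]⟩
      intro h2
      apply h0 A hA
      have a1 : A.1 = 0 := congrArg Prod.fst h1
      have a2 : A.2.2.1 = 0 := congrArg Prod.snd h1
      have a3 : A.2.1 = 0 := congrArg Prod.fst h2
      have a4 : A.2.2.2 = 0 := congrArg Prod.snd h2
      ext
      · exact a1
      · exact a3
      · exact a2
      · exact a4
    · exact ⟨_, (1, 0), Or.inl rfl, h1, by simp [act]⟩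
  have key : ∀ w : List Q4, (∀ x ∈ w, x ∈ L) → dt (prodQ w) ≠ 0 ∨
      ∃ x : V2, ∃ u ∈ mstarts L, u ≠ 0 ∧ ∃ v, Orb L u v ∧
      ∃ a b : ℤ, a ≠ 0 ∧ b ≠ 0 ∧ a * (actW w x).1 = b * v.1 ∧
        a * (actW w x).2 = b * v.2 := by
    intro w
    induction w with
    | nil =>
      intro _
      left
      simp [prodQ, dt]
    | cons A w ih =>
      intro hw
      have hA : A ∈ L := hw A (by simp)
      have e3 : ∀ x, actW (A :: w) x = act A (actW w x) := fun _ => rfl
      rcases ih fun x hx => hw x (by simp [hx]) with hdw | ⟨x, u, hu, hu0, v, hv, a, b, ha, hb, e1, e2⟩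
      · by_cases hd : dt A = 0
        · right
          obtain ⟨c, x, hc, hc0, hcx⟩ := hcol A hA
          -- preimage of x under the nonsingular product
          set W := prodQ w with hW
          refine ⟨(W.2.2.2 * x.1 - W.2.1 * x.2, - W.2.2.1 * x.1 + W.1 * x.2), c,
            mem_mstarts.2 ⟨A, hA, hd, hc⟩, hc0, c, Orb.base, 1, dt W, one_ne_zero, hdw, ?_, ?_⟩
          · rw [e3, ← act_prodQ, ← hW, ← hcx]
            simp only [act, dt]; ring
          · rw [e3, ← act_prodQ, ← hW, ← hcx]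
            simp only [act, dt]; ring
        · left
          have e : prodQ (A :: w) = mulQ A (prodQ w) := rfl
          rw [e, dt_mulQ]
          exact mul_ne_zero hd hdw
      · right
        by_cases hd : dt A = 0
        · -- singular
          have hA0 := h0 A hA
          have hv0 := hv.ne_zero hu0
          obtain ⟨c, _, hc, hc0, _⟩ := hcol A hA
          -- A v is nonzero
          have hne : act A v ≠ 0 := by
            intro hz
            have z1 : A.1 * v.1 + A.2.1 * v.2 = 0 := congrArg Prod.fst hz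
            have z2 : A.2.2.1 * v.1 + A.2.2.2 * v.2 = 0 := congrArg Prod.snd hz
            by_cases h1 : ((A.1, A.2.1) : V2) = 0
            · have hr : ((A.2.2.1, A.2.2.2) : V2) ≠ 0 := by
                intro h2
                apply hA0
                have a1 : A.1 = 0 := congrArg Prod.fst h1
                have a2 : A.2.1 = 0 := congrArg Prod.snd h1
                have a3 : A.2.2.1 = 0 := congrArg Prod.fst h2
                have a4 : A.2.2.2 = 0 := congrArg Prod.snd h2
                ext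
                · exact a1
                · exact a2
                · exact a3
                · exact a4
              rcases h u hu _ (mem_mtargets.2 ⟨A, hA, hd, Or.inr rfl⟩) with h3 | h3 | h3
              · exact hu0 h3
              · exact hr h3
              · exact h3 ⟨v, hv, z2⟩
            · rcases h u hu _ (mem_mtargets.2 ⟨A, hA, hd, Or.inl rfl⟩) with h3 | h3 | h3
              · exact hu0 h3
              · exact h1 h3
              · exact h3 ⟨v, hv, z1⟩
          have hpar : c.1 * (act A v).2 = c.2 * (act A v).1 := by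
            unfold dt at hd
            simp only [act]
            rcases hc with rfl | rfl
            · linear_combination v.2 * hd
            · linear_combination (- v.1) * hd
          obtain ⟨a', b', ha', hb', f1, f2⟩ := par hc0 hne hpar
          refine ⟨x, c, mem_mstarts.2 ⟨A, hA, hd, hc⟩, hc0, c, Orb.base, a * a', b * b',
            mul_ne_zero ha ha', mul_ne_zero hb hb', ?_, ?_⟩
          · rw [e3]
            simp only [act] at f1 ⊢
            linear_combination a' * A.1 * e1 + a' * A.2.1 * e2 + b * f1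
          · rw [e3]
            simp only [act] at f2 ⊢
            linear_combination a' * A.2.2.1 * e1 + a' * A.2.2.2 * e2 + b * f2
        · refine ⟨x, u, hu, hu0, act A v, Orb.step A v hA hd hv, a, b, ha, hb, ?_, ?_⟩
          · rw [e3]; simp only [act]; linear_combination A.1 * e1 + A.2.1 * e2
          · rw [e3]; simp only [act]; linear_combination A.2.2.1 * e1 + A.2.2.2 * e2
  rcases key w hw with h1 | ⟨x, u, hu, hu0, v, hv, a, b, ha, hb, e1, e2⟩
  · apply h1
    rw [hz]
    simp [dt]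
  · have hv0 := hv.ne_zero hu0
    have e : actW w x = 0 := by
      rw [← act_prodQ, hz]
      simp [act]
    rw [e] at e1 e2
    apply hv0
    have f1 : v.1 = 0 := by
      have : b * v.1 = 0 := by rw [← e1]; simp
      exact (mul_eq_zero.1 this).resolve_left hb
    have f2 : v.2 = 0 := by
      have : b * v.2 = 0 := by rw [← e2]; simp
      exact (mul_eq_zero.1 this).resolve_left hb
    exact Prod.ext f1 f2

variable {γ : Type}

/-- No-certificates built from an arbitrary kind of certificates for pairs. -/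
def NoChkM (Chk : List Q4 → V2 → V2 → γ → Prop) (L : List Q4) (cs : List γ) : Prop :=
  (∀ A ∈ L, A ≠ 0) ∧ ∀ u ∈ mstarts L, ∀ t ∈ mtargets L, u = 0 ∨ t = 0 ∨ Chk0 L u t ∨
    (∃ e ∈ cs, Chk L u t e)

theorem nochkM_sound {Chk : List Q4 → V2 → V2 → γ → Prop}
    (hs : ∀ L u w e, Chk L u w e → ¬ Reach L u w) {L : List Q4} {cs : List γ}
    (h : NoChkM Chk L cs) : ¬ MZ L := by
  apply not_mz_of_not_reach h.1
  intro u hu t ht
  rcases h.2 u hu t ht with h1 | h1 | h1 | ⟨e, _, h1⟩
  · exact Or.inl h1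
  · exact Or.inr (Or.inl h1)
  · exact Or.inr (Or.inr (sound0 h1))
  · exact Or.inr (Or.inr (hs _ _ _ _ h1))

theorem nochkM_complete {Chk : List Q4 → V2 → V2 → γ → Prop} {L : List Q4}
    (h : ∀ u w : V2, u ≠ 0 → w ≠ 0 → Reach L u w ∨ Chk0 L u w ∨ (∃ e, Chk L u w e))
    (hz : ¬ MZ L) : ∃ cs, NoChkM Chk L cs := by
  classical
  have h0 : ∀ A ∈ L, A ≠ 0 := by
    rintro A hA rfl
    apply hz
    have : toM 0 = 0 := toM_eq_zero.2 rfl
    rw [MZ, ← this]
    exact Subsemigroup.subset_closure ⟨0, hA, rfl⟩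
  have key : ∀ u ∈ mstarts L, ∀ t ∈ mtargets L, ∃ cs : List γ, u = 0 ∨ t = 0 ∨
      Chk0 L u t ∨ (∃ e ∈ cs, Chk L u t e) := by
    intro u hu t ht
    by_cases hu0 : u = 0
    · exact ⟨[], Or.inl hu0⟩
    by_cases ht0 : t = 0
    · exact ⟨[], Or.inr (Or.inl ht0)⟩
    rcases h u t hu0 ht0 with h1 | h1 | ⟨e, h1⟩
    · exact absurd h1 (not_reach_of_not_mz hz hu ht hu0 ht0)
    · exact ⟨[], Or.inr (Or.inr (Or.inl h1))⟩
    · exact ⟨[e], Or.inr (Or.inr (Or.inr ⟨e, by simp, h1⟩))⟩
  choose! c hc using key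
  refine ⟨(mstarts L).flatMap fun u => (mtargets L).flatMap fun t => c u t, h0, ?_⟩
  intro u hu t ht
  rcases hc u hu t ht with h1 | h1 | h1 | ⟨e, he, h1⟩
  · exact Or.inl h1
  · exact Or.inr (Or.inl h1)
  · exact Or.inr (Or.inr (Or.inl h1))
  · refine Or.inr (Or.inr (Or.inr ⟨e, ?_, h1⟩))
    exact List.mem_flatMap.2 ⟨u, hu, List.mem_flatMap.2 ⟨t, ht, he⟩⟩

theorem pp_yesM : PrimrecRel YesM := by
  have h1 : PrimrecPred fun p : List Q4 × List Q4 => p.2 ≠ [] :=
    (pp_eq Primrec.snd (Primrec.const [])).not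
  have h2 : PrimrecPred fun p : List Q4 × List Q4 => ∀ x ∈ p.2, x ∈ p.1 := by
    refine pp_forall (R := fun (x : Q4) (p : List Q4 × List Q4) => x ∈ p.1) Primrec.snd ?_
    have : PrimrecPred fun p : Q4 × (List Q4 × List Q4) => ∃ y ∈ p.2.1, y = p.1 := by
      refine pp_exists (R := fun (y : Q4) (p : Q4 × (List Q4 × List Q4)) => y = p.1)
        (pfst Primrec.snd) ?_
      exact pp_eq Primrec.fst (pfst Primrec.snd)
    exact this.of_eq fun p => by simp
  have h3 : Primrec fun p : List Q4 × List Q4 => prodQ p.2 := by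
    unfold prodQ
    refine Primrec.list_foldr (h := fun (_ : List Q4 × List Q4) (q : Q4 × Q4) => mulQ q.1 q.2)
      Primrec.snd (Primrec.const _) ?_
    have hA : Primrec fun q : (List Q4 × List Q4) × (Q4 × Q4) => q.2.1 := pfst Primrec.snd
    have hB : Primrec fun q : (List Q4 × List Q4) × (Q4 × Q4) => q.2.2 := psnd Primrec.snd
    have a0 := pfst hA
    have a1 := pfst (psnd hA)
    have a2 := pfst (psnd (psnd hA))
    have a3 := psnd (psnd (psnd hA))
    have b0 := pfst hB
    have b1 := pfst (psnd hB)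
    have b2 := pfst (psnd (psnd hB))
    have b3 := psnd (psnd (psnd hB))
    exact Primrec.pair (padd (pmul a0 b0) (pmul a1 b2)) (Primrec.pair
      (padd (pmul a0 b1) (pmul a1 b3)) (Primrec.pair (padd (pmul a2 b0) (pmul a3 b2))
      (padd (pmul a2 b1) (pmul a3 b3))))
  exact h1.and (h2.and (pp_eq h3 (Primrec.const 0)))

theorem p_mstarts : Primrec mstarts := by
  refine Primrec.list_flatMap
    (f := fun L : List Q4 => L)
    (g := fun (_ : List Q4) (A : Q4) => if dt A = 0 then
      [((A.1, A.2.2.1) : V2), (A.2.1, A.2.2.2)] else []) Primrec.id ?_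
  have hA : Primrec fun q : List Q4 × Q4 => q.2 := Primrec.snd
  refine Primrec.ite (pp_eq (p_dt hA) (Primrec.const 0)) ?_ (Primrec.const [])
  exact Primrec.list_cons.comp (Primrec.pair (pfst hA) (pfst (psnd (psnd hA))))
    (Primrec.list_cons.comp (Primrec.pair (pfst (psnd hA)) (psnd (psnd (psnd hA))))
      (Primrec.const []))

theorem p_mtargets : Primrec mtargets := by
  refine Primrec.list_flatMap
    (f := fun L : List Q4 => L)
    (g := fun (_ : List Q4) (A : Q4) => if dt A = 0 then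
      [((A.1, A.2.1) : V2), (A.2.2.1, A.2.2.2)] else []) Primrec.id ?_
  have hA : Primrec fun q : List Q4 × Q4 => q.2 := Primrec.snd
  refine Primrec.ite (pp_eq (p_dt hA) (Primrec.const 0)) ?_ (Primrec.const [])
  exact Primrec.list_cons.comp (Primrec.pair (pfst hA) (pfst (psnd hA)))
    (Primrec.list_cons.comp (Primrec.pair (pfst (psnd (psnd hA))) (psnd (psnd (psnd hA))))
      (Primrec.const []))

theorem pp_noM [Primcodable γ] {Chk : List Q4 → V2 → V2 → γ → Prop}
    (hp : PrimrecPred fun p : Ctx × γ => Chk p.1.1 p.1.2.1 p.1.2.2 p.2) :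
    PrimrecRel (NoChkM Chk) := by
  have h1 : PrimrecPred fun p : List Q4 × List γ => ∀ A ∈ p.1, A ≠ 0 :=
    pp_forall (R := fun (A : Q4) (_ : List Q4 × List γ) => A ≠ 0) Primrec.fst
      (pp_eq Primrec.fst (Primrec.const 0)).not
  refine h1.and ?_
  refine pp_forall (R := fun (u : V2) (p : List Q4 × List γ) =>
    ∀ t ∈ mtargets p.1, u = 0 ∨ t = 0 ∨ Chk0 p.1 u t ∨ (∃ e ∈ p.2, Chk p.1 u t e))
    (p_mstarts.comp Primrec.fst) ?_
  refine pp_forall (R := fun (t : V2) (q : V2 × (List Q4 × List γ)) =>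
    q.1 = 0 ∨ t = 0 ∨ Chk0 q.2.1 q.1 t ∨ (∃ e ∈ q.2.2, Chk q.2.1 q.1 t e))
    (p_mtargets.comp (pfst Primrec.snd)) ?_
  have hL : Primrec fun q : V2 × (V2 × (List Q4 × List γ)) => q.2.2.1 :=
    pfst (psnd Primrec.snd)
  have hu : Primrec fun q : V2 × (V2 × (List Q4 × List γ)) => q.2.1 :=
    pfst Primrec.snd
  have ht : Primrec fun q : V2 × (V2 × (List Q4 × List γ)) => q.1 := Primrec.fst
  have hctx : Primrec fun q : V2 × (V2 × (List Q4 × List γ)) =>
      ((q.2.2.1, q.2.1, q.1) : Ctx) := Primrec.pair hL (Primrec.pair hu ht)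
  have hc1 : Primrec fun q : V2 × (V2 × (List Q4 × List γ)) => q.2.2.2 :=
    psnd (psnd Primrec.snd)
  refine (pp_eq hu (Primrec.const 0)).or ((pp_eq ht (Primrec.const 0)).or
    ((pp_chk0.comp hctx).or ?_))
  refine pp_exists (R := fun (e : γ) (q : V2 × (V2 × (List Q4 × List γ))) =>
    Chk q.2.2.1 q.2.1 q.1 e) hc1 ?_
  exact hp.comp (Primrec.pair (hctx.comp Primrec.snd) Primrec.fst)

theorem algoM [Primcodable γ] {Chk : List Q4 → V2 → V2 → γ → Prop}
    (hp : PrimrecPred fun p : Ctx × γ => Chk p.1.1 p.1.2.1 p.1.2.2 p.2)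
    (hs : ∀ L u w e, Chk L u w e → ¬ Reach L u w) :
    ∃ f : List Q4 →. Bool, Partrec f ∧
    (∀ L b, b ∈ f L → (b = true ↔ MZ L)) ∧
    (∀ L, (∀ u w : V2, u ≠ 0 → w ≠ 0 → Reach L u w ∨ Chk0 L u w ∨ (∃ e, Chk L u w e)) →
      (f L).Dom) := by
  obtain ⟨f, hf, h1, h2⟩ := search YesM (NoChkM Chk) pp_yesM (pp_noM hp)
  refine ⟨f, hf, ?_, ?_⟩
  · intro L b hb
    rcases h1 L b hb with ⟨rfl, hy⟩ | ⟨rfl, cs, hn⟩
    · exact ⟨fun _ => yesM_iff.1 hy, fun _ => rfl⟩
    · exact ⟨fun h => absurd h (by simp), fun h => absurd h (nochkM_sound hs hn)⟩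
  · intro L hL
    apply h2
    by_cases hz : MZ L
    · exact Or.inl (yesM_iff.2 hz)
    · exact Or.inr (nochkM_complete hL hz)

end Pool.Agent.Helper425_zc
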