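import Pool.Agent.Helper425_zc.Conv

set_option autoImplicit false

namespace Pool.Agent.Helper425_zc

open Matrix

theorem mult_eq {P : Matrix (Fin 2) (Fin 2) ℚ} {P' : Q4} (hP' : dt P' ≠ 0)
    (h : ∀ M : Matrix (Fin 2) (Fin 2) ℤ,
      inB P M 0 0 = (ca P' (ofM M) : ℚ) / dt P' ∧ inB P M 0 1 = (cb P' (ofM M) : ℚ) / dt P' ∧
      inB P M 1 0 = (cc P' (ofM M) : ℚ) / dt P' ∧ inB P M 1 1 = (cd P' (ofM M) : ℚ) / dt P')
    (M : Matrix (Fin 2) (Fin 2) ℤ) :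
    inB P M 0 0 / inB P M 1 1 = (af P' (ofM M)).1 ∧
      inB P M 0 1 / inB P M 1 1 = (af P' (ofM M)).2 := by
  obtain ⟨h1, h2, h3, h4⟩ := h M
  have hq : (dt P' : ℚ) ≠ 0 := by exact_mod_cast hP'
  rw [h1, h2, h4]
  simp only [af]
  constructor
  · rw [div_div_div_cancel_right₀ hq]
  · rw [div_div_div_cancel_right₀ hq]

theorem cc_zero {P : Matrix (Fin 2) (Fin 2) ℚ} {P' : Q4} (hP' : dt P' ≠ 0)
    (h : ∀ M : Matrix (Fin 2) (Fin 2) ℤ,
      inB P M 0 0 = (ca P' (ofM M) : ℚ) / dt P' ∧ inB P M 0 1 = (cb P' (ofM M) : ℚ) / dt P' ∧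
      inB P M 1 0 = (cc P' (ofM M) : ℚ) / dt P' ∧ inB P M 1 1 = (cd P' (ofM M) : ℚ) / dt P')
    {L : List Q4} (ht : ∀ A ∈ gens' L, A.det ≠ 0 → inB P A 1 0 = 0) :
    ∀ A ∈ L, dt A ≠ 0 → cc P' A = 0 := by
  intro A hA hd
  have h1 := ht (toM A) ⟨A, hA, rfl⟩ (by rw [det_toM]; exact hd)
  obtain ⟨_, _, h3, _⟩ := h (toM A)
  rw [ofM_toM] at h3
  rw [h3] at h1
  have hq : (dt P' : ℚ) ≠ 0 := by exact_mod_cast hP'
  have := (div_eq_zero_iff.1 h1).resolve_right hq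
  exact_mod_cast this

/-- all primes occurring in multipliers -/
def allPrimes (G : Finset (ℚ × ℚ)) : Finset ℕ :=
  G.biUnion fun f => f.1.num.natAbs.primeFactors ∪ f.1.den.primeFactors

/-- all primes occurring in denominators of multipliers -/
def denPrimes (G : Finset (ℚ × ℚ)) : Finset ℕ := G.biUnion fun f => f.1.den.primeFactors

theorem case_group {L : List Q4} (P : Matrix (Fin 2) (Fin 2) ℚ) (hP : P.det ≠ 0)
    (htri : ∀ A ∈ gens' L, A.det ≠ 0 → inB P A 1 0 = 0)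
    (hgrp : ∀ A ∈ gens' L, A.det ≠ 0 → ∃ M ∈ Subsemigroup.closure (gens' L), M.det ≠ 0 ∧
      (inB P A 0 0 / inB P A 1 1) * (inB P M 0 0 / inB P M 1 1) = 1)
    (hnc : ∃ A ∈ gens' L, ∃ B ∈ gens' L, A.det ≠ 0 ∧ B.det ≠ 0 ∧ A * B ≠ B * A)
    (hp : ∀ p : ℕ, p.Prime →
      (∃ A ∈ gens' L, A.det ≠ 0 ∧ padicValRat p (inB P A 0 0 / inB P A 1 1) ≠ 0) →
        ∃ M ∈ Subsemigroup.closure (gens' L), M.det ≠ 0 ∧ |inB P M 0 0 / inB P M 1 1| < 1 ∧
          padicValRat p (inB P M 0 0 / inB P M 1 1) < 0) (u w : V2) :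
    Reach L u w ∨ Chk0 L u w ∨ (∃ e, Chk1 L u w e) ∨ (∃ e, Chk2 L u w e) := by
  classical
  obtain ⟨P', hP', hint⟩ := exists_int_basis P hP
  have hL := cc_zero hP' hint htri
  have hmu := mult_eq hP' hint
  have hne : ∀ A ∈ L, dt A ≠ 0 → (af P' A).1 ≠ 0 := by
    intro A hA hd
    obtain ⟨h1, h2⟩ := cd_ne hP' hd (hL A hA hd)
    simp only [af]
    exact div_ne_zero (by exact_mod_cast h1) (by exact_mod_cast h2)
  have hm : ∀ f ∈ gset P' L, f.1 ≠ 0 := by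
    intro f hf
    obtain ⟨A, hA, hd, rfl⟩ := mem_gset.1 hf
    exact hne A hA hd
  have hinv : ∀ f ∈ gset P' L, ∃ s, Sg (gset P' L) s ∧ f.1 * s.1 = 1 := by
    intro f hf
    obtain ⟨A, hA, hd, rfl⟩ := mem_gset.1 hf
    obtain ⟨M, hM, hMd, e⟩ := hgrp (toM A) ⟨A, hA, rfl⟩ (by rw [det_toM]; exact hd)
    refine ⟨af P' (ofM M), (sg_of_mem hP' hL hM hMd).2, ?_⟩
    rw [(hmu (toM A)).1, (hmu M).1, ofM_toM] at e
    exact e
  have hnc' : ∃ f ∈ gset P' L, ∃ g ∈ gset P' L, cmp f g ≠ cmp g f := by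
    obtain ⟨MA, ⟨A, hA, rfl⟩, MB, ⟨B, hB, rfl⟩, hdA, hdB, hAB⟩ := hnc
    have hdA' : dt A ≠ 0 := by rw [← det_toM]; exact hdA
    have hdB' : dt B ≠ 0 := by rw [← det_toM]; exact hdB
    refine ⟨af P' A, mem_gset.2 ⟨A, hA, hdA', rfl⟩, af P' B, mem_gset.2 ⟨B, hB, hdB', rfl⟩, ?_⟩
    intro h
    apply hAB
    show toM A * toM B = toM B * toM A
    obtain ⟨a1, a2⟩ := cd_ne hP' hdA' (hL A hA hdA')
    obtain ⟨b1, b2⟩ := cd_ne hP' hdB' (hL B hB hdB')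
    have qa : (cd P' A : ℚ) ≠ 0 := by exact_mod_cast a2
    have qb : (cd P' B : ℚ) ≠ 0 := by exact_mod_cast b2
    have h2 := congrArg Prod.snd h
    simp only [cmp, af] at h2
    have h3 : ca P' A * cb P' B + cb P' A * cd P' B = ca P' B * cb P' A + cb P' B * cd P' A := by
      have h4 : (ca P' A : ℚ) * cb P' B + cb P' A * cd P' B =
          ca P' B * cb P' A + cb P' B * cd P' A := by
        field_simp at h2
        linarith
      exact_mod_cast h4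
    -- entries of A B and B A agree in the basis
    have c1 := hL A hA hdA'
    have c2 := hL B hB hdB'
    rw [← toM_mulQ, ← toM_mulQ]
    congr 1
    -- recover A from its conjugate
    have rec1 : ∀ X : Q4, dt P' * dt P' * X.1 = P'.1 * (ca P' X * P'.2.2.2 - cb P' X * P'.2.2.1) +
        P'.2.1 * (cc P' X * P'.2.2.2 - cd P' X * P'.2.2.1) := by
      intro X; simp only [dt, ca, cb, cc, cd]; ring
    have rec2 : ∀ X : Q4, dt P' * dt P' * X.2.1 =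
        P'.1 * (- ca P' X * P'.2.1 + cb P' X * P'.1) +
        P'.2.1 * (- cc P' X * P'.2.1 + cd P' X * P'.1) := by
      intro X; simp only [dt, ca, cb, cc, cd]; ring
    have rec3 : ∀ X : Q4, dt P' * dt P' * X.2.2.1 =
        P'.2.2.1 * (ca P' X * P'.2.2.2 - cb P' X * P'.2.2.1) +
        P'.2.2.2 * (cc P' X * P'.2.2.2 - cd P' X * P'.2.2.1) := by
      intro X; simp only [dt, ca, cb, cc, cd]; ring
    have rec4 : ∀ X : Q4, dt P' * dt P' * X.2.2.2 =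
        P'.2.2.1 * (- ca P' X * P'.2.1 + cb P' X * P'.1) +
        P'.2.2.2 * (- cc P' X * P'.2.1 + cd P' X * P'.1) := by
      intro X; simp only [dt, ca, cb, cc, cd]; ring
    have k1 : ca P' (mulQ A B) = ca P' (mulQ B A) := by
      apply mul_left_cancel₀ hP'
      rw [ca_mul, ca_mul, c1, c2]; ring
    have k2 : cb P' (mulQ A B) = cb P' (mulQ B A) := by
      apply mul_left_cancel₀ hP'
      rw [cb_mul, cb_mul]; linarith
    have k3 : cc P' (mulQ A B) = cc P' (mulQ B A) := by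
      apply mul_left_cancel₀ hP'
      rw [cc_mul, cc_mul, c1, c2]; ring
    have k4 : cd P' (mulQ A B) = cd P' (mulQ B A) := by
      apply mul_left_cancel₀ hP'
      rw [cd_mul, cd_mul, c1, c2]; ring
    have hPP : dt P' * dt P' ≠ 0 := mul_ne_zero hP' hP'
    have z1 : (mulQ A B).1 = (mulQ B A).1 := by
      apply mul_left_cancel₀ hPP; rw [rec1, rec1, k1, k2, k3, k4]
    have z2 : (mulQ A B).2.1 = (mulQ B A).2.1 := by
      apply mul_left_cancel₀ hPP; rw [rec2, rec2, k1, k2, k3, k4]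
    have z3 : (mulQ A B).2.2.1 = (mulQ B A).2.2.1 := by
      apply mul_left_cancel₀ hPP; rw [rec3, rec3, k1, k2, k3, k4]
    have z4 : (mulQ A B).2.2.2 = (mulQ B A).2.2.2 := by
      apply mul_left_cancel₀ hPP; rw [rec4, rec4, k1, k2, k3, k4]
    exact Prod.ext z1 (Prod.ext z2 (Prod.ext z3 z4))
  have hmem : ∀ p, p ∈ allPrimes (gset P' L) ↔ p.Prime ∧ ∃ f ∈ gset P' L,
      (p ∣ f.1.num.natAbs ∨ p ∣ f.1.den) := by
    intro p
    simp only [allPrimes, Finset.mem_biUnion, Finset.mem_union, Nat.mem_primeFactors]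
    constructor
    · rintro ⟨f, hf, ⟨h1, h2, _⟩ | ⟨h1, h2, _⟩⟩
      · exact ⟨h1, f, hf, Or.inl h2⟩
      · exact ⟨h1, f, hf, Or.inr h2⟩
    · rintro ⟨h1, f, hf, h2 | h2⟩
      · exact ⟨f, hf, Or.inl ⟨h1, h2, Int.natAbs_ne_zero.2 (Rat.num_ne_zero.2 (hm f hf))⟩⟩
      · exact ⟨f, hf, Or.inr ⟨h1, h2, f.1.den_nz⟩⟩
  have hnum : ∀ f ∈ gset P' L, Smooth (allPrimes (gset P' L)) f.1.num.natAbs := fun f hf =>
    ⟨Int.natAbs_ne_zero.2 (Rat.num_ne_zero.2 (hm f hf)),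
      fun p hp h => (hmem p).2 ⟨hp, f, hf, Or.inl h⟩⟩
  have hden : ∀ f ∈ gset P' L, Smooth (allPrimes (gset P' L)) f.1.den := fun f hf =>
    ⟨f.1.den_nz, fun p hp h => (hmem p).2 ⟨hp, f, hf, Or.inr h⟩⟩
  have hAd : ∀ p ∈ allPrimes (gset P' L), ∃ s, Sg (gset P' L) s ∧ p ∣ s.1.den := by
    intro p hp
    obtain ⟨hpp, f, hf, h | h⟩ := (hmem p).1 hp
    · obtain ⟨s, hs, e⟩ := hinv f hf
      refine ⟨s, hs, ?_⟩
      haveI := Fact.mk hpp
      have hs0 : s.1 ≠ 0 := right_ne_zero_of_mul (by rw [e]; exact one_ne_zero)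
      have hf0 := hm f hf
      rw [den_iff hpp hs0]
      have h1 := (num_iff hpp hf0).1 h
      have h2 : padicValRat p (f.1 * s.1) = padicValRat p f.1 + padicValRat p s.1 :=
        padicValRat.mul hf0 hs0
      rw [e, padicValRat.one] at h2
      omega
    · exact ⟨f, Sg.base f hf, h⟩
  refine pair_main hP' hL (fun x0 q => aff_main hm hinv hnc' (A := allPrimes (gset P' L))
    (fun p hp => ((hmem p).1 hp).1) hnum hden hAd (Or.inr ?_) x0 q) u w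
  intro p hp'
  obtain ⟨hpp, f, hf, h⟩ := (hmem p).1 hp'
  obtain ⟨A, hA, hd, rfl⟩ := mem_gset.1 hf
  obtain ⟨M, hM, hMd, h1, h2⟩ := hp p hpp ⟨toM A, ⟨A, hA, rfl⟩, by rw [det_toM]; exact hd, by
    rw [(hmu (toM A)).1, ofM_toM]
    rcases h with h | h
    · exact ((num_iff hpp (hne A hA hd)).1 h).ne'
    · exact ((den_iff hpp (hne A hA hd)).1 h).ne⟩
  have hs := (sg_of_mem hP' hL hM hMd).2
  refine ⟨af P' (ofM M), hs, ?_, ?_⟩
  · rw [← (hmu M).1]; exact h1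
  · rw [den_iff hpp (hs.ne hm), ← (hmu M).1]; exact h2

theorem case_two {L : List Q4} (P : Matrix (Fin 2) (Fin 2) ℚ) (hP : P.det ≠ 0)
    (htri : ∀ A ∈ gens' L, A.det ≠ 0 → inB P A 1 0 = 0)
    (hT : ∃ M ∈ Subsemigroup.closure (gens' L), ∃ N ∈ Subsemigroup.closure (gens' L),
      M.det ≠ 0 ∧ N.det ≠ 0 ∧ inB P M 0 0 / inB P M 1 1 = 1 ∧ inB P N 0 0 / inB P N 1 1 = 1 ∧
      (inB P M 0 1 / inB P M 1 1) * (inB P N 0 1 / inB P N 1 1) < 0)
    (hp : ∀ p : ℕ, p.Prime →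
      (∃ A ∈ gens' L, A.det ≠ 0 ∧ padicValRat p (inB P A 0 0 / inB P A 1 1) < 0) →
        ∃ M ∈ Subsemigroup.closure (gens' L), ∃ N ∈ Subsemigroup.closure (gens' L),
          M.det ≠ 0 ∧ N.det ≠ 0 ∧
          (inB P M 0 0 / inB P M 1 1) * (inB P N 0 0 / inB P N 1 1) = 1 ∧
          padicValRat p (inB P M 0 0 / inB P M 1 1) < 0) (u w : V2) :
    Reach L u w ∨ Chk0 L u w ∨ (∃ e, Chk1 L u w e) ∨ (∃ e, Chk2 L u w e) := by
  classical
  obtain ⟨P', hP', hint⟩ := exists_int_basis P hP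
  have hL := cc_zero hP' hint htri
  have hmu := mult_eq hP' hint
  have hne : ∀ A ∈ L, dt A ≠ 0 → (af P' A).1 ≠ 0 := by
    intro A hA hd
    obtain ⟨h1, h2⟩ := cd_ne hP' hd (hL A hA hd)
    simp only [af]
    exact div_ne_zero (by exact_mod_cast h1) (by exact_mod_cast h2)
  have hm : ∀ f ∈ gset P' L, f.1 ≠ 0 := by
    intro f hf
    obtain ⟨A, hA, hd, rfl⟩ := mem_gset.1 hf
    exact hne A hA hd
  have hmem : ∀ p, p ∈ denPrimes (gset P' L) ↔ p.Prime ∧ ∃ f ∈ gset P' L, p ∣ f.1.den := by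
    intro p
    simp only [denPrimes, Finset.mem_biUnion, Nat.mem_primeFactors]
    constructor
    · rintro ⟨f, hf, h1, h2, _⟩
      exact ⟨h1, f, hf, h2⟩
    · rintro ⟨h1, f, hf, h2⟩
      exact ⟨f, hf, h1, h2, f.1.den_nz⟩
  have hden : ∀ f ∈ gset P' L, Smooth (denPrimes (gset P' L)) f.1.den := fun f hf =>
    ⟨f.1.den_nz, fun p hp h => (hmem p).2 ⟨hp, f, hf, h⟩⟩
  have hT' : ∃ a b, TT (gset P' L) a ∧ TT (gset P' L) b ∧ 0 < a ∧ b < 0 := by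
    obtain ⟨M, hM, N, hN, hMd, hNd, e1, e2, e3⟩ := hT
    have hsM := (sg_of_mem hP' hL hM hMd).2
    have hsN := (sg_of_mem hP' hL hN hNd).2
    rw [(hmu M).1] at e1
    rw [(hmu N).1] at e2
    rw [(hmu M).2, (hmu N).2] at e3
    have t1 : TT (gset P' L) (af P' (ofM M)).2 := by
      rw [TT, ← e1]; exact hsM
    have t2 : TT (gset P' L) (af P' (ofM N)).2 := by
      rw [TT, ← e2]; exact hsN
    rcases mul_neg_iff.1 e3 with ⟨h1, h2⟩ | ⟨h1, h2⟩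
    · exact ⟨_, _, t1, t2, h1, h2⟩
    · exact ⟨_, _, t2, t1, h2, h1⟩
  obtain ⟨a, b, ha, hb, hap, hbn⟩ := hT'
  have hcov : ∀ p ∈ denPrimes (gset P' L), ∃ s s', Sg (gset P' L) s ∧ Sg (gset P' L) s' ∧
      s.1 * s'.1 = 1 ∧ p ∣ s.1.den := by
    intro p hp'
    obtain ⟨hpp, f, hf, h⟩ := (hmem p).1 hp'
    obtain ⟨A, hA, hd, rfl⟩ := mem_gset.1 hf
    obtain ⟨M, hM, N, hN, hMd, hNd, e, h2⟩ := hp p hpp ⟨toM A, ⟨A, hA, rfl⟩,
      by rw [det_toM]; exact hd, by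
        rw [(hmu (toM A)).1, ofM_toM]
        exact (den_iff hpp (hne A hA hd)).1 h⟩
    have hsM := (sg_of_mem hP' hL hM hMd).2
    have hsN := (sg_of_mem hP' hL hN hNd).2
    rw [(hmu M).1, (hmu N).1] at e
    rw [(hmu M).1] at h2
    exact ⟨_, _, hsM, hsN, e, (den_iff hpp (hsM.ne hm)).2 h2⟩
  refine pair_main hP' hL (fun x0 q => ?_) u w
  rcases aff_two (A := denPrimes (gset P' L)) (fun p hp => ((hmem p).1 hp).1) hden ha hb hap hbn
    hcov x0 q with h | h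
  · exact Or.inl h
  · exact Or.inr (Or.inl h)

end Pool.Agent.Helper425_zc
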