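import Pool.Agent.Helper425_zc.Mort
import Pool.Agent.Helper425_zc.Red
import Pool.Agent.Helper425_zc.Clz

set_option autoImplicit false

namespace Pool.Agent.Helper425_zc

def Chk12 (L : List Q4) (u w : V2) (e : C1 × C2) : Prop := Chk1 L u w e.1 ∨ Chk2 L u w e.2

theorem pp_chk12 : PrimrecPred fun p : Ctx × (C1 × C2) => Chk12 p.1.1 p.1.2.1 p.1.2.2 p.2 := by
  refine PrimrecPred.or ?_ ?_
  · exact pp_chk1.comp (Primrec.pair Primrec.fst (pfst Primrec.snd))
  · exact pp_chk2.comp (Primrec.pair Primrec.fst (psnd Primrec.snd))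

theorem sound12 {L : List Q4} {u w : V2} {e : C1 × C2} (h : Chk12 L u w e) : ¬ Reach L u w := by
  rcases h with h | h
  · exact sound1 h
  · exact sound2 h

theorem chk12_of {L : List Q4} {u w : V2}
    (h : Reach L u w ∨ Chk0 L u w ∨ (∃ e, Chk1 L u w e) ∨ (∃ e, Chk2 L u w e)) :
    Reach L u w ∨ Chk0 L u w ∨ (∃ e, Chk12 L u w e) := by
  rcases h with h | h | ⟨e, h⟩ | ⟨e, h⟩
  · exact Or.inl h
  · exact Or.inr (Or.inl h)
  · exact Or.inr (Or.inr ⟨(e, ((0, 0, 0, 0), (0, 0, 0, 0, 0), [])), Or.inl h⟩)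
  · exact Or.inr (Or.inr ⟨(((0, 0, 0, 0), (0, 0, 0, 0), []), e), Or.inr h⟩)

/-- adding the projection onto the first axis turns the corner problem into mortality -/
theorem mz_cons {L : List Q4} (hL : ∀ A ∈ L, dt A ≠ 0) :
    MZ ((1, 0, 0, 0) :: L) ↔ ZC L := by
  constructor
  · intro h
    by_contra hz
    revert h
    have hne : ∀ u v, Orb ((1, 0, 0, 0) :: L) u v → Orb L u v := by
      intro u v h
      induction h with
      | base => exact Orb.base
      | step A v hA hd _ ih =>
        rcases List.mem_cons.1 hA with h | h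
        · exact absurd (by rw [h]; simp [dt]) hd
        · exact Orb.step A v h hd ih
    apply not_mz_of_not_reach
    · intro A hA
      rcases List.mem_cons.1 hA with h | h
      · rw [h]; intro h0; exact absurd (congrArg Prod.fst h0) (by simp)
      · intro h0
        apply hL A h
        rw [h0]; simp [dt]
    · intro u hu t ht
      by_cases hu0 : u = 0
      · exact Or.inl hu0
      by_cases ht0 : t = 0
      · exact Or.inr (Or.inl ht0)
      right; right
      rintro ⟨v, hv, hd⟩
      obtain ⟨A, hA, hA0, hA1⟩ := mem_mstarts.1 hu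
      obtain ⟨B, hB, hB0, hB1⟩ := mem_mtargets.1 ht
      have eA : A = (1, 0, 0, 0) := by
        rcases List.mem_cons.1 hA with h | h
        · exact h
        · exact absurd hA0 (hL A h)
      have eB : B = (1, 0, 0, 0) := by
        rcases List.mem_cons.1 hB with h | h
        · exact h
        · exact absurd hB0 (hL B h)
      subst eA
      subst eB
      have eu : u = (1, 0) := by
        rcases hA1 with h | h
        · exact h
        · exact absurd h hu0
      have et : t = (1, 0) := by
        rcases hB1 with h | h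
        · exact h
        · exact absurd h ht0
      subst eu
      subst et
      refine not_reach_of_not_zc (L := L) hz (mem_starts.2 (Or.inl rfl))
        (mem_targets.2 (Or.inl rfl)) (by simp) (by simp) ⟨v, hne _ _ hv, hd⟩
  · intro h
    rw [← yes_iff] at h
    rw [← yesM_iff]
    obtain ⟨w, h1, h2, h3⟩ := h
    refine ⟨(1, 0, 0, 0) :: (w ++ [(1, 0, 0, 0)]), by simp, ?_, ?_⟩
    · intro x hx
      rcases List.mem_cons.1 hx with h | h
      · rw [h]; simp
      · rcases List.mem_append.1 h with h | h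
        · exact List.mem_cons_of_mem _ (h2 x h)
        · rw [List.mem_singleton.1 h]; simp
    · have e : prodQ ((1, 0, 0, 0) :: (w ++ [(1, 0, 0, 0)])) =
          mulQ (1, 0, 0, 0) (mulQ (prodQ w) (1, 0, 0, 0)) := by
        have e1 : prodQ ((1, 0, 0, 0) :: (w ++ [(1, 0, 0, 0)])) =
          mulQ (1, 0, 0, 0) (prodQ (w ++ [(1, 0, 0, 0)])) := rfl
        rw [e1, prodQ_append]
        simp [prodQ, mulQ]
      rw [e]
      simp [mulQ, h3]

theorem clz_mort : ∃ f : List Rule × ℤ × ℤ → List Q4, Computable f ∧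
    ∀ i, (∀ A ∈ f i, dt A ≠ 0 ∧ ∃ c : ℤ, act A (1, -1) = (c, -c)) ∧
      ((RelPrime i.1 ∧ Relation.ReflTransGen (Step i.1) i.2.1 i.2.2) ↔
        MZ ((1, 0, 0, 0) :: f i)) := by
  obtain ⟨f, hf, h⟩ := clz_red
  refine ⟨f, hf, fun i => ⟨(h i).1, ?_⟩⟩
  rw [(h i).2, mz_cons fun A hA => ((h i).1 A hA).1]

end Pool.Agent.Helper425_zc
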