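import Pool.Agent.Helper425_zc.Cert3
import Pool.Agent.Helper425_zc.Aff6

set_option autoImplicit false

namespace Pool.Agent.Helper425_zc

theorem pp_chk3 : PrimrecPred fun p : Ctx × C3 => Chk3 p.1.1 p.1.2.1 p.1.2.2 p.2 := by
  unfold Chk3
  have hP : Primrec fun p : Ctx × C3 => p.2.1 := pfst Primrec.snd
  have hM : Primrec fun p : Ctx × C3 => p.2.2.1 := pfst (psnd Primrec.snd)
  have hn : Primrec fun p : Ctx × C3 => p.2.2.1.1 := pfst hM
  have hD : Primrec fun p : Ctx × C3 => p.2.2.1.2.1 := pfst (psnd hM)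
  have hc : Primrec fun p : Ctx × C3 => p.2.2.1.2.2.1 := pfst (psnd (psnd hM))
  have hc' : Primrec fun p : Ctx × C3 => p.2.2.1.2.2.2.1 := pfst (psnd (psnd (psnd hM)))
  have hg : Primrec fun p : Ctx × C3 => p.2.2.1.2.2.2.2.1 :=
    pfst (psnd (psnd (psnd (psnd hM))))
  have hk : Primrec fun p : Ctx × C3 => p.2.2.1.2.2.2.2.2.1 :=
    pfst (psnd (psnd (psnd (psnd (psnd hM)))))
  have hk' : Primrec fun p : Ctx × C3 => p.2.2.1.2.2.2.2.2.2 :=
    psnd (psnd (psnd (psnd (psnd (psnd hM)))))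
  have hK : Primrec fun p : Ctx × C3 => p.2.2.2 := psnd (psnd Primrec.snd)
  have hu : Primrec fun p : Ctx × C3 => p.1.2.1 := pfst (psnd Primrec.fst)
  have hw : Primrec fun p : Ctx × C3 => p.1.2.2 := psnd (psnd Primrec.fst)
  have hL : Primrec fun p : Ctx × C3 => p.1.1 := pfst Primrec.fst
  refine PrimrecPred.and ((pp_eq (p_dt hP) (Primrec.const 0)).not.and
    ((pp_eq hn (Primrec.const 0)).not.and (pp_eq hg (Primrec.const 0)).not))
    (PrimrecPred.and ((pp_dvd (pmul hn hg) (psub (pmul hc hc') (Primrec.const 1))).and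
      (pp_dvd hg (psub (pmul hk hk') (Primrec.const 1)))) (PrimrecPred.and ?_
      (PrimrecPred.and ?_ ?_)))
  · refine pp_forall (R := fun (A : Q4) (p : Ctx × C3) =>
      dt A = 0 ∨ Stp3 p.2.2.1.1 p.2.2.1.2.1 p.2.2.1.2.2.1 p.2.2.1.2.2.2.2.1
        p.2.2.1.2.2.2.2.2.1 p.2.1 p.2.2.2 A) hL ?_
    unfold Stp3
    have hA : Primrec fun q : Q4 × (Ctx × C3) => q.1 := Primrec.fst
    have e2 : Primrec fun q : Q4 × (Ctx × C3) => q.2 := Primrec.snd
    have hP2 := hP.comp e2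
    have hn2 := hn.comp e2
    have hD2 := hD.comp e2
    have hc2 := hc.comp e2
    have hg2 := hg.comp e2
    have hk2 := hk.comp e2
    have hK2 := hK.comp e2
    refine (pp_eq (p_dt hA) (Primrec.const 0)).or
      ((pp_eq (p_cc hP2 hA) (Primrec.const 0)).and
        ((pp_eq (p_cd hP2 hA) (Primrec.const 0)).not.and
          ((pp_dvd (p_cd hP2 hA) (pmul (pmul (p_ca hP2 hA) hc2) hg2)).and
            ((pp_dvd (p_cd hP2 hA) (pmul (pmul hD2 (p_cb hP2 hA)) hc2)).and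
              ((pp_dvd (p_ca hP2 hA) (pmul (p_cd hP2 hA) hk2)).and ?_)))))
    refine pp_forall (R := fun (ρ : ℕ) (q : Q4 × (Ctx × C3)) =>
      (∃ r ∈ q.2.2.2.2, q.2.2.2.1.1 ∣ (ρ : ℤ) - r) →
        cd q.2.2.1 q.1 ∣ ca q.2.2.1 q.1 * q.2.2.2.1.2.2.1 * ρ → ∃ r' ∈ q.2.2.2.2,
      q.2.2.2.1.1 * cd q.2.2.1 q.1 ∣ q.2.2.2.1.2.2.1 *
        (cd q.2.2.1 q.1 * r' - ca q.2.2.1 q.1 * ρ - q.2.2.2.1.2.1 * cb q.2.2.1 q.1))
        (Primrec.list_range.comp (prim_natAbs.comp (pmul hn2 hg2))) ?_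
    -- as disjunctions
    have main : PrimrecPred fun s : ℕ × (Q4 × (Ctx × C3)) =>
        (¬ (∃ r ∈ s.2.2.2.2.2, s.2.2.2.2.1.1 ∣ (s.1 : ℤ) - r)) ∨
        (¬ cd s.2.2.2.1 s.2.1 ∣ ca s.2.2.2.1 s.2.1 * s.2.2.2.2.1.2.2.1 * s.1) ∨
        ∃ r' ∈ s.2.2.2.2.2, s.2.2.2.2.1.1 * cd s.2.2.2.1 s.2.1 ∣ s.2.2.2.2.1.2.2.1 *
        (cd s.2.2.2.1 s.2.1 * r' - ca s.2.2.2.1 s.2.1 * s.1 -
          s.2.2.2.2.1.2.1 * cb s.2.2.2.1 s.2.1) := by
      have e3 : Primrec fun s : ℕ × (Q4 × (Ctx × C3)) => s.2.2 := psnd Primrec.snd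
      have hA3 : Primrec fun s : ℕ × (Q4 × (Ctx × C3)) => s.2.1 := pfst Primrec.snd
      have hρ3 : Primrec fun s : ℕ × (Q4 × (Ctx × C3)) => (s.1 : ℤ) :=
        prim_natCast.comp Primrec.fst
      have hP3 := hP.comp e3
      have hn3 := hn.comp e3
      have hD3 := hD.comp e3
      have hc3 := hc.comp e3
      have hK3 := hK.comp e3
      refine PrimrecPred.or (PrimrecPred.not ?_) (PrimrecPred.or (PrimrecPred.not ?_) ?_)
      · refine pp_exists (R := fun (r : ℤ) (s : ℕ × (Q4 × (Ctx × C3))) =>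
          s.2.2.2.2.1.1 ∣ (s.1 : ℤ) - r) hK3 ?_
        have e4 : Primrec fun t : ℤ × (ℕ × (Q4 × (Ctx × C3))) => t.2 := Primrec.snd
        exact pp_dvd (hn3.comp e4) (psub (hρ3.comp e4) Primrec.fst)
      · exact pp_dvd (p_cd hP3 hA3) (pmul (pmul (p_ca hP3 hA3) hc3) hρ3)
      · refine pp_exists (R := fun (r' : ℤ) (s : ℕ × (Q4 × (Ctx × C3))) =>
          s.2.2.2.2.1.1 * cd s.2.2.2.1 s.2.1 ∣ s.2.2.2.2.1.2.2.1 *
          (cd s.2.2.2.1 s.2.1 * r' - ca s.2.2.2.1 s.2.1 * s.1 -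
            s.2.2.2.2.1.2.1 * cb s.2.2.2.1 s.2.1)) hK3 ?_
        have e4 : Primrec fun t : ℤ × (ℕ × (Q4 × (Ctx × C3))) => t.2 := Primrec.snd
        have hA4 := hA3.comp e4
        have hP4 := hP3.comp e4
        have hn4 := hn3.comp e4
        have hD4 := hD3.comp e4
        have hc4 := hc3.comp e4
        have hρ4 := hρ3.comp e4
        exact pp_dvd (pmul hn4 (p_cd hP4 hA4)) (pmul hc4 (psub (psub
          (pmul (p_cd hP4 hA4) Primrec.fst) (pmul (p_ca hP4 hA4) hρ4))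
          (pmul hD4 (p_cb hP4 hA4))))
    refine main.of_eq fun s => ?_
    constructor
    · rintro (h | h | h) h1 h2
      · exact absurd h1 h
      · exact absurd h2 h
      · exact h
    · intro h
      by_cases h1 : ∃ r ∈ s.2.2.2.2.2, s.2.2.2.2.1.1 ∣ (s.1 : ℤ) - r
      · by_cases h2 : cd s.2.2.2.1 s.2.1 ∣ ca s.2.2.2.1 s.2.1 * s.2.2.2.2.1.2.2.1 * s.1
        · exact Or.inr (Or.inr (h h1 h2))
        · exact Or.inr (Or.inl h2)
      · exact Or.inl h1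
  · refine (pp_eq (p_y2 hP hu) (Primrec.const 0)).not.and
      ((pp_dvd (p_y2 hP hu) (pmul (pmul hD (p_y1 hP hu)) hc)).and ?_)
    refine pp_exists (R := fun (r : ℤ) (p : Ctx × C3) =>
      p.2.2.1.1 * y2 p.2.1 p.1.2.1 ∣
        p.2.2.1.2.2.1 * (p.2.2.1.2.1 * y1 p.2.1 p.1.2.1 - r * y2 p.2.1 p.1.2.1)) hK ?_
    have e1 : Primrec fun q : ℤ × (Ctx × C3) => q.2 := Primrec.snd
    have hP3 := hP.comp e1
    have hn3 := hn.comp e1
    have hD3 := hD.comp e1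
    have hc3 := hc.comp e1
    have hu3 := hu.comp e1
    have hr : Primrec fun q : ℤ × (Ctx × C3) => q.1 := Primrec.fst
    exact pp_dvd (pmul hn3 (p_y2 hP3 hu3)) (pmul hc3 (psub (pmul hD3 (p_y1 hP3 hu3))
      (pmul hr (p_y2 hP3 hu3))))
  · refine (pp_eq (p_w1 hP hw) (Primrec.const 0)).not.and
      ((pp_dvd (p_w1 hP hw) (pmul (pmul hD (p_w2 hP hw)) hc)).and ?_)
    refine pp_forall (R := fun (r : ℤ) (p : Ctx × C3) =>
      ¬ (p.2.2.1.1 * w1 p.2.1 p.1.2.2 ∣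
        p.2.2.1.2.2.1 * (p.2.2.1.2.1 * w2 p.2.1 p.1.2.2 + r * w1 p.2.1 p.1.2.2))) hK ?_
    have e1 : Primrec fun q : ℤ × (Ctx × C3) => q.2 := Primrec.snd
    have hP3 := hP.comp e1
    have hn3 := hn.comp e1
    have hD3 := hD.comp e1
    have hc3 := hc.comp e1
    have hw3 := hw.comp e1
    have hr : Primrec fun q : ℤ × (Ctx × C3) => q.1 := Primrec.fst
    exact (pp_dvd (pmul hn3 (p_w1 hP3 hw3)) (pmul hc3 (padd (pmul hD3 (p_w2 hP3 hw3))
      (pmul hr (p_w1 hP3 hw3))))).not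

/-! ### existence of the certificate of type 3 -/

variable {G : Finset (ℚ × ℚ)}

def Cert3q (G : Finset (ℚ × ℚ)) (x0 q : ℚ) : Prop :=
  ∃ (n D c c' g κ κ' : ℤ) (K : List ℤ), n ≠ 0 ∧ g ≠ 0 ∧ c ≠ 0 ∧ n * g ∣ c * c' - 1 ∧
    g ∣ κ * κ' - 1 ∧
    (∀ f ∈ G, ∃ α γ δ : ℤ, f.1 * c * g = α ∧ D * f.2 * c = γ ∧ (κ : ℚ) = f.1 * δ ∧
      ∀ ρ : ℤ, (∃ r ∈ K, n ∣ ρ - r) → g ∣ α * ρ →
        ∃ r' ∈ K, n * g ∣ c * g * r' - α * ρ - γ * g) ∧
    (∃ a0 : ℤ, c * D * x0 = a0 ∧ ∃ r ∈ K, n ∣ a0 - c * r) ∧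
    (∃ aq : ℤ, c * D * q = aq ∧ ∀ r ∈ K, ¬ n ∣ aq - c * r)

theorem common_parts {A B : Finset ℕ} (G : Finset (ℚ × ℚ))
    (hden : ∀ f ∈ G, ∃ d1 d2 : ℕ, f.1.den = d1 * d2 ∧ Smooth A d1 ∧ Smooth B d2)
    (hm : ∀ f ∈ G, f.1 ≠ 0)
    (hnum : ∀ f ∈ G, ∀ p ∈ B, ¬ p ∣ f.1.num.natAbs) (hBp : ∀ p ∈ B, p.Prime) :
    ∃ c g k : ℕ, Smooth A c ∧ Smooth B g ∧ (∀ p ∈ B, ¬ p ∣ k) ∧
      ∀ f ∈ G, (∃ z : ℤ, f.1 * c * g = z) ∧ ∃ δ : ℤ, (k : ℚ) = f.1 * δ := by
  classical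
  induction G using Finset.induction_on with
  | empty =>
    exact ⟨1, 1, 1, Smooth.one, Smooth.one, fun p hp h => (hBp p hp).one_lt.ne'
      (Nat.dvd_one.1 h), by simp⟩
  | insert a s _ ih =>
    obtain ⟨c, g, k, hc, hg, hk, h⟩ := ih (fun f hf => hden f (Finset.mem_insert_of_mem hf))
      (fun f hf => hm f (Finset.mem_insert_of_mem hf))
      (fun f hf => hnum f (Finset.mem_insert_of_mem hf))
    obtain ⟨d1, d2, hd, h1, h2⟩ := hden a (Finset.mem_insert_self _ _)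
    have ha := hm a (Finset.mem_insert_self _ _)
    refine ⟨c * d1, g * d2, k * a.1.num.natAbs, hc.mul h1, hg.mul h2, ?_, ?_⟩
    · intro p hp hdiv
      rcases ((hBp p hp).dvd_mul).1 hdiv with h3 | h3
      · exact hk p hp h3
      · exact hnum a (Finset.mem_insert_self _ _) p hp h3
    · intro f hf
      rcases Finset.mem_insert.1 hf with rfl | hf
      · constructor
        · refine ⟨c * g * f.1.num, ?_⟩
          have e := Rat.mul_den_eq_num f.1
          rw [hd] at e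
          push_cast at e ⊢
          linear_combination (c * g : ℚ) * e
        · have e := Rat.mul_den_eq_num f.1
          obtain ⟨m, hmn⟩ : ∃ m : ℕ, m = f.1.num.natAbs := ⟨_, rfl⟩
          have h4 := Int.natAbs_eq f.1.num
          rw [← hmn] at h4 ⊢
          rcases h4 with h4 | h4
          · refine ⟨k * f.1.den, ?_⟩
            have h5 : (m : ℚ) = f.1.num := by rw [h4]; norm_cast
            push_cast
            rw [h5, ← e]; ring
          · refine ⟨- (k * f.1.den), ?_⟩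
            have h5 : (m : ℚ) = - f.1.num := by rw [h4]; push_cast; ring
            push_cast
            rw [h5, ← e]; ring
      · obtain ⟨⟨z, hz⟩, δ, hδ⟩ := h f hf
        constructor
        · refine ⟨z * d1 * d2, ?_⟩
          push_cast
          linear_combination (d1 * d2 : ℚ) * hz
        · obtain ⟨m, hmn⟩ : ∃ m : ℕ, m = a.1.num.natAbs := ⟨_, rfl⟩
          rw [← hmn]
          refine ⟨δ * m, ?_⟩
          push_cast
          rw [hδ]; ring

theorem cert3_exists {A B : Finset ℕ} (hA : ∀ p ∈ A, p.Prime) (hB : ∀ p ∈ B, p.Prime)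
    (hAB : ∀ p ∈ A, p ∉ B)
    (hden : ∀ f ∈ G, ∃ d1 d2 : ℕ, f.1.den = d1 * d2 ∧ Smooth A d1 ∧ Smooth B d2)
    (hm : ∀ f ∈ G, f.1 ≠ 0)
    (hnum : ∀ f ∈ G, ∀ p ∈ B, ¬ p ∣ f.1.num.natAbs)
    {t : ℚ} (ht : t ≠ 0) (hU : ∀ y ∈ RR A, TT G (t * y)) {x0 q : ℚ}
    (hn : ¬ Rch G x0 q) : Cert3q G x0 q := by
  classical
  obtain ⟨D0, hD0, hD0'⟩ := common_den (insert x0 (insert q (G.image Prod.snd)))
  obtain ⟨c, g, k, hc, hg, hk, hcgk⟩ := common_parts G hden hm hnum hB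
  obtain ⟨x0z, hx0z⟩ := hD0' x0 (Finset.mem_insert_self _ _)
  obtain ⟨qz, hqz⟩ := hD0' q (Finset.mem_insert_of_mem (Finset.mem_insert_self _ _))
  have hfz : ∀ f ∈ G, ∃ z : ℤ, (D0 : ℚ) * f.2 = z := fun f hf =>
    hD0' f.2 (Finset.mem_insert_of_mem (Finset.mem_insert_of_mem (Finset.mem_image_of_mem _ hf)))
  have htn : t.num ≠ 0 := Rat.num_ne_zero.2 ht
  have hN : ((D0 : ℤ) * t.num).natAbs ≠ 0 := by
    rw [Int.natAbs_ne_zero]
    exact mul_ne_zero (by exact_mod_cast hD0.ne') htn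
  obtain ⟨E, w, hEw, hw, hE⟩ := exists_split A _ hN
  have hE0 : E ≠ 0 := by
    rintro rfl
    rw [zero_mul] at hEw
    exact hN hEw
  have hE' : ∀ p ∈ A, ¬ p ∣ E := fun p hp => hE p (hA p hp) hp
  obtain ⟨D, hD⟩ : ∃ D : ℤ, D = D0 * t.den := ⟨_, rfl⟩
  have hDq : (D : ℚ) = D0 * t.den := by rw [hD]; push_cast; ring
  have hD00 : (D0 : ℚ) ≠ 0 := by exact_mod_cast hD0.ne'
  have htd : (t.den : ℚ) ≠ 0 := by exact_mod_cast t.den_nz
  have hDne : (D : ℚ) ≠ 0 := by rw [hDq]; exact mul_ne_zero hD00 htd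
  have hEq : (E : ℚ) ≠ 0 := by exact_mod_cast hE0
  have hwq : (w : ℚ) ≠ 0 := by exact_mod_cast hw.1
  obtain ⟨sg, hsg, hDt⟩ : ∃ sg : ℤ, (sg = 1 ∨ sg = -1) ∧ (D : ℚ) * t = sg * (E * w) := by
    have h1 : (D : ℚ) * t = ((D0 * t.num : ℤ) : ℚ) := by
      rw [hDq]; push_cast
      linear_combination (D0 : ℚ) * Rat.mul_den_eq_num t
    rcases Int.natAbs_eq ((D0 : ℤ) * t.num) with h | h
    · refine ⟨1, Or.inl rfl, ?_⟩
      rw [h1, h, hEw]; push_cast; ring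
    · refine ⟨-1, Or.inr rfl, ?_⟩
      rw [h1, h, hEw]; push_cast; ring
  have hsg2 : (sg : ℚ) * sg = 1 := by rcases hsg with h | h <;> rw [h] <;> norm_num
  -- moving inside a class
  have hmove : ∀ x, Rch G x0 x → ∀ y ∈ RR A, Rch G x0 (x + (E * y) / D) := by
    intro x hx y hy
    have h1 : sg * (w : ℚ)⁻¹ * y ∈ RR A :=
      (RR A).mul_mem ((RR A).mul_mem (int_mem_RR _) (inv_mem_RR hw)) hy
    have h2 := TT.rch (hU _ h1) hx
    have e : t * (sg * (w : ℚ)⁻¹ * y) = (E * y) / D := by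
      rw [eq_div_iff hDne]
      have e3 : (sg : ℚ) * (E * w) * (sg * (w : ℚ)⁻¹ * y) = E * y := by
        have e4 : (sg : ℚ) * (E * w) * (sg * (w : ℚ)⁻¹ * y) =
          (sg * sg) * (w * (w : ℚ)⁻¹) * (E * y) := by ring
        rw [e4, hsg2, mul_inv_cancel₀ hwq]; ring
      calc t * (sg * (w : ℚ)⁻¹ * y) * D = (D * t) * (sg * (w : ℚ)⁻¹ * y) := by ring
        _ = E * y := by rw [hDt, e3]
    rw [e] at h2; exact h2
  have hres : ∀ x ∈ RR A, ∃ r : ℤ, (0 ≤ r ∧ r < E) ∧ ∃ y ∈ RR A, x - r = E * y := by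
    rintro x ⟨m, hm, z, hz⟩
    have hcop : IsCoprime (m : ℤ) (E : ℤ) := Nat.isCoprime_iff_coprime.2 (hm.coprime hE')
    obtain ⟨u, v, huv⟩ := hcop
    have hEz : (0 : ℤ) < E := by exact_mod_cast Nat.pos_of_ne_zero hE0
    refine ⟨(u * z) % E, ⟨Int.emod_nonneg _ hEz.ne', Int.emod_lt_of_pos _ hEz⟩, ?_⟩
    have hmq : (m : ℚ) ≠ 0 := by exact_mod_cast hm.1
    have h1 := Int.emod_add_mul_ediv (u * z) E
    have h1q : (((u * z) % E : ℤ) : ℚ) + E * ((u * z / E : ℤ) : ℚ) = u * z := by exact_mod_cast h1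
    have huvq : (u : ℚ) * m + v * E = 1 := by exact_mod_cast huv
    refine ⟨(v * z + m * ((u * z / E : ℤ) : ℚ)) / m, ?_, ?_⟩
    · refine ⟨m, hm, v * z + m * (u * z / E), ?_⟩
      push_cast
      field_simp
    · rw [mul_div_assoc', eq_div_iff hmq]
      linear_combination hz - z * huvq - m * h1q
  have hint : ∀ (j : ℤ) (y : ℚ), y ∈ RR A → (j : ℚ) = E * y → (E : ℤ) ∣ j := by
    rintro j y ⟨m, hm, z, hz⟩ hj
    have hcop : IsCoprime (E : ℤ) (m : ℤ) :=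
      (Nat.isCoprime_iff_coprime.2 (hm.coprime hE')).symm
    apply hcop.dvd_of_dvd_mul_left
    refine ⟨z, ?_⟩
    have : ((m * j : ℤ) : ℚ) = ((E * z : ℤ) : ℚ) := by
      push_cast
      rw [hj]
      linear_combination (E : ℚ) * hz
    exact_mod_cast this
  let P : ℤ → Prop := fun r => (0 ≤ r ∧ r < E) ∧ ∃ x, Rch G x0 x ∧ ∃ y ∈ RR A, (D : ℚ) * x - r = E * y
  obtain ⟨K, hK⟩ : ∃ K : List ℤ, ∀ r, r ∈ K ↔ P r := by
    refine ⟨((List.range E).map fun n : ℕ => (n : ℤ)).filter fun r => P r, fun r => ?_⟩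
    rw [List.mem_filter, List.mem_map]
    simp only [List.mem_range, decide_eq_true_eq]
    constructor
    · exact fun h => h.2
    · intro h
      refine ⟨⟨r.toNat, ?_, ?_⟩, h⟩
      · have := h.1; omega
      · have := h.1; omega
  have hcq : (c : ℚ) ≠ 0 := by exact_mod_cast hc.1
  have hgq : (g : ℚ) ≠ 0 := by exact_mod_cast hg.1
  -- coprimality
  have hcop1 : IsCoprime (c : ℤ) ((E : ℤ) * g) := by
    have h1 : Nat.Coprime c E := hc.coprime hE'
    have h2 : Nat.Coprime c g := by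
      by_contra h
      obtain ⟨p, hp, h1, h2⟩ := Nat.Prime.not_coprime_iff_dvd.1 h
      exact hAB p (hc.2 p hp h1) (hg.2 p hp h2)
    have h3 : Nat.Coprime c (E * g) := Nat.Coprime.mul_right h1 h2
    have h4 := Nat.isCoprime_iff_coprime.2 h3
    push_cast at h4; exact h4
  obtain ⟨c', v, hcv⟩ := hcop1
  have hcop2 : IsCoprime (k : ℤ) (g : ℤ) := by
    apply Nat.isCoprime_iff_coprime.2
    by_contra h
    obtain ⟨p, hp, h1, h2⟩ := Nat.Prime.not_coprime_iff_dvd.1 h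
    exact hk p (hg.2 p hp h2) h1
  obtain ⟨κ', v', hkv⟩ := hcop2
  refine ⟨E, D, c, c', g, k, κ', K, by exact_mod_cast hE0, by exact_mod_cast hg.1,
    by exact_mod_cast hc.1, ⟨-v, by linear_combination hcv⟩, ⟨-v', by linear_combination hkv⟩,
    ?_, ?_, ?_⟩
  · intro f hf
    obtain ⟨⟨α, hα⟩, δ, hδ⟩ := hcgk f hf
    obtain ⟨z, hz⟩ := hfz f hf
    refine ⟨α, z * t.den * c, δ, by rw [← hα]; norm_cast, ?_, by exact_mod_cast hδ, ?_⟩
    · push_cast; rw [hDq]; linear_combination (t.den : ℚ) * c * hz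
    · rintro ρ ⟨r, hr, j0, hj0⟩ ⟨s, hs⟩
      obtain ⟨_, x, hx, y, hy, hxy⟩ := (hK r).1 hr
      -- the point with D x̃ = ρ
      have hx2 := hmove x hx ((j0 : ℚ) - y) ((RR A).sub_mem (int_mem_RR _) hy)
      set x1 : ℚ := x + (E * ((j0 : ℚ) - y)) / D with hx1
      have hDx1 : (D : ℚ) * x1 = ρ := by
        have hj0q : (ρ : ℚ) - r = E * j0 := by exact_mod_cast hj0
        have : (D : ℚ) * x1 = D * x + E * ((j0 : ℚ) - y) := by
          rw [hx1]; field_simp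
        rw [this]
        linear_combination hxy - hj0q
      have hx3 := Rch.step f x1 hf hx2
      have hsq : (α : ℚ) * ρ = g * s := by exact_mod_cast hs
      have hcD : (c : ℚ) * (D * ev f x1) = ((s + z * t.den * c : ℤ) : ℚ) := by
        apply mul_left_cancel₀ hgq
        simp only [ev]
        push_cast
        have h5 : (D : ℚ) * f.2 = z * t.den := by rw [hDq]; linear_combination (t.den : ℚ) * hz
        linear_combination (ρ : ℚ) * hα + hsq + (f.1 * c * g) * hDx1 + (c * g : ℚ) * h5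
      have hmem : (D : ℚ) * ev f x1 ∈ RR A := by
        refine ⟨c, hc, s + z * t.den * c, ?_⟩
        rw [hcD]
      obtain ⟨r', hr', y', hy', hxy'⟩ := hres _ hmem
      refine ⟨r', (hK r').2 ⟨hr', _, hx3, y', hy', hxy'⟩, ?_⟩
      have h6 : (E : ℤ) ∣ c * r' - s - z * t.den * c := by
        apply hint _ (- (c * y'))
        · exact (RR A).neg_mem ((RR A).mul_mem (by exact_mod_cast int_mem_RR (A := A) (c : ℤ)) hy')
        · push_cast at hcD ⊢
          linear_combination (-(c : ℚ)) * hxy' + hcD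
      obtain ⟨j, hj⟩ := h6
      refine ⟨j, ?_⟩
      linear_combination (g : ℤ) * hj - hs
  · refine ⟨c * (x0z * t.den), ?_, ?_⟩
    · push_cast; rw [hDq]; linear_combination ((c : ℚ) * t.den) * hx0z
    · have e : (D : ℚ) * x0 = ((x0z * t.den : ℤ) : ℚ) := by
        rw [hDq]; push_cast; linear_combination (t.den : ℚ) * hx0z
      obtain ⟨r, hr, y, hy, hxy⟩ := hres ((D : ℚ) * x0) (by rw [e]; exact int_mem_RR _)
      refine ⟨r, (hK r).2 ⟨hr, _, Rch.base, y, hy, hxy⟩, ?_⟩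
      apply hint _ (c * y)
      · exact (RR A).mul_mem (by exact_mod_cast int_mem_RR (A := A) (c : ℤ)) hy
      · push_cast at e ⊢
        linear_combination (c : ℚ) * hxy - (c : ℚ) * e
  · refine ⟨c * (qz * t.den), ?_, ?_⟩
    · push_cast; rw [hDq]; linear_combination ((c : ℚ) * t.den) * hqz
    · intro r hr hdvd
      obtain ⟨_, x, hx, y, hy, hxy⟩ := (hK r).1 hr
      obtain ⟨j, hj⟩ := hdvd
      have hjq : (c : ℚ) * (qz * t.den) - c * r = E * j := by exact_mod_cast hj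
      have hDq' : (D : ℚ) * q = qz * t.den := by
        rw [hDq]; linear_combination (t.den : ℚ) * hqz
      have h1 : (D : ℚ) * q - r = E * (j * (c : ℚ)⁻¹) := by
        apply mul_left_cancel₀ hcq
        have : (c : ℚ) * (E * (j * (c : ℚ)⁻¹)) = E * j := by field_simp
        rw [this]
        linear_combination hjq + (c : ℚ) * hDq'
      apply hn
      have h2 := hmove x hx (j * (c : ℚ)⁻¹ - y)
        ((RR A).sub_mem ((RR A).mul_mem (int_mem_RR _) (inv_mem_RR hc)) hy)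
      have e : x + (E * (j * (c : ℚ)⁻¹ - y)) / D = q := by
        have h3 : (E * (j * (c : ℚ)⁻¹ - y)) = D * (q - x) := by
          linear_combination hxy - h1
        rw [h3]; field_simp; ring
      rw [e] at h2; exact h2

theorem chk3_of_cert3q {P : Q4} {L : List Q4} (hP : dt P ≠ 0)
    (hL : ∀ A ∈ L, dt A ≠ 0 → cc P A = 0) {u w : V2} (hu : y2 P u ≠ 0) (hw : w1 P w ≠ 0)
    (h : Cert3q (gset P L) (xc P u) (- (w2 P w : ℚ) / w1 P w)) : ∃ e : C3, Chk3 L u w e := by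
  obtain ⟨n, D, c, c', g, κ, κ', K, hn0, hg0, hc0, hcc, hkk, hG, ⟨a0, ha0, r0, hr0, hr0'⟩,
    ⟨aq, haq, hqr⟩⟩ := h
  have qu : (y2 P u : ℚ) ≠ 0 := by exact_mod_cast hu
  have qw : (w1 P w : ℚ) ≠ 0 := by exact_mod_cast hw
  refine ⟨(P, (n, D, c, c', g, κ, κ'), K), ⟨hP, hn0, hg0⟩, ⟨hcc, hkk⟩, ?_, ⟨hu, ?_, ?_⟩,
    ⟨hw, ?_, ?_⟩⟩
  · intro A hA
    by_cases hd : dt A = 0
    · exact Or.inl hd
    right
    have hc := hL A hA hd
    obtain ⟨h1, h2⟩ := cd_ne hP hd hc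
    have qd : (cd P A : ℚ) ≠ 0 := by exact_mod_cast h2
    have qa : (ca P A : ℚ) ≠ 0 := by exact_mod_cast h1
    obtain ⟨α, γ, δ, e1, e2, e3, h3⟩ := hG (af P A) (mem_gset.2 ⟨A, hA, hd, rfl⟩)
    have f1 : ca P A * c * g = cd P A * α := by
      have : (ca P A : ℚ) * c * g = cd P A * α := by
        rw [← e1]; simp only [af]; field_simp
      exact_mod_cast this
    have f2 : D * cb P A * c = cd P A * γ := by
      have : (D : ℚ) * cb P A * c = cd P A * γ := by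
        rw [← e2]; simp only [af]; field_simp
      exact_mod_cast this
    have f3 : cd P A * κ = ca P A * δ := by
      have : (cd P A : ℚ) * κ = ca P A * δ := by
        rw [e3]; simp only [af]; field_simp
      exact_mod_cast this
    refine ⟨hc, h2, ⟨α, f1⟩, ⟨γ, f2⟩, ⟨δ, f3⟩, ?_⟩
    intro ρ _ hρ hdiv
    have hdiv' : cd P A ∣ ca P A * c * (ρ : ℤ) := hdiv
    have h4 : g ∣ α * ρ := by
      obtain ⟨s, hs⟩ := hdiv'
      refine ⟨s, ?_⟩
      apply mul_left_cancel₀ h2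
      linear_combination (- (ρ : ℤ)) * f1 + g * hs
    obtain ⟨r', hr', j, hj⟩ := h3 ρ hρ h4
    refine ⟨r', hr', j, ?_⟩
    show c * (cd P A * r' - ca P A * ρ - D * cb P A) = n * cd P A * j
    apply mul_left_cancel₀ hg0
    linear_combination cd P A * hj - (ρ : ℤ) * f1 - g * f2
  · show y2 P u ∣ D * y1 P u * c
    refine ⟨a0, ?_⟩
    have : (D : ℚ) * y1 P u * c = y2 P u * a0 := by
      rw [← ha0]; simp only [xc]; field_simp
    exact_mod_cast this
  · refine ⟨r0, hr0, ?_⟩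
    obtain ⟨j, hj⟩ := hr0'
    refine ⟨j, ?_⟩
    show c * (D * y1 P u - r0 * y2 P u) = n * y2 P u * j
    have h1 : c * D * y1 P u = a0 * y2 P u := by
      have : (c : ℚ) * D * y1 P u = a0 * y2 P u := by
        rw [← ha0]; simp only [xc]; field_simp
      exact_mod_cast this
    linear_combination h1 + y2 P u * hj
  · show w1 P w ∣ D * w2 P w * c
    refine ⟨-aq, ?_⟩
    have : (D : ℚ) * w2 P w * c = w1 P w * (-aq) := by
      rw [← haq]; field_simp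
    exact_mod_cast this
  · intro r hr hdvd
    apply hqr r hr
    obtain ⟨j, hj⟩ := hdvd
    have hj' : c * (D * w2 P w + r * w1 P w) = n * w1 P w * j := hj
    have h1 : c * D * w2 P w = - aq * w1 P w := by
      have : (c : ℚ) * D * w2 P w = - aq * w1 P w := by
        rw [← haq]; field_simp
      exact_mod_cast this
    refine ⟨-j, ?_⟩
    apply mul_left_cancel₀ hw
    linear_combination h1 - hj'

end Pool.Agent.Helper425_zc
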