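import Pool.Agent.Helper425_zc.Red
import Pool.Agent.Helper425_zc.PCert3
import Pool.Agent.Helper425_zc.Algo2

set_option autoImplicit false

namespace Pool.Agent.Helper425_zc

open Matrix

/-- pairs of vectors, for an arbitrary kind of certificates -/
theorem pair_gen {γ : Type} {Chk : List Q4 → V2 → V2 → γ → Prop} {P : Q4} {L : List Q4}
    (hP : dt P ≠ 0)
    (hL : ∀ A ∈ L, dt A ≠ 0 → cc P A = 0)
    (hmain : ∀ u w : V2, y2 P u ≠ 0 → w1 P w ≠ 0 →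
      Rch (gset P L) (xc P u) (- (w2 P w : ℚ) / w1 P w) ∨ ∃ e, Chk L u w e)
    (u w : V2) : Reach L u w ∨ Chk0 L u w ∨ (∃ e, Chk L u w e) := by
  by_cases h0 : dot w u = 0
  · exact Or.inl ⟨u, Orb.base, h0⟩
  have hPne : P.1 ≠ 0 ∨ P.2.2.1 ≠ 0 := by
    by_contra h
    push Not at h
    apply hP
    simp [dt, h.1, h.2]
  by_cases hu : y2 P u = 0
  · right; left
    refine ⟨h0, Or.inl fun A hA => ?_⟩
    by_cases hd : dt A = 0
    · exact Or.inl hd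
    right
    have h1 := y2_act P A u
    rw [hL A hA hd, hu] at h1
    have h2 : y2 P (act A u) = 0 := by
      have : dt P * y2 P (act A u) = 0 := by rw [h1]; ring
      exact (mul_eq_zero.1 this).resolve_left hP
    simp only [y2] at hu h2
    rcases hPne with h | h
    · apply mul_left_cancel₀ h
      linear_combination u.1 * h2 - (act A u).1 * hu
    · apply mul_left_cancel₀ h
      linear_combination u.2 * h2 - (act A u).2 * hu
  by_cases hw : w1 P w = 0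
  · right; left
    refine ⟨h0, Or.inr fun A hA => ?_⟩
    by_cases hd : dt A = 0
    · exact Or.inl hd
    right
    have h1 := hL A hA hd
    simp only [w1] at hw
    simp only [cc] at h1
    rcases hPne with h | h
    · apply mul_left_cancel₀ (mul_ne_zero h h)
      have e1 : P.1 * (w.1 * A.1 + w.2 * A.2.2.1) * P.1 +
          P.1 * (w.1 * A.2.1 + w.2 * A.2.2.2) * P.2.2.1 = 0 := by
        linear_combination w.2 * h1 + (A.1 * P.1 + A.2.1 * P.2.2.1) * hw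
      linear_combination (P.1 * (w.1 * A.2.1 + w.2 * A.2.2.2)) * hw - w.2 * e1
    · apply mul_left_cancel₀ (mul_ne_zero h h)
      have e1 : P.2.2.1 * (w.1 * A.1 + w.2 * A.2.2.1) * P.1 +
          P.2.2.1 * (w.1 * A.2.1 + w.2 * A.2.2.2) * P.2.2.1 = 0 := by
        linear_combination (- w.1) * h1 + (A.2.2.1 * P.1 + A.2.2.2 * P.2.2.1) * hw
      linear_combination w.1 * e1 - (P.2.2.1 * (w.1 * A.1 + w.2 * A.2.2.1)) * hw
  rcases hmain u w hu hw with h | h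
  · exact Or.inl (reach_of_rch hP hL hu hw h)
  · exact Or.inr (Or.inr h)

theorem case_two' {L : List Q4} (P : Matrix (Fin 2) (Fin 2) ℚ) (hP : P.det ≠ 0)
    (htri : ∀ A ∈ gens' L, A.det ≠ 0 → inB P A 1 0 = 0)
    (hT : ∃ M ∈ Subsemigroup.closure (gens' L), ∃ N ∈ Subsemigroup.closure (gens' L),
      M.det ≠ 0 ∧ N.det ≠ 0 ∧ inB P M 0 0 / inB P M 1 1 = 1 ∧ inB P N 0 0 / inB P N 1 1 = 1 ∧
      (inB P M 0 1 / inB P M 1 1) * (inB P N 0 1 / inB P N 1 1) < 0)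
    (hp : ∀ p : ℕ, p.Prime →
      (∃ A ∈ gens' L, A.det ≠ 0 ∧ padicValRat p (inB P A 0 0 / inB P A 1 1) < 0) →
      (∃ A ∈ gens' L, A.det ≠ 0 ∧ 0 < padicValRat p (inB P A 0 0 / inB P A 1 1)) →
        ∃ M ∈ Subsemigroup.closure (gens' L), ∃ N ∈ Subsemigroup.closure (gens' L),
          M.det ≠ 0 ∧ N.det ≠ 0 ∧
          (inB P M 0 0 / inB P M 1 1) * (inB P N 0 0 / inB P N 1 1) = 1 ∧
          padicValRat p (inB P M 0 0 / inB P M 1 1) < 0) (u w : V2) :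
    Reach L u w ∨ Chk0 L u w ∨ (∃ e, Chk3 L u w e) := by
  classical
  obtain ⟨P', hP', hint⟩ := exists_int_basis P hP
  have hL := cc_zero hP' hint htri
  have hmu := mult_eq hP' hint
  have hne : ∀ A ∈ L, dt A ≠ 0 → (af P' A).1 ≠ 0 := by
    intro A hA hd
    obtain ⟨h1, h2⟩ := cd_ne hP' hd (hL A hA hd)
    simp only [af]
    exact div_ne_zero (by exact_mod_cast h1) (by exact_mod_cast h2)
  have hm : ∀ f ∈ gset P' L, f.1 ≠ 0 := by
    intro f hf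
    obtain ⟨A, hA, hd, rfl⟩ := mem_gset.1 hf
    exact hne A hA hd
  have hmem : ∀ p, p ∈ denPrimes (gset P' L) ↔ p.Prime ∧ ∃ f ∈ gset P' L, p ∣ f.1.den := by
    intro p
    simp only [denPrimes, Finset.mem_biUnion, Nat.mem_primeFactors]
    constructor
    · rintro ⟨f, hf, h1, h2, _⟩
      exact ⟨h1, f, hf, h2⟩
    · rintro ⟨h1, f, hf, h2⟩
      exact ⟨f, hf, h1, h2, f.1.den_nz⟩
  -- covered primes
  let Cov : ℕ → Prop := fun p => ∃ s s', Sg (gset P' L) s ∧ Sg (gset P' L) s' ∧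
      s.1 * s'.1 = 1 ∧ p ∣ s.1.den
  obtain ⟨A, hAdef⟩ : ∃ A : Finset ℕ, ∀ p, p ∈ A ↔ p ∈ denPrimes (gset P' L) ∧ Cov p :=
    ⟨(denPrimes (gset P' L)).filter Cov, fun p => Finset.mem_filter⟩
  obtain ⟨B, hBdef⟩ : ∃ B : Finset ℕ, ∀ p, p ∈ B ↔ p ∈ denPrimes (gset P' L) ∧ ¬ Cov p :=
    ⟨(denPrimes (gset P' L)).filter fun p => ¬ Cov p, fun p => Finset.mem_filter⟩
  have hAp : ∀ p ∈ A, p.Prime := fun p hp => ((hmem p).1 ((hAdef p).1 hp).1).1
  have hBp : ∀ p ∈ B, p.Prime := fun p hp => ((hmem p).1 ((hBdef p).1 hp).1).1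
  have hAB : ∀ p ∈ A, p ∉ B := fun p hp hq => ((hBdef p).1 hq).2 ((hAdef p).1 hp).2
  have hden : ∀ f ∈ gset P' L, ∃ d1 d2 : ℕ, f.1.den = d1 * d2 ∧ Smooth A d1 ∧ Smooth B d2 := by
    intro f hf
    obtain ⟨E, w, e, hw, hE⟩ := exists_split A f.1.den f.1.den_nz
    refine ⟨w, E, by rw [e]; ring, hw, ?_, ?_⟩
    · rintro rfl
      rw [zero_mul] at e
      exact f.1.den_nz e
    · intro p hp hpE
      have h1 : p ∈ denPrimes (gset P' L) := (hmem p).2 ⟨hp, f, hf, by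
        rw [e]; exact hpE.mul_right w⟩
      refine (hBdef p).2 ⟨h1, fun hc => ?_⟩
      exact hE p hp ((hAdef p).2 ⟨h1, hc⟩) hpE
  have hnum : ∀ f ∈ gset P' L, ∀ p ∈ B, ¬ p ∣ f.1.num.natAbs := by
    intro f hf p hpB hdiv
    have hpp := hBp p hpB
    obtain ⟨hpd, hnc⟩ := (hBdef p).1 hpB
    obtain ⟨_, f', hf', hd'⟩ := (hmem p).1 hpd
    obtain ⟨A1, hA1, hd1, rfl⟩ := mem_gset.1 hf
    obtain ⟨A2, hA2, hd2, rfl⟩ := mem_gset.1 hf'
    obtain ⟨M, hM, N, hN, hMd, hNd, e, h2⟩ := hp p hpp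
      ⟨toM A2, ⟨A2, hA2, rfl⟩, by rw [det_toM]; exact hd2, by
        rw [(hmu (toM A2)).1, ofM_toM]
        exact (den_iff hpp (hne A2 hA2 hd2)).1 hd'⟩
      ⟨toM A1, ⟨A1, hA1, rfl⟩, by rw [det_toM]; exact hd1, by
        rw [(hmu (toM A1)).1, ofM_toM]
        exact (num_iff hpp (hne A1 hA1 hd1)).1 hdiv⟩
    apply hnc
    have hsM := (sg_of_mem hP' hL hM hMd).2
    have hsN := (sg_of_mem hP' hL hN hNd).2
    rw [(hmu M).1, (hmu N).1] at e
    rw [(hmu M).1] at h2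
    exact ⟨_, _, hsM, hsN, e, (den_iff hpp (hsM.ne hm)).2 h2⟩
  have hT' : ∃ a b, TT (gset P' L) a ∧ TT (gset P' L) b ∧ 0 < a ∧ b < 0 := by
    obtain ⟨M, hM, N, hN, hMd, hNd, e1, e2, e3⟩ := hT
    have hsM := (sg_of_mem hP' hL hM hMd).2
    have hsN := (sg_of_mem hP' hL hN hNd).2
    rw [(hmu M).1] at e1
    rw [(hmu N).1] at e2
    rw [(hmu M).2, (hmu N).2] at e3
    have t1 : TT (gset P' L) (af P' (ofM M)).2 := by
      rw [TT, ← e1]; exact hsM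
    have t2 : TT (gset P' L) (af P' (ofM N)).2 := by
      rw [TT, ← e2]; exact hsN
    rcases mul_neg_iff.1 e3 with ⟨h1, h2⟩ | ⟨h1, h2⟩
    · exact ⟨_, _, t1, t2, h1, h2⟩
    · exact ⟨_, _, t2, t1, h2, h1⟩
  obtain ⟨a, b, ha, hb, hap, hbn⟩ := hT'
  have hU := two_sided' (A := A) ha hb hap hbn (fun p hp => ((hAdef p).1 hp).2) hAp
  refine pair_gen hP' hL (fun u w hu hw => ?_) u w
  by_cases hr : Rch (gset P' L) (xc P' u) (- (w2 P' w : ℚ) / w1 P' w)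
  · exact Or.inl hr
  · right
    exact chk3_of_cert3q hP' hL hu hw (cert3_exists hAp hBp hAB hden hm hnum hap.ne' hU hr)

end Pool.Agent.Helper425_zc
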