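import Mathlib

set_option autoImplicit false

namespace Pool.Agent.Helper425_zc

open Matrix ModularGroup MatrixGroups

/-! A presentation of `SL(2, ℤ)`. -/

theorem mulE (A : Matrix (Fin 2) (Fin 2) ℤ) (h g : SL(2, ℤ)) (hA : h.1 = A) :
    (h * g).1 0 0 = A 0 0 * g.1 0 0 + A 0 1 * g.1 1 0 ∧
    (h * g).1 0 1 = A 0 0 * g.1 0 1 + A 0 1 * g.1 1 1 ∧
    (h * g).1 1 0 = A 1 0 * g.1 0 0 + A 1 1 * g.1 1 0 ∧
    (h * g).1 1 1 = A 1 0 * g.1 0 1 + A 1 1 * g.1 1 1 := by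
  have e : (h * g).1 = A * g.1 := by rw [← hA]; rfl
  rw [e]
  refine ⟨?_, ?_, ?_, ?_⟩ <;> simp only [Matrix.mul_apply, Fin.sum_univ_two]

theorem Tz_entries (n : ℤ) (g : SL(2, ℤ)) :
    (T ^ n * g).1 0 0 = g.1 0 0 + n * g.1 1 0 ∧ (T ^ n * g).1 0 1 = g.1 0 1 + n * g.1 1 1 ∧
    (T ^ n * g).1 1 0 = g.1 1 0 ∧ (T ^ n * g).1 1 1 = g.1 1 1 := by
  obtain ⟨h1, h2, h3, h4⟩ := mulE _ (T ^ n) g (coe_T_zpow n)
  refine ⟨h1.trans ?_, h2.trans ?_, h3.trans ?_, h4.trans ?_⟩ <;> simp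

theorem S_entries (g : SL(2, ℤ)) :
    (S * g).1 0 0 = - g.1 1 0 ∧ (S * g).1 0 1 = - g.1 1 1 ∧
    (S * g).1 1 0 = g.1 0 0 ∧ (S * g).1 1 1 = g.1 0 1 := by
  obtain ⟨h1, h2, h3, h4⟩ := mulE _ S g coe_S
  refine ⟨h1.trans ?_, h2.trans ?_, h3.trans ?_, h4.trans ?_⟩ <;> simp

theorem Si_entries (g : SL(2, ℤ)) :
    (S⁻¹ * g).1 0 0 = g.1 1 0 ∧ (S⁻¹ * g).1 0 1 = g.1 1 1 ∧
    (S⁻¹ * g).1 1 0 = - g.1 0 0 ∧ (S⁻¹ * g).1 1 1 = - g.1 0 1 := by
  have h := S_entries (S⁻¹ * g)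
  rw [mul_inv_cancel_left] at h
  obtain ⟨h1, h2, h3, h4⟩ := h
  refine ⟨h3.symm, h4.symm, ?_, ?_⟩
  · rw [h1]; ring
  · rw [h2]; ring

theorem neg_entries (g : SL(2, ℤ)) (i j : Fin 2) : (-g).1 i j = - g.1 i j := by
  rfl

theorem det_entries (g : SL(2, ℤ)) : g.1 0 0 * g.1 1 1 - g.1 0 1 * g.1 1 0 = 1 := by
  have := g.2
  rwa [det_fin_two] at this

theorem sl_ext {g h : SL(2, ℤ)} (h1 : g.1 0 0 = h.1 0 0) (h2 : g.1 0 1 = h.1 0 1)
    (h3 : g.1 1 0 = h.1 1 0) (h4 : g.1 1 1 = h.1 1 1) : g = h := by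
  apply Subtype.ext
  ext i j
  fin_cases i <;> fin_cases j
  · exact h1
  · exact h2
  · exact h3
  · exact h4

theorem Si_eq (g : SL(2, ℤ)) : S⁻¹ * g = - (S * g) := by
  have h1 := Si_entries g
  have h2 := S_entries g
  apply sl_ext
  · rw [neg_entries, h1.1, h2.1]; ring
  · rw [neg_entries, h1.2.1, h2.2.1]; ring
  · rw [neg_entries, h1.2.2.1, h2.2.2.1]
  · rw [neg_entries, h1.2.2.2, h2.2.2.2]

/-- one step of the reduction -/
def stp (g : SL(2, ℤ)) : SL(2, ℤ) := S⁻¹ * (T ^ (-(Int.fdiv (g.1 0 0) (g.1 1 0))) * g)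

theorem stp_entries (g : SL(2, ℤ)) : (stp g).1 1 0 = - Int.fmod (g.1 0 0) (g.1 1 0) := by
  unfold stp
  rw [(Si_entries _).2.2.1, (Tz_entries _ _).1]
  have := Int.mul_fdiv_add_fmod (g.1 0 0) (g.1 1 0)
  linarith

theorem fmod_neg_neg (a c : ℤ) : Int.fmod (-a) (-c) = - Int.fmod a c := by
  simp [Int.neg_fmod_neg]

theorem fdiv_neg_neg (a c : ℤ) : Int.fdiv (-a) (-c) = Int.fdiv a c := by
  simp

theorem fmod_natAbs_lt (a c : ℤ) (hc : c ≠ 0) : (Int.fmod a c).natAbs < c.natAbs := by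
  rcases lt_or_gt_of_ne hc with h | h
  · have h2 := Int.fmod_lt_of_pos (-a) (b := -c) (by omega)
    have h3 := Int.fmod_nonneg_of_pos (-a) (b := -c) (by omega)
    rw [fmod_neg_neg] at h2 h3
    omega
  · have h1 := Int.fmod_lt_of_pos a h
    have h2 := Int.fmod_nonneg_of_pos a h
    omega

theorem stp_lt {g : SL(2, ℤ)} (h : g.1 1 0 ≠ 0) : ((stp g).1 1 0).natAbs < (g.1 1 0).natAbs := by
  rw [stp_entries, Int.natAbs_neg]
  exact fmod_natAbs_lt _ _ h

theorem stp_T (n : ℤ) {g : SL(2, ℤ)} (h : g.1 1 0 ≠ 0) : stp (T ^ n * g) = stp g := by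
  unfold stp
  rw [(Tz_entries n g).1, (Tz_entries n g).2.2.1, Int.add_mul_fdiv_right _ _ h]
  rw [← mul_assoc (T ^ _) (T ^ n) g, ← _root_.zpow_add]
  congr 3
  ring

theorem stp_neg (g : SL(2, ℤ)) : stp (-g) = - stp g := by
  unfold stp
  rw [neg_entries, neg_entries, fdiv_neg_neg, mul_neg, mul_neg]

section

variable {H : Type} [Group H] (s t : H)

/-- value of the canonical word -/
noncomputable def phi (g : SL(2, ℤ)) : H :=
  if h : g.1 1 0 = 0 then (if g.1 0 0 = 1 then t ^ (g.1 0 1) else s ^ 2 * t ^ (-(g.1 0 1)))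
  else t ^ (Int.fdiv (g.1 0 0) (g.1 1 0)) * (s * phi (stp g))
  termination_by (g.1 1 0).natAbs
  decreasing_by exact stp_lt h

theorem phi_zero {g : SL(2, ℤ)} (h : g.1 1 0 = 0) :
    phi s t g = if g.1 0 0 = 1 then t ^ (g.1 0 1) else s ^ 2 * t ^ (-(g.1 0 1)) := by
  rw [phi, dif_pos h]

theorem phi_ne {g : SL(2, ℤ)} (h : g.1 1 0 ≠ 0) :
    phi s t g = t ^ (Int.fdiv (g.1 0 0) (g.1 1 0)) * (s * phi s t (stp g)) := by
  rw [phi, dif_neg h]

theorem diag_cases {g : SL(2, ℤ)} (h : g.1 1 0 = 0) :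
    (g.1 0 0 = 1 ∧ g.1 1 1 = 1) ∨ (g.1 0 0 = -1 ∧ g.1 1 1 = -1) := by
  have := det_entries g
  rw [h, mul_zero, sub_zero] at this
  exact Int.mul_eq_one_iff_eq_one_or_neg_one.mp this

variable {s t}

theorem s_comm (hst : (s * t) ^ 3 = s ^ 2) : Commute (s ^ 2) t := by
  have h1 : Commute (s ^ 2) (s * t) := by
    rw [← hst]; exact (Commute.refl (s * t)).pow_left 3
  have h2 : Commute (s ^ 2) s := (Commute.refl s).pow_left 2
  have h3 : t = s⁻¹ * (s * t) := by group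
  rw [h3]
  exact (h2.inv_right).mul_right h1

theorem phi_T (hst : (s * t) ^ 3 = s ^ 2) (n : ℤ) (g : SL(2, ℤ)) :
    phi s t (T ^ n * g) = t ^ n * phi s t g := by
  obtain ⟨e1, e2, e3, e4⟩ := Tz_entries n g
  by_cases h : g.1 1 0 = 0
  · rw [phi_zero s t h, phi_zero s t (g := T ^ n * g) (by rw [e3, h])]
    rw [e1, e2, h, mul_zero, add_zero]
    rcases diag_cases h with ⟨h1, h2⟩ | ⟨h1, h2⟩
    · rw [if_pos h1, if_pos h1, h2, mul_one, ← _root_.zpow_add, add_comm]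
    · have h3 : g.1 0 0 ≠ 1 := by rw [h1]; norm_num
      rw [if_neg h3, if_neg h3, h2, ← mul_assoc, ((s_comm hst).zpow_right n).symm.eq, mul_assoc,
        ← _root_.zpow_add]
      congr 2
      ring
  · rw [phi_ne s t h, phi_ne s t (g := T ^ n * g) (by rw [e3]; exact h), stp_T n h]
    rw [e1, e3, Int.add_mul_fdiv_right _ _ h, ← mul_assoc (t ^ n), ← _root_.zpow_add, add_comm]

theorem phi_neg (hs : s ^ 4 = 1) (hst : (s * t) ^ 3 = s ^ 2) (g : SL(2, ℤ)) :
    phi s t (-g) = s ^ 2 * phi s t g := by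
  induction hn : (g.1 1 0).natAbs using Nat.strong_induction_on generalizing g with
  | _ n ih =>
    by_cases h : g.1 1 0 = 0
    · rw [phi_zero s t h, phi_zero s t (g := -g) (by rw [neg_entries, h, neg_zero])]
      rw [neg_entries, neg_entries]
      rcases diag_cases h with ⟨h1, h2⟩ | ⟨h1, h2⟩
      · rw [if_neg (by rw [h1]; norm_num), if_pos h1, neg_neg]
      · rw [if_pos (by rw [h1]; norm_num), if_neg (by rw [h1]; norm_num), ← mul_assoc,
          ← pow_add, hs, one_mul]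
    · rw [phi_ne s t h, phi_ne s t (g := -g) (by rw [neg_entries]; exact neg_ne_zero.2 h)]
      rw [stp_neg, ih _ (hn ▸ stp_lt h) _ rfl, neg_entries, neg_entries, fdiv_neg_neg]
      have h1 := ((s_comm hst).zpow_right (Int.fdiv (g.1 0 0) (g.1 1 0))).eq
      have h2 : s * s ^ 2 = s ^ 2 * s := by group
      rw [← mul_assoc s, h2, mul_assoc (s ^ 2), ← mul_assoc (t ^ _), ← h1, mul_assoc (s ^ 2)]

theorem phi_S_small (hs : s ^ 4 = 1) (hst : (s * t) ^ 3 = s ^ 2) {g : SL(2, ℤ)}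
    (h : g.1 1 0 ≠ 0) (hq : Int.fdiv (g.1 0 0) (g.1 1 0) = 0) :
    phi s t (S * g) = s * phi s t g := by
  rw [phi_ne s t h, hq, zpow_zero, one_mul]
  have e : stp g = - (S * g) := by
    unfold stp
    rw [hq, neg_zero, zpow_zero, one_mul, Si_eq]
  rw [e, phi_neg hs hst, ← mul_assoc, ← mul_assoc]
  have : s * s * s ^ 2 = 1 := by rw [← hs]; group
  rw [this, one_mul]

theorem fdiv_le_iff {a c : ℤ} (hc : 0 < c) {k : ℤ} : Int.fdiv a c = k ↔ k * c ≤ a ∧ a < (k + 1) * c := by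
  have h1 := Int.mul_fdiv_add_fmod a c
  have h2 := Int.fmod_lt_of_pos a hc
  have h3 := Int.fmod_nonneg_of_pos a hc
  constructor
  · rintro rfl
    constructor <;> nlinarith
  · rintro ⟨h4, h5⟩
    have h6 : c * k < c * (Int.fdiv a c + 1) := by nlinarith
    have h7 : c * Int.fdiv a c < c * (k + 1) := by nlinarith
    have h8 := lt_of_mul_lt_mul_left h6 hc.le
    have h9 := lt_of_mul_lt_mul_left h7 hc.le
    omega

theorem fdiv_sub {a c : ℤ} (hc : c ≠ 0) : Int.fdiv (a + (-1) * c) c = Int.fdiv a c - 1 := by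
  rw [Int.add_mul_fdiv_right _ _ hc]; ring

/-- sign behaviour of the quotients of `-c` by `a` -/
theorem fdiv_flip {a c : ℤ} (hc : c ≠ 0) (h : 1 ≤ Int.fdiv a c) :
    a ≠ 0 ∧ Int.fdiv (-c) a = -1 := by
  rcases lt_or_gt_of_ne hc with hc | hc
  · have e := fdiv_neg_neg a c
    obtain ⟨h1, h2⟩ := (fdiv_le_iff (a := -a) (c := -c) (by omega)).1 rfl
    rw [e] at h1
    have h3 : -c ≤ -a := by nlinarith
    refine ⟨by omega, ?_⟩
    have h4 : Int.fdiv (-c) a = Int.fdiv c (-a) := by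
      have := fdiv_neg_neg c (-a)
      rw [neg_neg] at this
      exact this
    rw [h4, fdiv_le_iff (by omega)]
    constructor <;> linarith
  · obtain ⟨h1, h2⟩ := (fdiv_le_iff (a := a) (c := c) hc).1 rfl
    have h3 : c ≤ a := by nlinarith
    refine ⟨by omega, ?_⟩
    rw [fdiv_le_iff (by omega)]
    constructor <;> linarith

theorem fdiv_flip_neg {a c : ℤ} (hc : c ≠ 0) (h : Int.fdiv a c < 0) :
    a ≠ 0 ∧ 0 ≤ Int.fdiv (-c) a := by
  rcases lt_or_gt_of_ne hc with hc | hc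
  · have e := fdiv_neg_neg a c
    obtain ⟨h1, h2⟩ := (fdiv_le_iff (a := -a) (c := -c) (by omega)).1 rfl
    rw [e] at h2
    have h3 : -a < 0 := by nlinarith
    refine ⟨by omega, ?_⟩
    exact Int.fdiv_nonneg (by omega) (by omega)
  · obtain ⟨h1, h2⟩ := (fdiv_le_iff (a := a) (c := c) hc).1 rfl
    have h3 : a < 0 := by nlinarith
    refine ⟨by omega, ?_⟩
    have h4 : Int.fdiv (-c) a = Int.fdiv c (-a) := by
      have := fdiv_neg_neg c (-a)
      rw [neg_neg] at this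
      exact this
    rw [h4]
    exact Int.fdiv_nonneg (by omega) (by omega)

theorem braid_word (g : SL(2, ℤ)) : S⁻¹ * (T ^ (1 : ℤ) * (S * g)) =
    T ^ (-1 : ℤ) * (S⁻¹ * (T ^ (-1 : ℤ) * g)) := by
  obtain ⟨a1, a2, a3, a4⟩ := Si_entries (T ^ (1 : ℤ) * (S * g))
  obtain ⟨b1, b2, b3, b4⟩ := Tz_entries 1 (S * g)
  obtain ⟨c1, c2, c3, c4⟩ := S_entries g
  obtain ⟨d1, d2, d3, d4⟩ := Tz_entries (-1) (S⁻¹ * (T ^ (-1 : ℤ) * g))
  obtain ⟨e1, e2, e3, e4⟩ := Si_entries (T ^ (-1 : ℤ) * g)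
  obtain ⟨f1, f2, f3, f4⟩ := Tz_entries (-1) g
  apply sl_ext
  · rw [a1, b3, c3, d1, e1, e3, f1, f3]; ring
  · rw [a2, b4, c4, d2, e2, e4, f2, f4]; ring
  · rw [a3, b1, c1, c3, d3, e3, f1]; ring
  · rw [a4, b2, c2, c4, d4, e4, f2]; ring

theorem phi_S_nonneg (hs : s ^ 4 = 1) (hst : (s * t) ^ 3 = s ^ 2) (k : ℕ) : ∀ {g : SL(2, ℤ)}
    (_ : g.1 1 0 ≠ 0) (_ : Int.fdiv (g.1 0 0) (g.1 1 0) = k),
    phi s t (S * g) = s * phi s t g := by
  induction k with
  | zero => intro g h hq; exact phi_S_small hs hst h hq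
  | succ k ih =>
    intro g h hq
    -- h1 = T⁻¹ g
    have hh : phi s t (S * (T ^ (-1 : ℤ) * g)) = s * phi s t (T ^ (-1 : ℤ) * g) := by
      apply ih
      · rw [(Tz_entries _ _).2.2.1]; exact h
      · rw [(Tz_entries _ _).1, (Tz_entries _ _).2.2.1, fdiv_sub h, hq]
        push_cast; ring
    rw [phi_T hst] at hh
    obtain ⟨ha, hq2⟩ := fdiv_flip h (by rw [hq]; push_cast; omega)
    have e1 : (S * g).1 1 0 ≠ 0 := by rw [(S_entries g).2.2.1]; exact ha
    rw [phi_ne s t e1, (S_entries g).1, (S_entries g).2.2.1, hq2]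
    have e2 : stp (S * g) = T ^ (-1 : ℤ) * (- (S * (T ^ (-1 : ℤ) * g))) := by
      unfold stp
      rw [(S_entries g).1, (S_entries g).2.2.1, hq2, neg_neg, braid_word, Si_eq]
    rw [e2, phi_T hst, phi_neg hs hst, hh]
    -- algebra in the group
    have e3 : s * t * s * t * s * t = s ^ 2 := by
      rw [← hst]; simp only [pow_succ, pow_zero, one_mul, mul_assoc]
    have e4 : t * s * t * s * t = s := by
      have : s * (t * s * t * s * t) = s * s := by
        rw [← sq, ← e3]; simp only [mul_assoc]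
      exact mul_left_cancel this
    have e5 : s ^ 2 * s = s⁻¹ := by
      rw [← pow_succ]
      apply eq_inv_of_mul_eq_one_left
      rw [← pow_succ, hs]
    simp only [_root_.zpow_neg, zpow_one]
    have e6 : t⁻¹ * (s * (t⁻¹ * (s ^ 2 * (s * (t⁻¹ * phi s t g))))) =
        t⁻¹ * s * t⁻¹ * (s ^ 2 * s) * t⁻¹ * phi s t g := by simp only [mul_assoc]
    rw [e6, e5]
    have e7 : t⁻¹ * s * t⁻¹ * s⁻¹ * t⁻¹ = s := by
      have h1 : s * t⁻¹ * s⁻¹ = t * s * t := by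
        have : s = t * s * t * (s * t) := by
          conv_lhs => rw [← e4]
          simp only [mul_assoc]
        calc s * t⁻¹ * s⁻¹ = (t * s * t * (s * t)) * t⁻¹ * s⁻¹ := by rw [← this]
          _ = t * s * t := by group
      calc t⁻¹ * s * t⁻¹ * s⁻¹ * t⁻¹ = t⁻¹ * (s * t⁻¹ * s⁻¹) * t⁻¹ := by simp only [mul_assoc]
        _ = t⁻¹ * (t * s * t) * t⁻¹ := by rw [h1]
        _ = s := by group
    rw [e7]

theorem phi_S (hs : s ^ 4 = 1) (hst : (s * t) ^ 3 = s ^ 2) (g : SL(2, ℤ)) :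
    phi s t (S * g) = s * phi s t g := by
  by_cases h : g.1 1 0 = 0
  · have e1 : (S * g).1 1 0 ≠ 0 := by
      rw [(S_entries g).2.2.1]
      rcases diag_cases h with ⟨h1, _⟩ | ⟨h1, _⟩ <;> rw [h1] <;> norm_num
    have hq : Int.fdiv ((S * g).1 0 0) ((S * g).1 1 0) = 0 := by
      rw [(S_entries g).1, h, neg_zero, Int.zero_fdiv]
    rw [phi_ne s t e1, hq, zpow_zero, one_mul]
    congr 2
    unfold stp
    rw [hq, neg_zero, zpow_zero, one_mul, inv_mul_cancel_left]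
  · by_cases hq : 0 ≤ Int.fdiv (g.1 0 0) (g.1 1 0)
    · obtain ⟨k, hk⟩ := Int.eq_ofNat_of_zero_le hq
      exact phi_S_nonneg hs hst k h hk
    · push Not at hq
      obtain ⟨ha, hq2⟩ := fdiv_flip_neg h hq
      obtain ⟨k, hk⟩ := Int.eq_ofNat_of_zero_le hq2
      have e1 := phi_S_nonneg hs hst k (g := S * g) (by rw [(S_entries g).2.2.1]; exact ha)
        (by rw [(S_entries g).1, (S_entries g).2.2.1]; exact hk)
      have e2 : S * (S * g) = - g := by
        have := Si_eq (S * g)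
        rw [inv_mul_cancel_left] at this
        conv_rhs => rw [this]
        rw [neg_neg]
      rw [e2, phi_neg hs hst] at e1
      have e3 : s * (s * phi s t g) = s * phi s t (S * g) := by
        rw [← e1, ← mul_assoc, ← sq]
      exact (mul_left_cancel e3).symm

theorem phi_one : phi s t (1 : SL(2, ℤ)) = 1 := by
  rw [phi_zero s t (g := 1) (by simp)]
  simp

theorem phi_mul (hs : s ^ 4 = 1) (hst : (s * t) ^ 3 = s ^ 2) (g : SL(2, ℤ)) :
    ∀ h : SL(2, ℤ), phi s t (g * h) = phi s t g * phi s t h := by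
  have hg : g ∈ Subgroup.closure ({S, T} : Set SL(2, ℤ)) := by
    rw [SpecialLinearGroup.SL2Z_generators]; trivial
  induction hg using Subgroup.closure_induction with
  | mem x hx =>
    intro h
    rcases hx with rfl | rfl
    · rw [phi_S hs hst]
      have := phi_S hs hst (1 : SL(2, ℤ))
      rw [mul_one, phi_one, mul_one] at this
      rw [this]
    · have := phi_T hst 1 h
      rw [zpow_one, zpow_one] at this
      rw [this]
      have := phi_T hst 1 (1 : SL(2, ℤ))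
      rw [zpow_one, zpow_one, mul_one, phi_one, mul_one] at this
      rw [this]
  | one => intro h; rw [one_mul, phi_one, one_mul]
  | mul x y _ _ hx hy => intro h; rw [mul_assoc, hx, hy, hx, mul_assoc]
  | inv x _ hx =>
    intro h
    have e1 : phi s t x⁻¹ = (phi s t x)⁻¹ := by
      apply eq_inv_of_mul_eq_one_right
      rw [← hx, mul_inv_cancel, phi_one]
    rw [e1, eq_inv_mul_iff_mul_eq, ← hx, mul_inv_cancel_left]

/-- `SL(2, ℤ)` is presented by `s ^ 4 = 1` and `(s t) ^ 3 = s ^ 2`. -/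
theorem sl2_hom (s t : H) (hs : s ^ 4 = 1) (hst : (s * t) ^ 3 = s ^ 2) :
    ∃ φ : SL(2, ℤ) →* H, φ S = s ∧ φ T = t := by
  refine ⟨⟨⟨phi s t, phi_one⟩, fun g h => phi_mul hs hst g h⟩, ?_, ?_⟩
  · show phi s t S = s
    have := phi_S hs hst (1 : SL(2, ℤ))
    rwa [mul_one, phi_one, mul_one] at this
  · show phi s t T = t
    have := phi_T hst 1 (1 : SL(2, ℤ))
    rwa [zpow_one, zpow_one, mul_one, phi_one, mul_one] at this

end

end Pool.Agent.Helper425_zc

namespace Pool.Agent.Helper425_zc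

open Matrix ModularGroup MatrixGroups

theorem neg_one_eq : S * S = (-1 : SL(2, ℤ)) := by
  have := Si_eq S
  rw [inv_mul_cancel] at this
  rw [this, neg_neg]

theorem S_inv : (S⁻¹ : SL(2, ℤ)) = S * S * S := by
  apply inv_eq_of_mul_eq_one_right
  have : S * (S * S * S) = (S * S) * (S * S) := by simp only [mul_assoc]
  rw [this, neg_one_eq]
  simp

theorem T_inv : (T⁻¹ : SL(2, ℤ)) = S * S * S * T * S * T * S := by
  have := T_S_rel.symm
  simp only [smul_eq_mul] at this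
  rw [this]
  simp only [mul_assoc]

theorem sl2_induction {P : SL(2, ℤ) → Prop} (h1 : P 1) (hS : ∀ g, P g → P (g * S))
    (hT : ∀ g, P g → P (g * T)) (g : SL(2, ℤ)) : P g := by
  have hg : g ∈ Subgroup.closure ({S, T} : Set SL(2, ℤ)) := by
    rw [SpecialLinearGroup.SL2Z_generators]; trivial
  induction hg using Subgroup.closure_induction_right with
  | one => exact h1
  | mul_right x _ y hy hx =>
    rcases hy with rfl | rfl
    · exact hS _ hx
    · exact hT _ hx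
  | mul_inv_cancel x _ y hy hx =>
    rcases hy with rfl | rfl
    · rw [S_inv]
      simp only [← mul_assoc]
      exact hS _ (hS _ (hS _ hx))
    · rw [T_inv]
      simp only [← mul_assoc]
      exact hS _ (hT _ (hS _ (hT _ (hS _ (hS _ (hS _ hx))))))

end Pool.Agent.Helper425_zc
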